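import Pool.Agent.H313.GE.Prd

/-!
The eigenvalues which are roots of unity times any power of `q`.
-/

set_option autoImplicit false
set_option linter.all false
set_option maxHeartbeats 4000000

open Module NumberField Polynomial

namespace Pool.Agent.H313.GE

open Pool.Agent.H313.CC

section count

variable {K : Type} [Field K] [NumberField K] [IsGalois ℚ K]

theorem exists_unit {q N c : ℕ} (hq0 : q ≠ 0) (hN : 0 < N) {x : 𝓞 K}
    (h : x ^ N = ((q : 𝓞 K) ^ c) ^ N) : ∃ ω : 𝓞 K, x = (q : 𝓞 K) ^ c * ω ∧ ω ^ N = 1 := by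
  have hq : (q : K) ≠ 0 := by exact_mod_cast hq0
  have hx : (x : K) ^ N = ((q : K) ^ c) ^ N := by
    have := congrArg (algebraMap (𝓞 K) K) h
    simpa using this
  have hw : ((x : K) / (q : K) ^ c) ^ N = 1 := by
    rw [div_pow, hx, div_self (pow_ne_zero _ (pow_ne_zero _ hq))]
  have hint : IsIntegral ℤ ((x : K) / (q : K) ^ c) := by
    apply IsIntegral.of_pow hN
    rw [hw]
    exact isIntegral_one
  obtain ⟨ω, hω⟩ := (IsIntegralClosure.isIntegral_iff (R := ℤ) (A := 𝓞 K) (B := K)).1 hint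
  have hinj : Function.Injective (algebraMap (𝓞 K) K) := RingOfIntegers.coe_injective
  refine ⟨ω, ?_, ?_⟩
  · apply hinj
    rw [map_mul, map_pow, map_natCast, hω]
    rw [mul_div_cancel₀]
    exact pow_ne_zero _ hq
  · apply hinj
    rw [map_pow, map_one, hω]
    exact hw

/-- **The number of the eigenvalues which are roots of unity times any power of `q`.** -/
theorem any_count {ℓ : ℕ} [hℓ : Fact ℓ.Prime] {J : Type} [Fintype J]
    (x : J → 𝓞 K) (H : (ZMod ℓ)[X])
    (hmod : ∀ (R : Type) [Field R] [CharP R ℓ] (ρ : 𝓞 K →+* R),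
      (∏ i, (1 - C (x i) * X : (𝓞 K)[X])).map ρ = H.map (ZMod.castHom (dvd_refl ℓ) R))
    {τ : Multiset ℕ} (hτ : ∀ n ∈ τ, 0 < n) {H' : (ZMod ℓ)[X]}
    (hWτ : H = (τ.map fun n => cyclotomic n (ZMod ℓ)).prod * H')
    (hH' : ∀ m : ℕ, 0 < m → ¬ ℓ ∣ m → ¬ cyclotomic m (ZMod ℓ) ∣ H')
    {q : ℕ} (hq0 : q ≠ 0) (hq : (q : ZMod ℓ) = 1) (S : Finset J)
    (hS : ∀ i ∈ S, ∃ N : ℕ, 0 < N ∧ ∃ c : ℕ, x i ^ N = ((q : 𝓞 K) ^ c) ^ N) :
    S.card ≤ (τ.map Nat.totient).sum := by
  classical
  have hω : ∀ i : J, ∃ y : 𝓞 K, (i ∈ S → ∃ N : ℕ, 0 < N ∧ y ^ N = 1) ∧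
      ∀ (R : Type) [Field R] [CharP R ℓ] (ρ : 𝓞 K →+* R), ρ y = ρ (x i) := by
    intro i
    by_cases hi : i ∈ S
    · obtain ⟨N, hN, c, h⟩ := hS i hi
      obtain ⟨ω, h1, h2⟩ := exists_unit hq0 hN h
      refine ⟨ω, fun _ => ⟨N, hN, h2⟩, ?_⟩
      intro R _ _ ρ
      rw [h1, map_mul, map_pow, map_natCast]
      have h3 : (q : R) = 1 := by
        have h4 := congrArg (ZMod.castHom (dvd_refl ℓ) R) hq
        rwa [map_natCast, map_one] at h4
      rw [h3, one_pow, one_mul]
    · exact ⟨x i, fun h => absurd h hi, fun R _ _ ρ => rfl⟩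
  choose y hy1 hy2 using hω
  set V : (𝓞 K)[X] := ∏ i, (1 - C (y i) * X) with hVd
  have hV0 : V.coeff 0 = 1 := by
    rw [hVd, coeff_zero_prod]
    refine Finset.prod_eq_one fun i _ => ?_
    simp
  obtain ⟨M', hM', hm⟩ := Pool.Agent.TH639.SC.exists_red (𝓞 K) hℓ.out
  letI : Field (𝓞 K ⧸ M') := Ideal.Quotient.field M'
  have h0 : ((ℓ : ℕ) : 𝓞 K ⧸ M') = 0 := by
    have := Ideal.Quotient.eq_zero_iff_mem.2 hm
    rwa [map_natCast] at this
  have hch := Pool.Agent.TH639.SC.charP_of_mem (R := 𝓞 K ⧸ M') hℓ.out h0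
  obtain ⟨W₁, hW₁⟩ := Polynomial.map_surjective (Int.castRingHom (ZMod ℓ))
    (ZMod.ringHom_surjective _) H
  have hmodV : ∀ (R : Type) [Field R] [CharP R ℓ] (ρ : 𝓞 K →+* R),
      V.map ρ * (1 : ℤ[X]).map (Int.castRingHom R) = W₁.map (Int.castRingHom R) := by
    intro R _ _ ρ
    have h1 : V.map ρ = (∏ i, (1 - C (x i) * X : (𝓞 K)[X])).map ρ := by
      rw [hVd, Polynomial.map_prod, Polynomial.map_prod]
      refine Finset.prod_congr rfl fun i _ => ?_
      rw [Polynomial.map_sub, Polynomial.map_sub, Polynomial.map_mul, Polynomial.map_mul,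
        Polynomial.map_C, Polynomial.map_C, hy2 i R ρ]
    rw [h1, hmod R ρ, Polynomial.map_one, mul_one, ← hW₁, Polynomial.map_map]
    congr 1
    exact Subsingleton.elim _ _
  have hcount := count_le (ℓ := ℓ) V hV0 (W₂ := 1) (by rw [coeff_one_zero])
    hmodV (Ideal.Quotient.mk M') (Q := 1) one_ne_zero Nat.cast_one hτ (H := H')
    (by rw [hW₁, Polynomial.map_one, one_mul]; exact hWτ) hH' (AlgebraicClosure K)
  refine le_trans ?_ hcount
  set φ : 𝓞 K →+* AlgebraicClosure K :=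
    (algebraMap K (AlgebraicClosure K)).comp (algebraMap (𝓞 K) K) with hφ
  have hV : (V.map (algebraMap (𝓞 K) K)).map (algebraMap K (AlgebraicClosure K)) =
      ∏ i, (1 - C (φ (y i)) * X) := by
    rw [Polynomial.map_map]
    show V.map φ = _
    rw [hVd, Polynomial.map_prod]
    refine Finset.prod_congr rfl fun i _ => ?_
    rw [Polynomial.map_sub, Polynomial.map_one, Polynomial.map_mul, Polynomial.map_C,
      Polynomial.map_X]
  have hne : ∀ a : AlgebraicClosure K, (1 - C a * X : (AlgebraicClosure K)[X]) ≠ 0 := by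
    intro a h1
    have h2 := congrArg (fun p => Polynomial.coeff p 0) h1
    simp at h2
  rw [hV, geoO_prod _ _ _ fun i _ => hne _]
  calc S.card = ∑ i ∈ S, 1 := by rw [Finset.sum_const, smul_eq_mul, mul_one]
    _ ≤ ∑ i ∈ S, geoO 1 (1 - C (φ (y i)) * X) := by
        refine Finset.sum_le_sum fun i hi => ?_
        obtain ⟨N, hN, hrel⟩ := hy1 i hi
        have h1 : φ (y i) ^ N = 1 := by rw [← map_pow, hrel, map_one]
        have h2 : φ (y i) ≠ 0 := by
          intro h3
          rw [h3, zero_pow hN.ne'] at h1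
          exact zero_ne_one h1
        unfold geoO
        rw [roots_lin h2]
        have h3 : (Multiset.filter (fun x => ∃ n : ℕ, 0 < n ∧
            (((1 : ℕ) : AlgebraicClosure K) * x) ^ n = 1) {(φ (y i))⁻¹}) = {(φ (y i))⁻¹} := by
          rw [Multiset.filter_eq_self]
          intro z hz
          rw [Multiset.mem_singleton.1 hz]
          refine ⟨N, hN, ?_⟩
          rw [Nat.cast_one, one_mul, inv_pow, h1, inv_one]
        rw [h3, Multiset.card_singleton]
    _ ≤ _ := Finset.sum_le_sum_of_subset (Finset.subset_univ S)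

end count

section avg

variable {k : Type} [Field k] [Finite k] {A : Type} [CommRing A]

/-- the average of the number of the indices, for any power of `q` -/
theorem avg_any {ι : Type} [Fintype ι] [DecidableEq ι] (ψ : ι → MulChar k A) {e : ℕ} (he : 0 < e)
    (hψ : ψ ^ e = 1) (k' : Type) [Field k'] [Finite k'] [Algebra k k'] [Fintype (ι → k'ˣ)]
    [IsDomain A] [CharZero A] {J : Type} [Fintype J] (y : J → A) {q : ℕ} (hq : 1 < q) {r : ℕ}
    (hr : 0 < r) (μ : ℕ)
    (hcount : ∀ S : Finset J, (∀ i ∈ S, ∃ N : ℕ, 0 < N ∧ ∃ c : ℕ, y i ^ N = ((q : A) ^ c) ^ N) →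
      S.card ≤ μ) :
    (∀ v : ι → k'ˣ, Nat.card {i : J // ∃ c : ℕ, y i ^ r * ∏ l, ψ l (Algebra.norm k (v l : k')) =
      ((q : A) ^ c) ^ r} ≤ μ) ∧
    (∑ v : ι → k'ˣ, Nat.card {i : J // ∃ c : ℕ, y i ^ r *
      ∏ l, ψ l (Algebra.norm k (v l : k')) = ((q : A) ^ c) ^ r}) *
      orderOf ψ ≤ (Nat.card k' - 1) ^ Fintype.card ι * μ := by
  classical
  have hq0 : (q : A) ≠ 0 := by
    have : q ≠ 0 := by omega
    exact_mod_cast this
  have hval : ∀ v : ι → k'ˣ, (∏ l, ψ l (Algebra.norm k (v l : k'))) ^ e = 1 := by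
    intro v
    rw [← Finset.prod_pow]
    refine Finset.prod_eq_one fun i _ => ?_
    have h2 : ψ i ^ e = 1 := by
      have h3 := congrFun hψ i
      rwa [Pi.pow_apply, Pi.one_apply] at h3
    rw [← MulChar.pow_apply' (ψ i) he.ne', h2]
    exact MulChar.one_apply ((v i).isUnit.map (Algebra.norm k (S := k')))
  have hcard : ∀ v : ι → k'ˣ,
      Nat.card {i : J // ∃ c : ℕ, y i ^ r * ∏ l, ψ l (Algebra.norm k (v l : k')) =
        ((q : A) ^ c) ^ r} =
      (Finset.univ.filter fun i : J => ∃ c : ℕ,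
        y i ^ r * ∏ l, ψ l (Algebra.norm k (v l : k')) = ((q : A) ^ c) ^ r).card := by
    intro v
    rw [Nat.card_eq_fintype_card, Fintype.card_subtype]
  have hrel : ∀ (v : ι → k'ˣ) (i : J) (c : ℕ), y i ^ r * ∏ l, ψ l (Algebra.norm k (v l : k')) =
      ((q : A) ^ c) ^ r → y i ^ (r * e) = ((q : A) ^ c) ^ (r * e) := by
    intro v i c h
    rw [pow_mul, pow_mul, ← h, mul_pow, hval v, mul_one]
  refine ⟨fun v => ?_, ?_⟩
  · rw [hcard v]
    refine hcount _ fun i hi => ?_
    obtain ⟨c, hc⟩ := (Finset.mem_filter.1 hi).2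
    exact ⟨r * e, Nat.mul_pos hr he, c, hrel v i c hc⟩
  · set S₀ : Finset J := Finset.univ.filter fun i => ∃ N : ℕ, 0 < N ∧ ∃ c : ℕ,
      y i ^ N = ((q : A) ^ c) ^ N with hS₀
    have hS₀c : S₀.card ≤ μ := hcount S₀ fun i hi => (Finset.mem_filter.1 hi).2
    have h1 : ∑ v : ι → k'ˣ,
        Nat.card {i : J // ∃ c : ℕ, y i ^ r * ∏ l, ψ l (Algebra.norm k (v l : k')) =
          ((q : A) ^ c) ^ r} =
        ∑ i ∈ S₀, (Finset.univ.filter fun v : ι → k'ˣ => ∃ c : ℕ,
          y i ^ r * ∏ l, ψ l (Algebra.norm k (v l : k')) = ((q : A) ^ c) ^ r).card := by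
      rw [Finset.sum_congr rfl fun v _ => hcard v]
      simp only [Finset.card_filter]
      rw [Finset.sum_comm]
      symm
      apply Finset.sum_subset (Finset.subset_univ S₀)
      intro i _ hi
      refine Finset.sum_eq_zero fun v _ => if_neg fun h => hi ?_
      obtain ⟨c, hc⟩ := h
      exact Finset.mem_filter.2 ⟨Finset.mem_univ _, r * e, Nat.mul_pos hr he, c, hrel v i c hc⟩
    rw [h1, Finset.sum_mul]
    calc ∑ i ∈ S₀, (Finset.univ.filter fun v : ι → k'ˣ => ∃ c : ℕ,
          y i ^ r * ∏ l, ψ l (Algebra.norm k (v l : k')) = ((q : A) ^ c) ^ r).card * orderOf ψ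
        ≤ ∑ i ∈ S₀, (Nat.card k' - 1) ^ Fintype.card ι := by
          refine Finset.sum_le_sum fun i _ => ?_
          apply fiber_I ψ k'
          intro u hu u' hu'
          rw [Finset.mem_filter] at hu hu'
          obtain ⟨-, c, hc⟩ := hu
          obtain ⟨-, c', hc'⟩ := hu'
          have h2 : ((q : A) ^ c) ^ (r * e) = ((q : A) ^ c') ^ (r * e) := by
            rw [← hrel u i c hc, hrel u' i c' hc']
          have h3 : c = c' := by
            have h4 : q ^ (c * (r * e)) = q ^ (c' * (r * e)) := by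
              have h5 : ((q ^ (c * (r * e)) : ℕ) : A) = ((q ^ (c' * (r * e)) : ℕ) : A) := by
                push_cast
                rw [← pow_mul, ← pow_mul] at h2
                exact h2
              exact_mod_cast h5
            have h5 := Nat.pow_right_injective (by omega : 2 ≤ q) h4
            exact Nat.eq_of_mul_eq_mul_right (Nat.mul_pos hr he) h5
          subst h3
          apply Units.ext
          rw [homI_coe, homI_coe]
          have hy : y i ≠ 0 := by
            intro h0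
            rw [h0, zero_pow hr.ne', zero_mul] at hc
            exact pow_ne_zero r (pow_ne_zero c hq0) hc.symm
          apply mul_left_cancel₀ (pow_ne_zero r hy)
          rw [hc, hc']
      _ = S₀.card * (Nat.card k' - 1) ^ Fintype.card ι := by rw [Finset.sum_const, smul_eq_mul]
      _ ≤ μ * (Nat.card k' - 1) ^ Fintype.card ι := Nat.mul_le_mul_right _ hS₀c
      _ = _ := mul_comm _ _

end avg

end Pool.Agent.H313.GE
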