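import Pool.Agent.H313.GE.Pts
import Pool.Agent.H313.CC.Avg

/-!
The average over the twists.
-/

set_option autoImplicit false
set_option linter.all false
set_option maxHeartbeats 4000000

open Module NumberField Polynomial

namespace Pool.Agent.H313.GE

open Pool.Agent.H313.CC Pool.Agent.W343.BSD
open Pool.Agent.TH639.CK (card_dvd fiber_le)

section avg

variable {k : Type} [Field k] [Finite k] {K : Type} [Field K] [NumberField K]
  {L : Type} [Field L] [CharZero L] [Algebra K L]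

open Classical in
/-- the sum over the twists for one character -/
theorem sum_exc [Fintype kˣ] {ψ : MulChar k (𝓞 K)} {e : ℕ} (he : 0 < e) (hψ : orderOf ψ = e)
    (V : (𝓞 K)[X]) (Q r : ℕ) (hr : 0 < r) :
    (∑ u : kˣ, Multiset.card ((((V.map (algebraMap (𝓞 K) K)).map (algebraMap K L))).roots.filter
      fun x => ((Q : L) * x) ^ r = algebraMap K L (algebraMap (𝓞 K) K (ψ (u : k))))) * e ≤
    (Nat.card k - 1) * geoO Q ((V.map (algebraMap (𝓞 K) K)).map (algebraMap K L)) := by
  set p : L[X] := (V.map (algebraMap (𝓞 K) K)).map (algebraMap K L) with hp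
  set φ : 𝓞 K →+* L := (algebraMap K L).comp (algebraMap (𝓞 K) K) with hφ
  have hφi : Function.Injective φ :=
    (algebraMap K L).injective.comp RingOfIntegers.coe_injective
  have hfib : ∀ z : L, (Finset.univ.filter fun u : kˣ => z = φ (ψ (u : k))).card * e ≤
      (Nat.card k - 1) := by
    intro z
    rw [← hψ]
    refine fiber_le ψ _ ?_
    intro u hu u' hu'
    rw [Finset.mem_filter] at hu hu'
    exact hφi (hu.2.symm.trans hu'.2)
  have hzero : ∀ x : L, (¬ ∃ n : ℕ, 0 < n ∧ ((Q : L) * x) ^ n = 1) →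
      (Finset.univ.filter fun u : kˣ => ((Q : L) * x) ^ r = φ (ψ (u : k))).card = 0 := by
    intro x hx
    rw [Finset.card_eq_zero, Finset.filter_eq_empty_iff]
    intro u _ h
    apply hx
    refine ⟨r * e, Nat.mul_pos hr he, ?_⟩
    rw [pow_mul, h, ← map_pow, ← MulChar.pow_apply' ψ he.ne', ← hψ, pow_orderOf_eq_one,
      MulChar.one_apply u.isUnit, map_one]
  unfold geoO
  have key : ∀ s : Multiset L,
      (∑ u : kˣ, Multiset.card (s.filter fun x => ((Q : L) * x) ^ r = φ (ψ (u : k)))) * e ≤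
      (Nat.card k - 1) * Multiset.card (s.filter fun x =>
        ∃ n : ℕ, 0 < n ∧ ((Q : L) * x) ^ n = 1) := by
    intro s
    induction s using Multiset.induction_on with
    | empty => simp
    | cons x s ih =>
      have h1 : ∀ u : kˣ, Multiset.card ((x ::ₘ s).filter
          fun x => ((Q : L) * x) ^ r = φ (ψ (u : k))) =
          (if ((Q : L) * x) ^ r = φ (ψ (u : k)) then 1 else 0) +
          Multiset.card (s.filter fun x => ((Q : L) * x) ^ r = φ (ψ (u : k))) := by
        intro u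
        rw [Multiset.filter_cons, Multiset.card_add]
        split_ifs <;> simp
      rw [Finset.sum_congr rfl fun u _ => h1 u, Finset.sum_add_distrib, ← Finset.card_filter,
        add_mul]
      by_cases hx : ∃ n : ℕ, 0 < n ∧ ((Q : L) * x) ^ n = 1
      · rw [Multiset.filter_cons_of_pos (p := fun x : L => ∃ n : ℕ, 0 < n ∧ ((Q : L) * x) ^ n = 1) s hx, Multiset.card_cons, mul_add, mul_one, add_comm]
        exact Nat.add_le_add ih (hfib _)
      · rw [Multiset.filter_cons_of_neg (p := fun x : L => ∃ n : ℕ, 0 < n ∧ ((Q : L) * x) ^ n = 1) s hx, hzero x hx, zero_mul, zero_add]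
        exact ih
  exact key _

end avg

section thm

open Pool.Agent.H313.GE.Pts

variable {k : Type} [Field k] [Finite k]

/-- sums over the fibres of the norm -/
theorem norm_sum (k' : Type) [Field k'] [Finite k'] [Algebra k k'] [Fintype kˣ] [Fintype k'ˣ]
    (f : kˣ → ℕ) :
    (∑ v : k'ˣ, f (Units.map (Algebra.norm k (S := k')) v)) * (Nat.card k - 1) =
      (∑ u : kˣ, f u) * (Nat.card k' - 1) := by
  classical
  have h1 : ∀ u : kˣ, (Finset.univ.filter fun v : k'ˣ =>
      Units.map (Algebra.norm k (S := k')) v = u).card * (Nat.card k - 1) = Nat.card k' - 1 := by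
    intro u
    obtain ⟨T', hT', hv⟩ := norm_card k' ({u} : Finset kˣ)
    have h2 : T' = Finset.univ.filter fun v : k'ˣ =>
        Units.map (Algebra.norm k (S := k')) v = u := by
      ext v
      rw [hv, Finset.mem_singleton, Finset.mem_filter]
      exact ⟨fun h => ⟨Finset.mem_univ _, h⟩, fun h => h.2⟩
    rw [← h2, hT', Finset.card_singleton, one_mul]
  rw [← Finset.sum_fiberwise (s := Finset.univ) (g := fun v : k'ˣ =>
    Units.map (Algebra.norm k (S := k')) v), Finset.sum_mul, Finset.sum_mul]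
  refine Finset.sum_congr rfl fun u _ => ?_
  rw [Finset.sum_congr rfl (g := fun _ => f u)
    (fun v hv => by rw [(Finset.mem_filter.1 hv).2]), Finset.sum_const, smul_eq_mul, ← h1 u]
  ring

/-- **The average over the twists over a finite extension.** -/
theorem average (ℓ a : ℕ) (hℓ : ℓ.Prime) (ha : a ≠ 0)
    (K : Type) [Field K] [NumberField K] [IsGalois ℚ K]
    (χ : MulChar k (𝓞 K)) (hχ : orderOf χ = ℓ ^ a) (S : Multiset (𝓞 K))
    (hS : ∀ σ : 𝓞 K →+* 𝓞 K, S.map σ = S)
    {M s : ℕ} (G : Fin s → MvPolynomial (Fin (M + 1)) k) (F : MvPolynomial (Fin (M + 1)) k)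
    (L₁ L₂ : ℤ[X]) (hL : IsZetaQuotient G F L₁ L₂)
    (W₁ W₂ : ℤ[X]) (hW₁ : IsTensor S L₁ W₁) (hW₂ : IsTensor S L₂ W₂)
    (V : ℕ → (𝓞 K)[X]) (hV : ∀ j ∈ Finset.Ico 1 (ℓ ^ a),
      charProduct G F (χ ^ j) = (V j : PowerSeries (𝓞 K)))
    (t : Multiset ℕ) (H : (ZMod ℓ)[X]) (h : Splits ℓ W₁ W₂ t H) (hH : NoCyclotomic ℓ H) (c : ℕ)
    (k' : Type) [Field k'] [Finite k'] [Algebra k k'] :
    ℓ * ∑ᶠ v : k'ˣ, twistOrder χ (fun j => tn S (V j)) (ℓ ^ a) c v ≤
      (Nat.card k' - 1) * (a * (ℓ - 1) * (t.map Nat.totient).sum) := by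
  classical
  have hF : Fact ℓ.Prime := ⟨hℓ⟩
  have := Fintype.ofFinite kˣ
  have := Fintype.ofFinite k'ˣ
  have hr : 0 < Module.finrank k k' := Module.finrank_pos
  set r := Module.finrank k k' with hrd
  set m := (t.map Nat.totient).sum with hm
  have hpa : 0 < ℓ ^ a := pow_pos hℓ.pos a
  have hE := famB (k := k) (nv := fun z : Pt G => z.value F) (d := fun z : Pt G => z.degree)
    (finite_points G) (degree_pos G) K (L₁ := L₁) (L₂ := L₂) hL.quotient
  obtain ⟨h0, -⟩ := fam_exc (ℓ := ℓ) (L := AlgebraicClosure K) ha hχ S hS hL.constant hE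
    hW₁ hW₂ V hV h.1 h.2 hH c r hr
  set g : ℕ → kˣ → ℕ := fun j u => Multiset.card ((((tn S (V j)).map (algebraMap (𝓞 K) K)).map
    (algebraMap K (AlgebraicClosure K))).roots.filter fun x =>
      (((Nat.card k ^ c : ℕ) : AlgebraicClosure K) * x) ^ r =
        algebraMap K (AlgebraicClosure K) (algebraMap (𝓞 K) K ((χ ^ j) (u : k)))) with hg
  have htw : ∀ v : k'ˣ, twistOrder χ (fun j => tn S (V j)) (ℓ ^ a) c v =
      ∑ j ∈ Finset.Ico 1 (ℓ ^ a), g j (Units.map (Algebra.norm k (S := k')) v) := by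
    intro v
    unfold twistOrder
    refine Finset.sum_congr rfl fun j _ => ?_
    simp only [hg, Nat.cast_pow]
    rfl
  rw [finsum_eq_sum_of_fintype, Finset.sum_congr rfl fun v _ => htw v]
  have hk : 0 < Nat.card k - 1 := by
    have : 1 < Nat.card k := Finite.one_lt_card
    omega
  -- one character
  have hone : ∀ j ∈ Finset.Ico 1 (ℓ ^ a), ℓ ^ a * ∑ u : kˣ, g j u ≤
      (ℓ ^ a).gcd j * ((Nat.card k - 1) * m) := by
    intro j hj
    have hj' := Finset.mem_Ico.1 hj
    set d := (ℓ ^ a).gcd j with hd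
    have hdpos : 0 < d := Nat.gcd_pos_of_pos_left _ hpa
    have ho : orderOf (χ ^ j) = ℓ ^ a / d := by
      rw [orderOf_pow' χ (by omega), hχ]
    have hdv : d ∣ ℓ ^ a := Nat.gcd_dvd_left _ _
    have he : 0 < ℓ ^ a / d := Nat.div_pos (Nat.le_of_dvd hpa hdv) hdpos
    have h1 := (sum_exc (L := AlgebraicClosure K) he ho (tn S (V j)) (Nat.card k ^ c) r hr).trans
      (Nat.mul_le_mul_left _ (h0 j hj).2)
    calc ℓ ^ a * ∑ u : kˣ, g j u = d * ((∑ u : kˣ, g j u) * (ℓ ^ a / d)) := by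
          rw [mul_comm (∑ u : kˣ, g j u), ← mul_assoc, Nat.mul_div_cancel' hdv]
      _ ≤ _ := Nat.mul_le_mul_left _ h1
  have hsum : ℓ * ∑ u : kˣ, ∑ j ∈ Finset.Ico 1 (ℓ ^ a), g j u ≤
      (Nat.card k - 1) * (a * (ℓ - 1) * m) := by
    have hp1 : 0 < ℓ ^ (a - 1) := pow_pos hℓ.pos _
    apply Nat.le_of_mul_le_mul_left _ hp1
    have e1 : ℓ ^ (a - 1) * ℓ = ℓ ^ a := by rw [← pow_succ]; congr 1; omega
    rw [← mul_assoc, e1, Finset.sum_comm, Finset.mul_sum]
    refine (Finset.sum_le_sum hone).trans ?_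
    rw [← Finset.sum_mul, gcd_sum hℓ a]
    apply le_of_eq
    ring
  apply Nat.le_of_mul_le_mul_right _ hk
  have h2 := norm_sum (k := k) k' fun u => ∑ j ∈ Finset.Ico 1 (ℓ ^ a), g j u
  calc ℓ * (∑ v : k'ˣ, ∑ j ∈ Finset.Ico 1 (ℓ ^ a), g j (Units.map (Algebra.norm k (S := k')) v)) *
        (Nat.card k - 1) = ℓ * (∑ u : kˣ, ∑ j ∈ Finset.Ico 1 (ℓ ^ a), g j u) *
          (Nat.card k' - 1) := by rw [mul_assoc, h2]; ring
    _ ≤ (Nat.card k - 1) * (a * (ℓ - 1) * m) * (Nat.card k' - 1) :=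
        Nat.mul_le_mul_right _ hsum
    _ = _ := by ring

end thm

end Pool.Agent.H313.GE
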