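import Pool.Agent.H313.GE.Sim
import Pool.Agent.H313.GE.Tw2

/-!
The zeros `ζ / Q` for tensor products of Kummer sheaves and the average over the twists by tuples.
-/

set_option autoImplicit false
set_option linter.all false
set_option maxHeartbeats 4000000

open Module NumberField Polynomial

namespace Pool.Agent.H313.GE

section gen

variable {L : Type} [Field L]

open Classical in
/-- the sum over a finite set of values which are roots of unity -/
theorem sum_gen {T : Type} [Fintype T] (c : T → L) (e N : ℕ)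
    (hfib : ∀ z : L, (Finset.univ.filter fun v : T => z = c v).card * e ≤ N)
    (hroot : ∀ v, ∃ n : ℕ, 0 < n ∧ c v ^ n = 1) (Q r : ℕ) (hr : 0 < r) (s : Multiset L) :
    (∑ v : T, Multiset.card (s.filter fun x => ((Q : L) * x) ^ r = c v)) * e ≤
      N * Multiset.card (s.filter fun x => ∃ n : ℕ, 0 < n ∧ ((Q : L) * x) ^ n = 1) := by
  have hzero : ∀ x : L, (¬ ∃ n : ℕ, 0 < n ∧ ((Q : L) * x) ^ n = 1) →
      (Finset.univ.filter fun v : T => ((Q : L) * x) ^ r = c v).card = 0 := by
    intro x hx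
    rw [Finset.card_eq_zero, Finset.filter_eq_empty_iff]
    intro v _ h
    apply hx
    obtain ⟨n, hn, h1⟩ := hroot v
    refine ⟨r * n, Nat.mul_pos hr hn, ?_⟩
    rw [pow_mul, h, h1]
  induction s using Multiset.induction_on with
  | empty => simp
  | cons x s ih =>
    have h1 : ∀ v : T, Multiset.card ((x ::ₘ s).filter
        fun x => ((Q : L) * x) ^ r = c v) =
        (if ((Q : L) * x) ^ r = c v then 1 else 0) +
        Multiset.card (s.filter fun x => ((Q : L) * x) ^ r = c v) := by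
      intro v
      rw [Multiset.filter_cons, Multiset.card_add]
      split_ifs <;> simp
    rw [Finset.sum_congr rfl fun v _ => h1 v, Finset.sum_add_distrib, ← Finset.card_filter,
      add_mul]
    by_cases hx : ∃ n : ℕ, 0 < n ∧ ((Q : L) * x) ^ n = 1
    · rw [Multiset.filter_cons_of_pos (p := fun x : L => ∃ n : ℕ, 0 < n ∧ ((Q : L) * x) ^ n = 1)
        s hx, Multiset.card_cons, mul_add, mul_one, add_comm]
      exact Nat.add_le_add ih (hfib _)
    · rw [Multiset.filter_cons_of_neg (p := fun x : L => ∃ n : ℕ, 0 < n ∧ ((Q : L) * x) ^ n = 1)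
        s hx, hzero x hx, zero_mul, zero_add]
      exact ih

/-- the number of the elements of a finite group where a homomorphism has a given value -/
theorem fiber_hom {G H : Type} [Group G] [Group H] [Finite G] (h : G →* H) (T : Finset G)
    (hT : ∀ u ∈ T, ∀ u' ∈ T, h u = h u') : T.card * Nat.card h.range ≤ Nat.card G := by
  classical
  have hfr : Finite h.range := Finite.of_surjective h.rangeRestrict h.rangeRestrict_surjective
  rcases T.eq_empty_or_nonempty with rfl | ⟨u0, hu0⟩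
  · rw [Finset.card_empty, zero_mul]
    exact Nat.zero_le _
  have h1 : T.card ≤ Nat.card h.ker := by
    have hinj : Function.Injective (fun u : T => (⟨(u : G) / u0, by
        rw [MonoidHom.mem_ker, _root_.map_div, div_eq_one]
        exact hT _ u.2 _ hu0⟩ : h.ker)) := by
      intro u u' huu
      have := congrArg Subtype.val huu
      exact Subtype.ext (div_left_injective this)
    have := Nat.card_le_card_of_injective _ hinj
    rwa [Nat.card_eq_fintype_card, Fintype.card_coe] at this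
  have h3 : Nat.card h.ker * Nat.card h.range = Nat.card G := by
    rw [← Subgroup.index_ker, Subgroup.card_mul_index]
  rw [← h3]
  exact Nat.mul_le_mul_right _ h1

end gen

section multi

variable {k : Type} [Field k] [Finite k] {A : Type} [CommRing A]

/-- the product of characters on tuples of elements of an extension -/
noncomputable def homM {m : ℕ} (ψ : Fin m → MulChar k A) (k' : Type) [Field k'] [Algebra k k'] :
    (Fin m → k'ˣ) →* Aˣ where
  toFun v := ∏ i, (ψ i).toUnitHom (Units.map (Algebra.norm k (S := k')) (v i))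
  map_one' := by
    simp
  map_mul' v w := by
    rw [← Finset.prod_mul_distrib]
    refine Finset.prod_congr rfl fun i _ => ?_
    rw [Pi.mul_apply, map_mul, map_mul]

theorem homM_coe {m : ℕ} (ψ : Fin m → MulChar k A) (k' : Type) [Field k'] [Algebra k k']
    (v : Fin m → k'ˣ) : ((homM ψ k' v : Aˣ) : A) = ∏ i, ψ i (Algebra.norm k (v i : k')) := by
  show ((∏ i, (ψ i).toUnitHom (Units.map (Algebra.norm k (S := k')) (v i)) : Aˣ) : A) = _
  rw [Units.coe_prod]
  refine Finset.prod_congr rfl fun i _ => ?_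
  rw [MulChar.coe_toUnitHom]
  rfl

theorem fiber_multi {m : ℕ} (ψ : Fin m → MulChar k A) (k' : Type) [Field k'] [Finite k']
    [Algebra k k'] (T : Finset (Fin m → k'ˣ))
    (hT : ∀ u ∈ T, ∀ u' ∈ T, homM ψ k' u = homM ψ k' u') :
    T.card * orderOf ψ ≤ (Nat.card k' - 1) ^ m := by
  classical
  set h := homM ψ k' with hh
  have hfr : Finite h.range := Finite.of_surjective h.rangeRestrict h.rangeRestrict_surjective
  have h2 : orderOf ψ ≤ Nat.card h.range := by
    apply Nat.le_of_dvd Nat.card_pos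
    apply orderOf_dvd_of_pow_eq_one
    funext i
    rw [Pi.pow_apply, Pi.one_apply]
    apply MulChar.ext
    intro u
    obtain ⟨w, hw⟩ := FiniteField.unitsMap_norm_surjective k k' u
    set v : Fin m → k'ˣ := Pi.mulSingle i w with hv
    have h3 : (⟨h v, ⟨_, rfl⟩⟩ : h.range) ^ Nat.card h.range = 1 :=
      pow_card_eq_one'
    have h4 : (h v) ^ Nat.card h.range = 1 := congrArg Subtype.val h3
    have h5 : h v = (ψ i).toUnitHom u := by
      show ∏ i', (ψ i').toUnitHom (Units.map (Algebra.norm k (S := k')) (v i')) = _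
      rw [Finset.prod_eq_single i]
      · rw [hv, Pi.mulSingle_eq_same, hw]
      · intro i' _ hne
        rw [hv, Pi.mulSingle_eq_of_ne hne, map_one, map_one]
      · intro h6
        exact absurd (Finset.mem_univ i) h6
    rw [MulChar.pow_apply_coe, MulChar.one_apply u.isUnit, ← MulChar.coe_toUnitHom, ← h5,
      ← Units.val_pow_eq_pow_val, h4, Units.val_one]
  have h3 := fiber_hom h T hT
  have h4 : Nat.card (Fin m → k'ˣ) = (Nat.card k' - 1) ^ m := by
    rw [Nat.card_fun, Nat.card_units, Nat.card_eq_fintype_card (α := Fin m), Fintype.card_fin]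
  rw [h4] at h3
  exact (Nat.mul_le_mul_left _ h2).trans h3

theorem value_root {m : ℕ} (ψ : Fin m → MulChar k A) {e : ℕ} (he : 0 < e) (hψ : ψ ^ e = 1)
    (k' : Type) [Field k'] [Finite k'] [Algebra k k'] (v : Fin m → k'ˣ) :
    (∏ i, ψ i (Algebra.norm k (v i : k'))) ^ e = 1 := by
  rw [← Finset.prod_pow]
  refine Finset.prod_eq_one fun i _ => ?_
  have h2 : ψ i ^ e = 1 := by
    have h3 := congrFun hψ i
    rwa [Pi.pow_apply, Pi.one_apply] at h3
  rw [← MulChar.pow_apply' (ψ i) he.ne', h2]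
  exact MulChar.one_apply ((v i).isUnit.map (Algebra.norm k (S := k')))

open Classical in
/-- the sum over the tuples -/
theorem sum_multi {m : ℕ} {L : Type} [Field L] (φ : A →+* L) (hφ : Function.Injective φ)
    (ψ : Fin m → MulChar k A) {e : ℕ} (he : 0 < e) (hψ : ψ ^ e = 1) (k' : Type)
    [Field k'] [Finite k'] [Algebra k k'] [Fintype (Fin m → k'ˣ)] (s : Multiset L) (Q r : ℕ)
    (hr : 0 < r) :
    (∑ v : Fin m → k'ˣ, Multiset.card (s.filter fun x => ((Q : L) * x) ^ r =
      φ (∏ i, ψ i (Algebra.norm k (v i : k'))))) * orderOf ψ ≤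
      (Nat.card k' - 1) ^ m * Multiset.card (s.filter fun x =>
        ∃ n : ℕ, 0 < n ∧ ((Q : L) * x) ^ n = 1) := by
  have h1 : ∀ z : L, (Finset.univ.filter fun v : Fin m → k'ˣ =>
      z = φ (∏ i, ψ i (Algebra.norm k (v i : k')))).card * orderOf ψ ≤ (Nat.card k' - 1) ^ m := by
    intro z
    apply fiber_multi ψ k'
    intro u hu u' hu'
    rw [Finset.mem_filter] at hu hu'
    apply Units.ext
    rw [homM_coe, homM_coe]
    exact hφ (hu.2.symm.trans hu'.2)
  have h2 : ∀ v : Fin m → k'ˣ, ∃ n : ℕ, 0 < n ∧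
      φ (∏ i, ψ i (Algebra.norm k (v i : k'))) ^ n = 1 := by
    intro v
    refine ⟨e, he, ?_⟩
    rw [← map_pow, value_root ψ he hψ k' v, map_one]
  exact sum_gen (fun v : Fin m → k'ˣ => φ (∏ i, ψ i (Algebra.norm k (v i : k')))) (orderOf ψ)
    ((Nat.card k' - 1) ^ m) h1 h2 Q r hr s

end multi

end Pool.Agent.H313.GE

namespace Pool.Agent.H313.GE.Pts

open Pool.Agent.H313.GE Pool.Agent.H313.CC
open Pool.Agent.TH639.SN (SpacePt normValue chart eulerProduct finite_le deg_pos)

section thm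

variable {k : Type} [Field k] [Finite k]

theorem kummer_ratio {ℓ : ℕ} [hℓ : Fact ℓ.Prime] {K : Type} [Field K] [NumberField K] {M s m : ℕ}
    (G : Fin s → MvPolynomial (Fin (M + 1)) k) (F : Fin m → MvPolynomial (Fin (M + 1)) k)
    (ψ : Fin m → MulChar k (𝓞 K)) (I : Finset (Fin m)) (a : Fin m → ℕ)
    (hψ : ∀ i ∈ I, ψ i ^ ℓ ^ a i = 1) {n : ℕ} {D : (𝓞 K)[X]}
    (hD : IsSigned n (kummerProduct G F ψ I) D) {L₁ L₂ : ℤ[X]}
    (hL : IsSignedQuotient n (openZetaInv G F I) L₁ L₂) :
    D.coeff 0 = 1 ∧ ∀ (R : Type) [Field R] [CharP R ℓ] (ρ : 𝓞 K →+* R),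
      D.map ρ * L₂.map (Int.castRingHom R) = L₁.map (Int.castRingHom R) := by
  classical
  have hfin := finite_points G
  have hpos := degree_pos G
  have hunit : PowerSeries.constantCoeff (kummerProduct G F ψ I) = 1 :=
    Pool.Agent.H313.CC.one_of_pos hfin hpos _
  have hD0 : D.coeff 0 = 1 := by
    rcases Nat.even_or_odd n with hn | hn
    · rw [hD.1 hn, ← PowerSeries.coeff_zero_eq_constantCoeff_apply, Polynomial.coeff_coe] at hunit
      exact hunit
    · have h1 := congrArg PowerSeries.constantCoeff (hD.2 hn)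
      rw [map_mul, hunit, one_mul, map_one, ← PowerSeries.coeff_zero_eq_constantCoeff_apply,
        Polynomial.coeff_coe] at h1
      exact h1
  refine ⟨hD0, ?_⟩
  intro R _ _ ρ
  have hval : ∀ z : Pt G, (∀ i ∈ I, z.value (F i) ≠ 0) →
      ρ (∏ i ∈ I, ψ i (z.value (F i))) = 1 := by
    intro z hz
    rw [map_prod]
    refine Finset.prod_eq_one fun i hi => ?_
    apply Pool.Agent.TH639.SG.eq_one_of_pow (ℓ := ℓ) (m := a i)
    rw [← map_pow, ← MulChar.pow_apply' (ψ i) (pow_ne_zero _ hℓ.out.ne_zero), hψ i hi,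
      MulChar.one_apply (isUnit_iff_ne_zero.2 (hz i hi)), map_one]
  have hval0 : ∀ z : Pt G, (¬ ∀ i ∈ I, z.value (F i) ≠ 0) →
      ρ (∏ i ∈ I, ψ i (z.value (F i))) = 0 := by
    intro z hz
    push Not at hz
    obtain ⟨i, hi, h0⟩ := hz
    rw [Finset.prod_eq_zero hi (by rw [h0, MulChar.map_zero]), map_zero]
  have h1 : PowerSeries.map ρ (kummerProduct G F ψ I) =
      PowerSeries.map (Int.castRingHom R) (openZetaInv G F I) :=
    red_mE hfin ρ _ _ hval hval0
  apply Polynomial.coe_injective R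
  rw [Polynomial.coe_mul, Polynomial.polynomial_map_coe, Polynomial.polynomial_map_coe,
    Polynomial.polynomial_map_coe]
  rcases Nat.even_or_odd n with hn | hn
  · rw [← hD.1 hn, h1, ← map_mul, hL.even hn]
  · have h3 := congrArg (PowerSeries.map ρ) (hD.2 hn)
    rw [map_mul, map_one, h1] at h3
    rw [← hL.odd hn, map_mul]
    set f := PowerSeries.map (Int.castRingHom R) (openZetaInv G F I) with hf
    set x := PowerSeries.map ρ (D : PowerSeries (𝓞 K)) with hx
    set z := PowerSeries.map (Int.castRingHom R) (L₁ : PowerSeries ℤ) with hz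
    calc x * (f * z) = (f * x) * z := by ring
      _ = z := by rw [h3, one_mul]

/-- the number of the zeros `ζ / Q` for one tensor product of Kummer sheaves -/
theorem kummer_geo {ℓ : ℕ} [hℓ : Fact ℓ.Prime] {K : Type} [Field K] [NumberField K]
    [IsGalois ℚ K] {M s m : ℕ}
    (G : Fin s → MvPolynomial (Fin (M + 1)) k) (F : Fin m → MvPolynomial (Fin (M + 1)) k)
    (ψ : Fin m → MulChar k (𝓞 K)) (I : Finset (Fin m)) (a : Fin m → ℕ)
    (hψ : ∀ i ∈ I, ψ i ^ ℓ ^ a i = 1) {n : ℕ} {D : (𝓞 K)[X]}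
    (hD : IsSigned n (kummerProduct G F ψ I) D) {L₁ L₂ : ℤ[X]}
    (hL : IsSignedQuotient n (openZetaInv G F I) L₁ L₂) {t : Multiset ℕ} {H : (ZMod ℓ)[X]}
    (hS : Splits ℓ L₁ L₂ t H) (hH : NoCyclotomic ℓ H) {Q : ℕ} (hQ0 : Q ≠ 0)
    (hQ : (Q : ZMod ℓ) = 1) (L : Type) [Field L] [CharZero L] [Algebra K L] [IsAlgClosure K L] :
    geoO Q ((D.map (algebraMap (𝓞 K) K)).map (algebraMap K L)) ≤ (t.map Nat.totient).sum := by
  obtain ⟨hD0, hmod⟩ := kummer_ratio G F ψ I a hψ hD hL
  obtain ⟨M', hM', hm⟩ := Pool.Agent.TH639.SC.exists_red (𝓞 K) hℓ.out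
  letI : Field (𝓞 K ⧸ M') := Ideal.Quotient.field M'
  have h0 : ((ℓ : ℕ) : 𝓞 K ⧸ M') = 0 := by
    have := Ideal.Quotient.eq_zero_iff_mem.2 hm
    rwa [map_natCast] at this
  have hc := Pool.Agent.TH639.SC.charP_of_mem (R := 𝓞 K ⧸ M') hℓ.out h0
  exact count_le D hD0 hL.constant hmod (Ideal.Quotient.mk M') hQ0 hQ hS.1 hS.2 hH L

end thm

end Pool.Agent.H313.GE.Pts

namespace Pool.Agent.H313.GE.Pts

open Pool.Agent.H313.GE Pool.Agent.H313.CC
open Pool.Agent.TH639.SN (SpacePt normValue chart eulerProduct finite_le deg_pos)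

section thm2

variable {k : Type} [Field k] [Finite k]

theorem twisted_ratio {ℓ : ℕ} [hℓ : Fact ℓ.Prime] {K : Type} [Field K] [NumberField K] {M s m : ℕ}
    (G : Fin s → MvPolynomial (Fin (M + 1)) k) (F : Fin m → MvPolynomial (Fin (M + 1)) k)
    (P : Pt G → ℤ[X]) (hP : ∀ z, (P z).coeff 0 = 1)
    (ψ : Fin m → MulChar k (𝓞 K)) (I : Finset (Fin m)) (a : Fin m → ℕ)
    (hψ : ∀ i ∈ I, ψ i ^ ℓ ^ a i = 1) {n : ℕ} {D : (𝓞 K)[X]}
    (hD : IsSigned n (twistedProduct G F P ψ I) D) {L₁ L₂ : ℤ[X]}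
    (hL : IsSignedQuotient n (openProduct G F P I) L₁ L₂) :
    D.coeff 0 = 1 ∧ ∀ (R : Type) [Field R] [CharP R ℓ] (ρ : 𝓞 K →+* R),
      D.map ρ * L₂.map (Int.castRingHom R) = L₁.map (Int.castRingHom R) := by
  classical
  have hfin := finite_points G
  have hpos := degree_pos G
  have hunit : PowerSeries.constantCoeff (twistedProduct G F P ψ I) = 1 :=
    Pool.Agent.H313.CC.one_of_pos hfin hpos _
  have hD0 : D.coeff 0 = 1 := by
    rcases Nat.even_or_odd n with hn | hn
    · rw [hD.1 hn, ← PowerSeries.coeff_zero_eq_constantCoeff_apply, Polynomial.coeff_coe] at hunit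
      exact hunit
    · have h1 := congrArg PowerSeries.constantCoeff (hD.2 hn)
      rw [map_mul, hunit, one_mul, map_one, ← PowerSeries.coeff_zero_eq_constantCoeff_apply,
        Polynomial.coeff_coe] at h1
      exact h1
  refine ⟨hD0, ?_⟩
  intro R _ _ ρ
  have hval : ∀ z : Pt G, (∀ i ∈ I, z.value (F i) ≠ 0) →
      ρ (∏ i ∈ I, ψ i (z.value (F i))) = 1 := by
    intro z hz
    rw [map_prod]
    refine Finset.prod_eq_one fun i hi => ?_
    apply Pool.Agent.TH639.SG.eq_one_of_pow (ℓ := ℓ) (m := a i)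
    rw [← map_pow, ← MulChar.pow_apply' (ψ i) (pow_ne_zero _ hℓ.out.ne_zero), hψ i hi,
      MulChar.one_apply (isUnit_iff_ne_zero.2 (hz i hi)), map_one]
  have hval0 : ∀ z : Pt G, (¬ ∀ i ∈ I, z.value (F i) ≠ 0) →
      ρ (∏ i ∈ I, ψ i (z.value (F i))) = 0 := by
    intro z hz
    push Not at hz
    obtain ⟨i, hi, h0⟩ := hz
    rw [Finset.prod_eq_zero hi (by rw [h0, MulChar.map_zero]), map_zero]
  have h1 : PowerSeries.map ρ (twistedProduct G F P ψ I) =
      PowerSeries.map (Int.castRingHom R) (openProduct G F P I) :=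
    red_mP hfin ρ hP _ _ hval hval0
  apply Polynomial.coe_injective R
  rw [Polynomial.coe_mul, Polynomial.polynomial_map_coe, Polynomial.polynomial_map_coe,
    Polynomial.polynomial_map_coe]
  rcases Nat.even_or_odd n with hn | hn
  · rw [← hD.1 hn, h1, ← map_mul, hL.even hn]
  · have h3 := congrArg (PowerSeries.map ρ) (hD.2 hn)
    rw [map_mul, map_one, h1] at h3
    rw [← hL.odd hn, map_mul]
    set f := PowerSeries.map (Int.castRingHom R) (openProduct G F P I) with hf
    set x := PowerSeries.map ρ (D : PowerSeries (𝓞 K)) with hx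
    set z := PowerSeries.map (Int.castRingHom R) (L₁ : PowerSeries ℤ) with hz
    calc x * (f * z) = (f * x) * z := by ring
      _ = z := by rw [h3, one_mul]

/-- the number of the zeros `ζ / Q` for one twist of a family -/
theorem twisted_geo {ℓ : ℕ} [hℓ : Fact ℓ.Prime] {K : Type} [Field K] [NumberField K]
    [IsGalois ℚ K] {M s m : ℕ}
    (G : Fin s → MvPolynomial (Fin (M + 1)) k) (F : Fin m → MvPolynomial (Fin (M + 1)) k)
    (P : Pt G → ℤ[X]) (hP : ∀ z, (P z).coeff 0 = 1)
    (ψ : Fin m → MulChar k (𝓞 K)) (I : Finset (Fin m)) (a : Fin m → ℕ)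
    (hψ : ∀ i ∈ I, ψ i ^ ℓ ^ a i = 1) {n : ℕ} {D : (𝓞 K)[X]}
    (hD : IsSigned n (twistedProduct G F P ψ I) D) {L₁ L₂ : ℤ[X]}
    (hL : IsSignedQuotient n (openProduct G F P I) L₁ L₂) {t : Multiset ℕ} {H : (ZMod ℓ)[X]}
    (hS : Splits ℓ L₁ L₂ t H) (hH : NoCyclotomic ℓ H) {Q : ℕ} (hQ0 : Q ≠ 0)
    (hQ : (Q : ZMod ℓ) = 1) (L : Type) [Field L] [CharZero L] [Algebra K L] [IsAlgClosure K L] :
    geoO Q ((D.map (algebraMap (𝓞 K) K)).map (algebraMap K L)) ≤ (t.map Nat.totient).sum := by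
  obtain ⟨hD0, hmod⟩ := twisted_ratio G F P hP ψ I a hψ hD hL
  obtain ⟨M', hM', hm⟩ := Pool.Agent.TH639.SC.exists_red (𝓞 K) hℓ.out
  letI : Field (𝓞 K ⧸ M') := Ideal.Quotient.field M'
  have h0 : ((ℓ : ℕ) : 𝓞 K ⧸ M') = 0 := by
    have := Ideal.Quotient.eq_zero_iff_mem.2 hm
    rwa [map_natCast] at this
  have hc := Pool.Agent.TH639.SC.charP_of_mem (R := 𝓞 K ⧸ M') hℓ.out h0
  exact count_le D hD0 hL.constant hmod (Ideal.Quotient.mk M') hQ0 hQ hS.1 hS.2 hH L

end thm2

end Pool.Agent.H313.GE.Pts
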