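import Pool.Agent.H313.GE.Sig

/-!
The bounds for the extensions of prime power degree.
-/

set_option autoImplicit false
set_option linter.all false
set_option maxHeartbeats 4000000

open Polynomial FF Module Pool.Agent.W343.BSD Pool.Agent.W309.RF Pool.Agent.Y701.QG

namespace Pool.Agent.H313.GE.Bd

open Pool.Agent.H313.GE

/-- The place `w` of `L` lies over the place `v` of `K`, with the ramification index `e`. The fields of
constants `k` and `k'` may be different. -/
def LiesOver {k K k' L : Type} [Field k] [Field K] [Algebra k K] [Field k'] [Field L]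
    [Algebra k' L] [Algebra K L] (w : Place k' L) (v : Place k K) (e : ℕ) : Prop :=
  0 < e ∧ ∀ f : K, w.ord (algebraMap K L f) = e * v.ord f

/-- `L` is a Galois extension of `K` of degree a power of `ℓ` with field of constants `k'`, unramified
outside the finite set `B` of places. -/
structure IsExt (k K k' L : Type) [Field k] [Field K] [Algebra k K] [Field k'] [Field L]
    [Algebra k' L] [Algebra K L] (ℓ : ℕ) (B : Finset (Place k K)) : Prop where
  curve : IsCurveField k' L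
  galois : IsGalois K L
  power : ∃ s : ℕ, finrank K L = ℓ ^ s
  unramified : ∀ v, v ∉ B → ∀ (w : Place k' L) (n : ℕ), LiesOver w v n → n = 1

/-- `M = L κ` for a finite extension `κ` of the field of constants `k'` of `L`. -/
structure IsConst (k' L κ M : Type) [Field k'] [Field L] [Algebra k' L] [Field κ] [Field M]
    [Algebra κ M] [Algebra k' κ] [Algebra L M] : Prop where
  curve : IsCurveField κ M
  degree : finrank L M = finrank k' κ

/-- For all Galois extensions `L` of `K` of `ℓ`-power degree, unramified outside `B`, with any field of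
constants `k'`, such that `L(T, E/L) = R` is a polynomial: `[k' : k] g_L ≤ [L : K] N`, and the
`L`-function of `E` over `L κ` vanishes for all finite extensions `κ` of `k'` at most to the order
`g_L`. -/
def Bound (k : Type) {K : Type} [Field k] [Field K] [Algebra k K] (ℓ : ℕ) (B : Finset (Place k K))
    (a b : K) (N : ℕ) : Prop :=
  ∀ (k' L : Type) [Field k'] [Finite k'] [Field L] [Algebra k' L] [Algebra k k'] [Algebra k L]
    [Algebra K L] [IsScalarTower k K L] [IsScalarTower k k' L], IsExt k K k' L ℓ B →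
    ∀ R : ℤ[X], S.Lfun k' (algebraMap K L a) (algebraMap K L b) = (R : PowerSeries ℤ) →
      finrank k k' * geo (Nat.card k') R ≤ finrank K L * N ∧
      ∀ (κ M : Type) [Field κ] [Finite κ] [Field M] [Algebra κ M] [Algebra k' κ] [Algebra k' M]
        [Algebra L M] [IsScalarTower k' L M] [IsScalarTower k' κ M], IsConst k' L κ M →
        ∀ m : ℕ, S.VanishesTo κ (algebraMap L M (algebraMap K L a))
          (algebraMap L M (algebraMap K L b)) m → m ≤ geo (Nat.card k') R

theorem bound_of {k K : Type} [Field k] [Finite k] [Field K] [Algebra k K] (hK : IsCurveField k K)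
    (h6 : (6 : k) ≠ 0) {ℓ : ℕ} [hℓ : Fact ℓ.Prime] (hlk : (ℓ : k) ≠ 0) {a b : K}
    (hΔ : 4 * a ^ 3 + 27 * b ^ 2 ≠ 0) (B : Finset (Place k K)) {U V : ℤ[X]} (hV : V.coeff 0 = 1)
    (hP : S.Lfun k a b * (V : PowerSeries ℤ) = (U : PowerSeries ℤ))
    {t : Multiset ℕ} {H : (ZMod ℓ)[X]} (ht : ∀ N ∈ t, 0 < N)
    (hf : (U * ∏ v ∈ B, S.locFactor v a b).map (Int.castRingHom (ZMod ℓ)) =
      cprod (ZMod ℓ) (Nat.card k) t * H) (hH : NoCyc ℓ (Nat.card k) H) :
    Bound k ℓ B a b (t.map Nat.totient).sum := by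
  intro k' L _ _ _ _ _ _ _ _ _ hext R hR
  have iK : FF.IsFF k K := ⟨hK.essFiniteType, hK.trdeg_eq_one⟩
  obtain ⟨s, hs⟩ := hext.power
  have i1 : FiniteDimensional K L := Module.finite_of_finrank_pos (by
    rw [hs]; exact pow_pos hℓ.out.pos s)
  have i2 : FF.IsFF k L := isFF_of_finite (K := K)
  have i3 : FF.IsFF k' L := ⟨hext.curve.essFiniteType, hext.curve.trdeg_eq_one⟩
  have i4 := hext.galois
  have hΔL : 4 * (algebraMap K L a) ^ 3 + 27 * (algebraMap K L b) ^ 2 ≠ 0 := by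
    have e1 : 4 * algebraMap K L a ^ 3 + 27 * algebraMap K L b ^ 2 =
        algebraMap K L (4 * a ^ 3 + 27 * b ^ 2) := by
      rw [map_add, map_mul, map_mul, map_pow, map_pow, map_ofNat, map_ofNat]
    rw [e1]; exact (_root_.map_ne_zero _).2 hΔ
  rw [S.lfun_eq hΔ] at hP
  rw [S.lfun_eq hΔL] at hR
  have hf' : (U * ∏ v ∈ B, locFactor v a b).map (Int.castRingHom (ZMod ℓ)) =
      cprod (ZMod ℓ) (Nat.card k) t * H := by
    rw [← hf]
    congr 2
    exact Finset.prod_congr rfl fun v _ => (S.locFactor_eq v hΔ).symm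
  have hH0 : H ≠ 0 := by
    rintro rfl
    exact hH 1 one_pos (fun h => hℓ.out.ne_one (Nat.dvd_one.1 h)) (dvd_zero _)
  refine ⟨?_, ?_⟩
  · exact rank_crit hlk hs hΔ B (fun v hv w n hov => hext.unramified v hv (upPlace (k' := k') w) n
      ⟨hov.1, hov.2⟩) hV hP ht hf' hH0 hH hR
  · intro κ M _ _ _ _ _ _ _ _ _ hc m hm
    have j0 : FiniteDimensional k' κ := Module.Finite.of_finite
    have j1 : FiniteDimensional L M := Module.finite_of_finrank_pos (by
      rw [hc.degree]; exact finrank_pos)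
    have j2 : FF.IsFF k' M := isFF_of_finite (K := L)
    have j3 : FF.IsFF κ M := ⟨hc.curve.essFiniteType, hc.curve.trdeg_eq_one⟩
    have h6' : (6 : k') ≠ 0 := by
      have : (6 : k') = algebraMap k k' 6 := by rw [map_ofNat]
      rw [this]
      exact (_root_.map_ne_zero _).2 h6
    have hΔM : 4 * (algebraMap L M (algebraMap K L a)) ^ 3 +
        27 * (algebraMap L M (algebraMap K L b)) ^ 2 ≠ 0 := by
      have e1 : 4 * (algebraMap L M (algebraMap K L a)) ^ 3 +
        27 * (algebraMap L M (algebraMap K L b)) ^ 2 =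
          algebraMap L M (4 * (algebraMap K L a) ^ 3 + 27 * (algebraMap K L b) ^ 2) := by
        rw [map_add, map_mul, map_mul, map_pow, map_pow, map_ofNat, map_ofNat]
      rw [e1]; exact (_root_.map_ne_zero _).2 hΔL
    obtain ⟨G, hG⟩ := hm
    rw [S.lfun_eq hΔM] at hG
    exact rank_const h6' hext.curve.algClosed hc.degree hΔL hR ⟨G, hG⟩

theorem coeff_zero {k K : Type} [Field k] [Finite k] [Field K] [Algebra k K] (hK : IsCurveField k K)
    {a b : K} (hΔ : 4 * a ^ 3 + 27 * b ^ 2 ≠ 0) {U V : ℤ[X]} (hV : V.coeff 0 = 1)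
    (hP : S.Lfun k a b * (V : PowerSeries ℤ) = (U : PowerSeries ℤ)) : U.coeff 0 = 1 := by
  have iK : FF.IsFF k K := ⟨hK.essFiniteType, hK.trdeg_eq_one⟩
  rw [S.lfun_eq hΔ] at hP
  have h1 := congrArg PowerSeries.constantCoeff hP
  rw [map_mul, Pool.Agent.Y701.QF.constantCoeff_lfun, one_mul,
    ← PowerSeries.coeff_zero_eq_constantCoeff_apply,
    ← PowerSeries.coeff_zero_eq_constantCoeff_apply, Polynomial.coeff_coe, Polynomial.coeff_coe,
    hV] at h1
  exact h1.symm


theorem bound_nc {k K : Type} [Field k] [Finite k] [Field K] [Algebra k K] (hK : IsCurveField k K)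
    (h6 : (6 : k) ≠ 0) {ℓ : ℕ} [hℓ : Fact ℓ.Prime] (hlk : (ℓ : k) ≠ 0) {a b : K}
    (hΔ : 4 * a ^ 3 + 27 * b ^ 2 ≠ 0) (B : Finset (Place k K)) {U V : ℤ[X]} (hV : V.coeff 0 = 1)
    (hP : S.Lfun k a b * (V : PowerSeries ℤ) = (U : PowerSeries ℤ))
    {t : Multiset ℕ} (ht : ∀ N ∈ t, 0 < N)
    (hz : ∃ z : ZMod ℓ, U.map (Int.castRingHom (ZMod ℓ)) = cprod (ZMod ℓ) (Nat.card k) t * C z)
    (hB : NoCyc ℓ (Nat.card k) ((∏ v ∈ B, S.locFactor v a b).map (Int.castRingHom (ZMod ℓ)))) :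
    Bound k ℓ B a b (t.map Nat.totient).sum := by
  obtain ⟨z, hz⟩ := hz
  have iK : FF.IsFF k K := ⟨hK.essFiniteType, hK.trdeg_eq_one⟩
  have hz0 : z ≠ 0 := by
    rintro rfl
    rw [C_0, mul_zero] at hz
    have h1 := congrArg (fun p => Polynomial.coeff p 0) hz
    simp only [Polynomial.coeff_map, Polynomial.coeff_zero, coeff_zero hK hΔ hV hP, map_one] at h1
    exact one_ne_zero h1
  refine bound_of hK h6 hlk hΔ B hV hP ht
    (H := C z * (∏ v ∈ B, S.locFactor v a b).map (Int.castRingHom (ZMod ℓ))) ?_ ?_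
  · rw [Polynomial.map_mul, hz, mul_assoc]
  · exact hB.const_mul hz0

/-- `S` is the set of the monic irreducible factors of `g ^ 2 - f h` in `k[x]`, and `R` the set of the
monic irreducible factors in `k[t]` of the coefficient `f_3 + 2 g_3 t + h_3 t ^ 2` of `x ^ 3`. -/
structure IsFactors {k : Type} [Field k] (f g h : k[X]) (S R : Finset k[X]) : Prop where
  first : ∀ P, P ∈ S ↔ P.Monic ∧ Irreducible P ∧ P ∣ g ^ 2 - f * h
  second : ∀ P, P ∈ R ↔ P.Monic ∧ Irreducible P ∧ P ∣ co f g h 3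

/-- the family -/
theorem bound_family {k : Type} [Field k] [Finite k] {ℓ : ℕ} [hℓ : Fact ℓ.Prime] (h6 : (6 : k) ≠ 0)
    (hlk : (ℓ : k) ≠ 0) {f g h : k[X]} (hG : Good f g h) {S₀ R₀ : Finset k[X]}
    (hSR : IsFactors f g h S₀ R₀) (B : Finset (Place k (RatFunc k)))
    (hB : NoCyc ℓ (Nat.card k) ((∏ v ∈ B, S.locFactor v (A (PA f g h)) (A (PB f g h))).map
      (Int.castRingHom (ZMod ℓ)))) :
    Bound k ℓ B (A (PA f g h)) (A (PB f g h))
      (∑ P ∈ S₀, if eps f h P = 0 then 0 else P.natDegree) := by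
  classical
  letI : Fintype k := Fintype.ofFinite k
  have hQ0 : Nat.card k ≠ 0 := Nat.card_pos.ne'
  have hex := exact_lfun h6 hG hSR.first hSR.second
  have hdegS : ∀ P ∈ S₀, P.natDegree ≠ 0 := fun P hP =>
    ((hSR.first P).1 hP).2.1.natDegree_pos.ne'
  have hdegT : ∀ P ∈ R₀, P.natDegree ≠ 0 := fun P hP =>
    ((hSR.second P).1 hP).2.1.natDegree_pos.ne'
  obtain ⟨t, b, ht, hU, hb, hsum⟩ := prodF_decomp hQ0 hdegS (c := eps f h)
    (fun P => eps_cases f h P)
  rw [← hsum]
  rw [← S.lfun_eq hG.hΔ] at hex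
  refine bound_nc (K := RatFunc k) ⟨FF.IsFF.ess, FF.IsFF.trdeg, const_rat⟩ h6 hlk hG.hΔ B
    (U := prodF (Nat.card k : ℤ) S₀ (eps f h))
    (V := (1 - C (si h * (Nat.card k : ℤ)) * X) * prodF (Nat.card k : ℤ) R₀ (sig f g h)) ?_ hex ht
    ?_ hB
  · rw [coeff_zero_eq_eval_zero, eval_mul]
    unfold prodF
    rw [eval_prod, Finset.prod_eq_one, mul_one]
    · simp
    · intro P hP
      rw [eval_sub, eval_one, eval_mul, eval_pow, eval_X, zero_pow (hdegT P hP), mul_zero,
        sub_zero]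
  · refine ⟨(b : ZMod ℓ), ?_⟩
    rw [hU, Polynomial.map_mul, cprod_map, Polynomial.map_C]
    rfl

/-- the curves `y ^ 2 = x ^ 3 + α x + β + t` -/
theorem bound_ex {k : Type} [Field k] [Finite k] {ℓ : ℕ} [hℓ : Fact ℓ.Prime] (h6 : (6 : k) ≠ 0)
    (hlk : (ℓ : k) ≠ 0) (α β : k) (B : Finset (Place k (RatFunc k)))
    (hB : NoCyc ℓ (Nat.card k) ((∏ v ∈ B, S.locFactor v (A (C α)) (A (C β + X))).map
      (Int.castRingHom (ZMod ℓ)))) : Bound k ℓ B (A (C α)) (A (C β + X)) 0 := by
  have hΔ : 4 * (A (C α) : RatFunc k) ^ 3 + 27 * A (C β + X) ^ 2 ≠ 0 := by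
    rw [A_disc]
    exact A_ne (disc_ex h6 α β)
  have h1 : Bound k ℓ B (A (C α)) (A (C β + X)) ((0 : Multiset ℕ).map Nat.totient).sum := by
    refine bound_nc (K := RatFunc k) ⟨FF.IsFF.ess, FF.IsFF.trdeg, const_rat⟩ h6 hlk hΔ B (U := 1)
      (V := 1) (by simp) ?_ (t := 0) (by simp) ⟨1, by rw [cprod_zero]; simp⟩ hB
    rw [S.lfun_eq hΔ, lfun_ex h6, Polynomial.coe_one, mul_one]
  simpa using h1

end Pool.Agent.H313.GE.Bd
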