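import Pool.Agent.H313.GE.Kum2

/-!
Jordan blocks of the powers of an endomorphism and of its multiples.
-/

set_option autoImplicit false
set_option linter.all false
set_option maxHeartbeats 4000000

open Module Polynomial

namespace Pool.Agent.H313.GE

variable {E V : Type} [Field E] [AddCommGroup V] [Module E V]

theorem blocks_multiset (f : Module.End E V) (e : ℕ) (hf : BlocksLE f e) (s : Multiset E) :
    ∀ x : V, ((aeval f (s.map fun α => X - C α).prod) ^ (e + 1)) x = 0 →
      ((aeval f (s.map fun α => X - C α).prod) ^ e) x = 0 := by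
  induction s using Multiset.induction_on with
  | empty =>
    intro x hx
    rw [Multiset.map_zero, Multiset.prod_zero, map_one, one_pow] at hx ⊢
    exact hx
  | cons α s ih =>
    intro x hx
    rw [Multiset.map_cons, Multiset.prod_cons] at hx ⊢
    set P := (s.map fun α => X - C α).prod with hP
    have hc : aeval f (X - C α) = f - algebraMap E (Module.End E V) α := by
      rw [map_sub, aeval_X, aeval_C]
    have h1 : ((f - algebraMap E (Module.End E V) α) ^ (e + 1)) ((aeval f P ^ (e + 1)) x) = 0 := by
      rw [← hc, ← Module.End.mul_apply, ← map_pow, ← map_pow, ← map_mul, ← mul_pow, map_pow]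
      exact hx
    have h2 := hf α _ h1
    have h3 : (aeval f P ^ (e + 1)) ((aeval f (X - C α) ^ e) x) = 0 := by
      rw [← hc] at h2
      rw [← Module.End.mul_apply, ← map_pow, ← map_pow, ← map_mul, mul_comm, map_mul,
        Module.End.mul_apply, map_pow, map_pow]
      exact h2
    have h4 := ih _ h3
    rw [mul_comm, ← map_pow, mul_pow, map_mul, Module.End.mul_apply, map_pow, map_pow]
    exact h4

theorem blocks_pow [IsAlgClosed E] {f : Module.End E V} {e : ℕ} (hf : BlocksLE f e) {r : ℕ}
    (hr : 0 < r) : BlocksLE (f ^ r) e := by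
  intro β x hx
  have hm : (X ^ r - C β : E[X]).Monic := monic_X_pow_sub_C β hr.ne'
  have h1 : (X ^ r - C β : E[X]) = ((X ^ r - C β : E[X]).roots.map fun α => X - C α).prod :=
    (IsAlgClosed.splits _).eq_prod_roots_of_monic hm
  have h2 : aeval f (X ^ r - C β : E[X]) = f ^ r - algebraMap E (Module.End E V) β := by
    rw [map_sub, map_pow, aeval_X, aeval_C]
  have h3 := blocks_multiset f e hf (X ^ r - C β : E[X]).roots x
  rw [← h1, h2] at h3
  exact h3 hx

theorem blocks_smul {f : Module.End E V} {e : ℕ} (hf : BlocksLE f e) {c : E} (hc : c ≠ 0) :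
    BlocksLE (c • f) e := by
  intro β x hx
  have h1 : c • f - algebraMap E (Module.End E V) β =
      c • (f - algebraMap E (Module.End E V) (β / c)) := by
    rw [smul_sub]
    congr 1
    apply LinearMap.ext
    intro y
    show β • y = c • ((β / c) • y)
    rw [smul_smul, mul_div_cancel₀ _ hc]
  have h2 : ∀ n : ℕ, ((c • f - algebraMap E (Module.End E V) β) ^ n) x =
      c ^ n • (((f - algebraMap E (Module.End E V) (β / c)) ^ n) x) := by
    intro n
    rw [h1, _root_.smul_pow, LinearMap.smul_apply]
  rw [h2] at hx ⊢
  rw [smul_eq_zero] at hx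
  rw [hf _ x (hx.resolve_left (pow_ne_zero _ hc)), smul_zero]

end Pool.Agent.H313.GE
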