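import Pool.Agent.H313.GE.Rel
import Pool.Agent.H313.GE.Jor2

/-!
Correspondences which commute with Frobenius.
-/

set_option autoImplicit false
set_option linter.all false
set_option maxHeartbeats 4000000

open Module NumberField Polynomial

namespace Pool.Agent.H313.GE

section fin

theorem exists_fin {β : Type} (s : Multiset β) {d : ℕ} (hd : Multiset.card s = d) :
    ∃ x : Fin d → β, Finset.univ.val.map x = s := by
  subst hd
  induction s using Quotient.inductionOn with
  | h l =>
    refine ⟨fun i => l.get i, ?_⟩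
    rw [Fin.univ_val_map]
    congr 1
    exact List.ofFn_get l

end fin

section comm

variable {E V : Type} [Field E] [AddCommGroup V] [Module E V] [FiniteDimensional E V]

/-- a basis of eigenvectors -/
theorem exists_basis {f : Module.End E V} {d : ℕ} (hd : finrank E V = d) {x : Fin d → E}
    (hinj : Function.Injective x) (hx : ∀ i, (LinearMap.charpoly f).IsRoot (x i)) :
    ∃ b : Basis (Fin d) E V, ∀ i, f (b i) = x i • b i := by
  have h1 : ∀ i, ∃ v, f.HasEigenvector (x i) v := fun i =>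
    ((Module.End.hasEigenvalue_iff_isRoot_charpoly f (x i)).2 (hx i)).exists_hasEigenvector
  choose v hv using h1
  have hli := Module.End.eigenvectors_linearIndependent' f x hinj v hv
  have hcard : Fintype.card (Fin d) = finrank E V := by rw [Fintype.card_fin, hd]
  refine ⟨basisOfLinearIndependentOfCardEqFinrank' v hli hcard, fun i => ?_⟩
  rw [coe_basisOfLinearIndependentOfCardEqFinrank']
  exact (hv i).apply_eq_smul

/-- **The operators which commute with Frobenius, up to a root of unity.** -/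
theorem commutant {f : Module.End E V} {d : ℕ} (hd : finrank E V = d) {x : Fin d → E}
    (hx : ∀ i, (LinearMap.charpoly f).IsRoot (x i)) (hx0 : ∀ i, x i ≠ 0)
    (hno : ∀ i i', i ≠ i' → ∀ n : ℕ, 0 < n → (x i * (x i')⁻¹) ^ n ≠ 1) {r : ℕ} (hr : 0 < r)
    {α β : E} (hα : α ≠ 0) (hβ : β ≠ 0) {N : ℕ} (hN : 0 < N) (hαN : α ^ N = 1) (hβN : β ^ N = 1)
    (g : Module.End E V) (hg : g ∘ₗ (α • f ^ r) = (β • f ^ r) ∘ₗ g) :
    g ∈ Algebra.adjoin E {f ^ r} ∧ (α ≠ β → g = 0) := by
  classical
  have hpr : ∀ i i', i ≠ i' → ∀ γ : E, γ ^ N = 1 → (x i) ^ r ≠ γ * (x i') ^ r := by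
    intro i i' hii γ hγ h
    refine hno i i' hii (r * N) (Nat.mul_pos hr hN) ?_
    rw [pow_mul, mul_pow, inv_pow, h, mul_assoc, mul_inv_cancel₀ (pow_ne_zero r (hx0 i')), mul_one,
      hγ]
  have hinj : Function.Injective x := by
    intro i i' h
    by_contra hne
    exact hpr i i' hne 1 (one_pow N) (by rw [h, one_mul])
  obtain ⟨b, hb⟩ := exists_basis hd hinj hx
  have hfr : ∀ (r : ℕ) i, (f ^ r) (b i) = x i ^ r • b i := by
    intro r i
    induction r with
    | zero => rw [pow_zero, pow_zero, one_smul, Module.End.one_apply]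
    | succ r ih =>
      rw [pow_succ', Module.End.mul_apply, ih, map_smul, hb, smul_smul, pow_succ]
  have h2 : ∀ (i' : Fin d) (w : V), b.repr ((f ^ r) w) i' = x i' ^ r * b.repr w i' := by
    intro i' w
    conv_lhs => rw [← b.sum_repr w]
    rw [map_sum, map_sum, Finsupp.finset_sum_apply, Finset.sum_eq_single i']
    · rw [map_smul, hfr, smul_smul, map_smul, Basis.repr_self, Finsupp.smul_single,
        Finsupp.single_eq_same, smul_eq_mul, mul_one, mul_comm]
    · intro l _ hl
      rw [map_smul, hfr, smul_smul, map_smul, Basis.repr_self, Finsupp.smul_single,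
        Finsupp.single_eq_of_ne (by first | exact hl | exact hl.symm)]
    · intro h3
      exact absurd (Finset.mem_univ i') h3
  have hcoef : ∀ i i', i' ≠ i → b.repr (g (b i)) i' = 0 := by
    intro i i' hne
    have h1 := congrArg (fun h : V →ₗ[E] V => b.repr (h (b i)) i') hg
    simp only [LinearMap.comp_apply, LinearMap.smul_apply, hfr, map_smul, Finsupp.smul_apply,
      smul_eq_mul, h2] at h1
    by_contra hc
    have h3 : α * x i ^ r = β * x i' ^ r := by
      apply mul_right_cancel₀ hc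
      rw [← sub_eq_zero] at h1 ⊢
      rw [← h1]
      ring
    refine hpr i' i hne (α / β) (by rw [div_pow, hαN, hβN, div_one]) ?_
    rw [div_mul_eq_mul_div, eq_div_iff hβ, mul_comm, ← h3]
  have hdiag : ∀ i, g (b i) = b.repr (g (b i)) i • b i := by
    intro i
    conv_lhs => rw [← b.sum_repr (g (b i))]
    rw [Finset.sum_eq_single i]
    · intro i' _ hne
      rw [hcoef i i' hne, zero_smul]
    · intro h3
      exact absurd (Finset.mem_univ i) h3
  set y : Fin d → E := fun i => b.repr (g (b i)) i with hy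
  refine ⟨?_, ?_⟩
  · have hinjr : Set.InjOn (fun i => x i ^ r) (Finset.univ : Finset (Fin d)) := by
      intro i _ i' _ h
      by_contra hne
      exact hpr i i' hne 1 (one_pow N) (by rw [one_mul]; exact h)
    set p := Lagrange.interpolate Finset.univ (fun i => x i ^ r) y with hp
    have h1 : g = aeval (f ^ r) p := by
      apply b.ext
      intro i
      have h2 : ∀ q : E[X], (aeval (f ^ r) q) (b i) = q.eval (x i ^ r) • b i := by
        intro q
        exact Module.End.aeval_apply_of_hasEigenvector ⟨Module.End.mem_eigenspace_iff.2 (hfr r i),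
          b.ne_zero i⟩
      rw [h2, hp, Lagrange.eval_interpolate_at_node _ hinjr (Finset.mem_univ i), hdiag i]
    rw [h1]
    exact Polynomial.aeval_mem_adjoin_singleton E (f ^ r)
  · intro hne
    apply b.ext
    intro i
    rw [hdiag i, LinearMap.zero_apply]
    have h1 := congrArg (fun h : V →ₗ[E] V => b.repr (h (b i)) i) hg
    simp only [LinearMap.comp_apply, LinearMap.smul_apply, hfr, map_smul, Finsupp.smul_apply,
      smul_eq_mul, h2] at h1
    have h4 : (α - β) * (x i ^ r * b.repr (g (b i)) i) = 0 := by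
      rw [sub_mul, h1, sub_self]
    have h3 := (mul_eq_zero.1 h4).resolve_left (sub_ne_zero.2 hne)
    rw [(mul_eq_zero.1 h3).resolve_left (pow_ne_zero r (hx0 i)), zero_smul]

end comm

section ratio

variable {E : Type} [Field E] [CharZero E] [IsAlgClosed E]

/-- the exponents of the ratios -/
def rat {d : ℕ} (p : Fin d × Fin d) : Unit → Fin d → ℤ := fun _ l =>
  (if l = p.1 then 1 else 0) - (if l = p.2 then 1 else 0)

theorem rat_prod {F : Type} [Field F] {d : ℕ} (c : Fin d → F) (hc : ∀ i, c i ≠ 0)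
    (p : Fin d × Fin d) :
    (∏ t : Unit, ∏ l, c l ^ rat p t l) = c p.1 * (c p.2)⁻¹ := by
  classical
  rw [Fintype.prod_unique]
  have h1 : ∀ l, c l ^ rat p default l =
      (if l = p.1 then c l else 1) * (if l = p.2 then (c l)⁻¹ else 1) := by
    intro l
    unfold rat
    rw [zpow_sub₀ (hc l), div_eq_mul_inv]
    split_ifs <;> simp
  rw [Finset.prod_congr rfl fun l _ => h1 l, Finset.prod_mul_distrib, Finset.prod_ite_eq',
    Finset.prod_ite_eq']
  simp

theorem rat_inj {d : ℕ} {p p' : Fin d × Fin d} (hp : p.1 ≠ p.2) (h : rat p = rat p') : p = p' := by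
  have h1 := congrFun (congrFun h ()) p.1
  have h2 := congrFun (congrFun h ()) p.2
  unfold rat at h1 h2
  rw [if_pos rfl, if_neg hp] at h1
  rw [if_neg hp.symm, if_pos rfl] at h2
  have e1 : p.1 = p'.1 := by
    by_contra hne
    rw [if_neg hne] at h1
    split_ifs at h1 <;> omega
  have e2 : p.2 = p'.2 := by
    by_contra hne
    rw [if_neg hne] at h2
    split_ifs at h2 <;> omega
  exact Prod.ext e1 e2

/-- **The ratios of the eigenvalues are not roots of unity.** -/
theorem no_ratio {K : Type} [Field K] [NumberField K] (φ : 𝓞 K →+* E) {ℓ : ℕ}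
    [hℓ : Fact ℓ.Prime] {d : ℕ} {D : (𝓞 K)[X]} {x : Fin d → E} (hD0 : D.coeff 0 = 1)
    (hx : D.map φ = ∏ i, (1 - C (x i) * X)) {H : (ZMod ℓ)[X]}
    (hmod : ∀ (R : Type) [Field R] [CharP R ℓ] (ρ : 𝓞 K →+* R),
      D.map ρ = H.map (ZMod.castHom (dvd_refl ℓ) R))
    {c : Fin d → AlgebraicClosure (ZMod ℓ)} (hc0 : ∀ i, c i ≠ 0)
    (hc : H.map (algebraMap (ZMod ℓ) (AlgebraicClosure (ZMod ℓ))) = ∏ i, (1 - C (c i) * X))
    {W : (ZMod ℓ)[X]} (hW : W.map (algebraMap (ZMod ℓ) (AlgebraicClosure (ZMod ℓ))) =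
      ∏ i, ∏ i' ∈ Finset.univ.erase i, (1 - C (c i * (c i')⁻¹) * X))
    (hno : ∀ m : ℕ, 0 < m → ¬ ℓ ∣ m → ¬ cyclotomic m (ZMod ℓ) ∣ W)
    (hx0 : ∀ i, x i ≠ 0) (i i' : Fin d) (hii : i ≠ i') (n : ℕ) (hn : 0 < n) :
    (x i * (x i')⁻¹) ^ n ≠ 1 := by
  classical
  set S₀ : Finset (Fin d × Fin d) := Finset.univ.filter fun p => p.1 ≠ p.2 with hS₀
  set S : Finset (Unit → Fin d → ℤ) := S₀.image rat with hS
  have hmem : ∀ p : Fin d × Fin d, p.1 ≠ p.2 → rat p ∈ S := fun p hp =>
    Finset.mem_image_of_mem _ (Finset.mem_filter.2 ⟨Finset.mem_univ _, hp⟩)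
  have hclosed : ∀ e ∈ S, ∀ π : Unit → Equiv.Perm (Fin d), (fun t i => e t (π t i)) ∈ S := by
    intro e he π
    obtain ⟨p, hp, rfl⟩ := Finset.mem_image.1 he
    have hp' := (Finset.mem_filter.1 hp).2
    have h1 : (fun t i => rat p t (π t i)) =
        rat ((π ()).symm p.1, (π ()).symm p.2) := by
      funext t i
      unfold rat
      simp only [Equiv.eq_symm_apply]
    rw [h1]
    exact hmem _ fun h => hp' ((π ()).symm.injective h)
  have hWS : W.map (algebraMap (ZMod ℓ) (AlgebraicClosure (ZMod ℓ))) =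
      ∏ e ∈ S, (1 - C (∏ t : Unit, ∏ i, c i ^ e t i) * X) := by
    rw [hS, Finset.prod_image]
    · rw [hW]
      have h1 : ∏ i, ∏ i' ∈ Finset.univ.erase i,
          (1 - C (c i * (c i')⁻¹) * X : (AlgebraicClosure (ZMod ℓ))[X]) =
          ∏ p ∈ S₀, (1 - C (c p.1 * (c p.2)⁻¹) * X) := by
        rw [hS₀, Finset.prod_filter, ← Finset.univ_product_univ, Finset.prod_product]
        refine Finset.prod_congr rfl fun i _ => ?_
        rw [← Finset.prod_filter]
        refine Finset.prod_congr ?_ fun i' _ => rfl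
        ext i'
        simp only [Finset.mem_erase, Finset.mem_filter, Finset.mem_univ, and_true, true_and]
        exact ne_comm
      rw [h1]
      refine Finset.prod_congr rfl fun p _ => ?_
      rw [rat_prod c hc0 p]
    · intro p hp p' _ h
      exact rat_inj (Finset.mem_filter.1 (Finset.mem_coe.1 hp)).2 h
  have h1 := no_relation φ (T := Unit) (d := fun _ => d) (fun _ => D) (fun _ => x)
    (fun _ => hD0) (fun _ => hx) (fun _ => H) (fun _ => hmod) (fun _ => c) (fun _ => hc0)
    (fun _ => hc) S hclosed hWS hno (Q := 1) one_ne_zero (by rw [Nat.cast_one]) (hmem (i, i') hii) 0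
    hn
  rw [rat_prod x hx0] at h1
  rwa [zpow_zero, one_pow] at h1

end ratio

end Pool.Agent.H313.GE

namespace Pool.Agent.H313.GE.Pts

open Pool.Agent.H313.GE Pool.Agent.H313.CC
open Pool.Agent.TH639.SN (SpacePt normValue chart eulerProduct finite_le deg_pos)

section defs

/-- The polynomial `H` is the product of the `1 - c_i T`, and `W` the product of the
`1 - (c_i / c_i') T` over the pairs of different indices `i`, `i'`. -/
def IsRatioPolynomial (ℓ : ℕ) [Fact ℓ.Prime] (H W : (ZMod ℓ)[X]) : Prop :=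
  ∃ (d : ℕ) (c : Fin d → AlgebraicClosure (ZMod ℓ)), (∀ i, c i ≠ 0) ∧
    H.map (algebraMap (ZMod ℓ) (AlgebraicClosure (ZMod ℓ))) = ∏ i, (1 - C (c i) * X) ∧
    W.map (algebraMap (ZMod ℓ) (AlgebraicClosure (ZMod ℓ))) =
      ∏ i, ∏ i' ∈ Finset.univ.erase i, (1 - C (c i * (c i')⁻¹) * X)

end defs

section thm

variable {k : Type} [Field k] [Finite k]

/-- **The eigenvalues of one twist of a family.** -/
theorem twisted_eigen {ℓ : ℕ} [hℓ : Fact ℓ.Prime] {K : Type} [Field K] [NumberField K]
    {M s m : ℕ} (G : Fin s → MvPolynomial (Fin (M + 1)) k)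
    (F : Fin m → MvPolynomial (Fin (M + 1)) k)
    (P : Pt G → ℤ[X]) (hP : ∀ z, (P z).coeff 0 = 1)
    (ψ : Fin m → MulChar k (𝓞 K)) (I : Finset (Fin m)) (a : Fin m → ℕ)
    (hψ : ∀ i ∈ I, ψ i ^ ℓ ^ a i = 1) {n : ℕ} {D : (𝓞 K)[X]}
    (hD : IsSigned n (twistedProduct G F P ψ I) D) {E V : Type} [Field E] [CharZero E]
    [IsAlgClosed E] [AddCommGroup V] [Module E V] [FiniteDimensional E V] (φ : 𝓞 K →+* E)
    (Φ : Module.End E V) (hΦ : IsDet φ Φ D) {H W : (ZMod ℓ)[X]}
    (hH : IsSigned n (PowerSeries.map (Int.castRingHom (ZMod ℓ)) (openProduct G F P I)) H)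
    (hW : IsRatioPolynomial ℓ H W) (hno : NoCyclotomic ℓ W)
    (hdeg : H.natDegree = finrank E V) :
    ∃ x : Fin (finrank E V) → E, (∀ i, (LinearMap.charpoly Φ).IsRoot (x i)) ∧ (∀ i, x i ≠ 0) ∧
      ∀ i i', i ≠ i' → ∀ n : ℕ, 0 < n → (x i * (x i')⁻¹) ^ n ≠ 1 := by
  classical
  obtain ⟨hD0, hmod⟩ := twisted_mod G F P hP ψ I a hψ hD hH
  obtain ⟨d, c, hc0, hc, hWc⟩ := hW
  have hne : ∀ a : AlgebraicClosure (ZMod ℓ), (1 - C a * X : (AlgebraicClosure (ZMod ℓ))[X]) ≠ 0 := by
    intro a h1
    have h2 := congrArg (fun p => Polynomial.coeff p 0) h1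
    simp at h2
  have hd : d = finrank E V := by
    rw [← hdeg, ← natDegree_map (algebraMap (ZMod ℓ) (AlgebraicClosure (ZMod ℓ))), hc,
      natDegree_prod _ _ fun i _ => hne _]
    have h2 : ∑ i, (1 - C (c i) * X : (AlgebraicClosure (ZMod ℓ))[X]).natDegree =
        ∑ _i : Fin d, 1 := by
      refine Finset.sum_congr rfl fun i _ => ?_
      have h1 : (1 - C (c i) * X : (AlgebraicClosure (ZMod ℓ))[X]) = C (-(c i)) * X + C 1 := by
        rw [C_neg, C_1]
        ring
      rw [h1, natDegree_linear (neg_ne_zero.2 (hc0 i))]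
    rw [h2]
    simp
  subst hd
  have hcard : Multiset.card (LinearMap.charpoly Φ).roots = finrank E V := by
    rw [← LinearMap.charpoly_natDegree Φ]
    exact splits_iff_card_roots.1 (IsAlgClosed.splits _)
  obtain ⟨x, hx⟩ := exists_fin _ hcard
  have hxD : D.map φ = ∏ i, (1 - C (x i) * X) := by
    have h1 : D.map φ = ((LinearMap.charpoly Φ).roots.map fun x => 1 - C x * X).prod := hΦ
    rw [h1, ← hx, Multiset.map_map]
    rfl
  have hroot : ∀ i, (LinearMap.charpoly Φ).IsRoot (x i) := by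
    intro i
    have h1 : x i ∈ (LinearMap.charpoly Φ).roots := by
      rw [← hx]
      exact Multiset.mem_map_of_mem x (Finset.mem_univ_val i)
    exact (mem_roots'.1 h1).2
  -- the eigenvalues are not zero
  have hx0 : ∀ i, x i ≠ 0 := by
    have hφ : Function.Injective φ := by
      rw [RingHom.injective_iff_ker_eq_bot]
      apply Ideal.eq_bot_of_comap_eq_bot (R := ℤ)
      rw [eq_bot_iff]
      intro z hz
      rw [Ideal.mem_comap, RingHom.mem_ker, eq_intCast, map_intCast, Int.cast_eq_zero] at hz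
      rw [hz]
      exact Ideal.zero_mem _
    have hneE : ∀ a : E, (1 - C a * X : E[X]) ≠ 0 := by
      intro a h1
      have h2 := congrArg (fun p => Polynomial.coeff p 0) h1
      simp at h2
    have hdegE : ∀ a : E, (1 - C a * X : E[X]).natDegree = if a = 0 then 0 else 1 := by
      intro a
      split_ifs with ha
      · rw [ha, C_0, zero_mul, sub_zero, natDegree_one]
      · have h1 : (1 - C a * X : E[X]) = C (-a) * X + C 1 := by
          rw [C_neg, C_1]
          ring
        rw [h1, natDegree_linear (neg_ne_zero.2 ha)]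
    -- the degree of `D` is at least the degree of `H`
    obtain ⟨M', hM', hm⟩ := Pool.Agent.TH639.SC.exists_red (𝓞 K) hℓ.out
    letI : Field (𝓞 K ⧸ M') := Ideal.Quotient.field M'
    have h0 : ((ℓ : ℕ) : 𝓞 K ⧸ M') = 0 := by
      have := Ideal.Quotient.eq_zero_iff_mem.2 hm
      rwa [map_natCast] at this
    have hch := Pool.Agent.TH639.SC.charP_of_mem (R := 𝓞 K ⧸ M') hℓ.out h0
    have h1 := hmod (𝓞 K ⧸ M') (Ideal.Quotient.mk M')
    have h2 : finrank E V ≤ D.natDegree := by
      rw [← hdeg, ← natDegree_map (ZMod.castHom (dvd_refl ℓ) (𝓞 K ⧸ M')), ← h1]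
      exact natDegree_map_le
    have h3 : D.natDegree = ∑ i, (1 - C (x i) * X : E[X]).natDegree := by
      rw [← natDegree_map_eq_of_injective hφ, hxD, natDegree_prod _ _ fun i _ => hneE _]
    have h4 : ∑ i, (1 - C (x i) * X : E[X]).natDegree = ∑ _i : Fin (finrank E V), 1 := by
      apply le_antisymm
      · refine Finset.sum_le_sum fun i _ => ?_
        rw [hdegE]
        split_ifs <;> omega
      · rw [← h3]
        simpa using h2
    have h5 := (Finset.sum_eq_sum_iff_of_le (s := Finset.univ)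
      (f := fun i => (1 - C (x i) * X : E[X]).natDegree) (g := fun _ => 1) (fun i _ => by
        rw [hdegE]
        split_ifs <;> omega)).1 h4
    intro i hi
    have h6 := h5 i (Finset.mem_univ i)
    rw [hdegE, if_pos hi] at h6
    omega
  exact ⟨x, hroot, hx0, fun i i' hii n hn =>
    no_ratio φ hD0 hxD hmod hc0 hc hWc hno hx0 i i' hii n hn⟩

end thm

end Pool.Agent.H313.GE.Pts
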