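import Pool.Agent.H313.GE.Geo

/-!
The comparison of the numbers of the zeros `ζ / Q` by a divisibility modulo `ℓ`, and the finiteness of
the set of the exceptional primes.
-/

set_option autoImplicit false
set_option linter.all false
set_option maxHeartbeats 4000000

open Polynomial

namespace Pool.Agent.H313.GE

open Pool.Agent.W343.BSD (rm_mul rm_pow rm_one)

theorem sum_exchange (f c g : ℕ → ℕ) (M : Finset ℕ) (s : Multiset ℕ) (h : ∀ N ∈ s, f N ∈ M) :
    (s.map (fun N => c (f N) * g N)).sum =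
      ∑ m ∈ M, c m * (s.map (fun N => if f N = m then g N else 0)).sum := by
  classical
  induction s using Multiset.induction_on with
  | empty => simp
  | cons N s ih =>
    have h1 := ih (fun K hK => h K (Multiset.mem_cons_of_mem hK))
    have h2 : ∀ m ∈ M, c m * ((N ::ₘ s).map (fun N => if f N = m then g N else 0)).sum =
        c m * (if f N = m then g N else 0) +
          c m * (s.map (fun N => if f N = m then g N else 0)).sum := by
      intro m _
      rw [Multiset.map_cons, Multiset.sum_cons, mul_add]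
    rw [Multiset.map_cons, Multiset.sum_cons, h1, Finset.sum_congr rfl h2, Finset.sum_add_distrib]
    congr 1
    rw [Finset.sum_eq_single (f N)]
    · rw [if_pos rfl]
    · intro m _ hm
      rw [if_neg (fun h => hm h.symm), mul_zero]
    · intro hn
      exact absurd (h N (Multiset.mem_cons_self N s)) hn

section mod

variable {ℓ : ℕ} [hℓ : Fact ℓ.Prime] {E : Type} [Field E] [Algebra (ZMod ℓ) E] [IsAlgClosed E]

omit [IsAlgClosed E] in
theorem rm_cprod (hch : CharP E ℓ) {Q : ℕ} (hQ : (Q : E) ≠ 0) {m : ℕ} (hm : ¬ ℓ ∣ m) {x : E}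
    (hx : IsPrimitiveRoot x m) (s : Multiset ℕ) (hs : ∀ N ∈ s, 0 < N) :
    cprod E Q s ≠ 0 ∧ (cprod E Q s).rootMultiplicity ((Q : E)⁻¹ * x) =
      (s.map (fun N => if N / ℓ ^ N.factorization ℓ = m then
        (ℓ ^ N.factorization ℓ).totient else 0)).sum := by
  classical
  induction s using Multiset.induction_on with
  | empty =>
    rw [cprod_zero]
    refine ⟨one_ne_zero, ?_⟩
    rw [rm_one, Multiset.map_zero, Multiset.sum_zero]
  | cons N s ih =>
    obtain ⟨h1, h2⟩ := ih (fun K hK => hs K (Multiset.mem_cons_of_mem hK))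
    have hN := hs N (Multiset.mem_cons_self N s)
    have hne : cyc E N Q ≠ 0 := by
      intro h
      have h3 := congrArg (fun p : E[X] => p.comp (C (Q : E)⁻¹ * X)) h
      have h4 := scale_comp (inv_ne_zero hQ) (cyclotomic N E)
      rw [inv_inv] at h4
      simp only [cyc, zero_comp] at h3
      rw [h4] at h3
      exact cyclotomic_ne_zero N E h3
    rw [cprod_cons]
    refine ⟨mul_ne_zero hne h1, ?_⟩
    rw [rm_mul _ hne h1, h2, Multiset.map_cons, Multiset.sum_cons]
    congr 1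
    unfold cyc
    rw [Pool.Agent.Y701.CB.rm_comp hQ, ← mul_assoc, mul_inv_cancel₀ hQ, one_mul]
    exact rm_cyclotomic hch hm hN hx

end mod

section le

variable {ℓ : ℕ} [hℓ : Fact ℓ.Prime]

theorem totient_split {N : ℕ} (hN : 0 < N) :
    N.totient = (N / ℓ ^ N.factorization ℓ).totient * (ℓ ^ N.factorization ℓ).totient := by
  conv_lhs => rw [← Nat.ordProj_mul_ordCompl_eq_self N ℓ]
  rw [Nat.totient_mul ((Nat.coprime_ordCompl hℓ.out hN.ne').pow_left _), mul_comm]

/-- the comparison -/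
theorem sum_le {Q : ℕ} (hQ : (Q : ZMod ℓ) ≠ 0) {H : (ZMod ℓ)[X]} (hH0 : H ≠ 0)
    (hH : NoCyc ℓ Q H) {s t : Multiset ℕ} (hs : ∀ N ∈ s, 0 < N) (ht : ∀ N ∈ t, 0 < N) {n : ℕ}
    (h : cprod (ZMod ℓ) Q s ∣ (cprod (ZMod ℓ) Q t * H) ^ n) :
    (s.map Nat.totient).sum ≤ n * (t.map Nat.totient).sum := by
  classical
  set E := AlgebraicClosure (ZMod ℓ) with hE
  have hch : CharP E ℓ := charP_of_injective_algebraMap (algebraMap (ZMod ℓ) E).injective ℓ
  have hQE : (Q : E) ≠ 0 := by
    rw [← map_natCast (algebraMap (ZMod ℓ) E)]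
    exact (_root_.map_ne_zero _).2 hQ
  set f : ℕ → ℕ := fun N => N / ℓ ^ N.factorization ℓ with hf
  set g : ℕ → ℕ := fun N => (ℓ ^ N.factorization ℓ).totient with hg
  set M : Finset ℕ := ((s + t).map f).toFinset with hM
  have hMs : ∀ N ∈ s, f N ∈ M := fun N hN => by
    rw [hM, Multiset.mem_toFinset]
    exact Multiset.mem_map_of_mem f (Multiset.mem_add.2 (Or.inl hN))
  have hMt : ∀ N ∈ t, f N ∈ M := fun N hN => by
    rw [hM, Multiset.mem_toFinset]
    exact Multiset.mem_map_of_mem f (Multiset.mem_add.2 (Or.inr hN))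
  have hMp : ∀ m ∈ M, 0 < m ∧ ¬ ℓ ∣ m := by
    intro m hm
    rw [hM, Multiset.mem_toFinset] at hm
    obtain ⟨N, hN, rfl⟩ := Multiset.mem_map.1 hm
    have hN0 : 0 < N := by
      rcases Multiset.mem_add.1 hN with h1 | h1
      · exact hs N h1
      · exact ht N h1
    exact ⟨Nat.ordCompl_pos ℓ hN0.ne', Nat.not_dvd_ordCompl hℓ.out hN0.ne'⟩
  have hφ : ∀ u : Multiset ℕ, (∀ N ∈ u, 0 < N) → (u.map Nat.totient).sum =
      (u.map (fun N => Nat.totient (f N) * g N)).sum := by
    intro u hu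
    congr 1
    refine Multiset.map_congr rfl fun N hN => ?_
    exact totient_split (hu N hN)
  rw [hφ s hs, hφ t ht, sum_exchange f Nat.totient g M s hMs, sum_exchange f Nat.totient g M t hMt,
    Finset.mul_sum]
  refine Finset.sum_le_sum fun m hm => ?_
  obtain ⟨hm0, hml⟩ := hMp m hm
  obtain ⟨x, hx, hHx⟩ := exists_pt (E := E) hQ hH hm0 hml
  obtain ⟨h1, h2⟩ := rm_cprod hch hQE hml hx s hs
  obtain ⟨h3, h4⟩ := rm_cprod hch hQE hml hx t ht
  have hHE : H.map (algebraMap (ZMod ℓ) E) ≠ 0 := by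
    rwa [Ne, Polynomial.map_eq_zero_iff (algebraMap (ZMod ℓ) E).injective]
  have hd : cprod E Q s ∣ (cprod E Q t * H.map (algebraMap (ZMod ℓ) E)) ^ n := by
    have := (map_dvd (mapRingHom (algebraMap (ZMod ℓ) E)) h)
    rw [coe_mapRingHom, cprod_map, Polynomial.map_pow, Polynomial.map_mul, cprod_map] at this
    exact this
  have hle := rootMultiplicity_le_rootMultiplicity_of_dvd
    (pow_ne_zero n (mul_ne_zero h3 hHE)) hd ((Q : E)⁻¹ * x)
  have hH1 : (H.map (algebraMap (ZMod ℓ) E)).rootMultiplicity ((Q : E)⁻¹ * x) = 0 := by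
    apply rootMultiplicity_eq_zero
    rw [IsRoot.def, eval_map_algebraMap]
    exact hHx
  rw [h2, rm_pow _ (mul_ne_zero h3 hHE), rm_mul _ h3 hHE, h4, hH1, add_zero] at hle
  calc m.totient * _ ≤ m.totient * _ := Nat.mul_le_mul_left _ hle
    _ = _ := by ring

/-- The zeros `ζ / Q` of `A` are at most `n` times as many as those of `B`, if `A` divides `B ^ n`
modulo `ℓ` and the other factor of `B` has no `Φ_m (Q T)` modulo `ℓ`. -/
theorem geo_le {Q : ℕ} (hQ0 : Q ≠ 0) (hQ : (Q : ZMod ℓ) ≠ 0) {A B : ℤ[X]}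
    (hA : IsUnit (A.coeff 0)) {t : Multiset ℕ} {B₂ : ℤ[X]} (ht : ∀ N ∈ t, 0 < N)
    (hB : B = cprod ℤ Q t * B₂) (hB₂ : IsUnit (B₂.coeff 0))
    (hgeo : geo Q B = (t.map Nat.totient).sum)
    (hno : NoCyc ℓ Q (B₂.map (Int.castRingHom (ZMod ℓ)))) {n : ℕ}
    (h : A.map (Int.castRingHom (ZMod ℓ)) ∣ B.map (Int.castRingHom (ZMod ℓ)) ^ n) :
    geo Q A ≤ n * geo Q B := by
  obtain ⟨s, A₂, hs, hA₁, -, hA₂, hgA⟩ := exists_decomp hQ0 _ A le_rfl hA
  rw [hgA, hgeo]
  refine sum_le hQ (H := B₂.map (Int.castRingHom (ZMod ℓ))) ?_ hno hs ht ?_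
  · intro h0
    have h1 := congrArg (fun p => Polynomial.coeff p 0) h0
    simp only [Polynomial.coeff_map, coeff_zero] at h1
    have h2 := hB₂.map (Int.castRingHom (ZMod ℓ))
    rw [h1] at h2
    exact not_isUnit_zero h2
  · rw [hA₁, hB, Polynomial.map_mul, Polynomial.map_mul, cprod_map, cprod_map] at h
    exact (Dvd.intro _ rfl).trans h

end le

end Pool.Agent.H313.GE
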