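import Pool.Agent.H313.CC.Tensor
import Pool.Agent.H313.CC.Loc
import Pool.Agent.H313.GE.Le

/-!
Families of power series indexed by characters: the product of the members modulo `ℓ`, and the number
of the zeros `ζ / Q` of the product.
-/

set_option autoImplicit false
set_option linter.all false
set_option maxHeartbeats 4000000

open Module NumberField Polynomial

namespace Pool.Agent.H313.GE

open Pool.Agent.H313.CC Pool.Agent.W343.BSD
open Pool.Agent.TH639.SG (eq_one_of_pow)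
open Pool.Agent.TH639.SC (exists_hom)
open Pool.Agent.TH639.CK (card_dvd)

section res

/-- products over residue classes -/
theorem prod_res {M : Type} [CommMonoid M] {n q : ℕ} (hn : 0 < n) (g : ℕ → M) (hg : ∀ j, g j = g (j % n)) :
    ∏ j ∈ Finset.range (n * q), g j = (∏ r ∈ Finset.range n, g r) ^ q := by
  induction q with
  | zero => rw [mul_zero, Finset.range_zero, Finset.prod_empty, pow_zero]
  | succ q ih =>
    rw [mul_add, mul_one, Finset.prod_range_add, ih, pow_succ]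
    congr 1
    refine Finset.prod_congr rfl fun r hr => ?_
    rw [hg, Nat.mul_add_mod, ← hg]

/-- a permutation of the residue classes -/
theorem prod_unit {M : Type} [CommMonoid M] {n u : ℕ} (hn : 0 < n) (hu : u.Coprime n) (g : ℕ → M)
    (hg : ∀ j, g j = g (j % n)) :
    ∏ i ∈ Finset.Ico 1 n, g (i * u) = ∏ r ∈ Finset.Ico 1 n, g r := by
  have hinj : Set.InjOn (fun i => i * u % n) (Finset.Ico 1 n : Set ℕ) := by
    intro i hi i' hi' h
    have h1 : i * u ≡ i' * u [MOD n] := h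
    have h2 := Nat.ModEq.cancel_right_of_coprime hu.symm h1
    rw [Finset.coe_Ico] at hi hi'
    rw [Nat.ModEq, Nat.mod_eq_of_lt hi.2, Nat.mod_eq_of_lt hi'.2] at h2
    exact h2
  have hmaps : ∀ i ∈ Finset.Ico 1 n, i * u % n ∈ Finset.Ico 1 n := by
    intro i hi
    rw [Finset.mem_Ico] at hi ⊢
    refine ⟨Nat.pos_of_ne_zero fun h0 => ?_, Nat.mod_lt _ hn⟩
    have h1 : n ∣ i * u := Nat.dvd_of_mod_eq_zero h0
    have h2 : n ∣ i := Nat.Coprime.dvd_of_dvd_mul_right hu.symm h1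
    exact absurd (Nat.le_of_dvd (by omega) h2) (by omega)
  have himg : (Finset.Ico 1 n).image (fun i => i * u % n) = Finset.Ico 1 n := by
    apply Finset.eq_of_subset_of_card_le
    · intro r hr
      obtain ⟨i, hi, rfl⟩ := Finset.mem_image.1 hr
      exact hmaps i hi
    · rw [Finset.card_image_of_injOn hinj]
  conv_rhs => rw [← himg]
  rw [Finset.prod_image hinj]
  refine Finset.prod_congr rfl fun i hi => ?_
  rw [hg]

end res

section fam

variable {k : Type} [Field k] [Finite k]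

/-- **The polynomials of the coverings modulo `ℓ`.** -/
theorem cover_ring {ℓ a n : ℕ} (hℓ : ℓ.Prime) (hn0 : 0 < n) (hn : n.Coprime ℓ)
    (K : Type) [Field K] [NumberField K]
    {χ : MulChar k (𝓞 K)} (hχ : χ ^ (n * ℓ ^ a) = 1)
    {L₁ L₂ : ℤ[X]} {E : MulChar k (𝓞 K) → PowerSeries (𝓞 K)} (hE : Fam K L₁ L₂ E)
    {P Pv : ℤ[X]} (hP : ∏ i ∈ Finset.Ico 1 n, E (χ ^ (i * ℓ ^ a)) =
      PowerSeries.map (algebraMap ℤ (𝓞 K)) (P : PowerSeries ℤ))
    {v : k} (hv : v ≠ 0) (hPv : ∏ j ∈ Finset.Ico 1 (n * ℓ ^ a),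
      PowerSeries.rescale ((χ ^ j) (v ^ n)) (E (χ ^ j)) =
        PowerSeries.map (algebraMap ℤ (𝓞 K)) (Pv : PowerSeries ℤ))
    {R : Type} [Field R] [CharP R ℓ] (ρ : 𝓞 K →+* R) :
    (Pv * L₂ ^ (ℓ ^ a - 1)).map (Int.castRingHom R) =
      (L₁ ^ (ℓ ^ a - 1) * P ^ ℓ ^ a).map (Int.castRingHom R) := by
  have hFℓ : Fact ℓ.Prime := ⟨hℓ⟩
  have hpa : 0 < ℓ ^ a := pow_pos hℓ.pos a
  have hN : 0 < n * ℓ ^ a := Nat.mul_pos hn0 hpa
  have hχn : ∀ u : k, u ≠ 0 → ρ (χ u) ^ n = 1 := by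
    intro u hu
    apply eq_one_of_pow (ℓ := ℓ) (m := a)
    rw [← pow_mul, ← map_pow, ← MulChar.pow_apply' χ hN.ne', hχ,
      MulChar.one_apply (isUnit_iff_ne_zero.2 hu), map_one]
  -- the value at the exponent `j`, which depends only on `j` modulo `n`
  set g : ℕ → PowerSeries R := fun j => PowerSeries.map ρ (E (χ ^ (j % n + n))) with hg
  have hgm : ∀ j, g j = g (j % n) := fun j => by
    show PowerSeries.map ρ (E (χ ^ (j % n + n))) = PowerSeries.map ρ (E (χ ^ (j % n % n + n)))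
    rw [Nat.mod_mod]
  have hEg : ∀ j, 0 < j → PowerSeries.map ρ (E (χ ^ j)) = g j := by
    intro j hj
    apply hE.congr R ρ
    intro u hu
    rw [MulChar.pow_apply' χ hj.ne', MulChar.pow_apply' χ (by omega), map_pow, map_pow]
    refine pow_eq_pow_of_modEq ?_ (hχn u hu)
    show j % n = (j % n + n) % n
    rw [Nat.add_mod_right, Nat.mod_mod]
  have hresc : ∀ j ∈ Finset.Ico 1 (n * ℓ ^ a),
      PowerSeries.map ρ (PowerSeries.rescale ((χ ^ j) (v ^ n)) (E (χ ^ j))) = g j := by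
    intro j hj
    have hj0 := (Finset.mem_Ico.1 hj).1
    have h1 : ρ ((χ ^ j) (v ^ n)) = 1 := by
      rw [MulChar.pow_apply' χ (by omega), map_pow χ, map_pow, map_pow, hχn v hv, one_pow]
    rw [← hEg j (by omega)]
    ext i
    rw [PowerSeries.coeff_map, PowerSeries.coeff_rescale, map_mul, map_pow, h1, one_pow, one_mul,
      PowerSeries.coeff_map]
  have hPvR : ((Pv.map (Int.castRingHom R) : R[X]) : PowerSeries R) =
      ∏ j ∈ Finset.Ico 1 (n * ℓ ^ a), g j := by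
    have h1 := congrArg (PowerSeries.map ρ) hPv
    rw [map_prod, Finset.prod_congr rfl hresc, ← Polynomial.polynomial_map_coe,
      ← Polynomial.polynomial_map_coe, Polynomial.map_map] at h1
    rw [h1]
    congr 2
    exact RingHom.ext_int _ _
  have hPR : ((P.map (Int.castRingHom R) : R[X]) : PowerSeries R) =
      ∏ r ∈ Finset.Ico 1 n, g r := by
    have h1 := congrArg (PowerSeries.map ρ) hP
    rw [map_prod, ← Polynomial.polynomial_map_coe,
      ← Polynomial.polynomial_map_coe, Polynomial.map_map] at h1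
    rw [← prod_unit hn0 (u := ℓ ^ a) (Nat.Coprime.pow_left a hn.symm) g hgm]
    rw [Finset.prod_congr rfl fun i hi => (hEg (i * ℓ ^ a)
      (Nat.mul_pos (Finset.mem_Ico.1 hi).1 hpa)).symm, h1]
    congr 2
    exact RingHom.ext_int _ _
  have hg0 : g 0 * ((L₂.map (Int.castRingHom R) : R[X]) : PowerSeries R) =
      ((L₁.map (Int.castRingHom R) : R[X]) : PowerSeries R) := by
    have h1 := hE.ident R ρ (χ ^ n) (fun u hu => by
      rw [MulChar.pow_apply' χ hn0.ne', map_pow, hχn u hu])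
    rw [hEg n hn0] at h1
    have h2 : g n = g 0 := by rw [hgm n, Nat.mod_self]
    rwa [h2] at h1
  -- the product
  have hsplit : ∀ m : ℕ, 0 < m → ∏ j ∈ Finset.range m, g j = g 0 * ∏ j ∈ Finset.Ico 1 m, g j := by
    intro m hm
    rw [Finset.range_eq_Ico, Finset.prod_eq_prod_Ico_succ_bot hm]
  have hall : g 0 * ∏ j ∈ Finset.Ico 1 (n * ℓ ^ a), g j =
      (g 0 * ∏ r ∈ Finset.Ico 1 n, g r) ^ ℓ ^ a := by
    rw [← hsplit _ hN, ← hsplit _ hn0]
    exact prod_res hn0 g hgm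
  have hg0u : g 0 ≠ 0 := by
    intro h
    have h1 := hE.unit (χ ^ (0 % n + n))
    have h2 := congrArg PowerSeries.constantCoeff h
    have h3 : PowerSeries.constantCoeff (g 0) = 1 := by
      show PowerSeries.constantCoeff (PowerSeries.map ρ (E (χ ^ (0 % n + n)))) = 1
      rw [← PowerSeries.coeff_zero_eq_constantCoeff_apply, PowerSeries.coeff_map,
        PowerSeries.coeff_zero_eq_constantCoeff_apply, h1, map_one]
    rw [h3, map_zero] at h2
    exact one_ne_zero h2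
  apply Polynomial.coe_injective R
  rw [Polynomial.map_mul, Polynomial.map_mul, Polynomial.map_pow, Polynomial.map_pow,
    Polynomial.map_pow, Polynomial.coe_mul, Polynomial.coe_mul, Polynomial.coe_pow,
    Polynomial.coe_pow, Polynomial.coe_pow, hPvR, hPR, ← hg0]
  apply mul_left_cancel₀ hg0u
  have e1 : ℓ ^ a = (ℓ ^ a - 1) + 1 := by omega
  rw [← mul_assoc, hall]
  conv_lhs => rw [e1]
  rw [Nat.add_sub_cancel]
  conv_rhs => rw [e1]
  rw [Nat.add_sub_cancel]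
  ring

/-- the multiplicativity of the tensor product, for the reductions -/
theorem tn_ring {ℓ a n : ℕ} {K : Type} [Field K] [NumberField K]
    {B : Multiset (𝓞 K)} {P Pv L₁ L₂ W Wv W₁ W₂ : ℤ[X]} (hW : IsTn B P W) (hWv : IsTn B Pv Wv)
    (hW₁ : IsTn B L₁ W₁) (hW₂ : IsTn B L₂ W₂) {R : Type} [Field R] (ρ : 𝓞 K →+* R) {M N : ℕ}
    (h : (Pv * L₂ ^ M).map (Int.castRingHom R) = (L₁ ^ M * P ^ N).map (Int.castRingHom R)) :
    (Wv * W₂ ^ M).map (Int.castRingHom R) = (W₁ ^ M * W ^ N).map (Int.castRingHom R) := by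
  have h1 : ∀ {G V : ℤ[X]}, IsTn B G V → V.map (Int.castRingHom R) =
      tn (B.map ρ) (G.map (Int.castRingHom R)) := by
    intro G V hG
    have h2 := congrArg (Polynomial.map ρ) hG
    rw [tn_map, Polynomial.map_map, Polynomial.map_map] at h2
    have h3 : ρ.comp (algebraMap ℤ (𝓞 K)) = Int.castRingHom R := RingHom.ext_int _ _
    rwa [h3] at h2
  have hpow : ∀ (G : R[X]) (N : ℕ), tn (B.map ρ) (G ^ N) = tn (B.map ρ) G ^ N := by
    intro G N
    induction N with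
    | zero => rw [pow_zero, pow_zero, tn_one]
    | succ N ih => rw [pow_succ, pow_succ, tn_mul, ih]
  rw [Polynomial.map_mul, Polynomial.map_mul, Polynomial.map_pow, Polynomial.map_pow,
    Polynomial.map_pow] at h ⊢
  rw [h1 hWv, h1 hW₂, h1 hW₁, h1 hW, ← hpow, ← hpow, ← hpow, ← tn_mul, ← tn_mul, h]

theorem map_inj {ℓ : ℕ} [hℓ : Fact ℓ.Prime] {R : Type} [Field R] [CharP R ℓ] {A B : ℤ[X]}
    (h : A.map (Int.castRingHom R) = B.map (Int.castRingHom R)) :
    A.map (Int.castRingHom (ZMod ℓ)) = B.map (Int.castRingHom (ZMod ℓ)) := by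
  apply Polynomial.map_injective (ZMod.castHom (dvd_refl ℓ) R) (RingHom.injective _)
  rw [Polynomial.map_map, Polynomial.map_map]
  have h1 : (ZMod.castHom (dvd_refl ℓ) R).comp (Int.castRingHom (ZMod ℓ)) = Int.castRingHom R :=
    RingHom.ext_int _ _
  rw [h1, h]

/-- **The polynomials of the coverings times a fixed variety, modulo `ℓ`.** -/
theorem cover_mod {ℓ a n : ℕ} [hℓ : Fact ℓ.Prime] (hn0 : 0 < n) (hn : n.Coprime ℓ)
    (hd : ℓ ∣ Nat.card k - 1) (K : Type) [Field K] [NumberField K]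
    {χ : MulChar k (𝓞 K)} (hχ : χ ^ (n * ℓ ^ a) = 1) (B : Multiset (𝓞 K))
    {L₁ L₂ : ℤ[X]} {E : MulChar k (𝓞 K) → PowerSeries (𝓞 K)} (hE : Fam K L₁ L₂ E)
    {W₁ W₂ : ℤ[X]} (hW₁ : IsTn B L₁ W₁) (hW₂ : IsTn B L₂ W₂)
    {P W : ℤ[X]} (hP : ∏ i ∈ Finset.Ico 1 n, E (χ ^ (i * ℓ ^ a)) =
      PowerSeries.map (algebraMap ℤ (𝓞 K)) (P : PowerSeries ℤ)) (hW : IsTn B P W)
    {v : k} (hv : v ≠ 0) {Pv Wv : ℤ[X]} (hPv : ∏ j ∈ Finset.Ico 1 (n * ℓ ^ a),
      PowerSeries.rescale ((χ ^ j) (v ^ n)) (E (χ ^ j)) =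
        PowerSeries.map (algebraMap ℤ (𝓞 K)) (Pv : PowerSeries ℤ)) (hWv : IsTn B Pv Wv) :
    (Wv * W₂ ^ (ℓ ^ a - 1)).map (Int.castRingHom (ZMod ℓ)) =
      (W₁ ^ (ℓ ^ a - 1) * W ^ ℓ ^ a).map (Int.castRingHom (ZMod ℓ)) := by
  obtain ⟨R, _, _, ρ, hq⟩ := exists_hom (A := 𝓞 K) hℓ.out hd
  apply map_inj (R := R)
  exact tn_ring (ℓ := ℓ) (a := a) (n := n) hW hWv hW₁ hW₂ ρ
    (cover_ring hℓ.out hn0 hn K hχ hE hP hv hPv ρ)

end fam

section bound

variable {ℓ : ℕ} [hℓ : Fact ℓ.Prime]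

/-- the bound of the number of the zeros `ζ / Q` by the multiplicities of the `Φ_m (Q T)` -/
theorem geo_bound {Q : ℕ} (hQ0 : Q ≠ 0) (hQ : (Q : ZMod ℓ) ≠ 0) {A : ℤ[X]}
    (hA : IsUnit (A.coeff 0)) {t : Multiset ℕ} (ht : ∀ m ∈ t, 0 < m) {H : (ZMod ℓ)[X]}
    (hH0 : H ≠ 0) (hH : NoCyc ℓ Q H) {n : ℕ}
    (h : A.map (Int.castRingHom (ZMod ℓ)) ∣ (cprod (ZMod ℓ) Q t * H) ^ n) :
    geo Q A ≤ n * (t.map Nat.totient).sum := by
  obtain ⟨s, A₂, hs, hA₁, -, hA₂, hgA⟩ := exists_decomp hQ0 _ A le_rfl hA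
  rw [hgA]
  refine sum_le hQ hH0 hH hs ht ?_
  rw [hA₁, Polynomial.map_mul, cprod_map] at h
  exact (Dvd.intro _ rfl).trans h

theorem cyc_eq {Q : ℕ} (hQ : (Q : ZMod ℓ) = 1) (m : ℕ) :
    cyc (ZMod ℓ) m Q = cyclotomic m (ZMod ℓ) := by
  unfold cyc
  rw [hQ, C_1, one_mul, comp_X]

theorem cprod_eq {Q : ℕ} (hQ : (Q : ZMod ℓ) = 1) (t : Multiset ℕ) :
    cprod (ZMod ℓ) Q t = (t.map fun m => cyclotomic m (ZMod ℓ)).prod := by
  unfold cprod
  congr 1
  exact Multiset.map_congr rfl fun m _ => cyc_eq hQ m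

theorem cprod_add (R : Type) [CommRing R] (Q : ℕ) (s t : Multiset ℕ) :
    cprod R Q (s + t) = cprod R Q s * cprod R Q t := by
  unfold cprod
  rw [Multiset.map_add, Multiset.prod_add]

theorem cprod_nsmul (R : Type) [CommRing R] (Q : ℕ) (n : ℕ) (t : Multiset ℕ) :
    cprod R Q (n • t) = cprod R Q t ^ n := by
  unfold cprod
  rw [Multiset.map_nsmul, Multiset.prod_nsmul]

theorem mod_ne {A : ℤ[X]} (h : A.coeff 0 = 1) : A.map (Int.castRingHom (ZMod ℓ)) ≠ 0 := by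
  intro h0
  have h1 := congrArg (fun p => Polynomial.coeff p 0) h0
  simp only [Polynomial.coeff_map, h, coeff_zero, map_one] at h1
  exact one_ne_zero h1

/-- **The bound for the coverings.** -/
theorem cover_bound {Q : ℕ} (hQ0 : Q ≠ 0) (hQ : (Q : ZMod ℓ) = 1) {M N : ℕ} {Wv W₂ W₁ W : ℤ[X]}
    (h : (Wv * W₂ ^ M).map (Int.castRingHom (ZMod ℓ)) =
      (W₁ ^ M * W ^ N).map (Int.castRingHom (ZMod ℓ)))
    (hWv : Wv.coeff 0 = 1) (hW₂ : W₂.coeff 0 = 1) {t₁ t₂ : Multiset ℕ} (ht₁ : ∀ m ∈ t₁, 0 < m)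
    (ht₂ : ∀ m ∈ t₂, 0 < m) {H₁ H₂ : (ZMod ℓ)[X]}
    (h₁ : W₁.map (Int.castRingHom (ZMod ℓ)) = W₂.map (Int.castRingHom (ZMod ℓ)) *
      (t₁.map fun m => cyclotomic m (ZMod ℓ)).prod * H₁)
    (h₂ : W.map (Int.castRingHom (ZMod ℓ)) = (t₂.map fun m => cyclotomic m (ZMod ℓ)).prod * H₂)
    (hH : ∀ m : ℕ, 0 < m → ¬ ℓ ∣ m → ¬ cyclotomic m (ZMod ℓ) ∣ H₁ * H₂) :
    geo Q Wv ≤ M * (t₁.map Nat.totient).sum + N * (t₂.map Nat.totient).sum := by
  have hQ' : (Q : ZMod ℓ) ≠ 0 := by rw [hQ]; exact one_ne_zero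
  have hno : NoCyc ℓ Q (H₁ * H₂) := by
    intro m hm hml
    rw [cyc_eq hQ]
    exact hH m hm hml
  rw [← cprod_eq hQ] at h₁ h₂
  have hW₂0 := mod_ne (ℓ := ℓ) hW₂
  have key : Wv.map (Int.castRingHom (ZMod ℓ)) =
      cprod (ZMod ℓ) Q (M • t₁ + N • t₂) * (H₁ ^ M * H₂ ^ N) := by
    apply mul_right_cancel₀ (pow_ne_zero M hW₂0)
    rw [Polynomial.map_mul, Polynomial.map_mul, Polynomial.map_pow, Polynomial.map_pow,
      Polynomial.map_pow] at h
    rw [h, h₁, h₂, cprod_add, cprod_nsmul, cprod_nsmul]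
    ring
  have hne : cprod (ZMod ℓ) Q (M • t₁ + N • t₂) * (H₁ ^ M * H₂ ^ N) ≠ 0 := by
    rw [← key]
    exact mod_ne hWv
  have h3 := geo_bound (ℓ := ℓ) hQ0 hQ' (A := Wv) (by rw [hWv]; exact isUnit_one)
    (t := M • t₁ + N • t₂) (H := H₁ ^ M * H₂ ^ N) (n := 1) (by
      intro m hm
      rcases Multiset.mem_add.1 hm with h4 | h4
      · exact ht₁ m (Multiset.mem_of_mem_nsmul h4)
      · exact ht₂ m (Multiset.mem_of_mem_nsmul h4)) (right_ne_zero_of_mul hne) (by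
      intro m hm hml hdv
      have h5 : H₁ ^ M * H₂ ^ N ∣ (H₁ * H₂) ^ (M + N) := by
        rw [mul_pow]
        exact mul_dvd_mul (pow_dvd_pow _ (by omega)) (pow_dvd_pow _ (by omega))
      exact hno.pow hQ' (M + N) m hm hml (hdv.trans h5)) (by rw [pow_one, key])
  rw [one_mul, Multiset.map_add, Multiset.sum_add, Multiset.map_nsmul, Multiset.map_nsmul,
    Multiset.sum_nsmul, Multiset.sum_nsmul, smul_eq_mul, smul_eq_mul] at h3
  exact h3

end bound

section famB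

variable {ι k : Type} [Field k] {d : ι → ℕ} {nv : ι → k}

/-- the family of the products over the closed points, with the quotient of the zeta functions -/
theorem famB (hfin : ∀ n, {z | d z ≤ n}.Finite) (hpos : ∀ z, 0 < d z)
    (K : Type) [Field K] [NumberField K] {L₁ L₂ : ℤ[X]}
    (hL : zB d nv * (L₁ : PowerSeries ℤ) = zA d * (L₂ : PowerSeries ℤ)) :
    Fam K L₁ L₂ (fun χ : MulChar k (𝓞 K) => cE d nv χ) where
  unit ψ := cE_unit hfin hpos ψ
  congr R _ ρ ψ ψ' h := cE_congr hfin ρ h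
  map σ ψ ψ' h := cE_map hfin σ h
  ident R _ ρ ψ h := by
    have h5 := identityE hfin ρ h (nv := nv)
    apply mul_left_cancel₀ (zB_ne (R := R) hfin hpos (nv := nv))
    have h3 := congrArg (PowerSeries.map (Int.castRingHom R)) hL
    rw [map_mul, map_mul, ← Polynomial.polynomial_map_coe, ← Polynomial.polynomial_map_coe] at h3
    rw [h3, ← h5]
    ring

end famB

end Pool.Agent.H313.GE
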