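import Pool.Agent.H313.GE.Geo

/-!
The zeros `ζ / Q` of `R (T ^ r)` and of `R (ζ T)`.
-/

set_option autoImplicit false
set_option linter.all false
set_option maxHeartbeats 4000000

open Polynomial

namespace Pool.Agent.H313.GE

open Classical in
/-- The number of the zeros `x` of `p` such that `Q x` is a root of unity, with multiplicities. -/
noncomputable def geoC (Q : ℕ) (p : ℂ[X]) : ℕ := Multiset.card (p.roots.filter (IsUni Q))

theorem geo_eq (Q : ℕ) (A : ℤ[X]) : geo Q A = geoC Q (A.map (Int.castRingHom ℂ)) := rfl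

theorem geoC_mul (Q : ℕ) {p q : ℂ[X]} (hp : p ≠ 0) (hq : q ≠ 0) :
    geoC Q (p * q) = geoC Q p + geoC Q q := by
  unfold geoC
  rw [roots_mul (mul_ne_zero hp hq), Multiset.filter_add, Multiset.card_add]

theorem geoC_C (Q : ℕ) (c : ℂ) : geoC Q (C c) = 0 := by
  unfold geoC
  simp

theorem geoC_lin (Q : ℕ) (a : ℂ) [Decidable (IsUni Q a)] :
    geoC Q (X - C a) = if IsUni Q a then 1 else 0 := by
  unfold geoC
  rw [roots_X_sub_C]
  split_ifs with h
  · rw [Multiset.filter_singleton, if_pos h, Multiset.card_singleton]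
  · rw [Multiset.filter_singleton, if_neg h]
    rfl

theorem isUni_pow {Q r : ℕ} (hr : r ≠ 0) {x y : ℂ} (h : x ^ r = y) :
    IsUni Q x ↔ IsUni (Q ^ r) y := by
  constructor
  · rintro ⟨n, hn, h1⟩
    refine ⟨n, hn, ?_⟩
    rw [← h]
    push_cast
    rw [← mul_pow, ← pow_mul, mul_comm r n, pow_mul, h1, one_pow]
  · rintro ⟨n, hn, h1⟩
    refine ⟨r * n, Nat.mul_pos (Nat.pos_of_ne_zero hr) hn, ?_⟩
    rw [← h] at h1
    push_cast at h1
    rw [← mul_pow, ← pow_mul] at h1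
    exact h1

theorem geoC_pow_sub {Q r : ℕ} (hr : r ≠ 0) (a : ℂ) [Decidable (IsUni (Q ^ r) a)] :
    geoC Q (X ^ r - C a) = if IsUni (Q ^ r) a then r else 0 := by
  classical
  have hne : (X ^ r - C a : ℂ[X]) ≠ 0 := X_pow_sub_C_ne_zero (Nat.pos_of_ne_zero hr) a
  have hroot : ∀ x ∈ (X ^ r - C a : ℂ[X]).roots, x ^ r = a := by
    intro x hx
    have h1 := (mem_roots'.1 hx).2
    rw [IsRoot.def, eval_sub, eval_pow, eval_X, eval_C] at h1
    exact sub_eq_zero.1 h1
  have hcard : Multiset.card (X ^ r - C a : ℂ[X]).roots = r := by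
    rw [splits_iff_card_roots.1 (IsAlgClosed.splits _), natDegree_X_pow_sub_C]
  unfold geoC
  split_ifs with h
  · rw [Multiset.filter_eq_self.2, hcard]
    intro x hx
    exact (isUni_pow hr (hroot x hx)).2 h
  · rw [Multiset.card_eq_zero, Multiset.filter_eq_nil]
    intro x hx hu
    exact h ((isUni_pow hr (hroot x hx)).1 hu)

theorem geoC_prod {ι : Type} (Q : ℕ) (s : Finset ι) (f : ι → ℂ[X]) (h : ∀ i ∈ s, f i ≠ 0) :
    geoC Q (∏ i ∈ s, f i) = ∑ i ∈ s, geoC Q (f i) := by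
  classical
  induction s using Finset.induction_on with
  | empty =>
    rw [Finset.prod_empty, Finset.sum_empty]
    have := geoC_C Q 1
    rwa [C_1] at this
  | insert a s ha ih =>
    rw [Finset.prod_insert ha, Finset.sum_insert ha, geoC_mul Q (h a (Finset.mem_insert_self a s))
      (Finset.prod_ne_zero_iff.2 fun i hi => h i (Finset.mem_insert_of_mem hi)),
      ih fun i hi => h i (Finset.mem_insert_of_mem hi)]

theorem geoC_mprod (Q : ℕ) (s : Multiset ℂ) (f : ℂ → ℂ[X]) (h : ∀ i, f i ≠ 0) :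
    geoC Q ((s.map f).prod) = (s.map fun i => geoC Q (f i)).sum ∧ (s.map f).prod ≠ 0 := by
  induction s using Multiset.induction_on with
  | empty =>
    rw [Multiset.map_zero, Multiset.map_zero, Multiset.prod_zero, Multiset.sum_zero]
    refine ⟨?_, one_ne_zero⟩
    have := geoC_C Q 1
    rwa [C_1] at this
  | cons a s ih =>
    rw [Multiset.map_cons, Multiset.map_cons, Multiset.prod_cons, Multiset.sum_cons]
    exact ⟨by rw [geoC_mul Q (h a) ih.2, ih.1], mul_ne_zero (h a) ih.2⟩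

theorem geoC_expand {Q r : ℕ} (hr : r ≠ 0) {p : ℂ[X]} (hp : p ≠ 0) :
    geoC Q (expand ℂ r p) = r * geoC (Q ^ r) p := by
  classical
  have h1 : p = C p.leadingCoeff * (p.roots.map fun a => X - C a).prod :=
    (IsAlgClosed.splits p).eq_prod_roots
  have hlc : p.leadingCoeff ≠ 0 := leadingCoeff_ne_zero.2 hp
  set s := p.roots with hs
  have h2 : expand ℂ r p = C p.leadingCoeff * (s.map fun a => X ^ r - C a).prod := by
    conv_lhs => rw [h1]
    rw [map_mul, expand_C, map_multiset_prod, Multiset.map_map]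
    congr 2
    refine Multiset.map_congr rfl fun a _ => ?_
    rw [Function.comp_apply, map_sub, expand_X, expand_C]
  obtain ⟨h3, h4⟩ := geoC_mprod Q s (fun a => X ^ r - C a)
    (fun a => X_pow_sub_C_ne_zero (Nat.pos_of_ne_zero hr) a)
  obtain ⟨h5, h6⟩ := geoC_mprod (Q ^ r) s (fun a => X - C a) (fun a => X_sub_C_ne_zero a)
  have hC : (C p.leadingCoeff : ℂ[X]) ≠ 0 := C_ne_zero.2 hlc
  conv_rhs => rw [h1]
  rw [h2, geoC_mul Q hC h4, geoC_mul _ hC h6, geoC_C, geoC_C, zero_add, zero_add, h3, h5]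
  clear h1 h2 h3 h4 h5 h6 hs
  induction s using Multiset.induction_on with
  | empty => simp
  | cons a s ih =>
    rw [Multiset.map_cons, Multiset.map_cons, Multiset.sum_cons, Multiset.sum_cons, ih, mul_add,
      geoC_pow_sub hr, geoC_lin]
    split_ifs
    · rw [mul_one]
    · rw [mul_zero]

theorem geoC_comp {Q : ℕ} {ζ : ℂ} {m : ℕ} (hm : 0 < m) (hζ : ζ ^ m = 1) {p : ℂ[X]} (hp : p ≠ 0) :
    p.comp (C ζ * X) ≠ 0 ∧ geoC Q (p.comp (C ζ * X)) = geoC Q p := by
  classical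
  have hζ0 : ζ ≠ 0 := by
    rintro rfl
    rw [zero_pow hm.ne'] at hζ
    exact zero_ne_one hζ
  have h1 : p = C p.leadingCoeff * (p.roots.map fun a => X - C a).prod :=
    (IsAlgClosed.splits p).eq_prod_roots
  have hlc : p.leadingCoeff ≠ 0 := leadingCoeff_ne_zero.2 hp
  set s := p.roots with hs
  have hlin : ∀ a : ℂ, (X - C a : ℂ[X]).comp (C ζ * X) = C ζ * (X - C (ζ⁻¹ * a)) := by
    intro a
    rw [sub_comp, X_comp, C_comp, mul_sub, ← C_mul, ← mul_assoc, mul_inv_cancel₀ hζ0, one_mul]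
  have hne : ∀ a : ℂ, (X - C a : ℂ[X]).comp (C ζ * X) ≠ 0 := by
    intro a
    rw [hlin]
    exact mul_ne_zero (C_ne_zero.2 hζ0) (X_sub_C_ne_zero _)
  have h2 : p.comp (C ζ * X) = C p.leadingCoeff *
      (s.map fun a => (X - C a : ℂ[X]).comp (C ζ * X)).prod := by
    conv_lhs => rw [h1]
    rw [mul_comp, C_comp, multiset_prod_comp, Multiset.map_map]
    rfl
  obtain ⟨h3, h4⟩ := geoC_mprod Q s (fun a => (X - C a : ℂ[X]).comp (C ζ * X)) hne
  obtain ⟨h5, h6⟩ := geoC_mprod Q s (fun a => X - C a) (fun a => X_sub_C_ne_zero a)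
  have hC : (C p.leadingCoeff : ℂ[X]) ≠ 0 := C_ne_zero.2 hlc
  refine ⟨by rw [h2]; exact mul_ne_zero hC h4, ?_⟩
  conv_rhs => rw [h1]
  rw [h2, geoC_mul Q hC h4, geoC_mul _ hC h6, geoC_C, h3, h5]
  congr 2
  refine Multiset.map_congr rfl fun a _ => ?_
  rw [hlin, geoC_mul Q (C_ne_zero.2 hζ0) (X_sub_C_ne_zero _), geoC_C, zero_add, geoC_lin, geoC_lin]
  have h7 : IsUni Q (ζ⁻¹ * a) ↔ IsUni Q a := by
    constructor
    · rintro ⟨n, hn, h8⟩
      refine ⟨m * n, Nat.mul_pos hm hn, ?_⟩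
      have h9 : (Q : ℂ) * a = ζ * ((Q : ℂ) * (ζ⁻¹ * a)) := by
        field_simp
      rw [h9, mul_pow, pow_mul, hζ, one_pow, one_mul, mul_comm m n, pow_mul, h8, one_pow]
    · rintro ⟨n, hn, h8⟩
      refine ⟨m * n, Nat.mul_pos hm hn, ?_⟩
      have h9 : (Q : ℂ) * (ζ⁻¹ * a) = ζ⁻¹ * ((Q : ℂ) * a) := by ring
      rw [h9, mul_pow, pow_mul, inv_pow, hζ, inv_one, one_pow, one_mul, mul_comm m n, pow_mul, h8,
        one_pow]
  simp only [h7]

theorem order_le_geo {Q : ℕ} (hQ : Q ≠ 0) {A : ℤ[X]} (hA : A ≠ 0) :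
    (A.map (Int.castRingHom ℂ)).rootMultiplicity ((Q : ℂ))⁻¹ ≤ geo Q A := by
  classical
  rw [← count_roots]
  unfold geo
  rw [Multiset.count_eq_card_filter_eq]
  apply Multiset.card_le_card
  apply Multiset.monotone_filter_right
  intro x hx
  rw [← hx]
  have hQc : (Q : ℂ) ≠ 0 := by exact_mod_cast hQ
  exact ⟨1, one_pos, by rw [mul_inv_cancel₀ hQc, one_pow]⟩

/-- zeros of `R (T ^ r)` -/
theorem geo_expand {Q r : ℕ} (hr : r ≠ 0) {R : ℤ[X]} (hR : R ≠ 0) :
    geo Q (expand ℤ r R) = r * geo (Q ^ r) R := by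
  rw [geo_eq, geo_eq, Polynomial.map_expand, geoC_expand hr (map_ne hR)]

end Pool.Agent.H313.GE
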