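import Pool.Agent.H313.GE.Ext
import Pool.Agent.H313.GE.Exp

/-!
The zeros `ζ / Q` over extensions of the field of constants, and the main inequality.
-/

set_option autoImplicit false
set_option linter.all false
set_option maxHeartbeats 4000000

open FF Module

namespace Pool.Agent.H313.GE

open Pool.Agent.W343.BSD Pool.Agent.Y701.QF Pool.Agent.Y701.GV Pool.Agent.Y701.AV
open Pool.Agent.Y701.PE (IsExp sub toC LiesOver cc_toC pw_of sub_eq sub_poly
  sub_sub sub_pow' euler_down kida_series dwork card_res map_ne_of_coeff)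
open Pool.Agent.H123R3.ZT Pool.Agent.Y701.CB
open Polynomial

section con

variable {k K k' K' : Type} [Field k] [Finite k] [Field K] [Algebra k K]
  [Field k'] [Finite k'] [Field K'] [Algebra k' K'] [Algebra k k'] [Algebra k K'] [Algebra K K']
  [IsScalarTower k K K'] [IsScalarTower k k' K']

theorem const_geo (hKc : IsCurveField k K) (hKc' : IsCurveField k' K')
    (hfr : finrank K K' = finrank k k')
    {P : Place k K → ℤ[X]} (hP : ∀ v, (P v).coeff 0 = 1)
    {P' : Place k' K' → ℤ[X]} (hP' : ∀ w, (P' w).coeff 0 = 1)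
    (hext : ∀ (v : Place k K) (w : Place k' K') (e f : ℕ), LiesOver w v e →
      Nat.card (S.Res w) = Nat.card (S.Res v) ^ f → IsPower f (P v) (P' w))
    {R R' : ℤ[X]} (hK : (R : PowerSeries ℤ) * eulerProd (fun v : Place k K => v.deg)
      (fun v => sub v.deg (P v : PowerSeries ℤ)) = 1)
    (hL : (R' : PowerSeries ℤ) * eulerProd (fun w : Place k' K' => w.deg)
      (fun w => sub w.deg (P' w : PowerSeries ℤ)) = 1) (Q : ℕ) :
    geo (Q ^ finrank k k') R' = geo Q R := by
  classical
  have i5 : Module.Finite k k' := Module.Finite.of_finite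
  have hr : finrank k k' ≠ 0 := finrank_pos.ne'
  have i0 : FF.IsFF k K := ⟨hKc.essFiniteType, hKc.trdeg_eq_one⟩
  have i1 : FiniteDimensional K K' := Module.finite_of_finrank_pos (by
    rw [hfr]; exact finrank_pos)
  have i2 : FF.IsFF k K' := isFF_of_finite (K := K)
  have i3 : FF.IsFF k' K' := ⟨hKc'.essFiniteType, hKc'.trdeg_eq_one⟩
  choose a ha using fun v => exists_exp (cc_coe (hP v))
  choose a' ha' using fun w => exists_exp (cc_coe (hP' w))
  have hdL : ∀ v : Place k K', v.deg ≠ 0 := fun w => (Pool.Agent.H525R3.FFp.deg_pos w).ne'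
  have haa : ∀ (v : Place k K) (w : Place k K') (n f : ℕ), Over w v n → w.deg = v.deg * f →
      ∀ m, m ≠ 0 → a' (upPlace w) m = a v (f * m) := by
    intro v w n f h hd m hm
    have hf0 : f ≠ 0 := by
      rintro rfl
      rw [mul_zero] at hd
      exact hdL w hd
    have h1 : LiesOver (upPlace (k' := k') w) v n := ⟨h.1, h.2⟩
    have hcard : Nat.card (S.Res (upPlace (k' := k') w)) = Nat.card (S.Res v) ^ f := by
      have e1 : Nat.card (S.Res (upPlace (k' := k') w)) = Nat.card (S.Res w) := rfl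
      rw [e1, card_res, card_res, hd, pow_mul]
    exact exp_unique (ha' _) (exp_of_power hf0 (hext v _ n f h1 hcard) (ha v)) hm
  have hζ := Complex.isPrimitiveRoot_exp (finrank k k') hr
  have key := Pool.Agent.Y701.GV.base_change hKc.algClosed hfr ha ha' haa hK hL hζ hr
  set ζ := Complex.exp (2 * Real.pi * Complex.I / (finrank k k' : ℕ)) with hζd
  have hR0 : R ≠ 0 := by
    rintro rfl
    rw [Polynomial.coe_zero, zero_mul] at hK
    exact zero_ne_one hK
  have hR0' : R' ≠ 0 := by
    rintro rfl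
    rw [Polynomial.coe_zero, zero_mul] at hL
    exact zero_ne_one hL
  have key2 : (R'.map (Int.castRingHom ℂ)).expand ℂ (finrank k k') =
      ∏ i ∈ Finset.range (finrank k k'), (R.map (Int.castRingHom ℂ)).comp (C (ζ ^ i) * X) := by
    apply Polynomial.coe_injective
    rw [coe_expand' hr, Polynomial.polynomial_map_coe, key, coe_prod']
    refine Finset.prod_congr rfl fun i _ => ?_
    rw [← rescale_coe, Polynomial.polynomial_map_coe]
  have h1 := congrArg (geoC Q) key2
  have hc : ∀ i : ℕ, (ζ ^ i) ^ finrank k k' = 1 := fun i => by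
    rw [← pow_mul, mul_comm, pow_mul, hζ.pow_eq_one, one_pow]
  rw [geoC_expand hr (map_ne hR0'), geoC_prod Q _ _ (fun i _ =>
    (geoC_comp (Q := Q) (Nat.pos_of_ne_zero hr) (hc i) (map_ne hR0)).1),
    Finset.sum_congr rfl (fun i _ =>
      (geoC_comp (Q := Q) (Nat.pos_of_ne_zero hr) (hc i) (map_ne hR0)).2),
    Finset.sum_const, Finset.card_range, smul_eq_mul] at h1
  exact Nat.eq_of_mul_eq_mul_left (Nat.pos_of_ne_zero hr) h1

end con

section main

variable {k K k' L : Type} [Field k] [Finite k] [Field K] [Algebra k K]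
  [Field k'] [Finite k'] [Field L] [Algebra k' L] [Algebra k k'] [Algebra k L] [Algebra K L]
  [IsScalarTower k K L] [IsScalarTower k k' L]

/-- the bound for the primes for which a factor of the product over `K` has no `Φ_m (q ^ b T)` -/
theorem main_le (hKc : IsCurveField k K) (hLc : IsCurveField k' L)
    {l : ℕ} [hl : Fact l.Prime] (hgal : IsGalois K L)
    (hpow : ∃ s : ℕ, finrank K L = l ^ s) (T : Finset (Place k K))
    (hunr : ∀ v, v ∉ T → ∀ (w : Place k' L) (e : ℕ), LiesOver w v e → e = 1)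
    {P : Place k K → ℤ[X]} (hP : ∀ v, (P v).coeff 0 = 1)
    {P' : Place k' L → ℤ[X]} (hP' : ∀ w, (P' w).coeff 0 = 1)
    (hext : ∀ (v : Place k K) (w : Place k' L) (e f : ℕ), v ∉ T → LiesOver w v e →
      Nat.card (S.Res w) = Nat.card (S.Res v) ^ f → IsPower f (P v) (P' w))
    {Λ : PowerSeries ℤ}
    (hK : Λ * eulerProd (fun v : Place k K => v.deg)
      (fun v => sub v.deg (P v : PowerSeries ℤ)) = 1)
    {U V : ℤ[X]} (hV : V.coeff 0 = 1) (hUV : Λ * (V : PowerSeries ℤ) = (U : PowerSeries ℤ))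
    {R : ℤ[X]} (hL : (R : PowerSeries ℤ) * eulerProd (fun w : Place k' L => w.deg)
      (fun w => sub w.deg (P' w : PowerSeries ℤ)) = 1) (b : ℕ)
    (hQ : ((Nat.card k ^ b : ℕ) : ZMod l) ≠ 0)
    {t : Multiset ℕ} {B : ℤ[X]} (ht : ∀ N ∈ t, 0 < N)
    (hB : U * ∏ v ∈ T, expand ℤ v.deg (P v) = cprod ℤ (Nat.card k ^ b) t * B)
    (hB₂ : IsUnit (B.coeff 0))
    (hgeo : geo (Nat.card k ^ b) (U * ∏ v ∈ T, expand ℤ v.deg (P v)) = (t.map Nat.totient).sum)
    (hno : NoCyc l (Nat.card k ^ b) (B.map (Int.castRingHom (ZMod l)))) :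
    finrank k k' * geo (Nat.card k' ^ b) R ≤
      finrank K L * geo (Nat.card k ^ b) (U * ∏ v ∈ T, expand ℤ v.deg (P v)) := by
  obtain ⟨hR0, hU0, hd⟩ := core_dvd hKc hLc hgal hpow T hunr hP hP' hext hK hV hUV hL
  have i5 : Module.Finite k k' := Module.Finite.of_finite
  have hr : finrank k k' ≠ 0 := finrank_pos.ne'
  have hRne : R ≠ 0 := by
    rintro rfl
    rw [coeff_zero] at hR0
    exact zero_ne_one hR0
  have h1 := geo_le (pow_ne_zero b Nat.card_pos.ne') hQ (A := expand ℤ (finrank k k') R)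
    (by rw [Pool.Agent.Y701.PE.coeff_zero_expand (Nat.pos_of_ne_zero hr), hR0]; exact isUnit_one) ht hB hB₂ hgeo hno hd
  rw [geo_expand hr hRne] at h1
  have h2 : (Nat.card k ^ b) ^ finrank k k' = Nat.card k' ^ b := by
    rw [Module.natCard_eq_pow_finrank (K := k) (V := k'), ← pow_mul, ← pow_mul, mul_comm]
  rwa [h2] at h1

end main

end Pool.Agent.H313.GE
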