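import Mathlib

/-!
Zeros of integral polynomials of the form `ζ / Q`, for a root of unity `ζ`, and the factors
`Φ_m (Q T)` modulo a prime number.
-/

set_option autoImplicit false
set_option linter.all false
set_option maxHeartbeats 4000000

open Polynomial

namespace Pool.Agent.H313.GE

/-- `Φ_m (Q T)`. -/
noncomputable def cyc (R : Type) [CommRing R] (m Q : ℕ) : R[X] :=
  (cyclotomic m R).comp (C (Q : R) * X)

theorem cyc_map {R S : Type} [CommRing R] [CommRing S] (φ : R →+* S) (m Q : ℕ) :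
    (cyc R m Q).map φ = cyc S m Q := by
  unfold cyc
  rw [Polynomial.map_comp, Polynomial.map_cyclotomic, Polynomial.map_mul, Polynomial.map_C,
    Polynomial.map_X, map_natCast]

theorem prim_of_unit {p : ℤ[X]} (h : IsUnit (p.coeff 0)) : p.IsPrimitive := by
  intro r hr
  obtain ⟨s, rfl⟩ := hr
  rw [mul_coeff_zero, coeff_C_zero] at h
  exact isUnit_of_mul_isUnit_left h

theorem cyc_prim (m Q : ℕ) (hm : 0 < m) : (cyc ℤ m Q).IsPrimitive := by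
  apply prim_of_unit
  have h1 : (cyc ℤ m Q).coeff 0 = (cyclotomic m ℤ).coeff 0 := by
    rw [cyc, coeff_zero_eq_eval_zero, eval_comp, eval_mul, eval_X, mul_zero,
      ← coeff_zero_eq_eval_zero]
  rw [h1]
  rcases Nat.lt_or_ge 1 m with h | h
  · rw [cyclotomic_coeff_zero ℤ h]
    exact isUnit_one
  · have : m = 1 := by omega
    subst this
    rw [cyclotomic_one]
    simp

theorem scale_comp {F : Type} [Field F] {a : F} (ha : a ≠ 0) (p : F[X]) :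
    (p.comp (C a⁻¹ * X)).comp (C a * X) = p := by
  rw [comp_assoc, mul_comp, C_comp, X_comp, ← mul_assoc, ← C_mul, inv_mul_cancel₀ ha, C_1,
    one_mul, comp_X]

theorem dvd_of_root {K : Type} [Field K] [CharZero K] {A : ℤ[X]} (hA : IsUnit (A.coeff 0)) {Q : ℕ}
    (hQ : Q ≠ 0) {x : K} (hx : aeval x A = 0) {s : ℕ} (hs : 0 < s)
    (h : ((Q : K) * x) ^ s = 1) : ∃ n, 0 < n ∧ cyc ℤ n Q ∣ A := by
  set y : K := (Q : K) * x with hy
  have hfin : IsOfFinOrder y := isOfFinOrder_iff_pow_eq_one.2 ⟨s, hs, h⟩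
  have hn : 0 < orderOf y := hfin.orderOf_pos
  have hprim : IsPrimitiveRoot y (orderOf y) := IsPrimitiveRoot.orderOf y
  refine ⟨orderOf y, hn, ?_⟩
  have hmin := cyclotomic_eq_minpoly_rat hprim hn
  have hQq : (Q : ℚ) ≠ 0 := by exact_mod_cast hQ
  have hQK : (Q : K) ≠ 0 := by exact_mod_cast hQ
  set B : ℚ[X] := (A.map (Int.castRingHom ℚ)).comp (C (Q : ℚ)⁻¹ * X) with hB
  have h1 : aeval y B = 0 := by
    rw [hB, aeval_comp]
    have e1 : aeval y (C (Q : ℚ)⁻¹ * X) = x := by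
      rw [map_mul, aeval_C, aeval_X, map_inv₀, map_natCast, hy, ← mul_assoc,
        inv_mul_cancel₀ hQK, one_mul]
    rw [e1]
    have e2 : aeval x (A.map (Int.castRingHom ℚ)) = aeval x A := by
      have e3 : (Int.castRingHom ℚ) = algebraMap ℤ ℚ := rfl
      rw [e3, aeval_map_algebraMap]
    rw [e2, hx]
  have h2 : cyclotomic (orderOf y) ℚ ∣ B := by
    rw [hmin]
    exact minpoly.dvd ℚ y h1
  have h3 : cyc ℚ (orderOf y) Q ∣ A.map (Int.castRingHom ℚ) := by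
    have h4 := map_dvd (compRingHom (C (Q : ℚ) * X)) h2
    have h5 : compRingHom (C (Q : ℚ) * X) B = A.map (Int.castRingHom ℚ) := by
      show B.comp (C (Q : ℚ) * X) = _
      rw [hB]
      exact scale_comp hQq _
    rw [h5] at h4
    exact h4
  have h6 : (cyc ℤ (orderOf y) Q).map (Int.castRingHom ℚ) ∣ A.map (Int.castRingHom ℚ) := by
    rw [cyc_map]
    exact h3
  exact (IsPrimitive.Int.dvd_iff_map_cast_dvd_map_cast _ _ (cyc_prim _ _ hn)).2 h6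

/-- No polynomial `Φ_m (Q T)` with `m` prime to `ℓ` divides `A` modulo `ℓ`. -/
def NoCyc (ℓ Q : ℕ) (A : (ZMod ℓ)[X]) : Prop :=
  ∀ m : ℕ, 0 < m → ¬ ℓ ∣ m → ¬ cyc (ZMod ℓ) m Q ∣ A

section mod

variable {ℓ : ℕ} [hℓ : Fact ℓ.Prime]

theorem cyc_reduce (n Q : ℕ) (hn : 0 < n) :
    ∃ m, 0 < m ∧ ¬ ℓ ∣ m ∧ cyc (ZMod ℓ) m Q ∣ cyc (ZMod ℓ) n Q := by
  obtain ⟨t, m, hm, rfl⟩ := Nat.exists_eq_pow_mul_and_not_dvd hn.ne' ℓ hℓ.out.ne_one
  have hm0 : 0 < m := Nat.pos_of_ne_zero (by rintro rfl; exact hm (dvd_zero _))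
  refine ⟨m, hm0, hm, ?_⟩
  rcases Nat.eq_zero_or_pos t with rfl | ht
  · rw [pow_zero, one_mul]
  · unfold cyc
    rw [cyclotomic_mul_prime_pow_eq (ZMod ℓ) hm ht]
    have h1 : ℓ ^ t - ℓ ^ (t - 1) ≠ 0 := by
      have : ℓ ^ (t - 1) < ℓ ^ t := Nat.pow_lt_pow_right hℓ.out.one_lt (by omega)
      omega
    have h2 : cyclotomic m (ZMod ℓ) ∣ cyclotomic m (ZMod ℓ) ^ (ℓ ^ t - ℓ ^ (t - 1)) :=
      dvd_pow_self _ h1
    exact map_dvd (compRingHom (C (Q : ZMod ℓ) * X)) h2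

theorem cyc_squarefree {Q m : ℕ} (hQ : (Q : ZMod ℓ) ≠ 0) (hm : ¬ ℓ ∣ m) :
    Squarefree (cyc (ZMod ℓ) m Q) := by
  have hm' : (m : ZMod ℓ) ≠ 0 := by rwa [Ne, ZMod.natCast_eq_zero_iff]
  have : NeZero ((m : ℕ) : ZMod ℓ) := ⟨hm'⟩
  have hsq : Squarefree (cyclotomic m (ZMod ℓ)) := squarefree_cyclotomic m (ZMod ℓ)
  intro x hx
  have h1 := map_dvd (compRingHom (C (Q : ZMod ℓ)⁻¹ * X)) hx
  rw [map_mul] at h1
  have h2 : compRingHom (C (Q : ZMod ℓ)⁻¹ * X) (cyc (ZMod ℓ) m Q) = cyclotomic m (ZMod ℓ) := by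
    show ((cyclotomic m (ZMod ℓ)).comp (C (Q : ZMod ℓ) * X)).comp (C (Q : ZMod ℓ)⁻¹ * X) = _
    have h3 := scale_comp (inv_ne_zero hQ) (cyclotomic m (ZMod ℓ))
    rwa [inv_inv] at h3
  rw [h2] at h1
  have h4 := (hsq _ h1).map (compRingHom (C (Q : ZMod ℓ) * X))
  have h5 : compRingHom (C (Q : ZMod ℓ) * X) (compRingHom (C (Q : ZMod ℓ)⁻¹ * X) x) = x :=
    scale_comp hQ x
  rwa [h5] at h4

theorem NoCyc.pow {Q : ℕ} (hQ : (Q : ZMod ℓ) ≠ 0) {A : (ZMod ℓ)[X]} (h : NoCyc ℓ Q A) (n : ℕ) :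
    NoCyc ℓ Q (A ^ n) := by
  intro m hm hml hd
  rcases Nat.eq_zero_or_pos n with rfl | hn
  · rw [pow_zero] at hd
    exact h m hm hml (hd.trans (one_dvd _))
  · exact h m hm hml (((cyc_squarefree hQ hml).dvd_pow_iff_dvd hn.ne').1 hd)

/-- **The criterion.** -/
theorem no_zero {K : Type} [Field K] [CharZero K] {A : ℤ[X]} (hA : A.coeff 0 = 1) {Q : ℕ}
    (hQ : (Q : ZMod ℓ) ≠ 0) {B : (ZMod ℓ)[X]} (hB : NoCyc ℓ Q B) {n : ℕ}
    (h : A.map (Int.castRingHom (ZMod ℓ)) ∣ B ^ n) {x : K} {s : ℕ} (hs : 0 < s)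
    (hx : ((Q : K) * x) ^ s = 1) : aeval x A ≠ 0 := by
  intro h0
  have hQ0 : Q ≠ 0 := by
    rintro rfl
    exact hQ (by rw [Nat.cast_zero])
  obtain ⟨N, hN, hdvd⟩ := dvd_of_root (by rw [hA]; exact isUnit_one) hQ0 h0 hs hx
  obtain ⟨m, hm, hml, hd⟩ := cyc_reduce (ℓ := ℓ) N Q hN
  have h1 := map_dvd (mapRingHom (Int.castRingHom (ZMod ℓ))) hdvd
  rw [coe_mapRingHom, cyc_map] at h1
  exact hB.pow hQ n m hm hml (hd.trans (h1.trans h))

end mod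

end Pool.Agent.H313.GE
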