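import Pool.Agent.H313.GE.Nrm

/-!
The comparison for the primes modulo which there are no zeros with powers in the prime field.
-/

set_option autoImplicit false
set_option linter.all false
set_option maxHeartbeats 4000000

open Polynomial

namespace Pool.Agent.H313.GE

open Pool.Agent.W343.BSD (rm_mul rm_pow rm_one rm_prod)

theorem sum_count_le {α : Type} [DecidableEq α] (S : Finset α) (m : Multiset α) :
    ∑ x ∈ S, m.count x ≤ Multiset.card m := by
  induction m using Multiset.induction_on with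
  | empty => simp
  | cons a m ih =>
    rw [Multiset.card_cons]
    simp_rw [Multiset.count_cons]
    rw [Finset.sum_add_distrib]
    apply Nat.add_le_add ih
    rw [Finset.sum_ite_eq' S a]
    split_ifs
    · exact le_rfl
    · exact Nat.zero_le _

section fld

variable {E : Type} [Field E]

theorem cyc_ne' {Q : ℕ} (hQ : (Q : E) ≠ 0) (N : ℕ) : cyc E N Q ≠ 0 := by
  intro h
  have h3 := congrArg (fun p : E[X] => p.comp (C (Q : E)⁻¹ * X)) h
  have h4 := scale_comp (inv_ne_zero hQ) (cyclotomic N E)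
  rw [inv_inv] at h4
  simp only [cyc, zero_comp] at h3
  rw [h4] at h3
  exact cyclotomic_ne_zero N E h3

theorem cprod_deg {Q : ℕ} (hQ : (Q : E) ≠ 0) (s : Multiset ℕ) :
    cprod E Q s ≠ 0 ∧ (cprod E Q s).natDegree = (s.map Nat.totient).sum := by
  induction s using Multiset.induction_on with
  | empty =>
    rw [cprod_zero]
    exact ⟨one_ne_zero, by simp⟩
  | cons N s ih =>
    rw [cprod_cons]
    refine ⟨mul_ne_zero (cyc_ne' hQ N) ih.1, ?_⟩
    rw [natDegree_mul (cyc_ne' hQ N) ih.1, ih.2, Multiset.map_cons, Multiset.sum_cons]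
    congr 1
    unfold cyc
    rw [natDegree_comp, natDegree_C_mul hQ, natDegree_X, mul_one, natDegree_cyclotomic]

theorem cprod_root {Q : ℕ} {s : Multiset ℕ} {u : E} (h : eval u (cprod E Q s) = 0) :
    ∃ N ∈ s, eval u (cyc E N Q) = 0 := by
  induction s using Multiset.induction_on with
  | empty =>
    rw [cprod_zero, eval_one] at h
    exact absurd h one_ne_zero
  | cons N s ih =>
    rw [cprod_cons, eval_mul] at h
    rcases mul_eq_zero.1 h with h1 | h1
    · exact ⟨N, Multiset.mem_cons_self N s, h1⟩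
    · obtain ⟨M, hM, h2⟩ := ih h1
      exact ⟨M, Multiset.mem_cons_of_mem hM, h2⟩

theorem cprod_dvd {Q N : ℕ} {s : Multiset ℕ} (h : N ∈ s) : cyc E N Q ∣ cprod E Q s := by
  obtain ⟨s', rfl⟩ := Multiset.exists_cons_of_mem h
  rw [cprod_cons]
  exact dvd_mul_right _ _

end fld

section count

variable {ℓ : ℕ} [hℓ : Fact ℓ.Prime]

theorem root_iff {E : Type} [Field E] [CharP E ℓ] {N Q : ℕ} (hN : 0 < N) {u : E} :
    eval u (cyc E N Q) = 0 ↔ IsPrimitiveRoot ((Q : E) * u) (N / ℓ ^ N.factorization ℓ) := by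
  have hM : ¬ ℓ ∣ N / ℓ ^ N.factorization ℓ := Nat.not_dvd_ordCompl hℓ.out hN.ne'
  have hME : ((N / ℓ ^ N.factorization ℓ : ℕ) : E) ≠ 0 := by
    rw [Ne, CharP.cast_eq_zero_iff E ℓ]
    exact hM
  have hne : NeZero ((N / ℓ ^ N.factorization ℓ : ℕ) : E) := ⟨hME⟩
  have h1 : cyclotomic N E = cyclotomic (N / ℓ ^ N.factorization ℓ) E ^
      (ℓ ^ N.factorization ℓ).totient := by
    rcases Nat.eq_zero_or_pos (N.factorization ℓ) with h0 | h0
    · rw [h0, pow_zero, Nat.div_one, Nat.totient_one, pow_one]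
    · conv_lhs => rw [← Nat.ordProj_mul_ordCompl_eq_self N ℓ]
      rw [cyclotomic_mul_prime_pow_eq E hM h0, Nat.totient_prime_pow hℓ.out h0, Nat.mul_sub,
        mul_one]
      congr 2
      rw [← pow_succ]
      congr 1
      omega
  have hpos : (ℓ ^ N.factorization ℓ).totient ≠ 0 :=
    (Nat.totient_pos.2 (pow_pos hℓ.out.pos _)).ne'
  unfold cyc
  rw [eval_comp, eval_mul, eval_C, eval_X, h1, eval_pow, pow_eq_zero_iff hpos]
  exact isRoot_cyclotomic_iff

theorem dens_le {Q r r2 n M : ℕ} (hr : r ∣ ℓ - 1) {j : ℕ} (hr2 : r2 = ℓ ^ j) {ζ : ZMod ℓ}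
    (hζ : IsPrimitiveRoot ζ r) (hQ : (Q : ZMod ℓ) ≠ 0) {A H₂ G : ℤ[X]} (hA : IsUnit (A.coeff 0))
    {t : Multiset ℕ} (hH₂ : IsUnit (H₂.coeff 0))
    (hM : ∀ m, 0 < m → m.totient ≤ (cprod ℤ Q t * H₂).natDegree → m ∣ M)
    (hG : H₂ ∣ expand ℤ M G)
    (hno : ∀ z : ZMod ℓ, (G.map (Int.castRingHom (ZMod ℓ))).eval z ≠ 0)
    (hd : (expand ℤ (r * r2) A).map (Int.castRingHom (ZMod ℓ)) ∣
      (∏ i ∈ Finset.range r, ((cprod ℤ Q t * H₂).map (Int.castRingHom (ZMod ℓ))).comp
        (C (ζ ^ i) * X)) ^ n) :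
    r2 * geo (Q ^ (r * r2)) A ≤ n * (t.map Nat.totient).sum := by
  classical
  have hl1 : 0 < ℓ - 1 := by have := hℓ.out.two_le; omega
  have hr0 : 0 < r := Nat.pos_of_dvd_of_pos hr hl1
  have hr20 : 0 < r2 := by rw [hr2]; exact pow_pos hℓ.out.pos j
  have hQ0 : Q ≠ 0 := by
    rintro rfl
    exact hQ (by rw [Nat.cast_zero])
  set E := AlgebraicClosure (ZMod ℓ) with hE
  have hch : CharP E ℓ := charP_of_injective_algebraMap (algebraMap (ZMod ℓ) E).injective ℓ
  have hexp : ExpChar E ℓ := ExpChar.prime hℓ.out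
  have hQE : (Q : E) ≠ 0 := by
    rw [← map_natCast (algebraMap (ZMod ℓ) E)]
    exact (_root_.map_ne_zero _).2 hQ
  have hrE : (r : E) ≠ 0 := by
    rw [Ne, CharP.cast_eq_zero_iff E ℓ]
    intro h
    have := Nat.le_of_dvd hl1 (h.trans hr)
    omega
  set Q' := Q ^ (r * r2) with hQ'
  have hQ'0 : Q' ≠ 0 := pow_ne_zero _ hQ0
  have hQ'E : (Q' : E) ≠ 0 := by
    rw [hQ', Nat.cast_pow]
    exact pow_ne_zero _ hQE
  obtain ⟨s, A₂, hs, hA₁, -, hA₂, hgA⟩ := exists_decomp hQ'0 _ A le_rfl hA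
  set ζE : E := algebraMap (ZMod ℓ) E ζ with hζE
  have hζE' : IsPrimitiveRoot ζE r := hζ.map_of_injective (algebraMap (ZMod ℓ) E).injective
  have hζ0 : ζE ≠ 0 := hζE'.ne_zero hr0.ne'
  have hcomp : (algebraMap (ZMod ℓ) E).comp (Int.castRingHom (ZMod ℓ)) = Int.castRingHom E :=
    RingHom.ext_int _ _
  set B : E[X] := A.map (Int.castRingHom E) with hB
  set H1 : E[X] := cprod E Q t with hH1
  set H2 : E[X] := H₂.map (Int.castRingHom E) with hH2
  have hunit : ∀ p : ℤ[X], IsUnit (p.coeff 0) → p.map (Int.castRingHom E) ≠ 0 := by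
    intro p hp h0
    have h1 := congrArg (fun p => Polynomial.coeff p 0) h0
    simp only [Polynomial.coeff_map, coeff_zero] at h1
    have h2 := hp.map (Int.castRingHom E)
    rw [h1] at h2
    exact not_isUnit_zero h2
  have hB0 : B ≠ 0 := hunit A hA
  have hH20 : H2 ≠ 0 := hunit H₂ hH₂
  obtain ⟨hH10, hH1d⟩ := cprod_deg hQE t
  obtain ⟨hA10, hA1d⟩ := cprod_deg hQ'E s
  have hHE0 : H1 * H2 ≠ 0 := mul_ne_zero hH10 hH20
  have hHE : (cprod ℤ Q t * H₂).map (Int.castRingHom E) = H1 * H2 := by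
    rw [Polynomial.map_mul, cprod_map]
  have hA1B : cprod E Q' s ∣ B := by
    rw [hB, hA₁, Polynomial.map_mul, cprod_map]
    exact dvd_mul_right _ _
  -- the divisibility over `E`
  have hdE : expand E (r * r2) B ∣ (∏ i ∈ Finset.range r, (H1 * H2).comp (C (ζE ^ i) * X)) ^ n := by
    have h1 := map_dvd (mapRingHom (algebraMap (ZMod ℓ) E)) hd
    rw [coe_mapRingHom, Polynomial.map_map, hcomp, Polynomial.map_expand, Polynomial.map_pow,
      Polynomial.map_prod] at h1
    have h2 : ∀ i ∈ Finset.range r, (((cprod ℤ Q t * H₂).map (Int.castRingHom (ZMod ℓ))).comp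
        (C (ζ ^ i) * X)).map (algebraMap (ZMod ℓ) E) = (H1 * H2).comp (C (ζE ^ i) * X) := by
      intro i _
      rw [Polynomial.map_comp, Polynomial.map_map, hcomp, hHE, Polynomial.map_mul,
        Polynomial.map_C, Polynomial.map_X, map_pow]
    rwa [Finset.prod_congr rfl h2] at h1
  have hcne : ∀ i, (H1 * H2).comp (C (ζE ^ i) * X) ≠ 0 := fun i =>
    Pool.Agent.Y701.GV.comp_ne (pow_ne_zero i hζ0) hHE0
  have hprodne : (∏ i ∈ Finset.range r, (H1 * H2).comp (C (ζE ^ i) * X)) ≠ 0 :=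
    Finset.prod_ne_zero_iff.2 fun i _ => hcne i
  have hs0 : 0 < r * r2 := Nat.mul_pos hr0 hr20
  choose y hy using fun u : E => IsAlgClosed.exists_pow_nat_eq u hs0
  have hmult : ∀ u : E, u ≠ 0 → r2 * B.rootMultiplicity u ≤
      n * ∑ i ∈ Finset.range r, (H1 * H2).rootMultiplicity (ζE ^ i * y u) := by
    intro u hu
    have hyu : y u ≠ 0 := by
      intro h
      have h1 := hy u
      rw [h, zero_pow hs0.ne'] at h1
      exact hu h1.symm
    have h1 := rootMultiplicity_le_rootMultiplicity_of_dvd (pow_ne_zero n hprodne) hdE (y u)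
    rw [rm_pow _ hprodne, rm_prod _ _ _ (fun i _ => hcne i)] at h1
    have h2 : ∀ i ∈ Finset.range r, ((H1 * H2).comp (C (ζE ^ i) * X)).rootMultiplicity (y u) =
        (H1 * H2).rootMultiplicity (ζE ^ i * y u) := fun i _ =>
      Pool.Agent.Y701.CB.rm_comp (pow_ne_zero i hζ0) _ _
    rw [Finset.sum_congr rfl h2] at h1
    have h3 : (expand E (r * r2) B).rootMultiplicity (y u) = r2 * B.rootMultiplicity u := by
      rw [expand_mul, Pool.Agent.Y701.CB.rm_expand hrE hyu, hr2, rootMultiplicity_expand_pow,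
        ← pow_mul, ← hr2, hy]
      rw [hr2]
      exact (expand_ne_zero (pow_pos hℓ.out.pos j)).2 hB0
    rwa [h3] at h1
  have hpow : ∀ (u : E) (i : ℕ), (ζE ^ i * y u) ^ (r * r2) = u := by
    intro u i
    rw [mul_pow, hy, ← pow_mul, mul_comm i, pow_mul, pow_mul ζE, hζE'.pow_eq_one, one_pow, one_pow,
      one_mul]
  have hQpow : ∀ (u : E) (i : ℕ), ((Q : E) * (ζE ^ i * y u)) ^ (r * r2) = (Q' : E) * u := by
    intro u i
    rw [mul_pow, hpow, hQ', Nat.cast_pow]
  -- the roots of the cyclotomic part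
  have hroot : ∀ u : E, eval u (cprod E Q' s) = 0 → u ≠ 0 ∧
      ∀ i, eval (ζE ^ i * y u) H2 ≠ 0 := by
    intro u hu
    obtain ⟨N, hN, hNu⟩ := cprod_root hu
    have hN0 := hs N hN
    have hprim := (root_iff (ℓ := ℓ) hN0).1 hNu
    set m := N / ℓ ^ N.factorization ℓ with hm
    have hm0 : 0 < m := Nat.ordCompl_pos ℓ hN0.ne'
    have hml : ¬ ℓ ∣ m := Nat.not_dvd_ordCompl hℓ.out hN0.ne'
    have hu0 : u ≠ 0 := by
      rintro rfl
      rw [mul_zero] at hprim
      exact hprim.ne_zero hm0.ne' rfl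
    refine ⟨hu0, ?_⟩
    -- all the conjugate zeros
    have hconj : ∀ z : E, IsPrimitiveRoot z m → ∃ x : E, eval x (H1 * H2) = 0 ∧
        x ^ (r * r2) = (Q' : E)⁻¹ * z := by
      intro z hz
      set v := (Q' : E)⁻¹ * z with hv
      have hv1 : (Q' : E) * v = z := by rw [hv, ← mul_assoc, mul_inv_cancel₀ hQ'E, one_mul]
      have hv0 : v ≠ 0 := mul_ne_zero (inv_ne_zero hQ'E) (hz.ne_zero hm0.ne')
      have h1 : eval v (cyc E N Q') = 0 := (root_iff (ℓ := ℓ) hN0).2 (by rw [hv1]; exact hz)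
      have h2 : eval v B = 0 := eval_eq_zero_of_dvd_of_eval_eq_zero
        ((cprod_dvd hN).trans hA1B) h1
      have h3 : 0 < B.rootMultiplicity v := (rootMultiplicity_pos hB0).2 h2
      have h4 := hmult v hv0
      have h5 : 0 < n * ∑ i ∈ Finset.range r, (H1 * H2).rootMultiplicity (ζE ^ i * y v) :=
        lt_of_lt_of_le (Nat.mul_pos hr20 h3) h4
      have h6 : 0 < ∑ i ∈ Finset.range r, (H1 * H2).rootMultiplicity (ζE ^ i * y v) :=
        Nat.pos_of_mul_pos_left h5
      obtain ⟨i, _, h7⟩ := Finset.exists_ne_zero_of_sum_ne_zero h6.ne'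
      exact ⟨ζE ^ i * y v, (rootMultiplicity_pos hHE0).1 (Nat.pos_of_ne_zero h7), hpow v i⟩
    have htot : m.totient ≤ (cprod ℤ Q t * H₂).natDegree := by
      choose! f hf1 hf2 using hconj
      have hcard : (primitiveRoots m E).card = m.totient := hprim.card_primitiveRoots
      have h1 : (primitiveRoots m E).card ≤ (H1 * H2).roots.toFinset.card := by
        apply Finset.card_le_card_of_injOn f
        · intro z hz
          have hz' := (mem_primitiveRoots hm0).1 hz
          show f z ∈ (H1 * H2).roots.toFinset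
          rw [Multiset.mem_toFinset, mem_roots hHE0]
          exact hf1 z hz'
        · intro z hz z' hz' hzz
          have e1 := hf2 z ((mem_primitiveRoots hm0).1 hz)
          have e2 := hf2 z' ((mem_primitiveRoots hm0).1 hz')
          rw [hzz, e2] at e1
          exact (mul_left_cancel₀ (inv_ne_zero hQ'E) e1).symm
      rw [← hcard]
      refine h1.trans ((Multiset.toFinset_card_le _).trans ((card_roots' _).trans ?_))
      rw [← hHE]
      exact natDegree_map_le
    have hmM := hM m hm0 htot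
    intro i hi
    set x := ζE ^ i * y u with hx
    have h1 : ((Q : E) * x) ^ (m * (ℓ - 1)) = 1 := by
      have h2 : (((Q : E) * x) ^ (m * r)) ^ ℓ ^ j = 1 := by
        rw [← pow_mul, ← hr2, mul_assoc, mul_comm m, pow_mul, hQpow, hprim.pow_eq_one]
      have h3 : ((Q : E) * x) ^ (m * r) = 1 := by
        have h4 : (((Q : E) * x) ^ (m * r) - 1) ^ ℓ ^ j = 0 := by
          rw [sub_pow_expChar_pow, h2, one_pow, sub_self]
        exact sub_eq_zero.1 (pow_eq_zero_iff (pow_ne_zero j hℓ.out.ne_zero) |>.1 h4)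
      obtain ⟨c, hc⟩ := hr
      have h5 : m * (ℓ - 1) = m * r * c := by rw [hc]; ring
      rw [h5, pow_mul, h3, one_pow]
    have hx0 : x ≠ 0 := by
      intro h0
      have h2 := hpow u i
      rw [← hx, h0, zero_pow hs0.ne'] at h2
      exact hu0 h2.symm
    -- `x ^ M` is in the prime field
    obtain ⟨c, hc⟩ := hmM
    have h2 : (((Q : E) * x) ^ M) ^ ℓ = ((Q : E) * x) ^ M := by
      have h3 : (((Q : E) * x) ^ M) ^ (ℓ - 1) = 1 := by
        have h5 : M * (ℓ - 1) = m * (ℓ - 1) * c := by rw [hc]; ring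
        rw [← pow_mul, h5, pow_mul, h1, one_pow]
      calc (((Q : E) * x) ^ M) ^ ℓ = (((Q : E) * x) ^ M) ^ (ℓ - 1 + 1) := by
            congr 1; omega
        _ = _ := by rw [pow_succ, h3, one_mul]
    have h4 : (x ^ M) ^ ℓ = x ^ M := by
      have h5 : ((Q : E) ^ M) ^ ℓ = (Q : E) ^ M := by
        rw [← map_natCast (algebraMap (ZMod ℓ) E), ← map_pow, ← map_pow, ZMod.pow_card]
      rw [mul_pow, mul_pow, h5] at h2
      exact mul_left_cancel₀ (pow_ne_zero M hQE) h2
    obtain ⟨w, hw⟩ := W54.ChTor.frob_fixed ℓ (x ^ M) h4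
    have h6 : eval x ((expand ℤ M G).map (Int.castRingHom E)) = 0 := by
      have h7 : H2 ∣ (expand ℤ M G).map (Int.castRingHom E) := by
        have := map_dvd (mapRingHom (Int.castRingHom E)) hG
        rwa [coe_mapRingHom] at this
      exact eval_eq_zero_of_dvd_of_eval_eq_zero h7 hi
    rw [Polynomial.map_expand, expand_eval, ← hw, ← hcomp, ← Polynomial.map_map, eval_map,
      eval₂_at_apply] at h6
    exact hno w ((_root_.map_eq_zero _).1 h6)
  -- the sum
  set Z := (cprod E Q' s).roots.toFinset with hZ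
  have hZr : ∀ u ∈ Z, eval u (cprod E Q' s) = 0 := fun u hu =>
    (mem_roots hA10).1 (Multiset.mem_toFinset.1 hu)
  have h1 : ∀ u ∈ Z, r2 * (cprod E Q' s).roots.count u ≤
      n * ∑ i ∈ Finset.range r, H1.roots.count (ζE ^ i * y u) := by
    intro u hu
    obtain ⟨hu0, hH2u⟩ := hroot u (hZr u hu)
    rw [count_roots]
    refine (Nat.mul_le_mul_left r2 (rootMultiplicity_le_rootMultiplicity_of_dvd hB0 hA1B u)).trans
      ((hmult u hu0).trans (Nat.mul_le_mul_left n ?_))
    refine Finset.sum_le_sum fun i _ => ?_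
    rw [rm_mul _ hH10 hH20, count_roots, rootMultiplicity_eq_zero (hH2u i), add_zero]
  have hcard1 : Multiset.card (cprod E Q' s).roots = (s.map Nat.totient).sum := by
    rw [splits_iff_card_roots.1 (IsAlgClosed.splits _), hA1d]
  have h2 : ∑ u ∈ Z, (cprod E Q' s).roots.count u = (s.map Nat.totient).sum := by
    rw [hZ, Multiset.toFinset_sum_count_eq, hcard1]
  have h3 : ∑ u ∈ Z, ∑ i ∈ Finset.range r, H1.roots.count (ζE ^ i * y u) ≤
      (t.map Nat.totient).sum := by
    rw [← Finset.sum_product']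
    have hinj : Set.InjOn (fun p : E × ℕ => ζE ^ p.2 * y p.1)
        ((Z ×ˢ Finset.range r : Finset (E × ℕ)) : Set (E × ℕ)) := by
      rintro ⟨u, i⟩ h4 ⟨u', i'⟩ h5 h6
      simp only [Finset.coe_product, Set.mem_prod, Finset.mem_coe] at h4 h5
      simp only at h6
      have e1 : u = u' := by
        rw [← hpow u i, ← hpow u' i', h6]
      subst e1
      have hyu : y u ≠ 0 := by
        intro h7
        have h8 := hy u
        rw [h7, zero_pow hs0.ne'] at h8
        exact (hroot u (hZr u h4.1)).1 h8.symm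
      have e2 := mul_right_cancel₀ hyu h6
      rw [hζE'.pow_inj (Finset.mem_range.1 h4.2) (Finset.mem_range.1 h5.2) e2]
    have h4 : ∑ p ∈ Z ×ˢ Finset.range r, H1.roots.count (ζE ^ p.2 * y p.1) =
        ∑ x ∈ (Z ×ˢ Finset.range r).image (fun p : E × ℕ => ζE ^ p.2 * y p.1),
          H1.roots.count x := by
      rw [Finset.sum_image hinj]
    rw [h4]
    refine (sum_count_le _ _).trans ?_
    rw [← hH1d]
    exact card_roots' _
  rw [hgA]
  calc r2 * (s.map Nat.totient).sum = ∑ u ∈ Z, r2 * (cprod E Q' s).roots.count u := by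
        rw [← Finset.mul_sum, h2]
    _ ≤ ∑ u ∈ Z, n * ∑ i ∈ Finset.range r, H1.roots.count (ζE ^ i * y u) := Finset.sum_le_sum h1
    _ = n * ∑ u ∈ Z, ∑ i ∈ Finset.range r, H1.roots.count (ζE ^ i * y u) := by
        rw [Finset.mul_sum]
    _ ≤ n * (t.map Nat.totient).sum := Nat.mul_le_mul_left n h3

end count

end Pool.Agent.H313.GE
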