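import Pool.Agent.H313.GE.Cst
import Pool.Agent.Y701.QG.Mult

/-!
Elliptic curves over Galois extensions of prime power degree and over constant extensions of these.
-/

set_option autoImplicit false
set_option linter.all false
set_option maxHeartbeats 4000000

open FF Module

namespace Pool.Agent.H313.GE

open Pool.Agent.W343.BSD Pool.Agent.Y701.QG Pool.Agent.Y701.CB
open Pool.Agent.H123R3.ZT
open Polynomial

section ext

variable {k K k' L : Type} [Field k] [Finite k] [Field K] [Algebra k K] [FF.IsFF k K]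
  [Field k'] [Finite k'] [Field L] [Algebra k' L] [Algebra k k'] [Algebra k L] [Algebra K L]
  [IsScalarTower k K L] [IsScalarTower k k' L] [FF.IsFF k L] [FF.IsFF k' L]
  [FiniteDimensional K L] [IsGalois K L]

theorem ell_dvd {l s : ℕ} [hl : Fact l.Prime] (hn : finrank K L = l ^ s) {a b : K}
    (hΔ : 4 * a ^ 3 + 27 * b ^ 2 ≠ 0) (B : Finset (Place k K))
    (hB : ∀ v, v ∉ B → ∀ (w : Place k L) (n : ℕ), Over w v n → n = 1) {U V : Polynomial ℤ}
    (hV : V.coeff 0 = 1) (hP : Lfun k a b * (V : PowerSeries ℤ) = (U : PowerSeries ℤ))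
    {R : Polynomial ℤ} (hR : Lfun k' (algebraMap K L a) (algebraMap K L b) = (R : PowerSeries ℤ)) :
    (expand ℤ (finrank k k') R).map (Int.castRingHom (ZMod l)) ∣
      (U * ∏ v ∈ B, locFactor v a b).map (Int.castRingHom (ZMod l)) ^ l ^ s := by
  classical
  have hD := fun v : Place k K => exists_galoisFiber (L := L) v
  choose S e f D using hD
  have he : ∀ v, v ∉ B → e v = 1 := fun v hv => by
    obtain ⟨w, hw⟩ := (D v).nonempty
    exact hB v hv w _ ((D v).isOver w hw)
  have : FiniteDimensional k k' := Module.Finite.of_finite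
  have hr : finrank k k' ≠ 0 := finrank_pos.ne'
  have hid := kida_identity_ps hn hΔ D B he
  have hrel := lfun_rel (k := k) (k' := k') hr (algebraMap K L a) (algebraMap K L b)
  rw [hR, ← Pool.Agent.W343.BSD.coe_expand] at hrel
  have hred := congrArg (redL l) hP
  rw [map_mul, redL_poly, redL_poly] at hred
  rw [hrel, redL_poly] at hid
  have hid2 : ((((U * ∏ v ∈ B, locFactor v a b).map (Int.castRingHom (ZMod l))) ^ l ^ s :
      Polynomial (ZMod l)) : PowerSeries (ZMod l)) =
      (((expand ℤ (finrank k k') R).map (Int.castRingHom (ZMod l)) *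
        ((∏ v ∈ B, ∏ w ∈ S v, locML l w (algebraMap K L a)
        (algebraMap K L b)) * V.map (Int.castRingHom (ZMod l)) ^ l ^ s) : Polynomial (ZMod l)) :
        PowerSeries (ZMod l)) := by
    have e1 : ((∏ v ∈ B, locFactor v a b : ℤ[X]).map (Int.castRingHom (ZMod l))) ^ l ^ s =
        ∏ v ∈ B, locML l v a b ^ l ^ s := by
      rw [Polynomial.map_prod, ← Finset.prod_pow]
      rfl
    rw [Polynomial.map_mul, mul_pow, e1, Polynomial.coe_mul, Polynomial.coe_mul,
      Polynomial.coe_mul, Polynomial.coe_pow, Polynomial.coe_pow, ← hred, mul_pow]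
    linear_combination ((V.map (Int.castRingHom (ZMod l)) : (ZMod l)[X]) :
      PowerSeries (ZMod l)) ^ l ^ s * hid
  have key := Polynomial.coe_injective _ hid2
  rw [key]
  exact Dvd.intro _ rfl

end ext

section con

variable {k K k' K' : Type} [Field k] [Finite k] [Field K] [Algebra k K] [FF.IsFF k K]
  [Field k'] [Finite k'] [Field K'] [Algebra k' K'] [Algebra k k'] [Algebra k K'] [Algebra K K']
  [IsScalarTower k K K'] [IsScalarTower k k' K'] [FF.IsFF k K'] [FF.IsFF k' K']
  [FiniteDimensional K K']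

theorem ell_const (h6 : (6 : k) ≠ 0)
    (hconst : ∀ a : K, IsAlgebraic k a → a ∈ (algebraMap k K).range)
    (hfr : finrank K K' = finrank k k') {a b : K} (hΔ : 4 * a ^ 3 + 27 * b ^ 2 ≠ 0)
    {P : Polynomial ℤ} (hP : Lfun k a b = (P : PowerSeries ℤ)) :
    ∃ P' : Polynomial ℤ, Lfun k' (algebraMap K K' a) (algebraMap K K' b) =
      (P' : PowerSeries ℤ) ∧ P' ≠ 0 ∧ geo (Nat.card k') P' = geo (Nat.card k) P := by
  classical
  obtain ⟨P', hP'⟩ := base_poly (k' := k') (K' := K') h6 hconst hfr hΔ hP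
  refine ⟨P', hP', ?_⟩
  obtain ⟨μ, θ, hμ, hm, hroot, hdeg⟩ := exists_gen (k := k) (k' := k') (K' := K')
  have : FiniteDimensional k k' := Module.Finite.of_finite
  have hr0 : finrank k k' ≠ 0 := by
    rw [← hdeg]; exact hμ.natDegree_pos.ne'
  have hζ := Complex.isPrimitiveRoot_exp μ.natDegree hμ.natDegree_pos.ne'
  have h1 := base_change (K' := K') h6 hμ hm hconst hroot (hfr.trans hdeg.symm) hΔ hζ
  set ζ := Complex.exp (2 * Real.pi * Complex.I / (μ.natDegree : ℕ)) with hζd
  rw [hP, lfun_rel (k := k) (k' := k') hr0 (algebraMap K K' a) (algebraMap K K' b), hP',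
    ← Pool.Agent.W343.BSD.coe_expand, hdeg] at h1
  have h2 : ((Polynomial.expand ℤ (finrank k k') P').map (Int.castRingHom ℂ)) =
      ∏ i ∈ Finset.range (finrank k k'), (P.map (Int.castRingHom ℂ)).comp
        (Polynomial.C (ζ ^ i) * Polynomial.X) := by
    apply Polynomial.coe_injective
    rw [Polynomial.polynomial_map_coe, h1, coe_prod']
    refine Finset.prod_congr rfl fun i _ => ?_
    rw [← Polynomial.polynomial_map_coe, rescale_coe]
  rw [Polynomial.map_expand] at h2
  have hP0 : P ≠ 0 := by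
    rintro rfl
    have h3 := lfun_modL (k := k) 2 a b
    rw [hP, Polynomial.coe_zero, map_zero, zero_mul] at h3
    exact zero_ne_one h3
  have hP0' : P' ≠ 0 := by
    rintro rfl
    have h3 := lfun_modL (k := k') 2 (algebraMap K K' a) (algebraMap K K' b)
    rw [hP', Polynomial.coe_zero, map_zero, zero_mul] at h3
    exact zero_ne_one h3
  refine ⟨hP0', ?_⟩
  have h4 := congrArg (geoC (Nat.card k)) h2
  have hc : ∀ i : ℕ, (ζ ^ i) ^ finrank k k' = 1 := fun i => by
    rw [← hdeg, ← pow_mul, mul_comm, pow_mul, hζ.pow_eq_one, one_pow]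
  rw [geoC_expand hr0 (map_ne hP0'), geoC_prod _ _ _ (fun i _ =>
    (geoC_comp (Q := Nat.card k) (Nat.pos_of_ne_zero hr0) (hc i) (map_ne hP0)).1),
    Finset.sum_congr rfl (fun i _ =>
      (geoC_comp (Q := Nat.card k) (Nat.pos_of_ne_zero hr0) (hc i) (map_ne hP0)).2),
    Finset.sum_const, Finset.card_range, smul_eq_mul] at h4
  have h5 := Nat.eq_of_mul_eq_mul_left (Nat.pos_of_ne_zero hr0) h4
  have h6' : Nat.card k ^ finrank k k' = Nat.card k' := by
    rw [Module.natCard_eq_pow_finrank (K := k) (V := k')]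
  rw [h6'] at h5
  exact h5

end con

section quad

variable {ℓ : ℕ} [hℓ : Fact ℓ.Prime]

theorem totient_le_two {m : ℕ} (hm : 0 < m) (h : m.totient ≤ 2) :
    m = 1 ∨ m = 2 ∨ m = 3 ∨ m = 4 ∨ m = 6 := by
  have h1 := dvd_factorial_of_totient hm h
  have h2 : (2 * 2).factorial = 24 := by decide
  rw [h2] at h1
  have h3 : m ≤ 24 := Nat.le_of_dvd (by norm_num) h1
  interval_cases m <;> revert h <;> revert h1 <;> decide

/-- The quadratic polynomials. -/
theorem noCyc_quad {q : ℕ} (hq : (q : ZMod ℓ) ≠ 0) {c : ZMod ℓ} (h1 : (q : ZMod ℓ) + 1 - c ≠ 0)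
    (h2 : (q : ZMod ℓ) + 1 + c ≠ 0)
    (h3 : (q : ZMod ℓ) = 1 → c ≠ 0 ∧ c ≠ 1 ∧ c ≠ -1) :
    NoCyc ℓ q (1 - C c * X + C (q : ZMod ℓ) * X ^ 2) := by
  intro m hm hml hd
  set H : (ZMod ℓ)[X] := 1 - C c * X + C (q : ZMod ℓ) * X ^ 2 with hH
  have hHdeg : H.natDegree = 2 := by
    rw [hH]
    compute_degree!
  have hH0 : H ≠ 0 := by
    intro h
    rw [h, natDegree_zero] at hHdeg
    omega
  have hdeg : (cyc (ZMod ℓ) m q).natDegree = m.totient := by
    unfold cyc
    rw [natDegree_comp, natDegree_C_mul hq, natDegree_X, mul_one, natDegree_cyclotomic]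
  have hle : m.totient ≤ 2 := by
    rw [← hdeg, ← hHdeg]
    exact natDegree_le_of_dvd hd hH0
  have hcoef : ∀ i, H.coeff i = (if i = 0 then 1 else 0) - (if i = 1 then c else 0) +
      (if i = 2 then (q : ZMod ℓ) else 0) := by
    intro i
    rw [hH, coeff_add, coeff_sub, coeff_one, coeff_C_mul_X, coeff_C_mul_X_pow]
  -- equality in degree two
  have heq : ∀ P : (ZMod ℓ)[X], P ∣ H → P.natDegree = 2 → P.coeff 0 = 1 → H = P := by
    intro P hP hPd hP0
    obtain ⟨D, hD⟩ := hP
    have hPne : P ≠ 0 := by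
      rintro rfl
      rw [natDegree_zero] at hPd
      omega
    have hDne : D ≠ 0 := by
      rintro rfl
      rw [mul_zero] at hD
      exact hH0 hD
    have hDd : D.natDegree = 0 := by
      have := congrArg Polynomial.natDegree hD
      rw [natDegree_mul hPne hDne, hHdeg, hPd] at this
      omega
    have h4 : H.coeff 0 = P.coeff 0 * D.coeff 0 := by rw [hD, mul_coeff_zero]
    rw [hcoef, hP0, one_mul] at h4
    norm_num at h4
    rw [hD, eq_C_of_natDegree_eq_zero hDd, ← h4, C_1, mul_one]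
  rcases totient_le_two hm hle with rfl | rfl | rfl | rfl | rfl
  · have e : cyc (ZMod ℓ) 1 q = C (q : ZMod ℓ) * X - 1 := by
      unfold cyc
      rw [cyclotomic_one, sub_comp, X_comp, one_comp]
    rw [e] at hd
    have h4 := eval_eq_zero_of_dvd_of_eval_eq_zero (x := (q : ZMod ℓ)⁻¹) hd (by
      rw [eval_sub, eval_mul, eval_C, eval_X, eval_one, mul_inv_cancel₀ hq, sub_self])
    rw [hH, eval_add, eval_sub, eval_one, eval_mul, eval_mul, eval_C, eval_C, eval_pow,
      eval_X] at h4
    apply h1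
    have h5 : (q : ZMod ℓ) * (1 - c * (q : ZMod ℓ)⁻¹ + q * (q : ZMod ℓ)⁻¹ ^ 2) = 0 := by
      rw [h4, mul_zero]
    field_simp at h5
    linear_combination h5
  · have e : cyc (ZMod ℓ) 2 q = C (q : ZMod ℓ) * X + 1 := by
      unfold cyc
      rw [cyclotomic_two, add_comp, X_comp, one_comp]
    rw [e] at hd
    have h4 := eval_eq_zero_of_dvd_of_eval_eq_zero (x := -(q : ZMod ℓ)⁻¹) hd (by
      rw [eval_add, eval_mul, eval_C, eval_X, eval_one, mul_neg, mul_inv_cancel₀ hq]
      ring)
    rw [hH, eval_add, eval_sub, eval_one, eval_mul, eval_mul, eval_C, eval_C, eval_pow,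
      eval_X] at h4
    apply h2
    have h5 : (q : ZMod ℓ) * (1 - c * -(q : ZMod ℓ)⁻¹ + q * (-(q : ZMod ℓ)⁻¹) ^ 2) = 0 := by
      rw [h4, mul_zero]
    field_simp at h5
    linear_combination h5
  · have e : cyc (ZMod ℓ) 3 q = 1 + C (q : ZMod ℓ) * X + C ((q : ZMod ℓ) ^ 2) * X ^ 2 := by
      unfold cyc
      rw [cyclotomic_three]
      simp only [add_comp, pow_comp, X_comp, one_comp, mul_pow, C_pow]
      ring
    have h4 := heq _ hd (by rw [hdeg]; decide) (by rw [e]; simp)
    rw [e] at h4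
    have h5 := congrArg (fun p => coeff p 1) h4
    have h6 := congrArg (fun p => coeff p 2) h4
    simp only [hcoef, coeff_add, coeff_one, coeff_C_mul_X, coeff_C_mul_X_pow] at h5 h6
    norm_num at h5 h6
    have h7 : (q : ZMod ℓ) = 1 := by
      have : (q : ZMod ℓ) * (q - 1) = 0 := by linear_combination -h6
      rcases mul_eq_zero.1 this with h8 | h8
      · exact absurd h8 hq
      · exact sub_eq_zero.1 h8
    apply (h3 h7).2.2
    linear_combination -h5 - h7
  · have e : cyc (ZMod ℓ) 4 q = 1 + C ((q : ZMod ℓ) ^ 2) * X ^ 2 := by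
      unfold cyc
      have h8 : cyclotomic 4 (ZMod ℓ) = 1 + X ^ 2 := by
        rw [show (4 : ℕ) = 2 ^ (1 + 1) by norm_num, cyclotomic_prime_pow_eq_geom_sum Nat.prime_two]
        rw [Finset.sum_range_succ, Finset.sum_range_one]
        simp
      rw [h8]
      simp only [add_comp, pow_comp, X_comp, one_comp, mul_pow, C_pow]
    have h4 := heq _ hd (by rw [hdeg]; decide) (by rw [e]; simp)
    rw [e] at h4
    have h5 := congrArg (fun p => coeff p 1) h4
    have h6 := congrArg (fun p => coeff p 2) h4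
    simp only [hcoef, coeff_add, coeff_one, coeff_C_mul_X, coeff_C_mul_X_pow] at h5 h6
    norm_num at h5 h6
    have h7 : (q : ZMod ℓ) = 1 := by
      have : (q : ZMod ℓ) * (q - 1) = 0 := by linear_combination -h6
      rcases mul_eq_zero.1 this with h8 | h8
      · exact absurd h8 hq
      · exact sub_eq_zero.1 h8
    exact (h3 h7).1 h5
  · have e : cyc (ZMod ℓ) 6 q = 1 - C (q : ZMod ℓ) * X + C ((q : ZMod ℓ) ^ 2) * X ^ 2 := by
      unfold cyc
      rw [cyclotomic_six]
      simp only [add_comp, sub_comp, pow_comp, X_comp, one_comp, mul_pow, C_pow]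
      ring
    have h4 := heq _ hd (by rw [hdeg]; decide) (by rw [e]; simp)
    rw [e] at h4
    have h5 := congrArg (fun p => coeff p 1) h4
    have h6 := congrArg (fun p => coeff p 2) h4
    simp only [hcoef, coeff_add, coeff_sub, coeff_one, coeff_C_mul_X, coeff_C_mul_X_pow] at h5 h6
    norm_num at h5 h6
    have h7 : (q : ZMod ℓ) = 1 := by
      have : (q : ZMod ℓ) * (q - 1) = 0 := by linear_combination -h6
      rcases mul_eq_zero.1 this with h8 | h8
      · exact absurd h8 hq
      · exact sub_eq_zero.1 h8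
    apply (h3 h7).2.1
    linear_combination h5 + h7

end quad

end Pool.Agent.H313.GE
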