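import Pool.Agent.H313.GE.Ell

/-!
The rank criterion for elliptic curves.
-/

set_option autoImplicit false
set_option linter.all false
set_option maxHeartbeats 4000000

open FF Module

namespace Pool.Agent.H313.GE

open Pool.Agent.W343.BSD Pool.Agent.Y701.QG Pool.Agent.Y701.CB
open Pool.Agent.H123R3.ZT
open Polynomial

section expa

variable {ℓ : ℕ} [hℓ : Fact ℓ.Prime]

/-- primitive roots of the order `m / gcd (m, d)` are `d`-th powers of those of order `m` -/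
theorem exists_prim {E : Type} [Field E] {m d : ℕ} (hm : 0 < m) {z₀ : E}
    (hz₀ : IsPrimitiveRoot z₀ m) {y : E} (hy : IsPrimitiveRoot y (m / Nat.gcd m d)) :
    ∃ z : E, IsPrimitiveRoot z m ∧ z ^ d = y := by
  set m' := m / Nat.gcd m d with hm'
  have hg : 0 < Nat.gcd m d := Nat.gcd_pos_of_pos_left d hm
  have hm'0 : 0 < m' := Nat.div_pos (Nat.le_of_dvd hm (Nat.gcd_dvd_left m d)) hg
  have hprim : IsPrimitiveRoot (z₀ ^ d) m' := by
    have h1 : orderOf (z₀ ^ d) = m' := by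
      have h2 : orderOf z₀ = m := hz₀.eq_orderOf.symm
      rcases Nat.eq_zero_or_pos d with rfl | hd
      · rw [pow_zero, orderOf_one, hm', Nat.gcd_zero_right, Nat.div_self hm]
      · rw [orderOf_pow' _ hd.ne', h2]
    rw [← h1]
    exact IsPrimitiveRoot.orderOf _
  haveI : NeZero m' := ⟨hm'0.ne'⟩
  haveI : NeZero m := ⟨hm.ne'⟩
  obtain ⟨j, -, hj, hyj⟩ := hprim.isPrimitiveRoot_iff.1 hy
  have hdvd : m' ∣ m := Nat.div_dvd_of_dvd (Nat.gcd_dvd_left m d)
  obtain ⟨u, hu⟩ := ZMod.unitsMap_surjective hdvd (ZMod.unitOfCoprime j hj)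
  set j' := (u : ZMod m).val with hj'
  have hcop : Nat.Coprime j' m := ZMod.val_coe_unit_coprime u
  have hmod : j' ≡ j [MOD m'] := by
    rw [← ZMod.natCast_eq_natCast_iff]
    have h1 := congrArg (Units.val) hu
    rw [ZMod.unitsMap_val, ZMod.coe_unitOfCoprime] at h1
    rw [← h1, hj']
    rw [ZMod.natCast_val]
  refine ⟨z₀ ^ j', hz₀.pow_of_coprime j' hcop, ?_⟩
  rw [← pow_mul, mul_comm, pow_mul, ← hyj]
  have h2 := hprim.eq_orderOf
  rw [← pow_mod_orderOf (z₀ ^ d) j', ← pow_mod_orderOf (z₀ ^ d) j, ← h2, hmod]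

theorem noCyc_expand {Q d : ℕ} (hQ : (Q : ZMod ℓ) ≠ 0)
    {H : (ZMod ℓ)[X]} (hH : NoCyc ℓ (Q ^ d) H) : NoCyc ℓ Q (expand (ZMod ℓ) d H) := by
  classical
  intro m hm hml hdv
  set E := AlgebraicClosure (ZMod ℓ) with hE
  have hch : CharP E ℓ := charP_of_injective_algebraMap (algebraMap (ZMod ℓ) E).injective ℓ
  have hmE : ((m : ℕ) : E) ≠ 0 := by
    rw [Ne, CharP.cast_eq_zero_iff E ℓ]
    exact hml
  have hne : NeZero ((m : ℕ) : E) := ⟨hmE⟩
  have hQE : (Q : E) ≠ 0 := by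
    rw [← map_natCast (algebraMap (ZMod ℓ) E)]
    exact (_root_.map_ne_zero _).2 hQ
  obtain ⟨ζ, hζ⟩ : ∃ ζ : E, IsPrimitiveRoot ζ m := by
    have h1 : (cyclotomic m E).degree ≠ 0 := by
      rw [degree_cyclotomic]
      have := Nat.totient_pos.2 hm
      exact_mod_cast this.ne'
    obtain ⟨ζ, hζ⟩ := IsAlgClosed.exists_root _ h1
    exact ⟨ζ, isRoot_cyclotomic_iff.1 hζ⟩
  have hQd : ((Q ^ d : ℕ) : ZMod ℓ) ≠ 0 := by
    push_cast
    exact pow_ne_zero d hQ
  have hdvd : m / Nat.gcd m d ∣ m := Nat.div_dvd_of_dvd (Nat.gcd_dvd_left m d)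
  have hm'0 : 0 < m / Nat.gcd m d := Nat.pos_of_dvd_of_pos hdvd hm
  obtain ⟨y, hy, hHy⟩ := exists_pt (E := E) hQd hH hm'0 (fun h => hml (h.trans hdvd))
  obtain ⟨z, hz, hzy⟩ := exists_prim hm hζ hy
  apply hHy
  have h1 : aeval ((Q : E)⁻¹ * z) (cyc (ZMod ℓ) m Q) = 0 := by
    have h2 : aeval ((Q : E)⁻¹ * z) (cyc (ZMod ℓ) m Q) =
        eval ((Q : E)⁻¹ * z) (cyc E m Q) := by
      rw [← cyc_map (algebraMap (ZMod ℓ) E), eval_map_algebraMap]
    rw [h2]
    unfold cyc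
    rw [eval_comp, eval_mul, eval_C, eval_X, ← mul_assoc, mul_inv_cancel₀ hQE, one_mul]
    exact isRoot_cyclotomic_iff.2 hz
  obtain ⟨D, hD⟩ := hdv
  have h3 : aeval ((Q : E)⁻¹ * z) (expand (ZMod ℓ) d H) = 0 := by
    rw [hD, map_mul, h1, zero_mul]
  rw [expand_aeval, mul_pow, hzy, inv_pow] at h3
  rw [Nat.cast_pow]
  exact h3

theorem noCyc_one {Q : ℕ} (hQ : (Q : ZMod ℓ) ≠ 0) : NoCyc ℓ Q (1 : (ZMod ℓ)[X]) := by
  intro m hm hml hd
  have h1 := isUnit_of_dvd_one hd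
  have h2 := natDegree_eq_zero_of_isUnit h1
  unfold cyc at h2
  rw [natDegree_comp, natDegree_C_mul hQ, natDegree_X, mul_one, natDegree_cyclotomic] at h2
  exact (Nat.totient_pos.2 hm).ne' h2

theorem NoCyc.const_mul {Q : ℕ} {H : (ZMod ℓ)[X]} (hH : NoCyc ℓ Q H) {c : ZMod ℓ} (hc : c ≠ 0) :
    NoCyc ℓ Q (C c * H) := by
  intro m hm hml hd
  apply hH m hm hml
  have h1 : H = C c⁻¹ * (C c * H) := by
    rw [← mul_assoc, ← C_mul, inv_mul_cancel₀ hc, C_1, one_mul]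
  rw [h1]
  exact hd.mul_left _

theorem prod_two {ι : Type} (s : Finset ι) (f : ι → (ZMod ℓ)[X]) (G : (ZMod ℓ)[X])
    (h : ∀ i ∈ s, f i = 1 ∨ f i = G) : ∃ n : ℕ, ∏ i ∈ s, f i = G ^ n := by
  classical
  induction s using Finset.induction_on with
  | empty => exact ⟨0, by simp⟩
  | insert a s ha ih =>
    obtain ⟨n, hn⟩ := ih fun i hi => h i (Finset.mem_insert_of_mem hi)
    rw [Finset.prod_insert ha, hn]
    rcases h a (Finset.mem_insert_self a s) with h1 | h1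
    · exact ⟨n, by rw [h1, one_mul]⟩
    · exact ⟨n + 1, by rw [h1, pow_succ, mul_comm]⟩

end expa

section ext

variable {k K k' L : Type} [Field k] [Finite k] [Field K] [Algebra k K] [FF.IsFF k K]
  [Field k'] [Finite k'] [Field L] [Algebra k' L] [Algebra k k'] [Algebra k L] [Algebra K L]
  [IsScalarTower k K L] [IsScalarTower k k' L] [FF.IsFF k L] [FF.IsFF k' L]
  [FiniteDimensional K L] [IsGalois K L]

theorem lfun_coeff_zero (a b : K) {R : Polynomial ℤ}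
    (hR : Lfun k a b = (R : PowerSeries ℤ)) : R.coeff 0 = 1 := by
  have h := Pool.Agent.Y701.QF.constantCoeff_lfun (k := k) a b
  rw [hR, ← PowerSeries.coeff_zero_eq_constantCoeff_apply, Polynomial.coeff_coe] at h
  exact h

theorem rank_crit {l s : ℕ} [hl : Fact l.Prime] (hlk : (l : k) ≠ 0) (hn : finrank K L = l ^ s)
    {a b : K} (hΔ : 4 * a ^ 3 + 27 * b ^ 2 ≠ 0) (B : Finset (Place k K))
    (hB : ∀ v, v ∉ B → ∀ (w : Place k L) (n : ℕ), Over w v n → n = 1) {U V : Polynomial ℤ}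
    (hV : V.coeff 0 = 1) (hP : Lfun k a b * (V : PowerSeries ℤ) = (U : PowerSeries ℤ))
    {t : Multiset ℕ} {H : (ZMod l)[X]} (ht : ∀ N ∈ t, 0 < N)
    (hf : (U * ∏ v ∈ B, locFactor v a b).map (Int.castRingHom (ZMod l)) =
      cprod (ZMod l) (Nat.card k) t * H) (hH0 : H ≠ 0) (hH : NoCyc l (Nat.card k) H)
    {R : Polynomial ℤ} (hR : Lfun k' (algebraMap K L a) (algebraMap K L b) = (R : PowerSeries ℤ)) :
    finrank k k' * geo (Nat.card k') R ≤ finrank K L * (t.map Nat.totient).sum := by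
  have hQ := card_ne_zero_mod (k := k) hlk
  have hQ0 : Nat.card k ≠ 0 := Nat.card_pos.ne'
  have : FiniteDimensional k k' := Module.Finite.of_finite
  have hr : finrank k k' ≠ 0 := finrank_pos.ne'
  have hdvd := ell_dvd hn hΔ B hB hV hP hR
  rw [hf] at hdvd
  have hR0 := lfun_coeff_zero (k := k') _ _ hR
  have hRne : R ≠ 0 := by
    rintro rfl
    simp at hR0
  have he0 : (expand ℤ (finrank k k') R).coeff 0 = 1 := by
    rw [coeff_expand (Nat.pos_of_ne_zero hr), if_pos (dvd_zero _), Nat.zero_div, hR0]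
  obtain ⟨s', A₂, hs, hA₁, -, hA₂, hgA⟩ :=
    exists_decomp hQ0 _ (expand ℤ (finrank k k') R) le_rfl (by rw [he0]; exact isUnit_one)
  have h1 := geo_expand (Q := Nat.card k) hr hRne
  rw [← Module.natCard_eq_pow_finrank (K := k) (V := k')] at h1
  rw [← h1, hgA, hn]
  refine sum_le hQ hH0 hH hs ht ?_
  rw [hA₁, Polynomial.map_mul, cprod_map] at hdvd
  exact (Dvd.intro _ rfl).trans hdvd

end ext

section con

variable {k K k' K' : Type} [Field k] [Finite k] [Field K] [Algebra k K] [FF.IsFF k K]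
  [Field k'] [Finite k'] [Field K'] [Algebra k' K'] [Algebra k k'] [Algebra k K'] [Algebra K K']
  [IsScalarTower k K K'] [IsScalarTower k k' K'] [FF.IsFF k K'] [FF.IsFF k' K']
  [FiniteDimensional K K']

theorem rank_const (h6 : (6 : k) ≠ 0)
    (hconst : ∀ a : K, IsAlgebraic k a → a ∈ (algebraMap k K).range)
    (hfr : finrank K K' = finrank k k') {a b : K} (hΔ : 4 * a ^ 3 + 27 * b ^ 2 ≠ 0)
    {P : Polynomial ℤ} (hP : Lfun k a b = (P : PowerSeries ℤ)) {m : ℕ}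
    (hm : ∃ G : Polynomial ℤ, Lfun k' (algebraMap K K' a) (algebraMap K K' b) =
      (((1 - Polynomial.C (Nat.card k' : ℤ) * Polynomial.X) ^ m * G : Polynomial ℤ) :
        PowerSeries ℤ)) : m ≤ geo (Nat.card k) P := by
  obtain ⟨P', hP', hP0, hgeo⟩ := ell_const (k' := k') (K' := K') h6 hconst hfr hΔ hP
  obtain ⟨G, hG⟩ := hm
  rw [hP'] at hG
  have h1 := Polynomial.coe_injective _ hG
  rw [← hgeo, h1]
  have hc0 : Nat.card k' ≠ 0 := Nat.card_pos.ne'
  have hlin : (1 - Polynomial.C (Nat.card k' : ℤ) * Polynomial.X : ℤ[X]) ≠ 0 := by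
    intro h
    have h2 := congrArg (fun p => Polynomial.coeff p 0) h
    simp at h2
  have hG0 : G ≠ 0 := by
    rintro rfl
    rw [mul_zero] at h1
    exact hP0 h1
  rw [geo_mul _ (pow_ne_zero m hlin) hG0, geo_pow _ hlin]
  have h3 : 0 < geo (Nat.card k') (1 - Polynomial.C (Nat.card k' : ℤ) * Polynomial.X : ℤ[X]) := by
    apply geo_pos hlin (x := ((Nat.card k' : ℕ) : ℂ)⁻¹)
    · refine ⟨1, one_pos, ?_⟩
      rw [pow_one, mul_inv_cancel₀]
      exact_mod_cast hc0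
    · rw [map_sub, map_one, map_mul, aeval_X, aeval_C]
      have : (algebraMap ℤ ℂ) (Nat.card k' : ℤ) = ((Nat.card k' : ℕ) : ℂ) := by simp
      rw [this, mul_inv_cancel₀ (by exact_mod_cast hc0), sub_self]
  calc m = m * 1 := (mul_one m).symm
    _ ≤ m * geo (Nat.card k') (1 - Polynomial.C (Nat.card k' : ℤ) * Polynomial.X : ℤ[X]) :=
        Nat.mul_le_mul_left m h3
    _ ≤ _ := Nat.le_add_right _ _

end con

end Pool.Agent.H313.GE
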