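import Pool.Agent.H313.GE.Ell2

/-!
The family `y ^ 2 = f(x) + 2 g(x) t + h(x) t ^ 2` and the curves `y ^ 2 = x ^ 3 + α x + β + t`.
-/

set_option autoImplicit false
set_option linter.all false
set_option maxHeartbeats 4000000

open FF Module

namespace Pool.Agent.H313.GE

open Pool.Agent.W343.BSD Pool.Agent.Y701.QG Pool.Agent.Y701.CB Pool.Agent.W309.RF
open Pool.Agent.H123R3.ZT
open Polynomial
open Pool.Agent.Y701.QF (pt pt_deg pt_fin pt_ord red_pt bij_of_deg card_sol_bij)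

section prodF

theorem geo_lin {Q d : ℕ} (hQ : Q ≠ 0) (hd : d ≠ 0) {c : ℤ} (hc : c = 0 ∨ c = 1 ∨ c = -1) :
    (1 - C (c * (Q : ℤ) ^ d) * X ^ d : ℤ[X]) ≠ 0 ∧
    geo Q (1 - C (c * (Q : ℤ) ^ d) * X ^ d : ℤ[X]) = if c = 0 then 0 else d := by
  classical
  have hne : (1 - C (c * (Q : ℤ) ^ d) * X ^ d : ℤ[X]) ≠ 0 := by
    intro h
    have h2 := congrArg (fun p => Polynomial.coeff p 0) h
    simp only [coeff_sub, coeff_one_zero, coeff_C_mul, coeff_X_pow, coeff_zero] at h2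
    rw [if_neg (fun h => hd h.symm)] at h2
    norm_num at h2
  refine ⟨hne, ?_⟩
  by_cases hc0 : c = 0
  · rw [if_pos hc0, hc0, zero_mul, C_0, zero_mul, sub_zero, geo_one]
  rw [if_neg hc0]
  have hc1 := hc.resolve_left hc0
  have hcc : (c : ℂ) * c = 1 := by
    rcases hc1 with h | h <;> rw [h] <;> norm_num
  have hQd : ((Q : ℂ) ^ d) ≠ 0 := pow_ne_zero d (by exact_mod_cast hQ)
  have hcne : (c : ℂ) ≠ 0 := by exact_mod_cast hc0
  have h1 : (1 - C (c * (Q : ℤ) ^ d) * X ^ d : ℤ[X]).map (Int.castRingHom ℂ) =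
      C (-(c : ℂ) * (Q : ℂ) ^ d) * (X ^ d - C ((c : ℂ) / (Q : ℂ) ^ d)) := by
    rw [mul_sub, ← C_mul]
    have e : -(c : ℂ) * (Q : ℂ) ^ d * ((c : ℂ) / (Q : ℂ) ^ d) = -1 := by
      field_simp
      linear_combination -hcc
    rw [e]
    simp only [Polynomial.map_sub, Polynomial.map_one, Polynomial.map_mul, Polynomial.map_C,
      Polynomial.map_pow, Polynomial.map_X, C_neg, C_1]
    simp only [eq_intCast]
    push_cast
    simp only [C_mul, C_neg, C_pow]
    ring
  have hC0 : (-(c : ℂ) * (Q : ℂ) ^ d) ≠ 0 := mul_ne_zero (neg_ne_zero.2 hcne) hQd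
  rw [geo_eq, h1, geoC_mul Q (C_ne_zero.2 hC0) (X_pow_sub_C_ne_zero (Nat.pos_of_ne_zero hd) _),
    geoC_C, zero_add, geoC_pow_sub hd, if_pos]
  refine ⟨2, two_pos, ?_⟩
  push_cast
  rw [mul_div_cancel₀ _ hQd, sq, hcc]

theorem geo_prod {ι : Type} (Q : ℕ) (s : Finset ι) (f : ι → ℤ[X]) (h : ∀ i ∈ s, f i ≠ 0) :
    geo Q (∏ i ∈ s, f i) = ∑ i ∈ s, geo Q (f i) := by
  classical
  induction s using Finset.induction_on with
  | empty => simp [geo_one]
  | insert a s ha ih =>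
    rw [Finset.prod_insert ha, Finset.sum_insert ha, geo_mul Q (h a (Finset.mem_insert_self a s))
      (Finset.prod_ne_zero_iff.2 fun i hi => h i (Finset.mem_insert_of_mem hi)),
      ih fun i hi => h i (Finset.mem_insert_of_mem hi)]

theorem prodF_decomp {k : Type} [Field k] {Q : ℕ} (hQ : Q ≠ 0) {S : Finset k[X]}
    (hdeg : ∀ P ∈ S, P.natDegree ≠ 0) {c : k[X] → ℤ} (hc : ∀ P, c P = 0 ∨ c P = 1 ∨ c P = -1) :
    ∃ (t : Multiset ℕ) (b : ℤ), (∀ N ∈ t, 0 < N) ∧ prodF (Q : ℤ) S c = cprod ℤ Q t * C b ∧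
      IsUnit b ∧ (t.map Nat.totient).sum = ∑ P ∈ S, if c P = 0 then 0 else P.natDegree := by
  classical
  have hgeo : geo Q (prodF (Q : ℤ) S c) = ∑ P ∈ S, if c P = 0 then 0 else P.natDegree := by
    unfold prodF
    rw [geo_prod Q S _ fun P hP => (geo_lin hQ (hdeg P hP) (hc P)).1]
    exact Finset.sum_congr rfl fun P hP => (geo_lin hQ (hdeg P hP) (hc P)).2
  have h0 : (prodF (Q : ℤ) S c).coeff 0 = 1 := by
    unfold prodF
    rw [coeff_zero_eq_eval_zero, eval_prod]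
    refine Finset.prod_eq_one fun P hP => ?_
    rw [eval_sub, eval_one, eval_mul, eval_pow, eval_X, zero_pow (hdeg P hP), mul_zero, sub_zero]
  obtain ⟨t, B, ht, hB, hno, hBu, hg⟩ := exists_decomp hQ _ (prodF (Q : ℤ) S c) le_rfl
    (by rw [h0]; exact isUnit_one)
  have hBne : B ≠ 0 := by
    rintro rfl
    rw [coeff_zero] at hBu
    exact not_isUnit_zero hBu
  have hBdeg : B.natDegree = 0 := by
    by_contra hd
    have h1 : (B.map (Int.castRingHom ℂ)).degree ≠ 0 := by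
      rw [degree_map_eq_of_injective (RingHom.injective_int _), degree_eq_natDegree hBne]
      exact_mod_cast hd
    obtain ⟨x, hx⟩ := IsAlgClosed.exists_root _ h1
    have hx' : aeval x B = 0 := by
      rw [← algebraMap_int_eq] at hx
      rwa [IsRoot.def, eval_map_algebraMap] at hx
    have h2 : aeval x (prodF (Q : ℤ) S c) = 0 := by rw [hB, map_mul, hx', mul_zero]
    unfold prodF at h2
    rw [map_prod] at h2
    obtain ⟨P, hP, h3⟩ := Finset.prod_eq_zero_iff.1 h2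
    rw [map_sub, map_one, map_mul, map_pow, aeval_X, aeval_C] at h3
    have h4 : ((algebraMap ℤ ℂ) (c P * (Q : ℤ) ^ P.natDegree)) = (c P : ℂ) * (Q : ℂ) ^ P.natDegree := by
      simp
    rw [h4, mul_assoc, ← mul_pow] at h3
    have h5 : (c P : ℂ) * ((Q : ℂ) * x) ^ P.natDegree = 1 := by linear_combination -h3
    apply hno x _ hx'
    refine ⟨P.natDegree * 2, Nat.mul_pos (Nat.pos_of_ne_zero (hdeg P hP)) two_pos, ?_⟩
    rw [pow_mul]
    have h6 : (c P : ℂ) ^ 2 = 1 := by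
      rcases hc P with h | h | h
      · rw [h] at h5
        norm_num at h5
      · rw [h]; norm_num
      · rw [h]; norm_num
    calc (((Q : ℂ) * x) ^ P.natDegree) ^ 2 = 1 * (((Q : ℂ) * x) ^ P.natDegree) ^ 2 := (one_mul _).symm
      _ = ((c P : ℂ) * ((Q : ℂ) * x) ^ P.natDegree) ^ 2 := by
        rw [mul_pow (c P : ℂ) (((Q : ℂ) * x) ^ P.natDegree) 2, h6]
      _ = 1 := by rw [h5, one_pow]
  refine ⟨t, B.coeff 0, ht, ?_, hBu, ?_⟩
  · rw [hB]
    congr 1
    exact eq_C_of_natDegree_eq_zero hBdeg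
  · rw [← hg, hgeo]

end prodF

section tame

variable {k K : Type} [Field k] [Finite k] [Field K] [Algebra k K] [FF.IsFF k K]

theorem tame_pow {ℓ : ℕ} [hℓ : Fact ℓ.Prime] (hlk : (ℓ : k) ≠ 0) {a b : K}
    (hΔ : 4 * a ^ 3 + 27 * b ^ 2 ≠ 0) (B : Finset (Place k K)) {d : ℕ} {c : ℤ}
    (hB : ∀ v ∈ B, (v.ord (minDisc v a b) ≠ 0 ∧ S.trace v a b = 0) ∨
      (v.ord (minDisc v a b) = 0 ∧ S.deg v = d ∧ (ℓ : ℤ) ∣ S.trace v a b - c))
    (h1 : ¬ (ℓ : ℤ) ∣ (Nat.card k : ℤ) ^ d + 1 - c) (h2 : ¬ (ℓ : ℤ) ∣ (Nat.card k : ℤ) ^ d + 1 + c)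
    (h3 : (ℓ : ℤ) ∣ (Nat.card k : ℤ) ^ d - 1 → ¬ (ℓ : ℤ) ∣ c * (c - 1) * (c + 1)) :
    NoCyc ℓ (Nat.card k) ((∏ v ∈ B, S.locFactor v a b).map (Int.castRingHom (ZMod ℓ))) := by
  classical
  have hQ := card_ne_zero_mod (k := k) hlk
  have hQd : ((Nat.card k ^ d : ℕ) : ZMod ℓ) ≠ 0 := by
    push_cast
    exact pow_ne_zero d hQ
  have z : ∀ n : ℤ, ((n : ℤ) : ZMod ℓ) = 0 ↔ (ℓ : ℤ) ∣ n := fun n => ZMod.intCast_zmod_eq_zero_iff_dvd n ℓ
  set G : (ZMod ℓ)[X] := expand (ZMod ℓ) d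
    (1 - C ((c : ℤ) : ZMod ℓ) * X + C ((Nat.card k ^ d : ℕ) : ZMod ℓ) * X ^ 2) with hG
  have hnG : NoCyc ℓ (Nat.card k) G := by
    apply noCyc_expand hQ
    apply noCyc_quad hQd
    · intro h
      apply h1
      rw [← z]
      push_cast at h ⊢
      exact h
    · intro h
      apply h2
      rw [← z]
      push_cast at h ⊢
      exact h
    · intro h
      have h4 : (ℓ : ℤ) ∣ (Nat.card k : ℤ) ^ d - 1 := by
        rw [← z]
        push_cast at h ⊢
        rw [h, sub_self]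
      have h5 := h3 h4
      rw [← z] at h5
      push_cast at h5
      refine ⟨fun h6 => h5 ?_, fun h6 => h5 ?_, fun h6 => h5 ?_⟩
      · rw [h6]; ring
      · rw [h6]; ring
      · rw [h6]; ring
  obtain ⟨n, hn⟩ := prod_two B (fun v => (S.locFactor v a b).map (Int.castRingHom (ZMod ℓ))) G (by
    intro v hv
    rcases hB v hv with ⟨h4, h5⟩ | ⟨h4, h5, h6⟩
    · left
      unfold S.locFactor
      rw [if_neg h4, h5]
      simp
    · right
      have hres : Nat.card (S.Res v) = Nat.card k ^ S.deg v := by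
        rw [S.deg_eq]
        exact Module.natCard_eq_pow_finrank (K := k) (V := v.RF)
      have h7 : ((S.trace v a b : ℤ) : ZMod ℓ) = ((c : ℤ) : ZMod ℓ) := by
        rw [← z] at h6
        push_cast at h6
        exact sub_eq_zero.1 h6
      unfold S.locFactor
      rw [if_pos h4, hres, h5, hG]
      simp only [Polynomial.map_add, Polynomial.map_sub, Polynomial.map_one, Polynomial.map_mul,
        Polynomial.map_C, Polynomial.map_pow, Polynomial.map_X, map_add, map_sub, map_one, map_mul,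
        expand_C, map_pow, expand_X]
      simp only [eq_intCast]
      rw [h7, ← pow_mul, mul_comm d 2]
      push_cast
      rfl)
  rw [Polynomial.map_prod, hn]
  exact hnG.pow hQ n

end tame

section example_

variable {k : Type} [Field k] [Finite k]

theorem co_ex (h6 : (6 : k) ≠ 0) (α β : k) :
    co (X ^ 3 + C α * X + C β) (C (1 / 2)) 0 3 = 1 ∧ co (X ^ 3 + C α * X + C β) (C (1 / 2)) 0 2 = 0 ∧
    co (X ^ 3 + C α * X + C β) (C (1 / 2)) 0 1 = C α ∧
    co (X ^ 3 + C α * X + C β) (C (1 / 2)) 0 0 = C β + X := by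
  have h2 := Pool.Agent.Y701.QG.two_ne h6
  have h20 : 2 * (1 / 2 : k) = 1 := mul_one_div_cancel h2
  unfold co
  refine ⟨?_, ?_, ?_, ?_⟩
  · simp [coeff_X, coeff_C]
  · simp [coeff_X, coeff_C]
  · simp [coeff_X, coeff_C]
  · have e1 : (X ^ 3 + C α * X + C β : k[X]).coeff 0 = β := by simp
    have e2 : (C (1 / 2) : k[X]).coeff 0 = 1 / 2 := by simp
    rw [e1, e2, h20]
    simp

theorem PA_ex (h6 : (6 : k) ≠ 0) (α β : k) : PA (X ^ 3 + C α * X + C β) (C (1 / 2)) 0 = C α := by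
  obtain ⟨h3, h2, h1, h0⟩ := co_ex h6 α β
  unfold PA
  rw [h3, h2, h1]
  ring

theorem PB_ex (h6 : (6 : k) ≠ 0) (α β : k) :
    PB (X ^ 3 + C α * X + C β) (C (1 / 2)) 0 = C β + X := by
  obtain ⟨h3, h2, h1, h0⟩ := co_ex h6 α β
  unfold PB
  rw [h3, h2, h1, h0]
  ring

theorem disc_ex (h6 : (6 : k) ≠ 0) (α β : k) : 4 * (C α : k[X]) ^ 3 + 27 * (C β + X) ^ 2 ≠ 0 := by
  have h3 := Pool.Agent.Y701.QG.three_ne h6
  intro h
  have h4 := congrArg (fun p => Polynomial.coeff p 2) h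
  have e : (4 * (C α : k[X]) ^ 3 + 27 * (C β + X) ^ 2) =
      C (4 * α ^ 3 + 27 * β ^ 2) + C (54 * β) * X + C 27 * X ^ 2 := by
    simp only [C_add, C_mul, C_pow]
    have e1 : (C 4 : k[X]) = 4 := rfl
    have e2 : (C 27 : k[X]) = 27 := rfl
    have e3 : (C 54 : k[X]) = 54 := rfl
    rw [e1, e2, e3]
    ring
  rw [e] at h4
  simp only [coeff_add, coeff_C_mul, coeff_X_pow, coeff_C, coeff_X] at h4
  norm_num at h4
  apply h3
  have h5 : (3 : k) ^ 3 = 0 := by
    rw [← h4]; norm_num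
  exact pow_eq_zero_iff three_ne_zero |>.1 h5

theorem nc_ex (α β : k) : NC (C α) (C β + X) := by
  rintro a b v hv ⟨-, h2⟩
  have h3 : (C β + X : k[X]).natDegree = 1 := by
    rw [add_comm]
    exact natDegree_X_add_C β
  rw [h2] at h3
  by_cases hb : b = 0
  · rw [hb, C_0, zero_mul, natDegree_zero] at h3
    exact zero_ne_one h3
  · rw [natDegree_C_mul hb, natDegree_pow] at h3
    omega

theorem good_ex (h6 : (6 : k) ≠ 0) (α β : k) : Good (X ^ 3 + C α * X + C β) (C (1 / 2)) 0 where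
  degf := by compute_degree
  degg := by rw [natDegree_C]; omega
  degh := by rw [natDegree_zero]; omega
  delta := by
    have h2 := Pool.Agent.Y701.QG.two_ne h6
    rw [mul_zero, sub_zero, ← C_pow]
    exact C_ne_zero.2 (pow_ne_zero 2 (one_div_ne_zero h2))
  nc := by
    rw [PA_ex h6, PB_ex h6]
    exact nc_ex α β
  disc := by
    rw [PA_ex h6, PB_ex h6]
    exact disc_ex h6 α β

theorem lfun_ex (h6 : (6 : k) ≠ 0) (α β : k) :
    Lfun k (A (C α) : RatFunc k) (A (C β + X)) = 1 := by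
  classical
  letI : Fintype k := Fintype.ofFinite k
  have hG := good_ex h6 α β
  have h2 := Pool.Agent.Y701.QG.two_ne h6
  have h := exact_lfun h6 hG (S := ∅) (T := ∅) (by
    intro P
    simp only [Finset.notMem_empty, false_iff]
    rintro ⟨-, hirr, hd⟩
    rw [mul_zero, sub_zero, ← C_pow] at hd
    exact hirr.not_isUnit (isUnit_of_dvd_unit hd (isUnit_C.2
      (IsUnit.mk0 _ (pow_ne_zero 2 (one_div_ne_zero h2)))))) (by
    intro P
    simp only [Finset.notMem_empty, false_iff]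
    rintro ⟨-, hirr, hd⟩
    rw [(co_ex h6 α β).1] at hd
    exact hirr.not_isUnit (isUnit_of_dvd_one hd))
  have hsi : si (0 : k[X]) = 0 := by
    unfold si sq3
    simp
  rw [PA_ex h6, PB_ex h6, hsi] at h
  unfold prodF at h
  simpa using h

theorem place_ex {v : Place k (RatFunc k)} (hv : v.ord RatFunc.X ≠ 0) :
    v = pt 0 ∨ v = infty k := by
  by_cases h : v = infty k
  · exact Or.inr h
  · left
    have h1 : 0 < v.ord (A (X - C (0 : k))) := by
      rw [C_0, sub_zero]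
      have e : A (X : k[X]) = RatFunc.X := A_X
      rw [e]
      have h2 := fin_of_ne h
      omega
    exact fin_unique (fin_of_ne h) (pt_fin 0) (irreducible_X_sub_C (0 : k)) h1 (pt_ord 0)

theorem tame_ex (h6 : (6 : k) ≠ 0) {α β : k} (hab : 4 * α ^ 3 + 27 * β ^ 2 ≠ 0)
    {v : Place k (RatFunc k)} (hv : v.ord RatFunc.X ≠ 0) :
    (v.ord (minDisc v (A (C α)) (A (C β + X))) ≠ 0 ∧ S.trace v (A (C α)) (A (C β + X)) = 0) ∨
      (v.ord (minDisc v (A (C α)) (A (C β + X))) = 0 ∧ S.deg v = 1 ∧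
        S.trace v (A (C α)) (A (C β + X)) = (Nat.card k : ℤ) -
          Nat.card {P : k × k // P.2 ^ 2 = P.1 ^ 3 + α * P.1 + β}) := by
  classical
  have hΔ : 4 * (A (C α) : RatFunc k) ^ 3 + 27 * A (C β + X) ^ 2 ≠ 0 := by
    rw [A_disc]
    exact A_ne (disc_ex h6 α β)
  have hab' := ab_of_disc hΔ
  have hn := nc_ex α β
  have d4 : (C α : k[X]).natDegree ≤ 4 := by rw [natDegree_C]; omega
  have d6 : (C β + X : k[X]).natDegree ≤ 6 := by
    rw [add_comm, natDegree_X_add_C]; omega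
  rcases place_ex hv with rfl | rfl
  · right
    have hmin := min_pt d4 d6 hn (0 : k)
    have er : (pt (0 : k)).red (4 * A (C α) ^ 3 + 27 * A (C β + X) ^ 2) =
        algebraMap k (pt (0 : k)).RF (4 * α ^ 3 + 27 * β ^ 2) := by
      rw [A_disc, red_pt]
      congr 1
      simp
    refine ⟨?_, by rw [S.deg_eq, pt_deg], ?_⟩
    · rw [ord_minDisc_of_min _ hΔ hmin]
      have h1 : (pt (0 : k)).ord (1 : RatFunc k) = 0 := (pt (0 : k)).ord_one
      rw [h1, mul_zero, zero_add]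
      by_contra hcon
      have hreg : (pt (0 : k)).Reg (4 * A (C α) ^ 3 + 27 * A (C β + X) ^ 2) := by
        rw [A_disc]
        exact fin_reg (pt_fin 0) _
      have h2 : 0 < (pt (0 : k)).ord (4 * A (C α) ^ 3 + 27 * A (C β + X) ^ 2) := by
        have := ((pt (0 : k)).reg_iff hΔ).1 hreg
        omega
      have h3 := ((pt (0 : k)).red_eq_zero_iff hreg).2 (Or.inr h2)
      rw [er] at h3
      exact hab ((map_eq_zero_iff _ (algebraMap k (pt (0 : k)).RF).injective).1 h3)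
    · rw [S.trace_eq, trace_of_min _ hab' hmin, one_pow, one_mul, one_pow, one_mul, red_pt, red_pt]
      have e1 : (C α : k[X]).eval 0 = α := by simp
      have e2 : (C β + X : k[X]).eval 0 = β := by simp
      rw [e1, e2, card_sol_bij _ (bij_of_deg (pt_deg 0))]
      have e3 : Nat.card (pt (0 : k)).RF = Nat.card k :=
        (Nat.card_congr (Equiv.ofBijective _ (bij_of_deg (pt_deg 0)))).symm
      rw [e3]
  · left
    have hmin := min_inf d4 d6 hn
    have c4 : (C α : k[X]).coeff 4 = 0 := by simp [coeff_C]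
    have c6 : (C β + X : k[X]).coeff 6 = 0 := by simp [coeff_C, coeff_X]
    have hred4 := red_inf_scale d4
    have hred6 := red_inf_scale d6
    rw [c4, map_zero] at hred4
    rw [c6, map_zero] at hred6
    constructor
    · rw [ord_minDisc_of_min _ hΔ hmin]
      have h1 : (infty k).ord ((RatFunc.X : RatFunc k)⁻¹) = 1 := by
        rw [(infty k).ord_inv, inf_X infty_X]
        norm_num
      rw [h1, A_disc, Pool.Agent.Y701.QF.ord_inf_A (disc_ex h6 α β)]
      have h2 : (4 * (C α : k[X]) ^ 3 + 27 * (C β + X) ^ 2).natDegree ≤ 2 := by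
        compute_degree
      omega
    · rw [S.trace_eq, trace_of_min _ hab' hmin, hred4, hred6, card_sol_cusp, sub_self]

end example_

end Pool.Agent.H313.GE
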