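import Pool.Agent.H313.GE.Fin
import Pool.Agent.Y701.AV.Trunc

/-!
Euler products over Galois extensions of prime power degree: the divisibility modulo the prime.
-/

set_option autoImplicit false
set_option linter.all false
set_option maxHeartbeats 4000000

open FF Module

namespace Pool.Agent.H313.GE

open Pool.Agent.W343.BSD Pool.Agent.Y701.QF Pool.Agent.Y701.GV Pool.Agent.Y701.AV
open Pool.Agent.Y701.PE (IsExp sub toC LiesOver cc_toC pw_of sub_mod sub_eq sub_poly map_sub'
  sub_sub sub_pow' euler_down kida_series dwork card_res map_ne_of_coeff)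
open Pool.Agent.H123R3.ZT Pool.Agent.Y701.CB
open Polynomial

variable {k K k' L : Type} [Field k] [Finite k] [Field K] [Algebra k K]
  [Field k'] [Finite k'] [Field L] [Algebra k' L] [Algebra k k'] [Algebra k L] [Algebra K L]
  [IsScalarTower k K L] [IsScalarTower k k' L]

theorem core_dvd (hKc : IsCurveField k K) (hLc : IsCurveField k' L)
    {l : ℕ} [hl : Fact l.Prime] (hgal : IsGalois K L)
    (hpow : ∃ s : ℕ, finrank K L = l ^ s) (T : Finset (Place k K))
    (hunr : ∀ v, v ∉ T → ∀ (w : Place k' L) (e : ℕ), LiesOver w v e → e = 1)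
    {P : Place k K → ℤ[X]} (hP : ∀ v, (P v).coeff 0 = 1)
    {P' : Place k' L → ℤ[X]} (hP' : ∀ w, (P' w).coeff 0 = 1)
    (hext : ∀ (v : Place k K) (w : Place k' L) (e f : ℕ), v ∉ T → LiesOver w v e →
      Nat.card (S.Res w) = Nat.card (S.Res v) ^ f → IsPower f (P v) (P' w))
    {Λ : PowerSeries ℤ}
    (hK : Λ * eulerProd (fun v : Place k K => v.deg)
      (fun v => sub v.deg (P v : PowerSeries ℤ)) = 1)
    {U V : ℤ[X]} (hV : V.coeff 0 = 1) (hUV : Λ * (V : PowerSeries ℤ) = (U : PowerSeries ℤ))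
    {R : ℤ[X]} (hL : (R : PowerSeries ℤ) * eulerProd (fun w : Place k' L => w.deg)
      (fun w => sub w.deg (P' w : PowerSeries ℤ)) = 1) :
    R.coeff 0 = 1 ∧ U.coeff 0 = 1 ∧
      (expand ℤ (finrank k k') R).map (Int.castRingHom (ZMod l)) ∣
        (U * ∏ v ∈ T, expand ℤ v.deg (P v)).map (Int.castRingHom (ZMod l)) ^ finrank K L := by
  classical
  obtain ⟨s, hs⟩ := hpow
  have i0 : FF.IsFF k K := ⟨hKc.essFiniteType, hKc.trdeg_eq_one⟩
  have i1 : FiniteDimensional K L := Module.finite_of_finrank_pos (by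
    rw [hs]; exact pow_pos hl.out.pos s)
  have i2 : FF.IsFF k L := isFF_of_finite (K := K)
  have i3 : FF.IsFF k' L := ⟨hLc.essFiniteType, hLc.trdeg_eq_one⟩
  have i4 := hgal
  have i5 : Module.Finite k k' := Module.Finite.of_finite
  have hr : finrank k k' ≠ 0 := finrank_pos.ne'
  have hdK : ∀ v : Place k K, v.deg ≠ 0 := fun w => (Pool.Agent.H525R3.FFp.deg_pos w).ne'
  have hdL : ∀ v : Place k L, v.deg ≠ 0 := fun w => (Pool.Agent.H525R3.FFp.deg_pos w).ne'
  have hdL' : ∀ v : Place k' L, v.deg ≠ 0 := fun w => (Pool.Agent.H525R3.FFp.deg_pos w).ne'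
  have hD := fun v : Place k K => exists_galoisFiber (L := L) v
  choose S2 e f D using hD
  have he1 : ∀ v, v ∉ T → e v = 1 := by
    intro v hv
    obtain ⟨w, hw⟩ := (D v).nonempty
    have h1 := (D v).isOver w hw
    exact hunr v hv (upPlace (k' := k') w) (e v) ⟨h1.1, h1.2⟩
  let OT : Place k' L → Prop := fun w => ∃ v ∈ T, ∃ (e : ℕ), LiesOver w v e
  let WT : Finset (Place k' L) := T.biUnion fun v => (S2 v).image fun w => upPlace (k' := k') w
  have hWT : ∀ w, OT w → w ∈ WT := by
    rintro w ⟨v, hv, e', h1⟩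
    refine Finset.mem_biUnion.2 ⟨v, hv, ?_⟩
    exact Finset.mem_image.2 ⟨downPlace (k := k) w, (D v).mem _ e' ⟨h1.1, h1.2⟩, rfl⟩
  have hR0 : R.coeff 0 = 1 := by
    have h1 := cc_euler hP' hL
    rw [← PowerSeries.coeff_zero_eq_constantCoeff_apply, Polynomial.coeff_coe] at h1
    exact h1
  have hU0 : U.coeff 0 = 1 := by
    have h1 := congrArg PowerSeries.constantCoeff hUV
    rw [map_mul, cc_euler hP hK, one_mul, cc_coe hV,
      ← PowerSeries.coeff_zero_eq_constantCoeff_apply, Polynomial.coeff_coe] at h1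
    exact h1.symm
  refine ⟨hR0, hU0, ?_⟩
  set E : ℤ[X] := ∏ v ∈ T, (if v ∈ T then expand ℤ v.deg (P v) else 1) with hE
  set E' : ℤ[X] := ∏ w ∈ WT, (if OT w then expand ℤ w.deg (P' w) else 1) with hE'
  have hEE : E = ∏ v ∈ T, expand ℤ v.deg (P v) := Finset.prod_congr rfl fun v hv => if_pos hv
  have s1 := euler_split hP (fun v => v ∈ T) T fun v h => h
  have s2 := euler_split hP' OT WT hWT
  rw [← hE] at s1
  rw [← hE'] at s2
  have cc1 : ∀ v : Place k K, PowerSeries.constantCoeff
      ((if v ∈ T then 1 else P v : ℤ[X]) : PowerSeries ℤ) = 1 := by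
    intro v
    split_ifs
    · rw [Polynomial.coe_one, map_one]
    · exact cc_coe (hP v)
  have cc2 : ∀ w : Place k' L, PowerSeries.constantCoeff
      ((if OT w then 1 else P' w : ℤ[X]) : PowerSeries ℤ) = 1 := by
    intro v
    split_ifs
    · rw [Polynomial.coe_one, map_one]
    · exact cc_coe (hP' v)
  choose a ha using fun v => exists_exp (cc1 v)
  choose a' ha' using fun w => exists_exp (cc2 w)
  have hKt : Λ * (E : PowerSeries ℤ) * eulerProd (fun v : Place k K => v.deg)
      (fun v => sub v.deg ((if v ∈ T then 1 else P v : ℤ[X]) : PowerSeries ℤ)) = 1 := by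
    rw [mul_assoc, mul_comm (E : PowerSeries ℤ), ← s1, hK]
  have hLt : (R : PowerSeries ℤ) * (E' : PowerSeries ℤ) * eulerProd (fun w : Place k' L => w.deg)
      (fun w => sub w.deg ((if OT w then 1 else P' w : ℤ[X]) : PowerSeries ℤ)) = 1 := by
    rw [mul_assoc, mul_comm (E' : PowerSeries ℤ), ← s2, hL]
  have haa : ∀ (v : Place k K) (w : Place k L) (n f : ℕ), Over w v n → w.deg = v.deg * f →
      ∀ m, m ≠ 0 → a' (upPlace w) m = a v (f * m) := by
    intro v w n f h hd m hm
    have hf0 : f ≠ 0 := by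
      rintro rfl
      rw [mul_zero] at hd
      exact hdL w hd
    have h1 : LiesOver (upPlace (k' := k') w) v n := ⟨h.1, h.2⟩
    have hcard : Nat.card (S.Res (upPlace (k' := k') w)) = Nat.card (S.Res v) ^ f := by
      have e1 : Nat.card (S.Res (upPlace (k' := k') w)) = Nat.card (S.Res w) := rfl
      rw [e1, card_res, card_res, hd, pow_mul]
    by_cases hv : v ∈ T
    · have hw : OT (upPlace (k' := k') w) := ⟨v, hv, n, h1⟩
      have g1 := ha v
      have g2 := ha' (upPlace (k' := k') w)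
      rw [if_pos hv, Polynomial.coe_one] at g1
      rw [if_pos hw, Polynomial.coe_one] at g2
      rw [exp_unique g2 exp_zero hm, exp_unique g1 exp_zero (Nat.mul_ne_zero hf0 hm)]
    · have hw : ¬ OT (upPlace (k' := k') w) := by
        rintro ⟨v1, hv1, e1, h3⟩
        have h4 : Over w v1 e1 := ⟨h3.1, h3.2⟩
        exact hv (over_unique_base h h4 ▸ hv1)
      have g1 := ha v
      have g2 := ha' (upPlace (k' := k') w)
      rw [if_neg hv] at g1
      rw [if_neg hw] at g2
      exact exp_unique g2 (exp_of_power hf0 (hext v _ n f hv h1 hcard) g1) hm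
  -- the Euler products modulo `l`
  set g : Place k K → PowerSeries (ZMod l) := fun v => redL l (sub v.deg
    ((if v ∈ T then 1 else P v : ℤ[X]) : PowerSeries ℤ)) with hg
  set g' : Place k L → PowerSeries (ZMod l) := fun w => redL l (sub w.deg
    ((if OT (upPlace (k' := k') w) then 1 else P' (upPlace w) : ℤ[X]) : PowerSeries ℤ)) with hg'
  have hg1 : ∀ v, (PowerSeries.X : PowerSeries (ZMod l)) ^ v.deg ∣ g v - 1 := by
    intro v
    have h := map_dvd (redL l) (Pool.Agent.Y701.PE.sub_mod (hdK v) (ha v).1)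
    rwa [map_sub, map_one, map_pow, PowerSeries.map_X] at h
  have hg1' : ∀ w, (PowerSeries.X : PowerSeries (ZMod l)) ^ w.deg ∣ g' w - 1 := by
    intro w
    have h := map_dvd (redL l) (Pool.Agent.Y701.PE.sub_mod (hdL w) (ha' (upPlace w)).1)
    rwa [map_sub, map_one, map_pow, PowerSeries.map_X] at h
  have hgg : ∀ v, ∀ w ∈ S2 v, g' w = g v ^ f v := by
    intro v w hw
    obtain ⟨j, hj⟩ := fiber_pow (D v) hs
    have h1 := dwork (l := l) (i := j) (ha v) (ha' (upPlace w)) (by
      intro n hn0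
      rw [← hj]
      exact haa v w _ (f v) ((D v).isOver w hw) ((D v).deg w hw) n hn0)
    rw [← hj] at h1
    have hf0 : f v ≠ 0 := by
      rw [hj]
      exact pow_ne_zero _ hl.out.ne_zero
    show redL l (sub w.deg _) = redL l (sub v.deg _) ^ f v
    rw [(D v).deg w hw, ← sub_sub _ _ (hdK v) hf0, Pool.Agent.Y701.PE.map_sub', h1, sub_pow' (hdK v), Pool.Agent.Y701.PE.map_sub']
  have hK1 : redL l (Λ * (E : PowerSeries ℤ)) * eulerProd (fun v : FF.Place k K => v.deg) g = 1 := by
    have h := congrArg (redL l) hKt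
    rwa [map_mul, map_one, map_eulerProd (fun n => places_fin n)] at h
  have hLk : PowerSeries.expand (finrank k k') hr ((R : PowerSeries ℤ) * (E' : PowerSeries ℤ)) *
      eulerProd (fun w : Place k L => w.deg) (fun w => sub w.deg
        ((if OT (upPlace (k' := k') w) then 1 else P' (upPlace w) : ℤ[X]) : PowerSeries ℤ)) = 1 := by
    rw [euler_down (P' := fun w => ((if OT w then 1 else P' w : ℤ[X]) : PowerSeries ℤ)) hr
      fun w => (ha' w).1, ← map_mul, hLt, map_one]
  have hL1 : redL l (PowerSeries.expand (finrank k k') hr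
      ((R : PowerSeries ℤ) * (E' : PowerSeries ℤ))) *
      eulerProd (fun v : FF.Place k L => v.deg) g' = 1 := by
    have h := congrArg (redL l) hLk
    rwa [map_mul, map_one, map_eulerProd (fun n => places_fin n)] at h
  have key := kida_series hs D T he1 hg1 hg1' hgg hK1 hL1
  have hgT : ∀ v ∈ T, g v = 1 := by
    intro v hv
    show redL l (sub v.deg ((if v ∈ T then 1 else P v : ℤ[X]) : PowerSeries ℤ)) = 1
    rw [if_pos hv, Polynomial.coe_one, sub_eq (hdK v), map_one, map_one]
  have e1 : ∏ v ∈ T, g v ^ l ^ s = 1 := Finset.prod_eq_one fun v hv => by rw [hgT v hv, one_pow]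
  have e2 : ∏ v ∈ T, g v ^ (l ^ s / e v) = 1 :=
    Finset.prod_eq_one fun v hv => by rw [hgT v hv, one_pow]
  rw [e1, e2, mul_one, mul_one] at key
  have hcoe : ((R : PowerSeries ℤ) * (E' : PowerSeries ℤ)) = ((R * E' : ℤ[X]) : PowerSeries ℤ) := by
    rw [Polynomial.coe_mul]
  rw [hcoe, ← Pool.Agent.W343.BSD.coe_expand, redL_poly] at key
  have hUVt : redL l (Λ * (E : PowerSeries ℤ)) *
      ((V.map (Int.castRingHom (ZMod l)) : (ZMod l)[X]) : PowerSeries (ZMod l)) =
      (((U * E).map (Int.castRingHom (ZMod l)) : (ZMod l)[X]) : PowerSeries (ZMod l)) := by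
    rw [← redL_poly, ← redL_poly, ← map_mul, Polynomial.coe_mul, ← hUV]
    congr 1
    ring
  have key2 : (((U * E).map (Int.castRingHom (ZMod l)) ^ l ^ s : (ZMod l)[X]) :
      PowerSeries (ZMod l)) = (((expand ℤ (finrank k k') (R * E')).map (Int.castRingHom (ZMod l)) *
        V.map (Int.castRingHom (ZMod l)) ^ l ^ s : (ZMod l)[X]) : PowerSeries (ZMod l)) := by
    rw [Polynomial.coe_pow, Polynomial.coe_mul, Polynomial.coe_pow, ← hUVt, mul_pow, key]
  have key3 := Polynomial.coe_injective _ key2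
  rw [← hEE, hs, key3, map_mul, Polynomial.map_mul]
  exact (Dvd.intro _ rfl).trans (Dvd.intro _ rfl)

end Pool.Agent.H313.GE
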