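import Pool.Agent.H313.GE.Le

/-!
All but finitely many primes are good.
-/

set_option autoImplicit false
set_option linter.all false
set_option maxHeartbeats 4000000

open Polynomial

namespace Pool.Agent.H313.GE

theorem dvd_factorial_of_totient {m d : ℕ} (hm : 0 < m) (h : m.totient ≤ d) : m ∣ (2 * d).factorial := by
  rw [Nat.dvd_iff_prime_pow_dvd_dvd]
  intro p k hp hk
  rcases Nat.eq_zero_or_pos k with rfl | hk0
  · rw [pow_zero]; exact one_dvd _
  · have h1 : (p ^ k).totient ≤ d :=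
      (Nat.le_of_dvd (Nat.totient_pos.2 hm) (Nat.totient_dvd_of_dvd hk)).trans h
    rw [Nat.totient_prime_pow hp hk0] at h1
    have h2 : p ^ k ≤ 2 * d := by
      have h3 : p ^ k = p ^ (k - 1) * p := by
        rw [← pow_succ]
        congr 1
        omega
      have h4 : p ≤ 2 * (p - 1) := by
        have := hp.two_le
        omega
      calc p ^ k = p ^ (k - 1) * p := h3
        _ ≤ p ^ (k - 1) * (2 * (p - 1)) := Nat.mul_le_mul_left _ h4
        _ = 2 * (p ^ (k - 1) * (p - 1)) := by ring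
        _ ≤ 2 * d := Nat.mul_le_mul_left _ h1
    exact Nat.dvd_factorial (pow_pos hp.pos k) h2

theorem exists_bezout {A B : ℤ[X]} (h : ∀ x : ℂ, aeval x A ≠ 0 ∨ aeval x B ≠ 0) :
    ∃ (u v : ℤ[X]) (c : ℤ), c ≠ 0 ∧ u * A + v * B = C c := by
  have h1 : IsCoprime (A.map (Int.castRingHom ℚ)) (B.map (Int.castRingHom ℚ)) := by
    rw [Polynomial.isCoprime_iff_aeval_ne_zero_of_isAlgClosed ℚ ℂ]
    intro x
    have h2 := h x
    have e3 : (Int.castRingHom ℚ) = algebraMap ℤ ℚ := rfl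
    rw [e3, aeval_map_algebraMap, aeval_map_algebraMap]
    exact h2
  obtain ⟨a, b, hab⟩ := h1
  obtain ⟨ca, hca⟩ := IsLocalization.integerNormalization_map_to_map (nonZeroDivisors ℤ) a
  obtain ⟨cb, hcb⟩ := IsLocalization.integerNormalization_map_to_map (nonZeroDivisors ℤ) b
  set a' := IsLocalization.integerNormalization (nonZeroDivisors ℤ) a
  set b' := IsLocalization.integerNormalization (nonZeroDivisors ℤ) b
  refine ⟨C (cb : ℤ) * a', C (ca : ℤ) * b', (ca : ℤ) * cb,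
    mul_ne_zero (nonZeroDivisors.coe_ne_zero ca) (nonZeroDivisors.coe_ne_zero cb), ?_⟩
  apply Polynomial.map_injective (Int.castRingHom ℚ) (RingHom.injective_int _)
  have e3 : (Int.castRingHom ℚ) = algebraMap ℤ ℚ := rfl
  rw [e3] at hab ⊢
  rw [Polynomial.map_add, Polynomial.map_mul, Polynomial.map_mul, Polynomial.map_mul,
    Polynomial.map_mul, hca, hcb, Polynomial.map_C, Polynomial.map_C, Polynomial.map_C]
  have e4 : ∀ (c : ℤ) (p : ℚ[X]), c • p = C ((algebraMap ℤ ℚ) c) * p := by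
    intro c p
    rw [zsmul_eq_mul]
    congr 1
  have e5 : ((ca : ℤ) • a : ℚ[X]) = C ((algebraMap ℤ ℚ) (ca : ℤ)) * a := e4 _ _
  have e6 : ((cb : ℤ) • b : ℚ[X]) = C ((algebraMap ℤ ℚ) (cb : ℤ)) * b := e4 _ _
  have e7 : C ((algebraMap ℤ ℚ) (ca : ℤ)) * C ((algebraMap ℤ ℚ) (cb : ℤ)) =
      C ((algebraMap ℤ ℚ) ((ca : ℤ) * cb)) := by rw [← C_mul, ← map_mul]
  rw [← e7]
  rw [e5, e6]
  linear_combination C ((algebraMap ℤ ℚ) (ca : ℤ)) * C ((algebraMap ℤ ℚ) (cb : ℤ)) * hab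

theorem exists_noCyc {Q : ℕ} (hQ : Q ≠ 0) {B : ℤ[X]} (hB : IsUnit (B.coeff 0))
    (hno : ∀ x : ℂ, IsUni Q x → aeval x B ≠ 0) :
    ∃ N : ℕ, ∀ (ℓ : ℕ) [Fact ℓ.Prime], N < ℓ → (Q : ZMod ℓ) ≠ 0 ∧
      NoCyc ℓ Q (B.map (Int.castRingHom (ZMod ℓ))) := by
  classical
  have hbz : ∀ m : ℕ, 0 < m → ∃ c : ℤ, c ≠ 0 ∧ ∃ u v : ℤ[X], u * cyc ℤ m Q + v * B = C c := by
    intro m hm
    obtain ⟨u, v, c, hc, h⟩ := exists_bezout (A := cyc ℤ m Q) (B := B) (by
      intro x
      by_contra hcon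
      push Not at hcon
      obtain ⟨h1, h2⟩ := hcon
      refine hno x ⟨m, hm, ?_⟩ h2
      have : NeZero ((m : ℕ) : ℂ) := ⟨by exact_mod_cast hm.ne'⟩
      have h3 : (cyclotomic m ℂ).IsRoot ((Q : ℂ) * x) := by
        have h4 : eval x (cyc ℂ m Q) = 0 := by
          rw [← cyc_map (Int.castRingHom ℂ), eval_map]
          exact h1
        unfold cyc at h4
        rwa [eval_comp, eval_mul, eval_C, eval_X] at h4
      exact (isRoot_cyclotomic_iff.1 h3).pow_eq_one)
    exact ⟨c, hc, u, v, h⟩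
  choose! c hc u v huv using hbz
  set M := (2 * B.natDegree).factorial with hM
  refine ⟨Q + ∑ m ∈ M.divisors, (c m).natAbs, ?_⟩
  intro ℓ hℓ hN
  have hQℓ : (Q : ZMod ℓ) ≠ 0 := by
    rw [Ne, ZMod.natCast_eq_zero_iff]
    intro h
    have := Nat.le_of_dvd (Nat.pos_of_ne_zero hQ) h
    omega
  refine ⟨hQℓ, ?_⟩
  intro m hm hml hd
  have hB0 : B.map (Int.castRingHom (ZMod ℓ)) ≠ 0 := by
    intro h0
    have h1 := congrArg (fun p => Polynomial.coeff p 0) h0
    simp only [Polynomial.coeff_map, coeff_zero] at h1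
    have h2 := hB.map (Int.castRingHom (ZMod ℓ))
    rw [h1] at h2
    exact not_isUnit_zero h2
  have hdeg : (cyc (ZMod ℓ) m Q).natDegree = m.totient := by
    unfold cyc
    rw [natDegree_comp, natDegree_C_mul hQℓ, natDegree_X, mul_one, natDegree_cyclotomic]
  have hle : m.totient ≤ B.natDegree := by
    rw [← hdeg]
    exact (natDegree_le_of_dvd hd hB0).trans natDegree_map_le
  have hmM : m ∣ M := dvd_factorial_of_totient hm hle
  have hmem : m ∈ M.divisors := Nat.mem_divisors.2 ⟨hmM, Nat.factorial_ne_zero _⟩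
  have hcle : (c m).natAbs ≤ ∑ m ∈ M.divisors, (c m).natAbs :=
    Finset.single_le_sum (f := fun m => (c m).natAbs) (fun _ _ => Nat.zero_le _) hmem
  have hcl : ((c m : ℤ) : ZMod ℓ) ≠ 0 := by
    rw [Ne, ZMod.intCast_zmod_eq_zero_iff_dvd]
    intro h
    have h1 := Int.natAbs_dvd_natAbs.2 h
    rw [Int.natAbs_natCast] at h1
    have h2 := Nat.le_of_dvd (Int.natAbs_pos.2 (hc m hm)) h1
    omega
  have h1 := congrArg (Polynomial.map (Int.castRingHom (ZMod ℓ))) (huv m hm)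
  rw [Polynomial.map_add, Polynomial.map_mul, Polynomial.map_mul, cyc_map, Polynomial.map_C] at h1
  have h2 : cyc (ZMod ℓ) m Q ∣ C ((Int.castRingHom (ZMod ℓ)) (c m)) := by
    rw [← h1]
    exact dvd_add (dvd_mul_left _ _) (hd.mul_left _)
  have h3 : IsUnit (C ((Int.castRingHom (ZMod ℓ)) (c m))) := isUnit_C.2 (IsUnit.mk0 _ hcl)
  have h4 := natDegree_eq_zero_of_isUnit (isUnit_of_dvd_unit h2 h3)
  rw [hdeg] at h4
  have := Nat.totient_pos.2 hm
  omega

end Pool.Agent.H313.GE
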