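import Pool.Agent.H313.GE.Cyclo
import Pool.Agent.Y701.CB.Mult

/-!
The number of the zeros `ζ / Q` of an integral polynomial, for roots of unity `ζ`.
-/

set_option autoImplicit false
set_option linter.all false
set_option maxHeartbeats 4000000

open Polynomial

namespace Pool.Agent.H313.GE

open Pool.Agent.W343.BSD (rm_mul rm_pow rm_one)

/-- `Q x` is a root of unity. -/
def IsUni (Q : ℕ) (x : ℂ) : Prop := ∃ n : ℕ, 0 < n ∧ ((Q : ℂ) * x) ^ n = 1

open Classical in
/-- The number of the complex zeros `x` of `A` such that `Q x` is a root of unity, with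
multiplicities. -/
noncomputable def geo (Q : ℕ) (A : ℤ[X]) : ℕ :=
  Multiset.card ((A.map (Int.castRingHom ℂ)).roots.filter (IsUni Q))

theorem map_ne {A : ℤ[X]} (h : A ≠ 0) : A.map (Int.castRingHom ℂ) ≠ 0 := by
  rwa [Ne, Polynomial.map_eq_zero_iff (RingHom.injective_int _)]

theorem geo_mul (Q : ℕ) {A B : ℤ[X]} (hA : A ≠ 0) (hB : B ≠ 0) :
    geo Q (A * B) = geo Q A + geo Q B := by
  unfold geo
  rw [Polynomial.map_mul, roots_mul (mul_ne_zero (map_ne hA) (map_ne hB)), Multiset.filter_add,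
    Multiset.card_add]

theorem geo_one (Q : ℕ) : geo Q 1 = 0 := by
  unfold geo
  simp

theorem geo_pow (Q : ℕ) {A : ℤ[X]} (hA : A ≠ 0) (n : ℕ) : geo Q (A ^ n) = n * geo Q A := by
  induction n with
  | zero => rw [pow_zero, geo_one, zero_mul]
  | succ n ih => rw [pow_succ, geo_mul Q (pow_ne_zero _ hA) hA, ih]; ring

theorem geo_eq_zero {Q : ℕ} {A : ℤ[X]} (h : ∀ x : ℂ, IsUni Q x → aeval x A ≠ 0) :
    geo Q A = 0 := by
  classical
  unfold geo
  rw [Multiset.card_eq_zero, Multiset.filter_eq_nil]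
  intro x hx hu
  apply h x hu
  have h1 := (mem_roots'.1 hx).2
  rw [IsRoot.def, eval_map] at h1
  exact h1

theorem geo_pos {Q : ℕ} {A : ℤ[X]} (hA : A ≠ 0) {x : ℂ} (hx : IsUni Q x) (h : aeval x A = 0) :
    0 < geo Q A := by
  classical
  unfold geo
  rw [Multiset.card_pos_iff_exists_mem]
  refine ⟨x, Multiset.mem_filter.2 ⟨(mem_roots (map_ne hA)).2 ?_, hx⟩⟩
  rw [IsRoot.def, eval_map]
  exact h

theorem geo_cyc {Q N : ℕ} (hQ : Q ≠ 0) (hN : 0 < N) : geo Q (cyc ℤ N Q) = N.totient := by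
  classical
  unfold geo
  rw [cyc_map]
  have hQc : (Q : ℂ) ≠ 0 := by exact_mod_cast hQ
  have hall : ∀ x ∈ (cyc ℂ N Q).roots, IsUni Q x := by
    intro x hx
    have h1 := (mem_roots'.1 hx).2
    unfold cyc at h1
    rw [IsRoot.def, eval_comp, eval_mul, eval_C, eval_X] at h1
    have : NeZero ((N : ℕ) : ℂ) := ⟨by exact_mod_cast hN.ne'⟩
    have h2 : IsPrimitiveRoot ((Q : ℂ) * x) N := isRoot_cyclotomic_iff.1 h1
    exact ⟨N, hN, h2.pow_eq_one⟩
  rw [Multiset.filter_eq_self.2 hall]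
  have h1 : Multiset.card (cyc ℂ N Q).roots = (cyc ℂ N Q).natDegree :=
    (splits_iff_card_roots.1 (IsAlgClosed.splits _))
  rw [h1]
  unfold cyc
  rw [natDegree_comp, natDegree_C_mul hQc, natDegree_X, mul_one, natDegree_cyclotomic]

theorem cyc_coeff (N Q : ℕ) (hN : 0 < N) : IsUnit ((cyc ℤ N Q).coeff 0) := by
  have h1 : (cyc ℤ N Q).coeff 0 = (cyclotomic N ℤ).coeff 0 := by
    rw [cyc, coeff_zero_eq_eval_zero, eval_comp, eval_mul, eval_X, mul_zero,
      ← coeff_zero_eq_eval_zero]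
  rw [h1]
  rcases Nat.lt_or_ge 1 N with h | h
  · rw [cyclotomic_coeff_zero ℤ h]
    exact isUnit_one
  · have : N = 1 := by omega
    subst this
    rw [cyclotomic_one]
    simp

theorem cyc_ne (N Q : ℕ) (hN : 0 < N) : cyc ℤ N Q ≠ 0 := by
  intro h
  have h1 := cyc_coeff N Q hN
  rw [h, coeff_zero] at h1
  exact not_isUnit_zero h1

/-- the product of the `Φ_N (Q T)` -/
noncomputable def cprod (R : Type) [CommRing R] (Q : ℕ) (s : Multiset ℕ) : R[X] :=
  (s.map (fun N => cyc R N Q)).prod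

theorem cprod_cons (R : Type) [CommRing R] (Q N : ℕ) (s : Multiset ℕ) :
    cprod R Q (N ::ₘ s) = cyc R N Q * cprod R Q s := by
  unfold cprod
  rw [Multiset.map_cons, Multiset.prod_cons]

theorem cprod_zero (R : Type) [CommRing R] (Q : ℕ) : cprod R Q 0 = 1 := by
  unfold cprod
  rw [Multiset.map_zero, Multiset.prod_zero]

theorem cprod_map {R S : Type} [CommRing R] [CommRing S] (φ : R →+* S) (Q : ℕ) (s : Multiset ℕ) :
    (cprod R Q s).map φ = cprod S Q s := by
  induction s using Multiset.induction_on with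
  | empty => rw [cprod_zero, cprod_zero, Polynomial.map_one]
  | cons N s ih => rw [cprod_cons, cprod_cons, Polynomial.map_mul, ih, cyc_map]

theorem exists_decomp {Q : ℕ} (hQ : Q ≠ 0) (d : ℕ) : ∀ A : ℤ[X], A.natDegree ≤ d →
    IsUnit (A.coeff 0) → ∃ (s : Multiset ℕ) (B : ℤ[X]), (∀ N ∈ s, 0 < N) ∧
      A = cprod ℤ Q s * B ∧ (∀ x : ℂ, IsUni Q x → aeval x B ≠ 0) ∧ IsUnit (B.coeff 0) ∧
      geo Q A = (s.map Nat.totient).sum := by
  induction d with
  | zero =>
    intro A hd hA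
    refine ⟨0, A, by simp, by rw [cprod_zero, one_mul], ?_, hA, ?_⟩
    · intro x _ h0
      rw [eq_C_of_natDegree_le_zero hd, aeval_C] at h0
      have h1 : ((A.coeff 0 : ℤ) : ℂ) = 0 := h0
      rw [Int.cast_eq_zero] at h1
      rw [h1] at hA
      exact not_isUnit_zero hA
    · rw [Multiset.map_zero, Multiset.sum_zero]
      apply geo_eq_zero
      intro x _ h0
      rw [eq_C_of_natDegree_le_zero hd, aeval_C] at h0
      have h1 : ((A.coeff 0 : ℤ) : ℂ) = 0 := h0
      rw [Int.cast_eq_zero] at h1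
      rw [h1] at hA
      exact not_isUnit_zero hA
  | succ d ih =>
    intro A hd hA
    by_cases hx : ∃ x : ℂ, IsUni Q x ∧ aeval x A = 0
    · obtain ⟨x, ⟨n, hn, hxn⟩, h0⟩ := hx
      obtain ⟨N, hN, B, hB⟩ := dvd_of_root hA hQ h0 hn hxn
      have hA0 : A ≠ 0 := by
        rintro rfl
        rw [coeff_zero] at hA
        exact not_isUnit_zero hA
      have hB0 : B ≠ 0 := by
        rintro rfl
        rw [mul_zero] at hB
        exact hA0 hB
      have hBu : IsUnit (B.coeff 0) := by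
        rw [hB, mul_coeff_zero] at hA
        exact isUnit_of_mul_isUnit_right hA
      have hdeg : 0 < (cyc ℤ N Q).natDegree := by
        unfold cyc
        have hQz : (Q : ℤ) ≠ 0 := by exact_mod_cast hQ
        rw [natDegree_comp, natDegree_C_mul hQz, natDegree_X, mul_one, natDegree_cyclotomic]
        exact Nat.totient_pos.2 hN
      have hBd : B.natDegree ≤ d := by
        rw [hB, natDegree_mul (cyc_ne N Q hN) hB0] at hd
        omega
      obtain ⟨s, B', h1, h2, h3, h4, h5⟩ := ih B hBd hBu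
      refine ⟨N ::ₘ s, B', ?_, ?_, h3, h4, ?_⟩
      · intro M hM
        rcases Multiset.mem_cons.1 hM with rfl | hM
        · exact hN
        · exact h1 M hM
      · rw [hB, h2, cprod_cons, mul_assoc]
      · rw [hB, geo_mul Q (cyc_ne N Q hN) hB0, geo_cyc hQ hN, h5, Multiset.map_cons,
          Multiset.sum_cons]
    · push Not at hx
      refine ⟨0, A, by simp, by rw [cprod_zero, one_mul], hx, hA, ?_⟩
      rw [Multiset.map_zero, Multiset.sum_zero]
      exact geo_eq_zero hx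

section mod

variable {ℓ : ℕ} [hℓ : Fact ℓ.Prime] {E : Type} [Field E] [Algebra (ZMod ℓ) E] [IsAlgClosed E]

theorem exists_pt {Q : ℕ} (hQ : (Q : ZMod ℓ) ≠ 0) {H : (ZMod ℓ)[X]} (hH : NoCyc ℓ Q H) {m : ℕ}
    (hm : 0 < m) (hml : ¬ ℓ ∣ m) :
    ∃ x : E, IsPrimitiveRoot x m ∧ aeval ((Q : E)⁻¹ * x) H ≠ 0 := by
  classical
  by_contra hcon
  push Not at hcon
  have hch : CharP E ℓ := charP_of_injective_algebraMap (algebraMap (ZMod ℓ) E).injective ℓ
  have hmE : ((m : ℕ) : E) ≠ 0 := by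
    rw [Ne, CharP.cast_eq_zero_iff E ℓ]
    exact hml
  have hne : NeZero ((m : ℕ) : E) := ⟨hmE⟩
  have hQE : (Q : E) ≠ 0 := by
    rw [← map_natCast (algebraMap (ZMod ℓ) E)]
    exact (_root_.map_ne_zero _).2 hQ
  obtain ⟨ζ, hζ⟩ : ∃ ζ : E, IsPrimitiveRoot ζ m := by
    have h1 : (cyclotomic m E).degree ≠ 0 := by
      rw [degree_cyclotomic]
      have := Nat.totient_pos.2 hm
      exact_mod_cast this.ne'
    obtain ⟨ζ, hζ⟩ := IsAlgClosed.exists_root _ h1
    exact ⟨ζ, isRoot_cyclotomic_iff.1 hζ⟩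
  apply hH m hm hml
  set G : E[X] := (H.map (algebraMap (ZMod ℓ) E)).comp (C (Q : E)⁻¹ * X) with hG
  have h1 : cyclotomic m E ∣ G := by
    rw [cyclotomic_eq_prod_X_sub_primitiveRoots hζ]
    apply Finset.prod_dvd_of_coprime
    · intro x _ y _ hxy
      exact isCoprime_X_sub_C_of_isUnit_sub (sub_ne_zero.2 hxy).isUnit
    · intro x hx
      rw [dvd_iff_isRoot, IsRoot.def, hG, eval_comp, eval_mul, eval_C, eval_X, eval_map_algebraMap]
      exact hcon x ((mem_primitiveRoots hm).1 hx)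
  have h2 := map_dvd (compRingHom (C (Q : E) * X)) h1
  have h3 : compRingHom (C (Q : E) * X) G = H.map (algebraMap (ZMod ℓ) E) := by
    show G.comp (C (Q : E) * X) = _
    rw [hG]
    exact scale_comp hQE _
  rw [h3] at h2
  have h4 : (cyc (ZMod ℓ) m Q).map (algebraMap (ZMod ℓ) E) ∣ H.map (algebraMap (ZMod ℓ) E) := by
    rw [cyc_map]
    exact h2
  exact (map_dvd_map' _).1 h4

omit [IsAlgClosed E] in
theorem rm_cyclotomic (hch : CharP E ℓ) {m N : ℕ} (hm : ¬ ℓ ∣ m) (hN : 0 < N) {x : E}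
    (hx : IsPrimitiveRoot x m) :
    (cyclotomic N E).rootMultiplicity x =
      if (N / ℓ ^ N.factorization ℓ) = m then (ℓ ^ N.factorization ℓ).totient else 0 := by
  classical
  have hM : ¬ ℓ ∣ (N / ℓ ^ N.factorization ℓ) := Nat.not_dvd_ordCompl hℓ.out hN.ne'
  have hME : (((N / ℓ ^ N.factorization ℓ) : ℕ) : E) ≠ 0 := by
    rw [Ne, CharP.cast_eq_zero_iff E ℓ]
    exact hM
  have hne : NeZero (((N / ℓ ^ N.factorization ℓ) : ℕ) : E) := ⟨hME⟩
  have h1 : cyclotomic N E = cyclotomic (N / ℓ ^ N.factorization ℓ) E ^ (ℓ ^ N.factorization ℓ).totient := by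
    rcases Nat.eq_zero_or_pos (N.factorization ℓ) with h0 | h0
    · rw [h0, pow_zero, Nat.div_one, Nat.totient_one, pow_one]
    · conv_lhs => rw [← Nat.ordProj_mul_ordCompl_eq_self N ℓ]
      rw [cyclotomic_mul_prime_pow_eq E hM h0, Nat.totient_prime_pow hℓ.out h0, Nat.mul_sub,
        mul_one]
      congr 2
      rw [← pow_succ]
      congr 1
      omega
  have h2 : (cyclotomic (N / ℓ ^ N.factorization ℓ) E).rootMultiplicity x =
      if (N / ℓ ^ N.factorization ℓ) = m then 1 else 0 := by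
    split_ifs with h
    · apply le_antisymm
      · exact rootMultiplicity_le_one_of_separable (separable_cyclotomic _ _) x
      · rw [Nat.one_le_iff_ne_zero, Ne, rootMultiplicity_eq_zero_iff]
        push Not
        refine ⟨isRoot_cyclotomic_iff.2 (h ▸ hx), cyclotomic_ne_zero _ _⟩
    · apply rootMultiplicity_eq_zero
      intro h3
      exact h ((isRoot_cyclotomic_iff.1 h3).unique hx)
  rw [h1, rm_pow x (cyclotomic_ne_zero _ _), h2]
  split_ifs
  · rw [mul_one]
  · rw [mul_zero]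

end mod

end Pool.Agent.H313.GE
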