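import Pool.Agent.H313.GE.Cov

/-!
Jordan blocks of endomorphisms whose polynomials are powers of squarefree polynomials modulo `ℓ`.
-/

set_option autoImplicit false
set_option linter.all false
set_option maxHeartbeats 4000000

open Module NumberField Polynomial

namespace Pool.Agent.H313.GE

open Pool.Agent.W343.BSD (rm_pow)
open Pool.Agent.TH639.SC (exists_red charP_of_mem)

section jordan

variable {E : Type} [Field E]

/-- The Jordan blocks of `f` have the size `e` at most: the kernels of the powers of `f - α` of the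
exponents `e` and `e + 1` are equal, for all `α`. -/
def BlocksLE {V : Type} [AddCommGroup V] [Module E V] (f : Module.End E V) (e : ℕ) : Prop :=
  ∀ (α : E) (x : V), ((f - algebraMap E (Module.End E V) α) ^ (e + 1)) x = 0 →
    ((f - algebraMap E (Module.End E V) α) ^ e) x = 0

theorem blocks_of_count {V : Type} [AddCommGroup V] [Module E V] [FiniteDimensional E V]
    (f : Module.End E V) (e : ℕ) (h : ∀ α, (LinearMap.charpoly f).rootMultiplicity α ≤ e) :
    BlocksLE f e := by
  intro α x hx
  have hp : LinearMap.charpoly f ≠ 0 := (LinearMap.charpoly_monic f).ne_zero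
  obtain ⟨g, hg, hng⟩ := exists_eq_pow_rootMultiplicity_mul_and_not_dvd _ hp α
  set c := (LinearMap.charpoly f).rootMultiplicity α with hc
  have hco : IsCoprime ((X - C α) ^ (e + 1)) g :=
    IsCoprime.pow_left ((irreducible_X_sub_C α).coprime_iff_not_dvd.2 hng)
  obtain ⟨u, v, huv⟩ := hco
  have hN : ∀ n : ℕ, (f - algebraMap E (Module.End E V) α) ^ n = aeval f ((X - C α) ^ n) := by
    intro n
    rw [map_pow, map_sub, aeval_X, aeval_C]
  have hxg : x = aeval f (v * g) x := by
    have h1 := congrArg (fun p => aeval f p x) huv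
    simp only [map_add, map_one] at h1
    rw [LinearMap.add_apply, map_mul (aeval f) u, Module.End.mul_apply, ← hN, hx, map_zero,
      zero_add, Module.End.one_apply] at h1
    exact h1.symm
  have h2 : ((f - algebraMap E (Module.End E V) α) ^ c) x = 0 := by
    have h3 : (X - C α) ^ c * (v * g) = v * LinearMap.charpoly f := by
      conv_rhs => rw [hg]
      ring
    rw [hN, hxg, ← Module.End.mul_apply, ← map_mul, h3, map_mul, LinearMap.aeval_self_charpoly,
      mul_zero, LinearMap.zero_apply]
  have h4 : e = (e - c) + c := by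
    have := h α
    omega
  rw [h4, pow_add, Module.End.mul_apply, h2, map_zero]

/-- direct sums -/
theorem blocks_pi {J : Type} {U : J → Type} [∀ j, AddCommGroup (U j)] [∀ j, Module E (U j)]
    (f : ∀ j, Module.End E (U j)) (F : Module.End E (∀ j, U j)) (hF : ∀ x j, F x j = f j (x j))
    (e : ℕ) (h : ∀ j, BlocksLE (f j) e) : BlocksLE F e := by
  intro α x hx
  have key : ∀ (n : ℕ) (y : ∀ j, U j) (j : J),
      ((F - algebraMap E (Module.End E (∀ j, U j)) α) ^ n) y j =
        ((f j - algebraMap E (Module.End E (U j)) α) ^ n) (y j) := by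
    intro n
    induction n with
    | zero => intro y j; rfl
    | succ n ih =>
      intro y j
      rw [pow_succ, pow_succ, Module.End.mul_apply, Module.End.mul_apply, ih]
      congr 1
      rw [LinearMap.sub_apply, LinearMap.sub_apply, Pi.sub_apply, hF]
      rfl
  funext j
  rw [key]
  apply h j α
  rw [← key, hx]
  rfl

end jordan

section count

/-- powers of linear factors in a power of a squarefree polynomial -/
theorem le_of_dvd_pow {R : Type} [Field R] {S : R[X]} (hS : S.Separable) {y : R} (hy : y ≠ 0)
    {c e : ℕ} (h : (1 - C y * X) ^ c ∣ S ^ e) : c ≤ e := by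
  have h1 : (1 - C y * X : R[X]) = C (-y) * (X - C y⁻¹) := by
    rw [mul_sub, ← C_mul, neg_mul, mul_inv_cancel₀ hy, C_neg, C_neg, C_1]
    ring
  have h2 : (X - C y⁻¹) ^ c ∣ S ^ e := by
    rw [h1, mul_pow] at h
    exact (Dvd.intro_left _ rfl).trans h
  have h3 : c ≤ (S ^ e).rootMultiplicity y⁻¹ :=
    (le_rootMultiplicity_iff (pow_ne_zero e hS.ne_zero)).2 h2
  rw [rm_pow _ hS.ne_zero] at h3
  exact h3.trans ((Nat.mul_le_mul_left e (rootMultiplicity_le_one_of_separable hS _)).trans
    (by rw [mul_one]))

/-- lifts of multisets -/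
theorem exists_lift {A A' : Type} (ι : A → A') (B : Multiset A') :
    (∀ x ∈ B, ∃ y, ι y = x) → ∃ B' : Multiset A, B'.map ι = B := by
  induction B using Multiset.induction_on with
  | empty => exact fun _ => ⟨0, Multiset.map_zero _⟩
  | cons x B ih =>
    intro h
    obtain ⟨B', hB'⟩ := ih fun y hy => h y (Multiset.mem_cons_of_mem hy)
    obtain ⟨y, hy⟩ := h x (Multiset.mem_cons_self x B)
    exact ⟨y ::ₘ B', by rw [Multiset.map_cons, hB', hy]⟩

open Classical in
theorem natDegree_lin {R : Type} [Field R] (B : Multiset R) :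
    ((B.map fun x => 1 - C x * X).prod).natDegree ≤ Multiset.card (B.filter fun x => x ≠ 0) := by
  classical
  induction B using Multiset.induction_on with
  | empty => simp
  | cons x B ih =>
    rw [Multiset.map_cons, Multiset.prod_cons]
    by_cases hx : x = 0
    · rw [Multiset.filter_cons_of_neg (p := fun x : R => x ≠ 0) B (by simpa using hx), hx, C_0,
        zero_mul, sub_zero, one_mul]
      exact ih
    · rw [Multiset.filter_cons_of_pos (p := fun x : R => x ≠ 0) B hx, Multiset.card_cons, add_comm]
      refine natDegree_mul_le.trans (Nat.add_le_add ?_ ih)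
      refine (natDegree_sub_le _ _).trans ?_
      rw [natDegree_one, max_eq_right (Nat.zero_le _)]
      exact (natDegree_C_mul_le x X).trans natDegree_X_le

/-- **The multiplicities of the eigenvalues.** -/
theorem count_mod {K : Type} [Field K] [NumberField K] {E : Type} [Field E] [CharZero E]
    (φ : 𝓞 K →+* E) {ℓ : ℕ} [hℓ : Fact ℓ.Prime] {D : (𝓞 K)[X]} (hD0 : D.coeff 0 = 1)
    {B : Multiset E} (hDB : D.map φ = (B.map fun x => 1 - C x * X).prod) {e : ℕ}
    {H S : (ZMod ℓ)[X]} (hS : Squarefree S) (hHS : H ∣ S ^ e)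
    (hdeg : H.natDegree = Multiset.card B)
    (hmod : ∀ (R : Type) [Field R] [CharP R ℓ] (ρ : 𝓞 K →+* R),
      D.map ρ = H.map (ZMod.castHom (dvd_refl ℓ) R)) [DecidableEq E] (α : E) : B.count α ≤ e := by
  classical
  by_cases hα : α ∈ B
  swap
  · rw [Multiset.count_eq_zero_of_notMem hα]
    exact Nat.zero_le _
  -- the eigenvalues are integral
  have hint : ∀ x ∈ B, IsIntegral ℤ x := by
    intro x hx
    by_cases hx0 : x = 0
    · rw [hx0]
      exact isIntegral_zero
    have hinv : Invertible x⁻¹ := invertibleOfNonzero (inv_ne_zero hx0)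
    have h1 : eval₂ φ x⁻¹ D = 0 := by
      rw [← eval_map, hDB, eval_multiset_prod, Multiset.map_map]
      apply Multiset.prod_eq_zero
      rw [Multiset.mem_map]
      refine ⟨x, hx, ?_⟩
      simp only [Function.comp_apply, eval_sub, eval_one, eval_mul, eval_C, eval_X]
      rw [mul_inv_cancel₀ hx0, sub_self]
    have h2 := (eval₂_reverse_eq_zero_iff φ x⁻¹ D).2 h1
    rw [invOf_eq_inv, inv_inv] at h2
    letI : Algebra (𝓞 K) E := φ.toAlgebra
    have hmon : D.reverse.Monic := by
      rw [Monic, reverse_leadingCoeff, trailingCoeff,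
        natTrailingDegree_eq_zero.2 (Or.inr (by rw [hD0]; exact one_ne_zero)), hD0]
    have h3 : IsIntegral (𝓞 K) x := ⟨D.reverse, hmon, h2⟩
    exact isIntegral_trans x h3
  set O := integralClosure ℤ E with hO
  have hO0 : CharZero O := inferInstance
  obtain ⟨M, hM, hm⟩ := exists_red O hℓ.out
  letI : Field (O ⧸ M) := Ideal.Quotient.field M
  have h0 : ((ℓ : ℕ) : O ⧸ M) = 0 := by
    have := Ideal.Quotient.eq_zero_iff_mem.2 hm
    rwa [map_natCast] at this
  have hc := charP_of_mem (R := O ⧸ M) hℓ.out h0
  -- the map to the integral closure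
  have hφ : ∀ y : 𝓞 K, φ y ∈ O := by
    intro y
    show IsIntegral ℤ (φ y)
    exact (Algebra.IsIntegral.isIntegral (R := ℤ) y).map (φ.toIntAlgHom)
  set φO : 𝓞 K →+* O := φ.codRestrict O.toSubring hφ with hφO
  set ι : O →+* E := algebraMap O E with hι
  have hιi : Function.Injective ι := Subtype.val_injective
  have hιφ : ι.comp φO = φ := RingHom.ext fun y => rfl
  obtain ⟨B', hBB⟩ := exists_lift ι B fun x hx => ⟨⟨x, hint x hx⟩, rfl⟩
  have hDO : D.map φO = (B'.map fun x => 1 - C x * X).prod := by
    apply Polynomial.map_injective ι hιi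
    rw [Polynomial.map_map, hιφ, hDB, Polynomial.map_multiset_prod, Multiset.map_map]
    conv_lhs => rw [← hBB]
    rw [Multiset.map_map]
    congr 1
    refine Multiset.map_congr rfl fun x _ => ?_
    simp only [Function.comp_apply, Polynomial.map_sub, Polynomial.map_one, Polynomial.map_mul,
      Polynomial.map_C, Polynomial.map_X]
  set ρ₀ : O →+* O ⧸ M := Ideal.Quotient.mk M with hρ₀
  have hHB : H.map (ZMod.castHom (dvd_refl ℓ) (O ⧸ M)) =
      ((B'.map ρ₀).map fun x => 1 - C x * X).prod := by
    rw [← hmod (O ⧸ M) (ρ₀.comp φO), ← Polynomial.map_map, hDO, Polynomial.map_multiset_prod,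
      Multiset.map_map, Multiset.map_map]
    congr 1
    refine Multiset.map_congr rfl fun x _ => ?_
    simp only [Function.comp_apply, Polynomial.map_sub, Polynomial.map_one, Polynomial.map_mul,
      Polynomial.map_C, Polynomial.map_X]
  have hcard : Multiset.card B' = Multiset.card B := by
    rw [← hBB, Multiset.card_map]
  -- the reductions are not zero
  have hne : ∀ x ∈ B', ρ₀ x ≠ 0 := by
    intro x hx h
    have h1 := natDegree_lin (B'.map ρ₀)
    rw [← hHB, Polynomial.natDegree_map, hdeg, ← hcard] at h1
    have h2 : Multiset.card ((B'.map ρ₀).filter fun x => x ≠ 0) < Multiset.card (B'.map ρ₀) := by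
      apply Multiset.card_lt_card
      refine lt_of_le_of_ne (Multiset.filter_le _ _) fun h3 => ?_
      have h4 := Multiset.filter_eq_self.1 h3 (ρ₀ x) (Multiset.mem_map_of_mem _ hx)
      exact h4 h
    rw [Multiset.card_map] at h2
    omega
  obtain ⟨x, hx, hxα⟩ : ∃ x ∈ B', ι x = α := by
    have h1 := hα
    rw [← hBB, Multiset.mem_map] at h1
    exact h1
  have hcount : B.count α = B'.count x := by
    rw [← hBB, ← hxα, Multiset.count_map_eq_count' _ _ hιi]
  rw [hcount]
  -- the power of the linear factor
  have hsep : (S.map (ZMod.castHom (dvd_refl ℓ) (O ⧸ M))).Separable :=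
    ((PerfectField.separable_iff_squarefree).2 hS).map
  refine le_of_dvd_pow hsep (hne x hx) ?_
  rw [← Polynomial.map_pow]
  refine Dvd.dvd.trans ?_ (Polynomial.map_dvd _ hHS)
  rw [hHB]
  have h5 : Multiset.replicate (B'.count x) x ≤ B' := Multiset.le_count_iff_replicate_le.1 le_rfl
  obtain ⟨B'', hB''⟩ := Multiset.le_iff_exists_add.1 h5
  rw [hB'', Multiset.map_add, Multiset.map_add, Multiset.prod_add, Multiset.map_replicate,
    Multiset.map_replicate, Multiset.prod_replicate]
  have h6 : Multiset.count x (Multiset.replicate (Multiset.count x B') x + B'') =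
      Multiset.count x B' := by rw [← hB'']
  rw [h6]
  exact Dvd.intro _ rfl

end count

end Pool.Agent.H313.GE
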