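import Pool.Agent.H313.GE.Pts
import Pool.Agent.H313.GE.Jor

/-!
Kummer sheaves for several forms.
-/

set_option autoImplicit false
set_option linter.all false
set_option maxHeartbeats 4000000

open Module NumberField Polynomial

namespace Pool.Agent.H313.GE

open Pool.Agent.H313.CC Pool.Agent.W343.BSD Pool.Agent.W313.Hyp
open Pool.Agent.TH639.SG (eq_one_of_pow)
open Pool.Agent.TH639.CK (card_dvd)
open Pool.Agent.TH639.SC (one_sub_mod)

section euler

variable {ι A : Type} [CommRing A]

theorem red_mE {d : ι → ℕ} (hfin : ∀ n, {z | d z ≤ n}.Finite) {R : Type} [CommRing R] (ρ : A →+* R)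
    (c : ι → A) (p : ι → Prop) (h1 : ∀ z, p z → ρ (c z) = 1) (h0 : ∀ z, ¬ p z → ρ (c z) = 0) :
    PowerSeries.map ρ (eulerProd d (fun z => 1 - PowerSeries.C (c z) * PowerSeries.X ^ d z)) =
      PowerSeries.map (Int.castRingHom R)
        (eulerProd (fun z : {z // p z} => d z.1) (fun z => 1 - PowerSeries.X ^ d z.1)) := by
  classical
  have h2 : eulerProd (fun z : {z // p z} => d z.1)
      (fun z => (1 - PowerSeries.X ^ d z.1 : PowerSeries ℤ)) = eulerProd d
      (fun z => if p z then 1 - PowerSeries.X ^ d z else 1) :=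
    eulerProd_subtype p hfin
      (f := fun z => (1 - PowerSeries.X ^ d z : PowerSeries ℤ)) (fun z _ => one_sub_mod le_rfl)
  rw [h2, map_eulerProd hfin, map_eulerProd hfin]
  congr 1
  funext z
  rw [map_sub, map_one, map_mul, PowerSeries.map_C, map_pow, PowerSeries.map_X]
  by_cases h : p z
  · rw [if_pos h, h1 z h, map_one, one_mul, map_sub, map_one, map_pow, PowerSeries.map_X]
  · rw [if_neg h, h0 z h, map_zero, zero_mul, sub_zero, map_one]

end euler

end Pool.Agent.H313.GE

namespace Pool.Agent.H313.GE.Pts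

open Pool.Agent.TH639.SN (SpacePt normValue chart eulerProduct finite_le deg_pos)

section defs

variable {k : Type} [Field k] {M s m : ℕ} (G : Fin s → MvPolynomial (Fin (M + 1)) k)
  (F : Fin m → MvPolynomial (Fin (M + 1)) k)

/-- The product over the closed points `z` of `Z` of the factors `1 - c(z) T ^ (deg z)`, where `c(z)` is
the product of the values `ψ i (N (F i) (z))` over the `i` in `I`, and `ψ i (0) = 0`. It is the inverse
of the `L`-function of the tensor product of the Kummer sheaves of the `ψ i` for the `F i`, `i ∈ I`. -/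
noncomputable def kummerProduct {A : Type} [CommRing A] (ψ : Fin m → MulChar k A)
    (I : Finset (Fin m)) : PowerSeries A :=
  eulerProduct (fun z : Pt G => z.degree) (fun z =>
    1 - PowerSeries.C (∏ i ∈ I, ψ i (z.value (F i))) * PowerSeries.X ^ z.degree)

/-- The inverse of the zeta function of the open subset of `Z` where the `F i`, `i ∈ I`, are not
zero. -/
noncomputable def openZetaInv (I : Finset (Fin m)) : PowerSeries ℤ :=
  eulerProduct (fun z : {z : Pt G // ∀ i ∈ I, z.value (F i) ≠ 0} => z.1.degree)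
    (fun z => 1 - PowerSeries.X ^ z.1.degree)

/-- `D = f` if `n` is even, and `D = 1 / f` if `n` is odd. -/
def IsSigned {A : Type} [CommRing A] (n : ℕ) (f : PowerSeries A) (D : A[X]) : Prop :=
  (Even n → f = (D : PowerSeries A)) ∧ (Odd n → f * (D : PowerSeries A) = 1)

/-- The image of `D` under `φ` is `det (1 - T Φ)`: the product of the `1 - x T` over the eigenvalues
`x` of `Φ`, with their multiplicities. -/
def IsDet {A E V : Type} [CommRing A] [Field E] [AddCommGroup V] [Module E V]
    [FiniteDimensional E V] (φ : A →+* E) (Φ : Module.End E V) (D : A[X]) : Prop :=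
  D.map φ = ((LinearMap.charpoly Φ).roots.map fun x => 1 - C x * X).prod

end defs

section thm

variable {k : Type} [Field k] [Finite k]

/-- the reduction of the polynomial of a tensor product of Kummer sheaves -/
theorem kummer_mod {ℓ : ℕ} [hℓ : Fact ℓ.Prime] {K : Type} [Field K] [NumberField K] {M s m : ℕ}
    (G : Fin s → MvPolynomial (Fin (M + 1)) k) (F : Fin m → MvPolynomial (Fin (M + 1)) k)
    (ψ : Fin m → MulChar k (𝓞 K)) (I : Finset (Fin m)) (a : Fin m → ℕ)
    (hψ : ∀ i ∈ I, ψ i ^ ℓ ^ a i = 1) {n : ℕ} {D : (𝓞 K)[X]}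
    (hD : IsSigned n (kummerProduct G F ψ I) D) {H : (ZMod ℓ)[X]}
    (hH : IsSigned n (PowerSeries.map (Int.castRingHom (ZMod ℓ)) (openZetaInv G F I)) H) :
    D.coeff 0 = 1 ∧ ∀ (R : Type) [Field R] [CharP R ℓ] (ρ : 𝓞 K →+* R),
      D.map ρ = H.map (ZMod.castHom (dvd_refl ℓ) R) := by
  classical
  have hfin := finite_points G
  have hpos := degree_pos G
  have hunit : PowerSeries.constantCoeff (kummerProduct G F ψ I) = 1 :=
    Pool.Agent.H313.CC.one_of_pos hfin hpos _
  refine ⟨?_, ?_⟩
  · rcases Nat.even_or_odd n with hn | hn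
    · rw [hD.1 hn, ← PowerSeries.coeff_zero_eq_constantCoeff_apply, Polynomial.coeff_coe] at hunit
      exact hunit
    · have h1 := congrArg PowerSeries.constantCoeff (hD.2 hn)
      rw [map_mul, hunit, one_mul, map_one, ← PowerSeries.coeff_zero_eq_constantCoeff_apply,
        Polynomial.coeff_coe] at h1
      exact h1
  · intro R _ _ ρ
    have hval : ∀ z : Pt G, (∀ i ∈ I, z.value (F i) ≠ 0) →
        ρ (∏ i ∈ I, ψ i (z.value (F i))) = 1 := by
      intro z hz
      rw [map_prod]
      refine Finset.prod_eq_one fun i hi => ?_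
      apply Pool.Agent.TH639.SG.eq_one_of_pow (ℓ := ℓ) (m := a i)
      rw [← map_pow, ← MulChar.pow_apply' (ψ i) (pow_ne_zero _ hℓ.out.ne_zero), hψ i hi,
        MulChar.one_apply (isUnit_iff_ne_zero.2 (hz i hi)), map_one]
    have hval0 : ∀ z : Pt G, (¬ ∀ i ∈ I, z.value (F i) ≠ 0) →
        ρ (∏ i ∈ I, ψ i (z.value (F i))) = 0 := by
      intro z hz
      push Not at hz
      obtain ⟨i, hi, h0⟩ := hz
      rw [Finset.prod_eq_zero hi (by rw [h0, MulChar.map_zero]), map_zero]
    have h1 : PowerSeries.map ρ (kummerProduct G F ψ I) =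
        PowerSeries.map (Int.castRingHom R) (openZetaInv G F I) :=
      red_mE hfin ρ _ _ hval hval0
    have h2 : PowerSeries.map (Int.castRingHom R) (openZetaInv G F I) =
        PowerSeries.map (ZMod.castHom (dvd_refl ℓ) R)
          (PowerSeries.map (Int.castRingHom (ZMod ℓ)) (openZetaInv G F I)) := by
      ext i
      rw [PowerSeries.coeff_map, PowerSeries.coeff_map, PowerSeries.coeff_map]
      exact (map_intCast (ZMod.castHom (dvd_refl ℓ) R) _).symm
    apply Polynomial.coe_injective R
    rw [Polynomial.polynomial_map_coe, Polynomial.polynomial_map_coe]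
    rcases Nat.even_or_odd n with hn | hn
    · rw [← hD.1 hn, ← hH.1 hn, h1, h2]
    · have h3 := congrArg (PowerSeries.map ρ) (hD.2 hn)
      have h4 := congrArg (PowerSeries.map (ZMod.castHom (dvd_refl ℓ) R)) (hH.2 hn)
      rw [map_mul, map_one, h1, h2] at h3
      rw [map_mul, map_one] at h4
      set f := PowerSeries.map (ZMod.castHom (dvd_refl ℓ) R)
        (PowerSeries.map (Int.castRingHom (ZMod ℓ)) (openZetaInv G F I)) with hf
      set x := PowerSeries.map ρ (D : PowerSeries (𝓞 K)) with hx
      set y := PowerSeries.map (ZMod.castHom (dvd_refl ℓ) R) (H : PowerSeries (ZMod ℓ)) with hy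
      calc x = x * (f * y) := by rw [h4, mul_one]
        _ = (f * x) * y := by ring
        _ = y := by rw [h3, one_mul]

/-- **The Jordan blocks for one tensor product of Kummer sheaves.** -/
theorem kummer_blocks {ℓ : ℕ} [hℓ : Fact ℓ.Prime] {K : Type} [Field K] [NumberField K]
    {M s m : ℕ} (G : Fin s → MvPolynomial (Fin (M + 1)) k)
    (F : Fin m → MvPolynomial (Fin (M + 1)) k)
    (ψ : Fin m → MulChar k (𝓞 K)) (I : Finset (Fin m)) (a : Fin m → ℕ)
    (hψ : ∀ i ∈ I, ψ i ^ ℓ ^ a i = 1) {n : ℕ} {D : (𝓞 K)[X]}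
    (hD : IsSigned n (kummerProduct G F ψ I) D) {E V : Type} [Field E] [CharZero E]
    [IsAlgClosed E] [AddCommGroup V] [Module E V] [FiniteDimensional E V] (φ : 𝓞 K →+* E)
    (Φ : Module.End E V) (hΦ : IsDet φ Φ D) {e : ℕ} {H S : (ZMod ℓ)[X]}
    (hH : IsSigned n (PowerSeries.map (Int.castRingHom (ZMod ℓ)) (openZetaInv G F I)) H)
    (hS : Squarefree S) (hHS : H ∣ S ^ e) (hdeg : H.natDegree = finrank E V) :
    BlocksLE Φ e := by
  classical
  obtain ⟨hD0, hmod⟩ := kummer_mod G F ψ I a hψ hD hH
  apply blocks_of_count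
  intro α
  rw [← count_roots]
  refine count_mod φ hD0 hΦ hS hHS ?_ hmod α
  rw [hdeg, ← LinearMap.charpoly_natDegree Φ]
  exact splits_iff_card_roots.1 (IsAlgClosed.splits _) |>.symm

end thm

end Pool.Agent.H313.GE.Pts
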