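import Pool.Agent.H313.GE.Kum

/-!
Twists of families by tensor products of Kummer sheaves.
-/

set_option autoImplicit false
set_option linter.all false
set_option maxHeartbeats 4000000

open Module NumberField Polynomial

namespace Pool.Agent.H313.GE

open Pool.Agent.H313.CC Pool.Agent.W343.BSD Pool.Agent.W313.Hyp

section euler

variable {ι A : Type} [CommRing A]

theorem red_mP {d : ι → ℕ} (hfin : ∀ n, {z | d z ≤ n}.Finite) {R : Type} [CommRing R] (ρ : A →+* R)
    {P : ι → ℤ[X]} (hP : ∀ z, (P z).coeff 0 = 1)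
    (c : ι → A) (p : ι → Prop) (h1 : ∀ z, p z → ρ (c z) = 1) (h0 : ∀ z, ¬ p z → ρ (c z) = 0) :
    PowerSeries.map ρ (eulerProd d (fun z => lf (P z) (c z) (d z))) =
      PowerSeries.map (Int.castRingHom R)
        (eulerProd (fun z : {z // p z} => d z.1) (fun z => lf (P z.1) 1 (d z.1))) := by
  classical
  have h2 : eulerProd (fun z : {z // p z} => d z.1)
      (fun z => (lf (P z.1) 1 (d z.1) : PowerSeries ℤ)) = eulerProd d
      (fun z => if p z then lf (P z) 1 (d z) else 1) :=
    eulerProd_subtype p hfin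
      (f := fun z => (lf (P z) 1 (d z) : PowerSeries ℤ)) (fun z _ => lf_mod (hP z) _ _)
  rw [h2, map_eulerProd hfin, map_eulerProd hfin]
  congr 1
  funext z
  rw [lf_map]
  by_cases h : p z
  · rw [if_pos h, h1 z h, lf_map, map_one]
  · rw [if_neg h, h0 z h, lf_zero (hP z), map_one]

end euler

end Pool.Agent.H313.GE

namespace Pool.Agent.H313.GE.Pts

open Pool.Agent.TH639.SN (SpacePt normValue chart eulerProduct finite_le deg_pos)

section defs

variable {k : Type} [Field k] {M s m : ℕ} (G : Fin s → MvPolynomial (Fin (M + 1)) k)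
  (F : Fin m → MvPolynomial (Fin (M + 1)) k)

/-- The power series `P(c T ^ d)`. -/
noncomputable def factorAt {A : Type} [CommRing A] (P : ℤ[X]) (c : A) (d : ℕ) : PowerSeries A :=
  (((P.map (algebraMap ℤ A)).comp (C c * X ^ d) : A[X]) : PowerSeries A)

/-- The product over the closed points `z` of `Z` of the factors `P_z(c(z) T ^ (deg z))`, where `c(z)`
is the product of the values `ψ i (N (F i) (z))` over the `i` in `I`, and `ψ i (0) = 0`. -/
noncomputable def twistedProduct (P : Pt G → ℤ[X]) {A : Type} [CommRing A]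
    (ψ : Fin m → MulChar k A) (I : Finset (Fin m)) : PowerSeries A :=
  eulerProduct (fun z : Pt G => z.degree) (fun z =>
    factorAt (P z) (∏ i ∈ I, ψ i (z.value (F i))) z.degree)

/-- The product of the factors `P_z(T ^ (deg z))` over the closed points `z` of the open subset of `Z`
where the `F i`, `i ∈ I`, are not zero. -/
noncomputable def openProduct (P : Pt G → ℤ[X]) (I : Finset (Fin m)) : PowerSeries ℤ :=
  eulerProduct (fun z : {z : Pt G // ∀ i ∈ I, z.value (F i) ≠ 0} => z.1.degree)
    (fun z => factorAt (P z.1) 1 z.1.degree)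

end defs

section thm

variable {k : Type} [Field k] [Finite k]

/-- the reduction of the polynomial of a twist of a family -/
theorem twisted_mod {ℓ : ℕ} [hℓ : Fact ℓ.Prime] {K : Type} [Field K] [NumberField K] {M s m : ℕ}
    (G : Fin s → MvPolynomial (Fin (M + 1)) k) (F : Fin m → MvPolynomial (Fin (M + 1)) k)
    (P : Pt G → ℤ[X]) (hP : ∀ z, (P z).coeff 0 = 1)
    (ψ : Fin m → MulChar k (𝓞 K)) (I : Finset (Fin m)) (a : Fin m → ℕ)
    (hψ : ∀ i ∈ I, ψ i ^ ℓ ^ a i = 1) {n : ℕ} {D : (𝓞 K)[X]}
    (hD : IsSigned n (twistedProduct G F P ψ I) D) {H : (ZMod ℓ)[X]}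
    (hH : IsSigned n (PowerSeries.map (Int.castRingHom (ZMod ℓ)) (openProduct G F P I)) H) :
    D.coeff 0 = 1 ∧ ∀ (R : Type) [Field R] [CharP R ℓ] (ρ : 𝓞 K →+* R),
      D.map ρ = H.map (ZMod.castHom (dvd_refl ℓ) R) := by
  classical
  have hfin := finite_points G
  have hpos := degree_pos G
  have hunit : PowerSeries.constantCoeff (twistedProduct G F P ψ I) = 1 :=
    Pool.Agent.H313.CC.one_of_pos hfin hpos _
  refine ⟨?_, ?_⟩
  · rcases Nat.even_or_odd n with hn | hn
    · rw [hD.1 hn, ← PowerSeries.coeff_zero_eq_constantCoeff_apply, Polynomial.coeff_coe] at hunit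
      exact hunit
    · have h1 := congrArg PowerSeries.constantCoeff (hD.2 hn)
      rw [map_mul, hunit, one_mul, map_one, ← PowerSeries.coeff_zero_eq_constantCoeff_apply,
        Polynomial.coeff_coe] at h1
      exact h1
  · intro R _ _ ρ
    have hval : ∀ z : Pt G, (∀ i ∈ I, z.value (F i) ≠ 0) →
        ρ (∏ i ∈ I, ψ i (z.value (F i))) = 1 := by
      intro z hz
      rw [map_prod]
      refine Finset.prod_eq_one fun i hi => ?_
      apply Pool.Agent.TH639.SG.eq_one_of_pow (ℓ := ℓ) (m := a i)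
      rw [← map_pow, ← MulChar.pow_apply' (ψ i) (pow_ne_zero _ hℓ.out.ne_zero), hψ i hi,
        MulChar.one_apply (isUnit_iff_ne_zero.2 (hz i hi)), map_one]
    have hval0 : ∀ z : Pt G, (¬ ∀ i ∈ I, z.value (F i) ≠ 0) →
        ρ (∏ i ∈ I, ψ i (z.value (F i))) = 0 := by
      intro z hz
      push Not at hz
      obtain ⟨i, hi, h0⟩ := hz
      rw [Finset.prod_eq_zero hi (by rw [h0, MulChar.map_zero]), map_zero]
    have h1 : PowerSeries.map ρ (twistedProduct G F P ψ I) =
        PowerSeries.map (Int.castRingHom R) (openProduct G F P I) :=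
      red_mP hfin ρ hP _ _ hval hval0
    have h2 : PowerSeries.map (Int.castRingHom R) (openProduct G F P I) =
        PowerSeries.map (ZMod.castHom (dvd_refl ℓ) R)
          (PowerSeries.map (Int.castRingHom (ZMod ℓ)) (openProduct G F P I)) := by
      ext i
      rw [PowerSeries.coeff_map, PowerSeries.coeff_map, PowerSeries.coeff_map]
      exact (map_intCast (ZMod.castHom (dvd_refl ℓ) R) _).symm
    apply Polynomial.coe_injective R
    rw [Polynomial.polynomial_map_coe, Polynomial.polynomial_map_coe]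
    rcases Nat.even_or_odd n with hn | hn
    · rw [← hD.1 hn, ← hH.1 hn, h1, h2]
    · have h3 := congrArg (PowerSeries.map ρ) (hD.2 hn)
      have h4 := congrArg (PowerSeries.map (ZMod.castHom (dvd_refl ℓ) R)) (hH.2 hn)
      rw [map_mul, map_one, h1, h2] at h3
      rw [map_mul, map_one] at h4
      set f := PowerSeries.map (ZMod.castHom (dvd_refl ℓ) R)
        (PowerSeries.map (Int.castRingHom (ZMod ℓ)) (openProduct G F P I)) with hf
      set x := PowerSeries.map ρ (D : PowerSeries (𝓞 K)) with hx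
      set y := PowerSeries.map (ZMod.castHom (dvd_refl ℓ) R) (H : PowerSeries (ZMod ℓ)) with hy
      calc x = x * (f * y) := by rw [h4, mul_one]
        _ = (f * x) * y := by ring
        _ = y := by rw [h3, one_mul]

/-- **The Jordan blocks for one twist of a family.** -/
theorem twisted_blocks {ℓ : ℕ} [hℓ : Fact ℓ.Prime] {K : Type} [Field K] [NumberField K]
    {M s m : ℕ} (G : Fin s → MvPolynomial (Fin (M + 1)) k)
    (F : Fin m → MvPolynomial (Fin (M + 1)) k)
    (P : Pt G → ℤ[X]) (hP : ∀ z, (P z).coeff 0 = 1)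
    (ψ : Fin m → MulChar k (𝓞 K)) (I : Finset (Fin m)) (a : Fin m → ℕ)
    (hψ : ∀ i ∈ I, ψ i ^ ℓ ^ a i = 1) {n : ℕ} {D : (𝓞 K)[X]}
    (hD : IsSigned n (twistedProduct G F P ψ I) D) {E V : Type} [Field E] [CharZero E]
    [IsAlgClosed E] [AddCommGroup V] [Module E V] [FiniteDimensional E V] (φ : 𝓞 K →+* E)
    (Φ : Module.End E V) (hΦ : IsDet φ Φ D) {e : ℕ} {H S : (ZMod ℓ)[X]}
    (hH : IsSigned n (PowerSeries.map (Int.castRingHom (ZMod ℓ)) (openProduct G F P I)) H)
    (hS : Squarefree S) (hHS : H ∣ S ^ e) (hdeg : H.natDegree = finrank E V) :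
    BlocksLE Φ e := by
  classical
  obtain ⟨hD0, hmod⟩ := twisted_mod G F P hP ψ I a hψ hD hH
  apply blocks_of_count
  intro α
  rw [← count_roots]
  refine count_mod φ hD0 hΦ hS hHS ?_ hmod α
  rw [hdeg, ← LinearMap.charpoly_natDegree Φ]
  exact splits_iff_card_roots.1 (IsAlgClosed.splits _) |>.symm

end thm

end Pool.Agent.H313.GE.Pts
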