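import Pool.Agent.H313.GE.Exp
import Pool.Agent.Y701.AV.Trunc
import Pool.Agent.Y701.CH.Real

/-!
The polynomials with the powers of the zeros, and the counting of the zeros `ζ / Q` for the primes modulo
which these have no zeros.
-/

set_option autoImplicit false
set_option linter.all false
set_option maxHeartbeats 4000000

open Polynomial

namespace Pool.Agent.H313.GE

open Pool.Agent.W343.BSD (rm_mul rm_pow rm_one rm_prod)
open Pool.Agent.Y701.PE (IsExp sub toC)

theorem exists_norm {H : ℤ[X]} (hH : IsUnit (H.coeff 0)) {M : ℕ} (hM : M ≠ 0) :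
    ∃ G : ℤ[X], G ≠ 0 ∧ H ∣ expand ℤ M G ∧
      ∀ y : ℂ, aeval y G = 0 → ∃ x : ℂ, aeval x H = 0 ∧ x ^ M = y := by
  classical
  have main : ∀ H : ℤ[X], H.coeff 0 = 1 → ∃ G : ℤ[X], G ≠ 0 ∧ H ∣ expand ℤ M G ∧
      ∀ y : ℂ, aeval y G = 0 → ∃ x : ℂ, aeval x H = 0 ∧ x ^ M = y := by
    intro H hH
    have hc : PowerSeries.constantCoeff (H : PowerSeries ℤ) = 1 := Pool.Agent.Y701.AV.cc_coe hH
    obtain ⟨a, ha⟩ := Pool.Agent.Y701.AV.exists_exp hc
    obtain ⟨Q, hQ⟩ := Pool.Agent.Y701.AV.exists_power ha hM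
    have hζ := Complex.isPrimitiveRoot_exp M hM
    set ζ := Complex.exp (2 * Real.pi * Complex.I / (M : ℕ)) with hζd
    have h1 := Pool.Agent.Y701.GV.prod_roots (R := ℂ) hM hζ ha hQ (fun _ _ => rfl)
    obtain ⟨p', hp'⟩ := Pool.Agent.Y701.GV.norm_poly hM hζ (H.map (Int.castRingHom ℂ))
    have h2 : PowerSeries.map (Int.castRingHom ℂ) Q = (p' : PowerSeries ℂ) := by
      have h3 : PowerSeries.expand M hM (PowerSeries.map (Int.castRingHom ℂ) Q) =
          PowerSeries.expand M hM (p' : PowerSeries ℂ) := by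
        rw [← Pool.Agent.Y701.PE.sub_eq hM, ← Pool.Agent.Y701.PE.map_sub', h1,
          ← Pool.Agent.Y701.GV.coe_expand' hM, hp', Pool.Agent.W343.BSD.coe_prod']
        refine Finset.prod_congr rfl fun i _ => ?_
        rw [← Pool.Agent.Y701.CB.rescale_coe, Polynomial.polynomial_map_coe]
      ext n
      have h4 := congrArg (PowerSeries.coeff (M * n)) h3
      rwa [PowerSeries.coeff_expand, PowerSeries.coeff_expand, if_pos (dvd_mul_right _ _),
        if_pos (dvd_mul_right _ _), Nat.mul_div_cancel_left _ (Nat.pos_of_ne_zero hM)] at h4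
    obtain ⟨G, hG⟩ := Pool.Agent.Y701.CB.exists_int_poly (RingHom.injective_int _) h2
    have h5 : G.map (Int.castRingHom ℂ) = p' := by
      apply Polynomial.coe_injective
      rw [Polynomial.polynomial_map_coe, ← hG, h2]
    have h6 : (expand ℤ M G).map (Int.castRingHom ℂ) =
        ∏ i ∈ Finset.range M, (H.map (Int.castRingHom ℂ)).comp (C (ζ ^ i) * X) := by
      rw [Polynomial.map_expand, h5, hp']
    have hH0 : H ≠ 0 := by
      rintro rfl
      rw [coeff_zero] at hH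
      exact zero_ne_one hH
    have hG0 : G ≠ 0 := by
      rintro rfl
      rw [map_zero, Polynomial.map_zero] at h6
      refine Finset.prod_ne_zero_iff.2 (fun i _ => ?_) h6.symm
      exact (geoC_comp (Q := 1) (m := M) (Nat.pos_of_ne_zero hM) (by
        rw [← pow_mul, mul_comm, pow_mul, hζ.pow_eq_one, one_pow]) (map_ne hH0)).1
    refine ⟨G, hG0, ?_, ?_⟩
    · have h7 : (H.map (Int.castRingHom ℚ)).map (algebraMap ℚ ℂ) ∣
          ((expand ℤ M G).map (Int.castRingHom ℚ)).map (algebraMap ℚ ℂ) := by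
        have e1 : (algebraMap ℚ ℂ).comp (Int.castRingHom ℚ) = Int.castRingHom ℂ :=
          RingHom.ext_int _ _
        rw [Polynomial.map_map, Polynomial.map_map, e1, h6]
        have h8 : (H.map (Int.castRingHom ℂ)).comp (C (ζ ^ 0) * X) = H.map (Int.castRingHom ℂ) := by
          rw [pow_zero, C_1, one_mul, comp_X]
        have h9 := Finset.dvd_prod_of_mem
          (fun i => (H.map (Int.castRingHom ℂ)).comp (C (ζ ^ i) * X))
          (Finset.mem_range.2 (Nat.pos_of_ne_zero hM))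
        simp only [h8] at h9
        exact h9
      exact (IsPrimitive.Int.dvd_iff_map_cast_dvd_map_cast _ _ (prim_of_unit (by
        rw [hH]; exact isUnit_one))).2 ((map_dvd_map' _).1 h7)
    · intro y hy
      obtain ⟨x, hx⟩ := IsAlgClosed.exists_pow_nat_eq y (Nat.pos_of_ne_zero hM)
      have h7 : aeval x (expand ℤ M G) = 0 := by
        rw [expand_aeval, hx]
        exact hy
      have h8 : eval x ((expand ℤ M G).map (Int.castRingHom ℂ)) = 0 := by
        rw [eval_map]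
        exact h7
      rw [h6, eval_prod, Finset.prod_eq_zero_iff] at h8
      obtain ⟨i, _, h9⟩ := h8
      rw [eval_comp, eval_mul, eval_C, eval_X, eval_map] at h9
      refine ⟨ζ ^ i * x, h9, ?_⟩
      rw [mul_pow, hx, ← pow_mul, mul_comm i, pow_mul, hζ.pow_eq_one, one_pow, one_mul]
  rcases Int.isUnit_iff.1 hH with h | h
  · exact main H h
  · obtain ⟨G, h1, h2, h3⟩ := main (-H) (by rw [coeff_neg, h, neg_neg])
    refine ⟨G, h1, (neg_dvd.1 h2), ?_⟩
    intro y hy
    obtain ⟨x, h4, h5⟩ := h3 y hy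
    refine ⟨x, ?_, h5⟩
    rwa [map_neg, neg_eq_zero] at h4

/-- the set of the primes -/
theorem exists_dens {H : ℤ[X]} (hH : IsUnit (H.coeff 0)) {M : ℕ} (hM : M ≠ 0)
    (himg : ∀ x : ℂ, aeval x H = 0 → (x ^ M).im ≠ 0) (m : ℕ) :
    ∃ G : ℤ[X], H ∣ expand ℤ M G ∧ Pool.Agent.Y701.CH.PosDensity {ℓ : ℕ | ℓ.Prime ∧ ℓ % 4 = 3 ∧
      IsSquare ((m : ℕ) : ZMod ℓ) ∧
        ∀ z : ZMod ℓ, (G.map (Int.castRingHom (ZMod ℓ))).eval z ≠ 0} := by
  obtain ⟨G, h1, h2, h3⟩ := exists_norm hH hM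
  refine ⟨G, h2, Pool.Agent.Y701.CH.real_density G h1 ?_ m⟩
  intro y hy
  have h4 : aeval (y : ℂ) G = 0 := by
    have h5 : (y : ℂ) = algebraMap ℝ ℂ y := rfl
    rw [h5, aeval_algebraMap_apply, hy, map_zero]
  obtain ⟨x, h5, h6⟩ := h3 _ h4
  apply himg x h5
  rw [h6, Complex.ofReal_im]

end Pool.Agent.H313.GE
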