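import Pool.Agent.H313.GE.Cmt

/-!
The multiplicative relations of bounded length.
-/

set_option autoImplicit false
set_option linter.all false
set_option maxHeartbeats 4000000

open Module NumberField Polynomial

namespace Pool.Agent.H313.GE

section combi

/-- The `e` in `ℤ ^ d`, not zero, with the sum zero, such that the sum of the absolute values is at
most `2 s`. -/
noncomputable def relations (d s : ℕ) : Finset (Fin d → ℤ) :=
  (Fintype.piFinset fun _ : Fin d => Finset.Icc (-(s : ℤ)) s).filter fun e =>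
    e ≠ 0 ∧ ∑ i, e i = 0 ∧ ∑ i, |e i| ≤ 2 * s

theorem mem_relations {d s : ℕ} (e : Fin d → ℤ) :
    e ∈ relations d s ↔ e ≠ 0 ∧ ∑ i, e i = 0 ∧ ∑ i, |e i| ≤ 2 * s := by
  classical
  unfold relations
  rw [Finset.mem_filter]
  constructor
  · exact fun h => h.2
  · rintro ⟨h0, h1, h2⟩
    refine ⟨?_, h0, h1, h2⟩
    rw [Fintype.mem_piFinset]
    intro i
    have h3 : |e i| ≤ ∑ k ∈ Finset.univ.erase i, |e k| := by
      have h4 : e i = -∑ k ∈ Finset.univ.erase i, e k := by
        have h5 := Finset.add_sum_erase Finset.univ e (Finset.mem_univ i)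
        linarith
      rw [h4, abs_neg]
      exact Finset.abs_sum_le_sum_abs _ _
    have h5 := Finset.add_sum_erase Finset.univ (fun k => |e k|) (Finset.mem_univ i)
    have h6 : |e i| ≤ s := by linarith
    rw [Finset.mem_Icc]
    exact abs_le.1 h6

theorem relations_perm {d s : ℕ} {e : Fin d → ℤ} (he : e ∈ relations d s)
    (π : Equiv.Perm (Fin d)) : (fun i => e (π i)) ∈ relations d s := by
  rw [mem_relations] at he ⊢
  obtain ⟨h0, h1, h2⟩ := he
  refine ⟨?_, ?_, ?_⟩
  · intro h
    apply h0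
    funext i
    have := congrFun h (π.symm i)
    simpa using this
  · rw [Equiv.sum_comp π e, h1]
  · rw [Equiv.sum_comp π (fun i => |e i|)]
    exact h2

/-- the exponents of a quotient of two products -/
def expo {d s : ℕ} (I L : Fin s → Fin d) (i : Fin d) : ℤ :=
  ((Finset.univ.filter fun a => I a = i).card : ℤ) - (Finset.univ.filter fun a => L a = i).card

theorem expo_zero {d s : ℕ} {I L : Fin s → Fin d} (h : expo I L = 0) :
    ∃ σ : Equiv.Perm (Fin s), ∀ a, L a = I (σ a) := by
  classical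
  apply exists_perm
  ext i
  have h1 := congrFun h i
  unfold expo at h1
  rw [Multiset.count_map, Multiset.count_map]
  have h2 : ∀ J : Fin s → Fin d, Multiset.card (Multiset.filter (fun a => i = J a)
      (Finset.univ.val : Multiset (Fin s))) = (Finset.univ.filter fun a => J a = i).card := by
    intro J
    show (Finset.univ.filter fun a => i = J a).card = _
    congr 1
    ext a
    simp [eq_comm]
  rw [h2, h2]
  have h3 : (0 : Fin d → ℤ) i = 0 := rfl
  rw [h3] at h1
  omega

theorem expo_mem {d s : ℕ} {I L : Fin s → Fin d} (h : expo I L ≠ 0) :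
    expo I L ∈ relations d s := by
  classical
  rw [mem_relations]
  have hsum : ∀ J : Fin s → Fin d,
      ∑ i, ((Finset.univ.filter fun a => J a = i).card : ℤ) = s := by
    intro J
    have h1 := Finset.card_eq_sum_card_fiberwise (f := J) (s := Finset.univ) (t := Finset.univ)
      (fun a _ => Finset.mem_coe.2 (Finset.mem_univ _))
    rw [Finset.card_univ, Fintype.card_fin] at h1
    exact_mod_cast h1.symm
  refine ⟨h, ?_, ?_⟩
  · unfold expo
    rw [Finset.sum_sub_distrib, hsum, hsum, sub_self]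
  · calc ∑ i, |expo I L i| ≤ ∑ i, (((Finset.univ.filter fun a => I a = i).card : ℤ) +
        (Finset.univ.filter fun a => L a = i).card) := by
          refine Finset.sum_le_sum fun i _ => ?_
          unfold expo
          rw [abs_le]
          constructor <;> omega
      _ = 2 * s := by
          rw [Finset.sum_add_distrib, hsum, hsum]
          ring

theorem prod_expo {F : Type} [Field F] {d s : ℕ} (x : Fin d → F) (hx : ∀ i, x i ≠ 0)
    (I L : Fin s → Fin d) :
    ∏ i, x i ^ expo I L i = (∏ a, x (I a)) * (∏ a, x (L a))⁻¹ := by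
  classical
  have h1 : ∀ J : Fin s → Fin d,
      ∏ a, x (J a) = ∏ i, x i ^ ((Finset.univ.filter fun a => J a = i).card : ℤ) := by
    intro J
    rw [← Finset.prod_fiberwise' Finset.univ J x]
    refine Finset.prod_congr rfl fun i _ => ?_
    rw [Finset.prod_const, zpow_natCast]
  rw [h1, h1, ← Finset.prod_inv_distrib, ← Finset.prod_mul_distrib]
  refine Finset.prod_congr rfl fun i _ => ?_
  unfold expo
  rw [zpow_sub₀ (hx i), div_eq_mul_inv]

end combi

section thm

variable {E : Type} [Field E] [CharZero E] [IsAlgClosed E]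

/-- **There are no multiplicative relations of length at most `2 s`.** -/
theorem no_relation_le {K : Type} [Field K] [NumberField K] (φ : 𝓞 K →+* E) {ℓ : ℕ}
    [hℓ : Fact ℓ.Prime] {d : ℕ} (D : (𝓞 K)[X])
    (x : Fin d → E) (hD0 : D.coeff 0 = 1)
    (hx : D.map φ = ∏ i, (1 - C (x i) * X)) (H : (ZMod ℓ)[X])
    (hmod : ∀ (R : Type) [Field R] [CharP R ℓ] (ρ : 𝓞 K →+* R),
      D.map ρ = H.map (ZMod.castHom (dvd_refl ℓ) R))
    (c : Fin d → AlgebraicClosure (ZMod ℓ)) (hc0 : ∀ i, c i ≠ 0)
    (hc : H.map (algebraMap (ZMod ℓ) (AlgebraicClosure (ZMod ℓ))) =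
      ∏ i, (1 - C (c i) * X)) (s : ℕ)
    {W : (ZMod ℓ)[X]} (hW : W.map (algebraMap (ZMod ℓ) (AlgebraicClosure (ZMod ℓ))) =
      ∏ e ∈ relations d s, (1 - C (∏ i, c i ^ e i) * X))
    (hno : ∀ m : ℕ, 0 < m → ¬ ℓ ∣ m → ¬ cyclotomic m (ZMod ℓ) ∣ W) (hx0 : ∀ i, x i ≠ 0)
    (I L : Fin s → Fin d) {r N : ℕ} (hr : 0 < r) (hN : 0 < N) {ζ : E} (hζ : ζ ^ N = 1)
    (hrel : (∏ a, x (I a)) ^ r * ζ = (∏ a, x (L a)) ^ r) :
    (∃ σ : Equiv.Perm (Fin s), ∀ a, L a = I (σ a)) ∧ ζ = 1 := by
  classical
  have hp : ∀ J : Fin s → Fin d, ∏ a, x (J a) ≠ 0 := fun J =>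
    Finset.prod_ne_zero_iff.2 fun a _ => hx0 _
  by_cases h0 : expo I L = 0
  · obtain ⟨σ, hσ⟩ := expo_zero h0
    refine ⟨⟨σ, hσ⟩, ?_⟩
    have h1 : ∏ a, x (L a) = ∏ a, x (I a) := by
      rw [← Equiv.prod_comp σ fun a => x (I a)]
      exact Finset.prod_congr rfl fun a _ => by rw [hσ a]
    rw [h1] at hrel
    exact mul_left_cancel₀ (pow_ne_zero r (hp I)) (by rw [hrel, mul_one])
  · exfalso
    have h1 := no_relation (T := Unit) (d := fun _ => d) φ (fun _ => D) (fun _ => x)
      (fun _ => hD0) (fun _ => hx) (fun _ => H) (fun _ => hmod) (fun _ => c) (fun _ => hc0)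
      (fun _ => hc) ((relations d s).map ⟨fun e _ => e, fun e e' h => congrFun h ()⟩)
      (by
        intro e he π
        rw [Finset.mem_map] at he ⊢
        obtain ⟨e', he', rfl⟩ := he
        exact ⟨fun i => e' (π () i), relations_perm he' (π ()), rfl⟩)
      (W := W) (by
        rw [hW, Finset.prod_map]
        refine Finset.prod_congr rfl fun e _ => ?_
        simp only [Finset.univ_unique, Finset.prod_singleton]
        rfl) hno (Q := 1) one_ne_zero Nat.cast_one (e := fun _ => expo I L)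
      (Finset.mem_map.2 ⟨expo I L, expo_mem h0, rfl⟩) 0 (n := r * N) (Nat.mul_pos hr hN)
    apply h1
    simp only [Finset.univ_unique, Finset.prod_singleton, zpow_zero, one_pow]
    rw [prod_expo x hx0, mul_pow, inv_pow]
    have h2 : (∏ a, x (I a)) ^ (r * N) = (∏ a, x (L a)) ^ (r * N) := by
      rw [pow_mul, pow_mul, ← hrel, mul_pow, hζ, mul_one]
    rw [h2, mul_inv_cancel₀ (pow_ne_zero _ (hp L))]

end thm

end Pool.Agent.H313.GE
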