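import Pool.Agent.H313.GE.Cmt
import Pool.Agent.H313.GE.Avm

/-!
The eigenvalues on tensor products of several spaces.
-/

set_option autoImplicit false
set_option linter.all false
set_option maxHeartbeats 4000000

open Module NumberField Polynomial

namespace Pool.Agent.H313.GE

open Pool.Agent.H313.CC

section poly

/-- the polynomial of the tensor product -/
noncomputable def tpoly {A : Type} [CommRing A] {T : Type} [Fintype T] [DecidableEq T] {d : T → ℕ}
    (x : ∀ t, Fin (d t) → A) : A[X] :=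
  ∏ i : ∀ t, Fin (d t), (1 - C (∏ t, x t (i t)) * X)

variable {T : Type} [Fintype T] [DecidableEq T] {d : T → ℕ}

theorem tpoly_map {A B : Type} [CommRing A] [CommRing B] (f : A →+* B)
    (x : ∀ t, Fin (d t) → A) : (tpoly x).map f = tpoly fun t i => f (x t i) := by
  unfold tpoly
  rw [Polynomial.map_prod]
  refine Finset.prod_congr rfl fun i _ => ?_
  rw [Polynomial.map_sub, Polynomial.map_one, Polynomial.map_mul, Polynomial.map_C,
    Polynomial.map_X, map_prod]

theorem tpoly_perm {A : Type} [CommRing A] (x : ∀ t, Fin (d t) → A)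
    (π : ∀ t, Equiv.Perm (Fin (d t))) : (tpoly fun t i => x t (π t i)) = tpoly x := by
  unfold tpoly
  exact Fintype.prod_equiv (Equiv.piCongrRight π) _ _ fun i => rfl

theorem tpoly_coeff {A : Type} [CommRing A] (x : ∀ t, Fin (d t) → A) : (tpoly x).coeff 0 = 1 := by
  unfold tpoly
  rw [coeff_zero_prod]
  refine Finset.prod_eq_one fun i _ => ?_
  simp

/-- the reduction of the polynomial of the tensor product -/
theorem tpoly_mod {ℓ : ℕ} [hℓ : Fact ℓ.Prime] {A : Type} [CommRing A] (x : ∀ t, Fin (d t) → A)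
    (H : T → (ZMod ℓ)[X])
    (hmod : ∀ t (R : Type) [Field R] [CharP R ℓ] (ρ : A →+* R),
      (∏ i, (1 - C (x t i) * X : A[X])).map ρ = (H t).map (ZMod.castHom (dvd_refl ℓ) R))
    (c : ∀ t, Fin (d t) → AlgebraicClosure (ZMod ℓ)) (hc0 : ∀ t i, c t i ≠ 0)
    (hc : ∀ t, (H t).map (algebraMap (ZMod ℓ) (AlgebraicClosure (ZMod ℓ))) =
      ∏ i, (1 - C (c t i) * X)) {W : (ZMod ℓ)[X]}
    (hW : W.map (algebraMap (ZMod ℓ) (AlgebraicClosure (ZMod ℓ))) = tpoly c)
    (R : Type) [Field R] [CharP R ℓ] (ρ : A →+* R) :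
    (tpoly x).map ρ = W.map (ZMod.castHom (dvd_refl ℓ) R) := by
  letI : Algebra (ZMod ℓ) R := (ZMod.castHom (dvd_refl ℓ) R).toAlgebra
  set g : R →+* AlgebraicClosure R := algebraMap R (AlgebraicClosure R) with hg
  have hchR : CharP (AlgebraicClosure R) ℓ :=
    charP_of_injective_algebraMap (algebraMap R (AlgebraicClosure R)).injective ℓ
  set f : AlgebraicClosure (ZMod ℓ) →ₐ[ZMod ℓ] AlgebraicClosure R :=
    IsAlgClosed.lift (R := ZMod ℓ) (S := AlgebraicClosure (ZMod ℓ)) (M := AlgebraicClosure R)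
    with hf
  have hfc : ∀ p : (ZMod ℓ)[X], (p.map (algebraMap (ZMod ℓ) (AlgebraicClosure (ZMod ℓ)))).map
      (f : AlgebraicClosure (ZMod ℓ) →+* AlgebraicClosure R) =
      (p.map (ZMod.castHom (dvd_refl ℓ) R)).map g := by
    intro p
    rw [Polynomial.map_map, Polynomial.map_map]
    congr 1
    exact Subsingleton.elim _ _
  have h1 : ∀ t, ∃ π : Equiv.Perm (Fin (d t)), ∀ i, g (ρ (x t i)) = f (c t (π i)) := by
    intro t
    apply prod_perm (fun i => g (ρ (x t i))) (fun i => f (c t i))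
      (fun i => (map_ne_zero f).2 (hc0 t i))
    have h2 := congrArg (Polynomial.map g) (hmod t R ρ)
    rw [← hfc, hc, Polynomial.map_map, Polynomial.map_prod, Polynomial.map_prod] at h2
    refine Eq.trans ?_ (h2.trans ?_)
    · refine Finset.prod_congr rfl fun i _ => ?_
      rw [Polynomial.map_sub, Polynomial.map_one, Polynomial.map_mul, Polynomial.map_C,
        Polynomial.map_X]
      rfl
    · refine Finset.prod_congr rfl fun i _ => ?_
      rw [Polynomial.map_sub, Polynomial.map_one, Polynomial.map_mul, Polynomial.map_C,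
        Polynomial.map_X]
      rfl
  choose π hπ using h1
  apply Polynomial.map_injective g g.injective
  rw [← hfc, hW, tpoly_map, tpoly_map, tpoly_map]
  have h3 : (fun t i => g (ρ (x t i))) =
      fun t i => (fun t i => f (c t i)) t (π t i) := by
    funext t i
    exact hπ t i
  rw [h3]
  exact tpoly_perm (fun t i => f (c t i)) π

end poly

section count

variable {K : Type} [Field K] [NumberField K] [IsGalois ℚ K]

/-- **The number of the eigenvalues of a tensor product which are roots of unity times `Q`.** -/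
theorem tensor_count {ℓ : ℕ} [hℓ : Fact ℓ.Prime] {T : Type} [Fintype T] [DecidableEq T]
    {d : T → ℕ} (x : ∀ t, Fin (d t) → 𝓞 K) (H : T → (ZMod ℓ)[X])
    (hmod : ∀ t (R : Type) [Field R] [CharP R ℓ] (ρ : 𝓞 K →+* R),
      (∏ i, (1 - C (x t i) * X : (𝓞 K)[X])).map ρ = (H t).map (ZMod.castHom (dvd_refl ℓ) R))
    (c : ∀ t, Fin (d t) → AlgebraicClosure (ZMod ℓ)) (hc0 : ∀ t i, c t i ≠ 0)
    (hc : ∀ t, (H t).map (algebraMap (ZMod ℓ) (AlgebraicClosure (ZMod ℓ))) =
      ∏ i, (1 - C (c t i) * X)) {W : (ZMod ℓ)[X]}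
    (hW : W.map (algebraMap (ZMod ℓ) (AlgebraicClosure (ZMod ℓ))) = tpoly c)
    {τ : Multiset ℕ} (hτ : ∀ n ∈ τ, 0 < n) {H' : (ZMod ℓ)[X]}
    (hWτ : W = (τ.map fun n => cyclotomic n (ZMod ℓ)).prod * H')
    (hH' : ∀ m : ℕ, 0 < m → ¬ ℓ ∣ m → ¬ cyclotomic m (ZMod ℓ) ∣ H')
    {Q : ℕ} (hQ0 : Q ≠ 0) (hQ : (Q : ZMod ℓ) = 1) (S : Finset (∀ t, Fin (d t)))
    (hS : ∀ i ∈ S, ∃ N : ℕ, 0 < N ∧ (∏ t, x t (i t)) ^ N = (Q : 𝓞 K) ^ N) :
    S.card ≤ (τ.map Nat.totient).sum := by
  classical
  obtain ⟨M', hM', hm⟩ := Pool.Agent.TH639.SC.exists_red (𝓞 K) hℓ.out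
  letI : Field (𝓞 K ⧸ M') := Ideal.Quotient.field M'
  have h0 : ((ℓ : ℕ) : 𝓞 K ⧸ M') = 0 := by
    have := Ideal.Quotient.eq_zero_iff_mem.2 hm
    rwa [map_natCast] at this
  have hch := Pool.Agent.TH639.SC.charP_of_mem (R := 𝓞 K ⧸ M') hℓ.out h0
  obtain ⟨W₁, hW₁⟩ := Polynomial.map_surjective (Int.castRingHom (ZMod ℓ))
    (ZMod.ringHom_surjective _) W
  have hmodV : ∀ (R : Type) [Field R] [CharP R ℓ] (ρ : 𝓞 K →+* R),
      (tpoly x).map ρ * (1 : ℤ[X]).map (Int.castRingHom R) = W₁.map (Int.castRingHom R) := by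
    intro R _ _ ρ
    rw [tpoly_mod x H hmod c hc0 hc hW R ρ, Polynomial.map_one, mul_one, ← hW₁,
      Polynomial.map_map]
    congr 1
    exact Subsingleton.elim _ _
  have hcount := count_le (ℓ := ℓ) (tpoly x) (tpoly_coeff x) (W₂ := 1) (by rw [coeff_one_zero])
    hmodV (Ideal.Quotient.mk M') hQ0 hQ hτ (H := H')
    (by rw [hW₁, Polynomial.map_one, one_mul]; exact hWτ) hH' (AlgebraicClosure K)
  refine le_trans ?_ hcount
  set φ : 𝓞 K →+* AlgebraicClosure K :=
    (algebraMap K (AlgebraicClosure K)).comp (algebraMap (𝓞 K) K) with hφ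
  have hφi : Function.Injective φ :=
    (algebraMap K (AlgebraicClosure K)).injective.comp RingOfIntegers.coe_injective
  have hV : ((tpoly x).map (algebraMap (𝓞 K) K)).map (algebraMap K (AlgebraicClosure K)) =
      ∏ i : ∀ t, Fin (d t), (1 - C (φ (∏ t, x t (i t))) * X) := by
    rw [Polynomial.map_map]
    show (tpoly x).map φ = _
    unfold tpoly
    rw [Polynomial.map_prod]
    refine Finset.prod_congr rfl fun i _ => ?_
    rw [Polynomial.map_sub, Polynomial.map_one, Polynomial.map_mul, Polynomial.map_C,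
      Polynomial.map_X]
  have hne : ∀ a : AlgebraicClosure K, (1 - C a * X : (AlgebraicClosure K)[X]) ≠ 0 := by
    intro a h1
    have h2 := congrArg (fun p => Polynomial.coeff p 0) h1
    simp at h2
  rw [hV, geoO_prod _ _ _ fun i _ => hne _]
  have hQL : (Q : AlgebraicClosure K) ≠ 0 := by exact_mod_cast hQ0
  calc S.card = ∑ i ∈ S, 1 := by rw [Finset.sum_const, smul_eq_mul, mul_one]
    _ ≤ ∑ i ∈ S, geoO Q (1 - C (φ (∏ t, x t (i t))) * X) := by
        refine Finset.sum_le_sum fun i hi => ?_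
        obtain ⟨N, hN, hrel⟩ := hS i hi
        have h1 : φ (∏ t, x t (i t)) ^ N = (Q : AlgebraicClosure K) ^ N := by
          rw [← map_pow, hrel, map_pow, map_natCast]
        have h2 : φ (∏ t, x t (i t)) ≠ 0 := by
          intro h3
          rw [h3, zero_pow hN.ne'] at h1
          exact pow_ne_zero N hQL h1.symm
        unfold geoO
        rw [roots_lin h2]
        have h3 : (Multiset.filter (fun x => ∃ n : ℕ, 0 < n ∧
            ((Q : AlgebraicClosure K) * x) ^ n = 1) {(φ (∏ t, x t (i t)))⁻¹}) =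
            {(φ (∏ t, x t (i t)))⁻¹} := by
          rw [Multiset.filter_eq_self]
          intro y hy
          rw [Multiset.mem_singleton.1 hy]
          refine ⟨N, hN, ?_⟩
          rw [mul_pow, inv_pow, h1, mul_inv_cancel₀ (pow_ne_zero N hQL)]
        rw [h3, Multiset.card_singleton]
    _ ≤ _ := Finset.sum_le_sum_of_subset (Finset.subset_univ S)

end count

section avg

variable {k : Type} [Field k] [Finite k] {A : Type} [CommRing A]

/-- the product of characters on families of elements of an extension -/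
noncomputable def homI {ι : Type} [Fintype ι] (ψ : ι → MulChar k A) (k' : Type) [Field k']
    [Algebra k k'] : (ι → k'ˣ) →* Aˣ where
  toFun v := ∏ i, (ψ i).toUnitHom (Units.map (Algebra.norm k (S := k')) (v i))
  map_one' := by
    simp
  map_mul' v w := by
    rw [← Finset.prod_mul_distrib]
    refine Finset.prod_congr rfl fun i _ => ?_
    rw [Pi.mul_apply, map_mul, map_mul]

theorem homI_coe {ι : Type} [Fintype ι] (ψ : ι → MulChar k A) (k' : Type) [Field k'] [Algebra k k']
    (v : ι → k'ˣ) : ((homI ψ k' v : Aˣ) : A) = ∏ i, ψ i (Algebra.norm k (v i : k')) := by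
  show ((∏ i, (ψ i).toUnitHom (Units.map (Algebra.norm k (S := k')) (v i)) : Aˣ) : A) = _
  rw [Units.coe_prod]
  refine Finset.prod_congr rfl fun i _ => ?_
  rw [MulChar.coe_toUnitHom]
  rfl

theorem fiber_I {ι : Type} [Fintype ι] [DecidableEq ι] (ψ : ι → MulChar k A) (k' : Type) [Field k']
    [Finite k'] [Algebra k k'] (T : Finset (ι → k'ˣ))
    (hT : ∀ u ∈ T, ∀ u' ∈ T, homI ψ k' u = homI ψ k' u') :
    T.card * orderOf ψ ≤ (Nat.card k' - 1) ^ Fintype.card ι := by
  classical
  set h := homI ψ k' with hh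
  have hfr : Finite h.range := Finite.of_surjective h.rangeRestrict h.rangeRestrict_surjective
  have h2 : orderOf ψ ≤ Nat.card h.range := by
    apply Nat.le_of_dvd Nat.card_pos
    apply orderOf_dvd_of_pow_eq_one
    funext i
    rw [Pi.pow_apply, Pi.one_apply]
    apply MulChar.ext
    intro u
    obtain ⟨w, hw⟩ := FiniteField.unitsMap_norm_surjective k k' u
    set v : ι → k'ˣ := Pi.mulSingle i w with hv
    have h3 : (⟨h v, ⟨_, rfl⟩⟩ : h.range) ^ Nat.card h.range = 1 :=
      pow_card_eq_one'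
    have h4 : (h v) ^ Nat.card h.range = 1 := congrArg Subtype.val h3
    have h5 : h v = (ψ i).toUnitHom u := by
      show ∏ i', (ψ i').toUnitHom (Units.map (Algebra.norm k (S := k')) (v i')) = _
      rw [Finset.prod_eq_single i]
      · rw [hv, Pi.mulSingle_eq_same, hw]
      · intro i' _ hne
        rw [hv, Pi.mulSingle_eq_of_ne hne, map_one, map_one]
      · intro h6
        exact absurd (Finset.mem_univ i) h6
    rw [MulChar.pow_apply_coe, MulChar.one_apply u.isUnit, ← MulChar.coe_toUnitHom, ← h5,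
      ← Units.val_pow_eq_pow_val, h4, Units.val_one]
  have h3 := fiber_hom h T hT
  have h4 : Nat.card (ι → k'ˣ) = (Nat.card k' - 1) ^ Fintype.card ι := by
    rw [Nat.card_fun, Nat.card_units, Nat.card_eq_fintype_card (α := ι)]
  rw [h4] at h3
  exact (Nat.mul_le_mul_left _ h2).trans h3

/-- the average of the number of the indices -/
theorem avg_I {ι : Type} [Fintype ι] [DecidableEq ι] (ψ : ι → MulChar k A) {e : ℕ} (he : 0 < e)
    (hψ : ψ ^ e = 1) (k' : Type) [Field k'] [Finite k'] [Algebra k k'] [Fintype (ι → k'ˣ)]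
    [IsDomain A] {J : Type} [Fintype J] (y : J → A) {Q : A} {r : ℕ} (hr : 0 < r) (μ : ℕ)
    (hy : ∀ i, y i ≠ 0)
    (hcount : ∀ S : Finset J, (∀ i ∈ S, ∃ N : ℕ, 0 < N ∧ y i ^ N = Q ^ N) → S.card ≤ μ) :
    (∀ v : ι → k'ˣ, Nat.card {i : J // y i ^ r * ∏ l, ψ l (Algebra.norm k (v l : k')) = Q ^ r} ≤
      μ) ∧
    (∑ v : ι → k'ˣ, Nat.card {i : J // y i ^ r * ∏ l, ψ l (Algebra.norm k (v l : k')) = Q ^ r}) *
      orderOf ψ ≤ (Nat.card k' - 1) ^ Fintype.card ι * μ := by
  classical
  have hval : ∀ v : ι → k'ˣ, (∏ l, ψ l (Algebra.norm k (v l : k'))) ^ e = 1 := by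
    intro v
    rw [← Finset.prod_pow]
    refine Finset.prod_eq_one fun i _ => ?_
    have h2 : ψ i ^ e = 1 := by
      have h3 := congrFun hψ i
      rwa [Pi.pow_apply, Pi.one_apply] at h3
    rw [← MulChar.pow_apply' (ψ i) he.ne', h2]
    exact MulChar.one_apply ((v i).isUnit.map (Algebra.norm k (S := k')))
  have hcard : ∀ v : ι → k'ˣ,
      Nat.card {i : J // y i ^ r * ∏ l, ψ l (Algebra.norm k (v l : k')) = Q ^ r} =
      (Finset.univ.filter fun i : J =>
        y i ^ r * ∏ l, ψ l (Algebra.norm k (v l : k')) = Q ^ r).card := by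
    intro v
    rw [Nat.card_eq_fintype_card, Fintype.card_subtype]
  have hrel : ∀ (v : ι → k'ˣ) (i : J), y i ^ r * ∏ l, ψ l (Algebra.norm k (v l : k')) = Q ^ r →
      ∃ N : ℕ, 0 < N ∧ y i ^ N = Q ^ N := by
    intro v i h
    refine ⟨r * e, Nat.mul_pos hr he, ?_⟩
    rw [pow_mul, pow_mul, ← h, mul_pow, hval v, mul_one]
  refine ⟨fun v => ?_, ?_⟩
  · rw [hcard v]
    exact hcount _ fun i hi => hrel v i (Finset.mem_filter.1 hi).2
  · set S₀ : Finset J := Finset.univ.filter fun i => ∃ N : ℕ, 0 < N ∧ y i ^ N = Q ^ N with hS₀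
    have hS₀c : S₀.card ≤ μ := hcount S₀ fun i hi => (Finset.mem_filter.1 hi).2
    have h1 : ∑ v : ι → k'ˣ,
        Nat.card {i : J // y i ^ r * ∏ l, ψ l (Algebra.norm k (v l : k')) = Q ^ r} =
        ∑ i ∈ S₀, (Finset.univ.filter fun v : ι → k'ˣ =>
          y i ^ r * ∏ l, ψ l (Algebra.norm k (v l : k')) = Q ^ r).card := by
      rw [Finset.sum_congr rfl fun v _ => hcard v]
      simp only [Finset.card_filter]
      rw [Finset.sum_comm]
      symm
      apply Finset.sum_subset (Finset.subset_univ S₀)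
      intro i _ hi
      refine Finset.sum_eq_zero fun v _ => if_neg fun h => hi ?_
      exact Finset.mem_filter.2 ⟨Finset.mem_univ _, hrel v i h⟩
    rw [h1, Finset.sum_mul]
    calc ∑ i ∈ S₀, (Finset.univ.filter fun v : ι → k'ˣ =>
          y i ^ r * ∏ l, ψ l (Algebra.norm k (v l : k')) = Q ^ r).card * orderOf ψ
        ≤ ∑ i ∈ S₀, (Nat.card k' - 1) ^ Fintype.card ι := by
          refine Finset.sum_le_sum fun i _ => ?_
          apply fiber_I ψ k'
          intro u hu u' hu'
          rw [Finset.mem_filter] at hu hu'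
          apply Units.ext
          rw [homI_coe, homI_coe]
          apply mul_left_cancel₀ (pow_ne_zero r (hy i))
          rw [hu.2, hu'.2]
      _ = S₀.card * (Nat.card k' - 1) ^ Fintype.card ι := by rw [Finset.sum_const, smul_eq_mul]
      _ ≤ μ * (Nat.card k' - 1) ^ Fintype.card ι := Nat.mul_le_mul_right _ hS₀c
      _ = _ := mul_comm _ _

end avg

end Pool.Agent.H313.GE
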