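import Pool.Agent.H313.GE.Tw

/-!
Closed points of projective varieties over finite fields, the `L`-functions of Kummer sheaves, and
the numbers of zeros of polynomials.
-/

set_option autoImplicit false
set_option linter.all false
set_option maxHeartbeats 4000000

open Polynomial NumberField

namespace Pool.Agent.H313.GE.Pts

open Pool.Agent.TH639.SN (SpacePt normValue chart eulerProduct finite_le deg_pos chart_C_mul
  normValue_C_mul)

section defs

variable {k : Type} [Field k] {M s : ℕ}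

/-- The closed points of the subset `Z` of projective space of dimension `M` over `k` where the forms
`G i` vanish. The coordinate of index `index` is one, the following coordinates are zero, and the
preceding ones are the coordinates of the closed point `point` of affine space. -/
structure Pt (G : Fin s → MvPolynomial (Fin (M + 1)) k) : Type where
  index : Fin (M + 1)
  point : SpacePt index k
  vanish : ∀ i, normValue index k (chart index (G i)) point = 0

/-- The degree of a closed point. -/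
noncomputable def Pt.degree {G : Fin s → MvPolynomial (Fin (M + 1)) k} (z : Pt G) : ℕ :=
  Pool.Agent.TH639.SN.deg z.index k z.point

/-- The norm to `k` of the value of the form `F` at a closed point. -/
noncomputable def Pt.value {G : Fin s → MvPolynomial (Fin (M + 1)) k} (z : Pt G)
    (F : MvPolynomial (Fin (M + 1)) k) : k :=
  normValue z.index k (chart z.index F) z.point

variable (G : Fin s → MvPolynomial (Fin (M + 1)) k) (F : MvPolynomial (Fin (M + 1)) k)

/-- The inverse of the zeta function of `Z`. -/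
noncomputable def zetaInv : PowerSeries ℤ :=
  eulerProduct (fun z : Pt G => z.degree) (fun z => 1 - PowerSeries.X ^ z.degree)

/-- The inverse of the zeta function of the subset `B` of `Z` where the form `F` vanishes. -/
noncomputable def branchZetaInv : PowerSeries ℤ :=
  eulerProduct (fun z : {z : Pt G // z.value F = 0} => z.1.degree)
    (fun z => 1 - PowerSeries.X ^ z.1.degree)

/-- The product over the closed points `z` of `Z` of the factors `1 - ψ(N F(z)) T ^ (deg z)`, where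
`N F(z)` is the norm to `k` of the value of `F` at `z` and `ψ(0) = 0`. It is the inverse of the
`L`-function of the Kummer sheaf of `ψ` for `F`. -/
noncomputable def charProduct {A : Type} [CommRing A] (ψ : MulChar k A) : PowerSeries A :=
  eulerProduct (fun z : Pt G => z.degree)
    (fun z => 1 - PowerSeries.C (ψ (z.value F)) * PowerSeries.X ^ z.degree)

/-- The zeta function of `B` divided by the zeta function of `Z` is `L₁ / L₂`. -/
structure IsZetaQuotient (L₁ L₂ : ℤ[X]) : Prop where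
  constant : L₂.coeff 0 = 1
  quotient : branchZetaInv G F * (L₁ : PowerSeries ℤ) = zetaInv G * (L₂ : PowerSeries ℤ)

/-- `P` is the product of the products `charProduct` for the characters `χ ^ j`, `0 < j < N`. If the
order of `χ` is `N` then the zeta function of the covering `w ^ N = F` of `Z` is that of `Z` divided by
`P`. -/
def IsCoverPolynomial {A : Type} [CommRing A] (χ : MulChar k A) (N : ℕ) (P : ℤ[X]) : Prop :=
  ∏ j ∈ Finset.Ico 1 N, charProduct G F (χ ^ j) =
    PowerSeries.map (algebraMap ℤ A) (P : PowerSeries ℤ)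

/-- `W(T)` is the product of the polynomials `P(b T)` for `b` in the multiset `S`: if the reciprocal
zeros of `P` are the `α`, those of `W` are the products `α b`. -/
def IsTensor {A : Type} [CommRing A] (S : Multiset A) (P W : ℤ[X]) : Prop :=
  W.map (algebraMap ℤ A) = (S.map fun b => (P.map (algebraMap ℤ A)).comp (C b * X)).prod

open Classical in
/-- The number of the complex zeros `x` of `P`, with multiplicities, such that `(Q x) ^ r = 1`. -/
noncomputable def zeroCount (Q r : ℕ) (P : ℤ[X]) : ℕ :=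
  Multiset.card ((P.map (Int.castRingHom ℂ)).roots.filter fun x => ((Q : ℂ) * x) ^ r = 1)

open Classical in
/-- Let `k'` be a finite extension of `k` of degree `r`, with `q' = q ^ r` elements. The order of
vanishing at `T = 1 / q' ^ c` of the product over `0 < j < N` of the polynomials with the reciprocal
zeros `χ ^ j (N v) α ^ r`, where `α` runs through the reciprocal zeros of `V j` and `N v` is the norm
of `v` from `k'` to `k`: the number of pairs of a `j` and a zero `x` of `V j`, with multiplicities,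
such that `(q ^ c x) ^ r = χ ^ j (N v)`. -/
noncomputable def twistOrder {K : Type} [Field K] [NumberField K] (χ : MulChar k (𝓞 K))
    (V : ℕ → (𝓞 K)[X]) (N c : ℕ) {k' : Type} [Field k'] [Algebra k k'] (v : k'ˣ) : ℕ :=
  ∑ j ∈ Finset.Ico 1 N, Multiset.card ((((V j).map (algebraMap (𝓞 K) K)).map
    (algebraMap K (AlgebraicClosure K))).roots.filter fun x =>
      ((Nat.card k : AlgebraicClosure K) ^ c * x) ^ Module.finrank k k' =
        algebraMap K (AlgebraicClosure K) (algebraMap (𝓞 K) K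
          ((χ ^ j) (Algebra.norm k (v : k')))))

/-- `A` is congruent modulo `ℓ` to the product of `D`, of the cyclotomic polynomials `Φ_m` for `m` in
the multiset `t`, and of `H`. -/
def Splits (ℓ : ℕ) (A D : ℤ[X]) (t : Multiset ℕ) (H : (ZMod ℓ)[X]) : Prop :=
  (∀ m ∈ t, 0 < m) ∧ A.map (Int.castRingHom (ZMod ℓ)) = D.map (Int.castRingHom (ZMod ℓ)) *
    (t.map fun m => cyclotomic m (ZMod ℓ)).prod * H

/-- No cyclotomic polynomial `Φ_m` with `m` prime to `ℓ` divides `H` modulo `ℓ`. -/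
def NoCyclotomic (ℓ : ℕ) (H : (ZMod ℓ)[X]) : Prop :=
  ∀ m : ℕ, 0 < m → ¬ ℓ ∣ m → ¬ cyclotomic m (ZMod ℓ) ∣ H

theorem finite_points [Finite k] (N : ℕ) : {z : Pt G | z.degree ≤ N}.Finite := by
  have h1 : (⋃ j : Fin (M + 1), (fun z : SpacePt j k => (⟨j, z⟩ : Σ j : Fin (M + 1), SpacePt j k)) ''
      {z : SpacePt j k | Pool.Agent.TH639.SN.deg j k z ≤ N}).Finite :=
    Set.finite_iUnion fun j => (finite_le j k N).image _
  refine Set.Finite.of_finite_image
    (f := fun z : Pt G => (⟨z.index, z.point⟩ : Σ j : Fin (M + 1), SpacePt j k))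
    (h1.subset ?_) ?_
  · rintro _ ⟨z, hz, rfl⟩
    simp only [Set.mem_iUnion]
    exact ⟨z.index, z.point, hz, rfl⟩
  · intro z _ z' _ h
    cases z
    cases z'
    simp only [Sigma.mk.injEq] at h
    obtain ⟨h1, h2⟩ := h
    subst h1
    rw [heq_iff_eq] at h2
    subst h2
    rfl

theorem degree_pos (z : Pt G) : 0 < z.degree := deg_pos z.index k z.point

theorem value_C_mul (z : Pt G) (e : k) :
    z.value (MvPolynomial.C e * F) = e ^ z.degree * z.value F := by
  show normValue z.index k (chart z.index (MvPolynomial.C e * F)) z.point = _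
  rw [chart_C_mul, normValue_C_mul]
  rfl

theorem zeroCount_le {Q r : ℕ} (hr : 0 < r) (P : ℤ[X]) : zeroCount Q r P ≤ geo Q P := by
  classical
  unfold zeroCount geo
  apply Multiset.card_le_card
  apply Multiset.monotone_filter_right
  intro x hx
  exact ⟨r, hr, hx⟩

end defs

section thm

open Pool.Agent.H313.CC

variable {k : Type} [Field k] [Finite k]

/-- the general bound -/
theorem bound_geo (ℓ a n : ℕ) (hℓ : ℓ.Prime) (ha : a ≠ 0) (hn0 : 0 < n) (hn : n.Coprime ℓ)
    (K : Type) [Field K] [NumberField K]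
    (χ : MulChar k (𝓞 K)) (hχ : orderOf χ = n * ℓ ^ a) (S : Multiset (𝓞 K))
    {M s : ℕ} (G : Fin s → MvPolynomial (Fin (M + 1)) k) (F : MvPolynomial (Fin (M + 1)) k)
    (L₁ L₂ P : ℤ[X]) (hL : IsZetaQuotient G F L₁ L₂) (hP : IsCoverPolynomial G F (χ ^ ℓ ^ a) n P)
    (W₁ W₂ W : ℤ[X]) (hW₁ : IsTensor S L₁ W₁) (hW₂ : IsTensor S L₂ W₂) (hW : IsTensor S P W)
    (t₁ t₂ : Multiset ℕ) (H₁ H₂ : (ZMod ℓ)[X]) (h₁ : Splits ℓ W₁ W₂ t₁ H₁)
    (h₂ : Splits ℓ W 1 t₂ H₂) (hH : NoCyclotomic ℓ (H₁ * H₂)) (c : ℕ) (v : kˣ)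
    (Pv Wv : ℤ[X])
    (hPv : IsCoverPolynomial G (MvPolynomial.C ((v : k) ^ n) * F) χ (n * ℓ ^ a) Pv)
    (hWv : IsTensor S Pv Wv) :
    Wv.coeff 0 = 1 ∧ geo (Nat.card k ^ c) Wv ≤
      (ℓ ^ a - 1) * (t₁.map Nat.totient).sum + ℓ ^ a * (t₂.map Nat.totient).sum := by
  have hF : Fact ℓ.Prime := ⟨hℓ⟩
  have hpa : 0 < ℓ ^ a := pow_pos hℓ.pos a
  have hd : ℓ ∣ Nat.card k - 1 :=
    ((dvd_pow_self ℓ ha).trans (dvd_mul_left _ _)).trans (Pool.Agent.TH639.CK.card_dvd hχ)
  have hk1 : (Nat.card k : ZMod ℓ) = 1 := by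
    have h1 : 1 ≤ Nat.card k := Nat.card_pos
    have h2 : ((Nat.card k - 1 : ℕ) : ZMod ℓ) = 0 := (ZMod.natCast_eq_zero_iff _ _).2 hd
    rw [Nat.cast_sub h1, Nat.cast_one, sub_eq_zero] at h2
    exact h2
  have hfin := finite_points G
  have hpos := degree_pos G
  have hE := famB (k := k) (nv := fun z : Pt G => z.value F) (d := fun z : Pt G => z.degree)
    hfin hpos K (L₁ := L₁) (L₂ := L₂) hL.quotient
  have hP' : ∏ i ∈ Finset.Ico 1 n, cE (fun z : Pt G => z.degree)
      (fun z => z.value F) (χ ^ (i * ℓ ^ a)) =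
      PowerSeries.map (algebraMap ℤ (𝓞 K)) (P : PowerSeries ℤ) := by
    rw [← hP]
    refine Finset.prod_congr rfl fun i _ => ?_
    rw [← pow_mul, mul_comm]
    rfl
  have hPv' : ∏ j ∈ Finset.Ico 1 (n * ℓ ^ a),
      PowerSeries.rescale ((χ ^ j) ((v : k) ^ n)) (cE (fun z : Pt G => z.degree)
        (fun z => z.value F) (χ ^ j)) =
      PowerSeries.map (algebraMap ℤ (𝓞 K)) (Pv : PowerSeries ℤ) := by
    rw [← hPv]
    refine Finset.prod_congr rfl fun j _ => ?_
    exact (cE_twist hfin (χ ^ j) _ (fun z => value_C_mul G F z _)).symm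
  have hmod := cover_mod (ℓ := ℓ) (a := a) hn0 hn hd K (by rw [← hχ, pow_orderOf_eq_one]) S hE
    hW₁ hW₂ hP' hW v.ne_zero hPv' hWv
  have hZ : Function.Injective (algebraMap ℤ (𝓞 K)) := RingHom.injective_int _
  have hc1 : ∀ {A V : ℤ[X]}, IsTensor S A V → A.coeff 0 = 1 → V.coeff 0 = 1 := by
    intro A V hAV hA
    have h1 := congrArg (fun p => Polynomial.coeff p 0) hAV
    have h2 := tn_coeff_zero S (Q := A.map (algebraMap ℤ (𝓞 K))) (by
      rw [Polynomial.coeff_map, hA, map_one])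
    have h3 : algebraMap ℤ (𝓞 K) (V.coeff 0) = 1 := by
      rw [← Polynomial.coeff_map]
      exact h1.trans h2
    exact hZ (by rw [h3, map_one])
  have hPv0 : Pv.coeff 0 = 1 := by
    have h1 := congrArg PowerSeries.constantCoeff hPv
    rw [map_prod, Finset.prod_eq_one fun j _ => cE_unit (nv := fun z : Pt G =>
      z.value (MvPolynomial.C ((v : k) ^ n) * F)) hfin hpos (χ ^ j),
      ← PowerSeries.coeff_zero_eq_constantCoeff_apply, PowerSeries.coeff_map,
      Polynomial.coeff_coe] at h1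
    exact hZ (by rw [← h1, map_one])
  refine ⟨hc1 hWv hPv0, ?_⟩
  refine cover_bound (pow_ne_zero c Nat.card_pos.ne') (by rw [Nat.cast_pow, hk1, one_pow]) hmod
    (hc1 hWv hPv0) (hc1 hW₂ hL.constant) h₁.1 h₂.1 h₁.2 ?_ hH
  have h3 := h₂.2
  rwa [Polynomial.map_one, one_mul] at h3

/-- the bound for one extension -/
theorem bound (ℓ a n : ℕ) (hℓ : ℓ.Prime) (ha : a ≠ 0) (hn0 : 0 < n) (hn : n.Coprime ℓ)
    (K : Type) [Field K] [NumberField K]
    (χ : MulChar k (𝓞 K)) (hχ : orderOf χ = n * ℓ ^ a) (S : Multiset (𝓞 K))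
    {M s : ℕ} (G : Fin s → MvPolynomial (Fin (M + 1)) k) (F : MvPolynomial (Fin (M + 1)) k)
    (L₁ L₂ P : ℤ[X]) (hL : IsZetaQuotient G F L₁ L₂) (hP : IsCoverPolynomial G F (χ ^ ℓ ^ a) n P)
    (W₁ W₂ W : ℤ[X]) (hW₁ : IsTensor S L₁ W₁) (hW₂ : IsTensor S L₂ W₂) (hW : IsTensor S P W)
    (t₁ t₂ : Multiset ℕ) (H₁ H₂ : (ZMod ℓ)[X]) (h₁ : Splits ℓ W₁ W₂ t₁ H₁)
    (h₂ : Splits ℓ W 1 t₂ H₂) (hH : NoCyclotomic ℓ (H₁ * H₂)) (c r : ℕ) (hr : 0 < r) (v : kˣ)
    (Pv Wv : ℤ[X])
    (hPv : IsCoverPolynomial G (MvPolynomial.C ((v : k) ^ n) * F) χ (n * ℓ ^ a) Pv)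
    (hWv : IsTensor S Pv Wv) :
    zeroCount (Nat.card k ^ c) r Wv ≤
      (ℓ ^ a - 1) * (t₁.map Nat.totient).sum + ℓ ^ a * (t₂.map Nat.totient).sum :=
  (zeroCount_le hr Wv).trans (bound_geo ℓ a n hℓ ha hn0 hn K χ hχ S G F L₁ L₂ P hL hP W₁ W₂ W hW₁
    hW₂ hW t₁ t₂ H₁ H₂ h₁ h₂ hH c v Pv Wv hPv hWv).2

/-- **The exceptional twists over a finite extension.** -/
theorem twists (ℓ a : ℕ) (hℓ : ℓ.Prime) (ha : a ≠ 0)
    (K : Type) [Field K] [NumberField K] [IsGalois ℚ K]
    (χ : MulChar k (𝓞 K)) (hχ : orderOf χ = ℓ ^ a) (S : Multiset (𝓞 K))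
    (hS : ∀ σ : 𝓞 K →+* 𝓞 K, S.map σ = S)
    {M s : ℕ} (G : Fin s → MvPolynomial (Fin (M + 1)) k) (F : MvPolynomial (Fin (M + 1)) k)
    (L₁ L₂ : ℤ[X]) (hL : IsZetaQuotient G F L₁ L₂)
    (W₁ W₂ : ℤ[X]) (hW₁ : IsTensor S L₁ W₁) (hW₂ : IsTensor S L₂ W₂)
    (V : ℕ → (𝓞 K)[X]) (hV : ∀ j ∈ Finset.Ico 1 (ℓ ^ a),
      charProduct G F (χ ^ j) = (V j : PowerSeries (𝓞 K)))
    (t : Multiset ℕ) (H : (ZMod ℓ)[X]) (h : Splits ℓ W₁ W₂ t H) (hH : NoCyclotomic ℓ H) (c : ℕ)
    (k' : Type) [Field k'] [Finite k'] [Algebra k k'] :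
    ∃ T : Finset k'ˣ, ℓ ^ a * T.card ≤
        (Nat.card k' - 1) * ((∑ i ∈ Finset.range a, ℓ ^ i) * (t.map Nat.totient).sum) ∧
      ∀ v ∉ T, twistOrder χ (fun j => tn S (V j)) (ℓ ^ a) c v = 0 := by
  classical
  have hF : Fact ℓ.Prime := ⟨hℓ⟩
  have hr : 0 < Module.finrank k k' := Module.finrank_pos
  have hE := famB (k := k) (nv := fun z : Pt G => z.value F) (d := fun z : Pt G => z.degree)
    (finite_points G) (degree_pos G) K (L₁ := L₁) (L₂ := L₂) hL.quotient
  obtain ⟨h0, T, hT, hTu⟩ := fam_exc (ℓ := ℓ) (L := AlgebraicClosure K) ha hχ S hS hL.constant hE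
    hW₁ hW₂ V hV h.1 h.2 hH c (Module.finrank k k') hr
  obtain ⟨T', hT', hTv⟩ := norm_card k' T
  refine ⟨T', ?_, fun v hv => ?_⟩
  · have hk : 0 < Nat.card k - 1 := by
      have : 1 < Nat.card k := Finite.one_lt_card
      omega
    apply Nat.le_of_mul_le_mul_right _ hk
    calc ℓ ^ a * T'.card * (Nat.card k - 1) = (ℓ ^ a * T.card) * (Nat.card k' - 1) := by
          rw [mul_assoc, hT']; ring
      _ ≤ ((Nat.card k - 1) * ((∑ i ∈ Finset.range a, ℓ ^ i) * (t.map Nat.totient).sum)) *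
          (Nat.card k' - 1) := Nat.mul_le_mul_right _ hT
      _ = _ := by ring
  · have hu : Units.map (Algebra.norm k (S := k')) v ∉ T := fun h => hv ((hTv v).2 h)
    unfold twistOrder
    refine Finset.sum_eq_zero fun j hj => ?_
    rw [Multiset.card_eq_zero, Multiset.filter_eq_nil]
    intro x hx h1
    have h2 := hTu _ hu j hj x ((mem_roots'.1 hx).2)
    apply h2
    rw [Nat.cast_pow, h1]
    rfl

end thm

end Pool.Agent.H313.GE.Pts
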