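import Pool.Agent.H313.GE.Sim

/-!
Multiplicative relations between the eigenvalues of several polynomials with known reduction.
-/

set_option autoImplicit false
set_option linter.all false
set_option maxHeartbeats 4000000

open Module NumberField Polynomial

namespace Pool.Agent.H313.GE

open Pool.Agent.TH639.SC (exists_red charP_of_mem)

section perm

/-- families with the same values -/
theorem exists_perm {n : ℕ} {β : Type} (f g : Fin n → β)
    (h : (Finset.univ.val.map f : Multiset β) = Finset.univ.val.map g) :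
    ∃ π : Equiv.Perm (Fin n), ∀ i, f i = g (π i) := by
  classical
  have hc : ∀ c : β, Nonempty ({i // f i = c} ≃ {i // g i = c}) := by
    intro c
    rw [← Fintype.card_eq, Fintype.card_subtype, Fintype.card_subtype]
    have h1 := congrArg (Multiset.count c) h
    rw [Multiset.count_map, Multiset.count_map] at h1
    have h2 : ∀ f : Fin n → β, (Finset.univ.filter fun i => f i = c).card =
        Multiset.card (Multiset.filter (fun a => c = f a) Finset.univ.val) := by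
      intro f
      rw [Finset.card_def, Finset.filter_val]
      congr 1
      exact Multiset.filter_congr fun i _ => eq_comm
    rw [h2, h2, h1]
  refine ⟨(Equiv.sigmaFiberEquiv f).symm.trans
    ((Equiv.sigmaCongrRight fun c => (hc c).some).trans (Equiv.sigmaFiberEquiv g)), fun i => ?_⟩
  exact ((hc (f i)).some ⟨i, rfl⟩).2.symm

theorem roots_lin {F : Type} [Field F] {a : F} (ha : a ≠ 0) :
    (1 - C a * X : F[X]).roots = {a⁻¹} := by
  have h1 : (1 - C a * X : F[X]) = C (-a) * (X - C a⁻¹) := by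
    rw [mul_sub, ← C_mul, neg_mul, mul_inv_cancel₀ ha, C_neg, C_neg, C_1]
    ring
  rw [h1, roots_C_mul _ (neg_ne_zero.2 ha), roots_X_sub_C]

theorem prod_perm {F : Type} [Field F] {n : ℕ} (x c : Fin n → F) (hc : ∀ i, c i ≠ 0)
    (h : ∏ i, (1 - C (x i) * X : F[X]) = ∏ i, (1 - C (c i) * X)) :
    ∃ π : Equiv.Perm (Fin n), ∀ i, x i = c (π i) := by
  classical
  have hne : ∀ a : F, (1 - C a * X : F[X]) ≠ 0 := by
    intro a h1
    have h2 := congrArg (fun p => Polynomial.coeff p 0) h1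
    simp at h2
  have hdeg : ∀ a : F, (1 - C a * X : F[X]).natDegree = if a = 0 then 0 else 1 := by
    intro a
    split_ifs with ha
    · rw [ha, C_0, zero_mul, sub_zero, natDegree_one]
    · have h1 : (1 - C a * X : F[X]) = C (-a) * X + C 1 := by
        rw [C_neg, C_1]
        ring
      rw [h1, natDegree_linear (neg_ne_zero.2 ha)]
  have hx : ∀ i, x i ≠ 0 := by
    have h1 := congrArg natDegree h
    rw [natDegree_prod _ _ fun i _ => hne _, natDegree_prod _ _ fun i _ => hne _] at h1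
    have h2 : ∑ i, (1 - C (c i) * X : F[X]).natDegree = ∑ _i : Fin n, 1 :=
      Finset.sum_congr rfl fun i _ => by rw [hdeg, if_neg (hc i)]
    rw [h2] at h1
    have h3 := (Finset.sum_eq_sum_iff_of_le (s := Finset.univ)
      (f := fun i => (1 - C (x i) * X : F[X]).natDegree) (g := fun _ => 1) (fun i _ => by
        rw [hdeg]
        split_ifs <;> omega)).1 h1
    intro i hi
    have h4 := h3 i (Finset.mem_univ i)
    rw [hdeg, if_pos hi] at h4
    omega
  have hr : ∀ y : Fin n → F, (∀ i, y i ≠ 0) → (∏ i, (1 - C (y i) * X : F[X])).roots =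
      Finset.univ.val.map fun i => (y i)⁻¹ := by
    intro y hy
    rw [roots_prod _ _ (Finset.prod_ne_zero_iff.2 fun i _ => hne _)]
    rw [Multiset.bind_congr fun i _ => roots_lin (hy i), Multiset.bind_singleton]
  have h1 := congrArg roots h
  rw [hr x hx, hr c hc] at h1
  obtain ⟨π, hπ⟩ := exists_perm _ _ h1
  exact ⟨π, fun i => inv_injective (hπ i)⟩

end perm

section hom

variable (E : Type) [Field E] [CharZero E]

/-- the algebraic integers in `E` -/
abbrev OO : Type := integralClosure ℤ (algebraicClosure ℚ E)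

/-- the embedding -/
noncomputable def ii : OO E →+* E :=
  (algebraMap (algebraicClosure ℚ E) E).comp (algebraMap (OO E) (algebraicClosure ℚ E))

theorem ii_inj : Function.Injective (ii E) :=
  (algebraMap (algebraicClosure ℚ E) E).injective.comp Subtype.val_injective

theorem ii_surj {x : E} (hx : IsIntegral ℤ x) : ∃ y : OO E, ii E y = x := by
  have h1 : IsIntegral ℚ x := hx.tower_top
  have h2 : x ∈ algebraicClosure ℚ E := mem_algebraicClosure_iff.2 h1.isAlgebraic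
  have h3 : IsIntegral ℤ (⟨x, h2⟩ : algebraicClosure ℚ E) := by
    have h4 : Function.Injective (algebraMap (algebraicClosure ℚ E) E) :=
      (algebraMap (algebraicClosure ℚ E) E).injective
    exact (isIntegral_algHom_iff ((algebraMap (algebraicClosure ℚ E) E).toIntAlgHom) h4).1 hx
  exact ⟨⟨⟨x, h2⟩, h3⟩, rfl⟩

theorem exists_base (ℓ : ℕ) [hℓ : Fact ℓ.Prime] :
    Nonempty (OO E →+* AlgebraicClosure (ZMod ℓ)) := by
  obtain ⟨M, hM, hm⟩ := exists_red (OO E) hℓ.out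
  letI : Field (OO E ⧸ M) := Ideal.Quotient.field M
  have h0 : ((ℓ : ℕ) : OO E ⧸ M) = 0 := by
    have := Ideal.Quotient.eq_zero_iff_mem.2 hm
    rwa [map_natCast] at this
  have hc := charP_of_mem (R := OO E ⧸ M) hℓ.out h0
  letI : Algebra (ZMod ℓ) (OO E ⧸ M) := (ZMod.castHom (dvd_refl ℓ) (OO E ⧸ M)).toAlgebra
  have hint : Algebra.IsIntegral (ZMod ℓ) (OO E ⧸ M) := by
    refine ⟨fun x => ?_⟩
    obtain ⟨y, rfl⟩ := Ideal.Quotient.mk_surjective x
    have h1 : IsIntegral ℤ y := Algebra.IsIntegral.isIntegral y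
    have h2 : IsIntegral ℤ (Ideal.Quotient.mk M y) :=
      h1.map (Ideal.Quotient.mk M).toIntAlgHom
    exact h2.tower_top
  have halg : Algebra.IsAlgebraic (ZMod ℓ) (OO E ⧸ M) := Algebra.IsIntegral.isAlgebraic
  exact ⟨((IsAlgClosed.lift (R := ZMod ℓ) (S := OO E ⧸ M) (M := AlgebraicClosure (ZMod ℓ)) :
    (OO E ⧸ M) →ₐ[ZMod ℓ] AlgebraicClosure (ZMod ℓ)) : (OO E ⧸ M) →+* _).comp
      (Ideal.Quotient.mk M)⟩

variable {E} [IsAlgClosed E]

theorem exists_conj_oo {ζ : OO E} {n : ℕ} (hn : 0 < n) (hζ : IsPrimitiveRoot ζ n) {u : ℕ}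
    (hu : u.Coprime n) : ∃ τ : OO E →+* OO E, τ ζ = ζ ^ u := by
  have hζ0 : IsPrimitiveRoot (ζ : algebraicClosure ℚ E) n :=
    hζ.map_of_injective (f := algebraMap (OO E) (algebraicClosure ℚ E)) Subtype.val_injective
  have hζ' := hζ0.pow_of_coprime u hu
  have h1 : IsConjRoot ℚ ((ζ : algebraicClosure ℚ E) ^ u) (ζ : algebraicClosure ℚ E) := by
    show minpoly ℚ ((ζ : algebraicClosure ℚ E) ^ u) = minpoly ℚ (ζ : algebraicClosure ℚ E)
    rw [← Polynomial.cyclotomic_eq_minpoly_rat hζ0 hn, ← Polynomial.cyclotomic_eq_minpoly_rat hζ' hn]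
  have hcl : IsAlgClosure ℚ (algebraicClosure ℚ E) := algebraicClosure.isAlgClosure ℚ E
  have hnorm : Normal ℚ (algebraicClosure ℚ E) := IsAlgClosure.normal ℚ _
  obtain ⟨σ, hσ⟩ := isConjRoot_iff_exists_algEquiv.1 h1
  have hint : ∀ z : OO E, IsIntegral ℤ (σ (z : algebraicClosure ℚ E)) := fun z =>
    z.2.map (σ : algebraicClosure ℚ E →+* algebraicClosure ℚ E).toIntAlgHom
  refine ⟨(((σ : algebraicClosure ℚ E →+* algebraicClosure ℚ E).comp
    (algebraMap (OO E) (algebraicClosure ℚ E))).codRestrict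
      (integralClosure ℤ (algebraicClosure ℚ E)).toSubring fun z => hint z), ?_⟩
  apply Subtype.ext
  exact hσ

/-- the homomorphisms to the algebraic closure of the prime field and the roots of unity -/
theorem exists_hom_root (ℓ : ℕ) [hℓ : Fact ℓ.Prime] {ζ : OO E} {n : ℕ} (hn : 0 < n)
    (hζ : IsPrimitiveRoot ζ n) : ∃ m : ℕ, 0 < m ∧ ¬ ℓ ∣ m ∧
      ∀ ξ : AlgebraicClosure (ZMod ℓ), IsPrimitiveRoot ξ m →
        ∃ ρ : OO E →+* AlgebraicClosure (ZMod ℓ), ρ ζ = ξ := by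
  obtain ⟨s, m, hm, hnm⟩ := Nat.exists_eq_pow_mul_and_not_dvd hn.ne' ℓ hℓ.out.ne_one
  have hm0 : 0 < m := by
    rcases Nat.eq_zero_or_pos m with h | h
    · rw [h, mul_zero] at hnm
      omega
    · exact h
  refine ⟨m, hm0, hm, fun ξ hξ => ?_⟩
  obtain ⟨ρ₀⟩ := exists_base E ℓ
  have hch : CharP (AlgebraicClosure (ZMod ℓ)) ℓ :=
    charP_of_injective_algebraMap (algebraMap (ZMod ℓ) (AlgebraicClosure (ZMod ℓ))).injective ℓ
  have hne : NeZero ((m : ℕ) : AlgebraicClosure (ZMod ℓ)) := ⟨by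
    rw [Ne, CharP.cast_eq_zero_iff (AlgebraicClosure (ZMod ℓ)) ℓ]
    exact hm⟩
  have h1 : (cyclotomic n (OO E)).IsRoot ζ := by
    have : NeZero ((n : ℕ) : OO E) := ⟨by exact_mod_cast hn.ne'⟩
    exact isRoot_cyclotomic_iff.2 hζ
  have h2 : (cyclotomic n (AlgebraicClosure (ZMod ℓ))).IsRoot (ρ₀ ζ) := by
    have h3 := congrArg ρ₀ h1
    rw [map_zero, ← Polynomial.eval_map_apply, map_cyclotomic] at h3
    exact h3
  rw [hnm, isRoot_cyclotomic_prime_pow_mul_iff_of_charP] at h2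
  have hnz : NeZero m := ⟨hm0.ne'⟩
  obtain ⟨u, -, hu, hξu⟩ := h2.isPrimitiveRoot_iff.1 hξ
  have hcop : (ℓ ^ s).Coprime m := Nat.Coprime.pow_left s ((Nat.Prime.coprime_iff_not_dvd hℓ.out).2 hm)
  obtain ⟨u', hu1, hu2⟩ := Nat.chineseRemainder hcop 1 u
  have hu'n : u'.Coprime n := by
    rw [hnm]
    refine Nat.Coprime.mul_right ?_ ?_
    · rw [Nat.Coprime, hu1.gcd_eq]
      exact Nat.gcd_one_left _
    · rw [Nat.Coprime, hu2.gcd_eq]
      exact hu
  obtain ⟨τ, hτ⟩ := exists_conj_oo hn hζ hu'n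
  refine ⟨ρ₀.comp τ, ?_⟩
  rw [RingHom.comp_apply, hτ, map_pow, ← hξu]
  exact pow_eq_pow_of_modEq hu2 h2.pow_eq_one

end hom

section rel

variable {E : Type} [Field E] [CharZero E]

theorem zpow_split {F : Type} [Field F] {a : F} (ha : a ≠ 0) (z : ℤ) :
    a ^ z * a ^ (-z).toNat = a ^ z.toNat := by
  have h1 : (z.toNat : ℤ) = z + ((-z).toNat : ℤ) := by
    have := Int.toNat_sub_toNat_neg z
    omega
  rw [← zpow_natCast, ← zpow_natCast, h1, zpow_add₀ ha]

theorem root_integral {K : Type} [Field K] [NumberField K] (φ : 𝓞 K →+* E) {D : (𝓞 K)[X]}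
    (hD0 : D.coeff 0 = 1) {d : ℕ} {x : Fin d → E} (hx : D.map φ = ∏ i, (1 - C (x i) * X))
    (i : Fin d) : IsIntegral ℤ (x i) := by
  by_cases hx0 : x i = 0
  · rw [hx0]
    exact isIntegral_zero
  have hinv : Invertible (x i)⁻¹ := invertibleOfNonzero (inv_ne_zero hx0)
  have h1 : eval₂ φ (x i)⁻¹ D = 0 := by
    rw [← eval_map, hx, eval_prod]
    apply Finset.prod_eq_zero (Finset.mem_univ i)
    simp only [eval_sub, eval_one, eval_mul, eval_C, eval_X]
    rw [mul_inv_cancel₀ hx0, sub_self]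
  have h2 := (eval₂_reverse_eq_zero_iff φ (x i)⁻¹ D).2 h1
  rw [invOf_eq_inv, inv_inv] at h2
  letI : Algebra (𝓞 K) E := φ.toAlgebra
  have hmon : D.reverse.Monic := by
    rw [Monic, reverse_leadingCoeff, trailingCoeff,
      natTrailingDegree_eq_zero.2 (Or.inr (by rw [hD0]; exact one_ne_zero)), hD0]
  have h3 : IsIntegral (𝓞 K) (x i) := ⟨D.reverse, hmon, h2⟩
  exact isIntegral_trans (x i) h3

variable [IsAlgClosed E]

/-- **There are no multiplicative relations.** -/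
theorem no_relation {K : Type} [Field K] [NumberField K] (φ : 𝓞 K →+* E) {ℓ : ℕ}
    [hℓ : Fact ℓ.Prime] {T : Type} [Fintype T] {d : T → ℕ} (D : T → (𝓞 K)[X])
    (x : ∀ t, Fin (d t) → E) (hD0 : ∀ t, (D t).coeff 0 = 1)
    (hx : ∀ t, (D t).map φ = ∏ i, (1 - C (x t i) * X)) (H : T → (ZMod ℓ)[X])
    (hmod : ∀ t (R : Type) [Field R] [CharP R ℓ] (ρ : 𝓞 K →+* R),
      (D t).map ρ = (H t).map (ZMod.castHom (dvd_refl ℓ) R))
    (c : ∀ t, Fin (d t) → AlgebraicClosure (ZMod ℓ)) (hc0 : ∀ t i, c t i ≠ 0)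
    (hc : ∀ t, (H t).map (algebraMap (ZMod ℓ) (AlgebraicClosure (ZMod ℓ))) =
      ∏ i, (1 - C (c t i) * X))
    (S : Finset (∀ t, Fin (d t) → ℤ))
    (hS : ∀ e ∈ S, ∀ π : ∀ t, Equiv.Perm (Fin (d t)), (fun t i => e t (π t i)) ∈ S)
    {W : (ZMod ℓ)[X]} (hW : W.map (algebraMap (ZMod ℓ) (AlgebraicClosure (ZMod ℓ))) =
      ∏ e ∈ S, (1 - C (∏ t, ∏ i, c t i ^ e t i) * X))
    (hno : ∀ m : ℕ, 0 < m → ¬ ℓ ∣ m → ¬ cyclotomic m (ZMod ℓ) ∣ W) {Q : ℕ} (hQ0 : Q ≠ 0)
    (hQ : (Q : ZMod ℓ) = 1) {e : ∀ t, Fin (d t) → ℤ} (he : e ∈ S) (b : ℤ) {n : ℕ} (hn : 0 < n) :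
    (∏ t, ∏ i, x t i ^ e t i) ^ n ≠ ((Q : E) ^ b) ^ n := by
  classical
  intro hrel
  have hch : CharP (AlgebraicClosure (ZMod ℓ)) ℓ :=
    charP_of_injective_algebraMap (algebraMap (ZMod ℓ) (AlgebraicClosure (ZMod ℓ))).injective ℓ
  -- the eigenvalues are integral
  choose x₀ hx₀ using fun t i => ii_surj E (root_integral φ (hD0 t) (hx t) i)
  have hφ1 : ∀ y : 𝓞 K, IsIntegral ℤ (φ y) := fun y =>
    (Algebra.IsIntegral.isIntegral (R := ℤ) y).map (φ.toIntAlgHom)
  have hφ2 : ∀ y : 𝓞 K, φ y ∈ algebraicClosure ℚ E := fun y =>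
    mem_algebraicClosure_iff.2 (hφ1 y).tower_top.isAlgebraic
  set φ₁ : 𝓞 K →+* algebraicClosure ℚ E := φ.codRestrict (algebraicClosure ℚ E) hφ2 with hφ₁
  have hφ3 : ∀ y : 𝓞 K, IsIntegral ℤ (φ₁ y) := fun y =>
    (Algebra.IsIntegral.isIntegral (R := ℤ) y).map (φ₁.toIntAlgHom)
  set φ₀ : 𝓞 K →+* OO E := φ₁.codRestrict (integralClosure ℤ (algebraicClosure ℚ E)).toSubring hφ3
    with hφ₀
  have hιφ : (ii E).comp φ₀ = φ := RingHom.ext fun y => rfl
  have hD : ∀ t, (D t).map φ₀ = ∏ i, (1 - C (x₀ t i) * X) := by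
    intro t
    apply Polynomial.map_injective (ii E) (ii_inj E)
    rw [Polynomial.map_map, hιφ, hx, Polynomial.map_prod]
    refine Finset.prod_congr rfl fun i _ => ?_
    rw [Polynomial.map_sub, Polynomial.map_one, Polynomial.map_mul, Polynomial.map_C,
      Polynomial.map_X, hx₀]
  -- the eigenvalues in characteristic `ℓ`
  have hred : ∀ ρ : OO E →+* AlgebraicClosure (ZMod ℓ), ∃ π : ∀ t, Equiv.Perm (Fin (d t)),
      ∀ t i, ρ (x₀ t i) = c t (π t i) := by
    intro ρ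
    have h1 : ∀ t, ∃ π : Equiv.Perm (Fin (d t)), ∀ i, ρ (x₀ t i) = c t (π i) := by
      intro t
      apply prod_perm _ _ (hc0 t)
      rw [← hc t]
      have h2 := hmod t (AlgebraicClosure (ZMod ℓ)) (ρ.comp φ₀)
      have h3 : ZMod.castHom (dvd_refl ℓ) (AlgebraicClosure (ZMod ℓ)) =
          algebraMap (ZMod ℓ) (AlgebraicClosure (ZMod ℓ)) := Subsingleton.elim _ _
      rw [h3] at h2
      rw [← h2, ← Polynomial.map_map, hD, Polynomial.map_prod]
      refine Finset.prod_congr rfl fun i _ => ?_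
      rw [Polynomial.map_sub, Polynomial.map_one, Polynomial.map_mul, Polynomial.map_C,
        Polynomial.map_X]
    choose π hπ using h1
    exact ⟨π, hπ⟩
  obtain ⟨ρ₁⟩ := exists_base E ℓ
  have hx₀0 : ∀ t i, x₀ t i ≠ 0 := by
    intro t i h0
    obtain ⟨π, hπ⟩ := hred ρ₁
    have h1 := hπ t i
    rw [h0, map_zero] at h1
    exact hc0 t _ h1.symm
  have hx0 : ∀ t i, x t i ≠ 0 := by
    intro t i h0
    apply hx₀0 t i
    apply ii_inj E
    rw [hx₀, h0, map_zero]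
  have hQE : (Q : E) ≠ 0 := by exact_mod_cast hQ0
  -- the root of unity
  set y : E := ∏ t, ∏ i, x t i ^ e t i with hy
  have hQb : (Q : E) ^ b ≠ 0 := zpow_ne_zero b hQE
  set ζ : E := y / (Q : E) ^ b with hζ
  have hζn : ζ ^ n = 1 := by
    rw [hζ, div_pow, hrel, div_self (pow_ne_zero n hQb)]
  have hfin : IsOfFinOrder ζ := isOfFinOrder_iff_pow_eq_one.2 ⟨n, hn, hζn⟩
  have hζint : IsIntegral ℤ ζ := by
    refine ⟨X ^ n - 1, monic_X_pow_sub_C 1 hn.ne', ?_⟩
    rw [eval₂_sub, eval₂_pow, eval₂_X, eval₂_one, hζn, sub_self]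
  obtain ⟨ζ₀, hζ₀⟩ := ii_surj E hζint
  have hprim : IsPrimitiveRoot ζ₀ (orderOf ζ) := by
    have h1 := IsPrimitiveRoot.orderOf ζ
    rw [← hζ₀] at h1 ⊢
    exact h1.of_map_of_injective (ii_inj E)
  obtain ⟨m, hm, hml, hroot⟩ := exists_hom_root ℓ (orderOf_pos_iff.2 hfin) hprim
  -- the identity of integers
  have hid : (∏ t, ∏ i, x₀ t i ^ (e t i).toNat) * (Q : OO E) ^ (-b).toNat =
      ζ₀ * (Q : OO E) ^ b.toNat * ∏ t, ∏ i, x₀ t i ^ (-(e t i)).toNat := by
    apply ii_inj E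
    simp only [map_mul, map_prod, map_pow, map_natCast, hx₀, hζ₀]
    have h1 : (∏ t, ∏ i, x t i ^ (e t i).toNat) =
        y * ∏ t, ∏ i, x t i ^ (-(e t i)).toNat := by
      rw [hy, ← Finset.prod_mul_distrib]
      refine Finset.prod_congr rfl fun t _ => ?_
      rw [← Finset.prod_mul_distrib]
      exact Finset.prod_congr rfl fun i _ => (zpow_split (hx0 t i) _).symm
    have h2 : y = ζ * (Q : E) ^ b := by rw [hζ, div_mul_cancel₀ _ hQb]
    rw [h1, h2, ← zpow_split hQE b]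
    ring
  apply hno m hm hml
  apply (map_dvd_map' (algebraMap (ZMod ℓ) (AlgebraicClosure (ZMod ℓ)))).1
  rw [map_cyclotomic]
  have hmE : ((m : ℕ) : AlgebraicClosure (ZMod ℓ)) ≠ 0 := by
    rw [Ne, CharP.cast_eq_zero_iff (AlgebraicClosure (ZMod ℓ)) ℓ]
    exact hml
  have hne : NeZero ((m : ℕ) : AlgebraicClosure (ZMod ℓ)) := ⟨hmE⟩
  obtain ⟨ξ₀, hξ₀⟩ : ∃ ξ : AlgebraicClosure (ZMod ℓ), IsPrimitiveRoot ξ m := by
    have h1 : (cyclotomic m (AlgebraicClosure (ZMod ℓ))).degree ≠ 0 := by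
      rw [degree_cyclotomic]
      have := Nat.totient_pos.2 hm
      exact_mod_cast this.ne'
    obtain ⟨ξ, hξ⟩ := IsAlgClosed.exists_root _ h1
    exact ⟨ξ, isRoot_cyclotomic_iff.1 hξ⟩
  rw [cyclotomic_eq_prod_X_sub_primitiveRoots hξ₀]
  apply Finset.prod_dvd_of_coprime
  · intro u _ v _ huv
    exact isCoprime_X_sub_C_of_isUnit_sub (sub_ne_zero.2 huv).isUnit
  · intro z hz
    have hzp : IsPrimitiveRoot z m := (mem_primitiveRoots hm).1 hz
    obtain ⟨ρ, hρ⟩ := hroot z⁻¹ hzp.inv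
    obtain ⟨π, hπ⟩ := hred ρ
    have hz0 : z ≠ 0 := hzp.ne_zero hm.ne'
    rw [dvd_iff_isRoot, IsRoot.def, hW, eval_prod]
    apply Finset.prod_eq_zero (hS e he fun t => (π t).symm)
    have hQΩ : (Q : AlgebraicClosure (ZMod ℓ)) = 1 := by
      have h1 := congrArg (algebraMap (ZMod ℓ) (AlgebraicClosure (ZMod ℓ))) hQ
      rwa [map_natCast, map_one] at h1
    have h1 := congrArg ρ hid
    simp only [map_mul, map_prod, map_pow, map_natCast, hρ, hπ, hQΩ, one_pow, mul_one] at h1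
    have h2 : (∏ t, ∏ i, c t (π t i) ^ (e t i).toNat) =
        (∏ t, ∏ i, c t (π t i) ^ e t i) * ∏ t, ∏ i, c t (π t i) ^ (-(e t i)).toNat := by
      rw [← Finset.prod_mul_distrib]
      refine Finset.prod_congr rfl fun t _ => ?_
      rw [← Finset.prod_mul_distrib]
      exact Finset.prod_congr rfl fun i _ => (zpow_split (hc0 t _) _).symm
    rw [h2] at h1
    have h3 : (∏ t, ∏ i, c t (π t i) ^ (-(e t i)).toNat) ≠ 0 :=
      Finset.prod_ne_zero_iff.2 fun t _ => Finset.prod_ne_zero_iff.2 fun i _ =>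
        pow_ne_zero _ (hc0 t _)
    have h4 := mul_right_cancel₀ h3 h1
    have h5 : (∏ t, ∏ i, c t i ^ e t ((π t).symm i)) = z⁻¹ := by
      rw [← h4]
      refine Finset.prod_congr rfl fun t _ => ?_
      rw [← Equiv.prod_comp (π t)]
      refine Finset.prod_congr rfl fun i _ => ?_
      rw [Equiv.symm_apply_apply]
    simp only [eval_sub, eval_one, eval_mul, eval_C, eval_X]
    rw [h5, inv_mul_cancel₀ hz0, sub_self]

end rel

end Pool.Agent.H313.GE
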