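import Pool.Agent.H313.GE.Bd

/-!
Representations with a Frobenius element.
-/

set_option autoImplicit false
set_option linter.all false
set_option maxHeartbeats 4000000

open Polynomial Module

namespace Pool.Agent.H313.GE

section rep

variable {F : Type} [Field F] [CharZero F]

/-- zeros of the second factor -/
theorem no_zero_of_uni {B : ℤ[X]} (hB : IsUnit (B.coeff 0)) {Q : ℕ} (hQ : Q ≠ 0)
    (hno : ∀ x : ℂ, IsUni Q x → aeval x B ≠ 0) {y : F} {n : ℕ} (hn : 0 < n)
    (hy : ((Q : F) * y) ^ n = 1) : aeval y B ≠ 0 := by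
  intro h0
  obtain ⟨N, hN, hd⟩ := dvd_of_root hB hQ h0 hn hy
  have hζ := Complex.isPrimitiveRoot_exp N hN.ne'
  set ζ := Complex.exp (2 * Real.pi * Complex.I / N) with hζd
  have hQ0 : (Q : ℂ) ≠ 0 := by exact_mod_cast hQ
  have e : (Q : ℂ) * ((Q : ℂ)⁻¹ * ζ) = ζ := by
    rw [← mul_assoc, mul_inv_cancel₀ hQ0, one_mul]
  apply hno ((Q : ℂ)⁻¹ * ζ) ⟨N, hN, by rw [e, hζ.pow_eq_one]⟩
  obtain ⟨D, hD⟩ := hd
  rw [hD, map_mul]
  have h1 : aeval ((Q : ℂ)⁻¹ * ζ) (cyc ℤ N Q) = 0 := by
    rw [← eval_map_algebraMap, algebraMap_int_eq, cyc_map]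
    unfold cyc
    rw [eval_comp, eval_mul, eval_C, eval_X, e]
    exact hζ.isRoot_cyclotomic hN
  rw [h1, zero_mul]

theorem card_filter_le {R : ℤ[X]} (hR0 : R.coeff 0 = 1) {Q : ℕ} (hQ : Q ≠ 0)
    {s : Multiset F} (hs : R.map (Int.castRingHom F) = (s.map fun x => 1 - C x * X).prod)
    {n : ℕ} (hn : 0 < n) [DecidablePred fun x : F => x ^ n = (Q : F) ^ n] :
    Multiset.card (s.filter fun x => x ^ n = (Q : F) ^ n) ≤ geo Q R := by
  classical
  obtain ⟨t, B, ht, hRB, hno, hBu, hgeo⟩ := exists_decomp hQ _ R le_rfl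
    (by rw [hR0]; exact isUnit_one)
  have hQF : (Q : F) ≠ 0 := by exact_mod_cast hQ
  have hRne : R.map (Int.castRingHom F) ≠ 0 := by
    intro h
    have h1 := congrArg (fun p => Polynomial.coeff p 0) h
    simp [hR0] at h1
  have hmul : R.map (Int.castRingHom F) = cprod F Q t * B.map (Int.castRingHom F) := by
    rw [hRB, Polynomial.map_mul, cprod_map]
  have hroots := Polynomial.roots_mul (p := cprod F Q t) (q := B.map (Int.castRingHom F))
    (by rw [← hmul]; exact hRne)
  rw [← hmul] at hroots
  -- the filter of the roots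
  have h1 : Multiset.card ((R.map (Int.castRingHom F)).roots.filter
      fun y => ((Q : F) * y) ^ n = 1) ≤ geo Q R := by
    rw [hroots, Multiset.filter_add, Multiset.card_add]
    have h2 : (B.map (Int.castRingHom F)).roots.filter (fun y => ((Q : F) * y) ^ n = 1) = 0 := by
      rw [Multiset.filter_eq_nil]
      intro y hy hy1
      have h3 : aeval y B = 0 := by
        have h4 := (Polynomial.mem_roots'.1 hy).2
        rw [IsRoot.def, ← algebraMap_int_eq, eval_map_algebraMap] at h4
        exact h4
      exact no_zero_of_uni hBu hQ hno hn hy1 h3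
    rw [h2, Multiset.card_zero, add_zero, hgeo]
    refine (Multiset.card_le_card (Multiset.filter_le _ _)).trans ?_
    refine (Polynomial.card_roots' _).trans ?_
    clear hRB hgeo hmul hroots hRne hs
    induction t using Multiset.induction_on with
    | empty => rw [cprod_zero, natDegree_one]; exact Nat.zero_le _
    | cons N t ih =>
      rw [cprod_cons, Multiset.map_cons, Multiset.sum_cons]
      refine natDegree_mul_le.trans (add_le_add ?_ (ih fun M hM => ht M (Multiset.mem_cons_of_mem hM)))
      unfold cyc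
      rw [natDegree_comp, natDegree_C_mul hQF, natDegree_X, mul_one, natDegree_cyclotomic]
  refine le_trans ?_ h1
  rw [hs]
  have hne : (0 : F[X]) ∉ s.map fun x => 1 - C x * X := by
    intro h
    obtain ⟨x, -, hx⟩ := Multiset.mem_map.1 h
    have h2 := congrArg (fun p => Polynomial.coeff p 0) hx
    simp at h2
  rw [Polynomial.roots_multiset_prod _ hne, Multiset.bind_map, Multiset.filter_bind,
    Multiset.card_bind]
  clear hne hs h1 hroots hmul hRne
  induction s using Multiset.induction_on with
  | empty => simp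
  | cons x s ih =>
    rw [Multiset.map_cons, Multiset.sum_cons, Multiset.filter_cons, Multiset.card_add]
    refine add_le_add ?_ ih
    split_ifs with h
    · rw [Multiset.card_singleton]
      have hx0 : x ≠ 0 := by
        rintro rfl
        rw [zero_pow hn.ne'] at h
        exact pow_ne_zero n hQF h.symm
      have h2 : x⁻¹ ∈ (1 - C x * X : F[X]).roots := by
        rw [mem_roots', IsRoot.def, eval_sub, eval_one, eval_mul, eval_C, eval_X,
          mul_inv_cancel₀ hx0, sub_self]
        refine ⟨?_, rfl⟩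
        intro h3
        have h4 := congrArg (fun p => Polynomial.coeff p 0) h3
        simp at h4
      have h3 : x⁻¹ ∈ (1 - C x * X : F[X]).roots.filter (fun y => ((Q : F) * y) ^ n = 1) := by
        rw [Multiset.mem_filter]
        refine ⟨h2, ?_⟩
        rw [mul_pow, inv_pow, h, mul_inv_cancel₀ (pow_ne_zero n hQF)]
      exact Multiset.card_pos_iff_exists_mem.2 ⟨_, h3⟩
    · rw [Multiset.card_zero]
      exact Nat.zero_le _

variable [IsAlgClosed F] {V : Type} [AddCommGroup V] [Module F V] [FiniteDimensional F V]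

theorem finrank_ker_le (φ : V →ₗ[F] V) (S : Finset F) :
    finrank F (LinearMap.ker (aeval φ (∏ μ ∈ S, (X - C μ) : F[X]))) ≤
      ∑ μ ∈ S, φ.charpoly.rootMultiplicity μ := by
  classical
  induction S using Finset.induction_on with
  | empty =>
    rw [Finset.prod_empty, Finset.sum_empty, map_one]
    have : LinearMap.ker (1 : V →ₗ[F] V) = ⊥ := LinearMap.ker_id
    rw [this, finrank_bot]
  | insert a S ha ih =>
    rw [Finset.prod_insert ha, Finset.sum_insert ha]
    have hcop : IsCoprime (X - C a : F[X]) (∏ μ ∈ S, (X - C μ)) := by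
      apply IsCoprime.prod_right
      intro μ hμ
      apply isCoprime_X_sub_C_of_isUnit_sub
      have hne : a ≠ μ := by
        intro h
        rw [h] at ha
        exact ha hμ
      exact (sub_ne_zero.2 hne).isUnit
    rw [← Polynomial.sup_ker_aeval_eq_ker_aeval_mul_of_coprime φ hcop]
    refine (Submodule.finrank_add_le_finrank_add_finrank _ _).trans (add_le_add ?_ ih)
    rw [← LinearMap.finrank_maxGenEigenspace_eq φ a]
    apply Submodule.finrank_mono
    intro v hv
    rw [LinearMap.mem_ker, map_sub, aeval_X, aeval_C] at hv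
    rw [Module.End.mem_maxGenEigenspace]
    refine ⟨1, ?_⟩
    rw [pow_one]
    exact hv

/-- The subspace on which the elements of `H` act by the character `χ`. -/
def chiSub {G : Type} [Group G] (ρ : G →* (V →ₗ[F] V)) (χ : G →* F) (H : Subgroup G) :
    Submodule F V where
  carrier := {v | ∀ h ∈ H, ρ h v = χ h • v}
  zero_mem' := fun h _ => by rw [map_zero, smul_zero]
  add_mem' := fun {x y} hx hy h hh => by rw [map_add, hx h hh, hy h hh, smul_add]
  smul_mem' := fun c x hx h hh => by rw [map_smul, hx h hh, smul_comm]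

theorem finrank_chiSub_le {G : Type} [Group G] (ρ : G →* (V →ₗ[F] V)) (χ : G →* F)
    (H : Subgroup G) (hH : H.index ≠ 0) (g : G) {Q : ℕ} (hQ : Q ≠ 0) (hχ : χ g = Q) {R : ℤ[X]}
    (hR0 : R.coeff 0 = 1) (hR : R.map (Int.castRingHom F) =
      (((ρ g).charpoly).roots.map fun x => 1 - C x * X).prod) :
    finrank F (chiSub ρ χ H) ≤ geo Q R := by
  classical
  obtain ⟨n, hn, -, hgn⟩ := Subgroup.exists_pow_mem_of_index_ne_zero hH g
  have hQF : (Q : F) ≠ 0 := by exact_mod_cast hQ
  set p : F[X] := X ^ n - C ((Q : F) ^ n) with hp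
  have hpne : p ≠ 0 := X_pow_sub_C_ne_zero hn _
  have hsep : p.Separable := separable_X_pow_sub_C _ (by exact_mod_cast hn.ne')
    (pow_ne_zero n hQF)
  set S : Finset F := p.roots.toFinset with hS
  have hprod : p = ∏ μ ∈ S, (X - C μ) := by
    have h1 := (IsAlgClosed.splits p).eq_prod_roots
    have h2 : p.leadingCoeff = 1 := (monic_X_pow_sub_C _ hn.ne').leadingCoeff
    rw [h2, C_1, one_mul] at h1
    rw [hS, Finset.prod_eq_multiset_prod, Multiset.toFinset_val,
      Multiset.dedup_eq_self.2 (nodup_roots hsep)]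
    exact h1
  have hle : chiSub ρ χ H ≤ LinearMap.ker (aeval (ρ g) (∏ μ ∈ S, (X - C μ) : F[X])) := by
    rw [← hprod]
    intro v hv
    rw [LinearMap.mem_ker, hp, map_sub, map_pow, aeval_X, aeval_C, LinearMap.sub_apply]
    have h1 := hv _ hgn
    rw [map_pow, map_pow, hχ] at h1
    rw [h1, Module.algebraMap_end_apply, sub_self]
  refine (Submodule.finrank_mono hle).trans ((finrank_ker_le (ρ g) S).trans ?_)
  refine le_trans ?_ (card_filter_le hR0 hQ hR hn)
  have h3 : ∀ μ ∈ S, (ρ g).charpoly.rootMultiplicity μ =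
      ((ρ g).charpoly.roots.filter fun x => x ^ n = (Q : F) ^ n).count μ := by
    intro μ hμ
    rw [hS, Multiset.mem_toFinset, mem_roots hpne, hp, IsRoot.def, eval_sub, eval_pow, eval_X,
      eval_C, sub_eq_zero] at hμ
    rw [Multiset.count_filter, if_pos hμ, count_roots]
  rw [Finset.sum_congr rfl h3]
  refine (Multiset.sum_count_eq_card fun x hx => ?_).le
  rw [hS, Multiset.mem_toFinset, mem_roots hpne, hp, IsRoot.def, eval_sub, eval_pow, eval_X,
    eval_C, (Multiset.mem_filter.1 hx).2, sub_self]

end rep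

end Pool.Agent.H313.GE
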