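import Pool.Agent.H313.GE.Ell3

/-!
Sets of residue classes which avoid the traces of the roots of unity.
-/

set_option autoImplicit false
set_option linter.all false
set_option maxHeartbeats 4000000

open FF Module

namespace Pool.Agent.H313.GE

open Pool.Agent.W343.BSD Pool.Agent.Y701.QG Pool.Agent.Y701.CB Pool.Agent.W309.RF
open Pool.Agent.H123R3.ZT
open Polynomial
open Pool.Agent.Y701.QF (pt pt_deg pt_fin pt_ord red_pt bij_of_deg card_sol_bij)

section avoid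

variable {ℓ : ℕ} [hℓ : Fact ℓ.Prime]

/-- `A` contains for no `m` prime to `ℓ` all the elements `ζ + ζ⁻¹` of the field with `ℓ` elements, `ζ` of
order `m` in an algebraic closure. -/
def Avoids (ℓ : ℕ) [Fact ℓ.Prime] (A : Finset (ZMod ℓ)) : Prop :=
  ∀ m : ℕ, 0 < m → ¬ ℓ ∣ m → ∃ ζ : AlgebraicClosure (ZMod ℓ), IsPrimitiveRoot ζ m ∧
    ∀ c ∈ A, algebraMap (ZMod ℓ) (AlgebraicClosure (ZMod ℓ)) c ≠ ζ + ζ⁻¹

theorem exists_primitive {m : ℕ} (hm : 0 < m) (hml : ¬ ℓ ∣ m) :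
    ∃ ζ : AlgebraicClosure (ZMod ℓ), IsPrimitiveRoot ζ m := by
  set E := AlgebraicClosure (ZMod ℓ) with hE
  have hch : CharP E ℓ := charP_of_injective_algebraMap (algebraMap (ZMod ℓ) E).injective ℓ
  have hmE : ((m : ℕ) : E) ≠ 0 := by
    rw [Ne, CharP.cast_eq_zero_iff E ℓ]
    exact hml
  have hne : NeZero ((m : ℕ) : E) := ⟨hmE⟩
  have h1 : (cyclotomic m E).degree ≠ 0 := by
    rw [degree_cyclotomic]
    have := Nat.totient_pos.2 hm
    exact_mod_cast this.ne'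
  obtain ⟨ζ, hζ⟩ := IsAlgClosed.exists_root _ h1
  exact ⟨ζ, isRoot_cyclotomic_iff.1 hζ⟩

theorem mem_of_trace {m : ℕ} (hm : 0 < m) {ζ : AlgebraicClosure (ZMod ℓ)}
    (hζ : IsPrimitiveRoot ζ m) {c : ZMod ℓ}
    (h : algebraMap (ZMod ℓ) (AlgebraicClosure (ZMod ℓ)) c = ζ + ζ⁻¹) :
    m ∈ (ℓ - 1).divisors ∪ (ℓ + 1).divisors := by
  have hℓ1 := hℓ.out.one_lt
  have hch : CharP (AlgebraicClosure (ZMod ℓ)) ℓ :=
    charP_of_injective_algebraMap (algebraMap (ZMod ℓ) (AlgebraicClosure (ZMod ℓ))).injective ℓ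
  have hζ0 : ζ ≠ 0 := hζ.ne_zero hm.ne'
  have hex : ExpChar (AlgebraicClosure (ZMod ℓ)) ℓ := ExpChar.prime hℓ.out
  have h1 : ζ ^ ℓ + (ζ ^ ℓ)⁻¹ = ζ + ζ⁻¹ := by
    rw [← inv_pow, ← add_pow_expChar, ← h, ← map_pow, ZMod.pow_card]
  have hx0 : ζ ^ ℓ ≠ 0 := pow_ne_zero _ hζ0
  have h2 : (ζ ^ ℓ - ζ) * (ζ ^ ℓ * ζ - 1) = 0 := by
    field_simp at h1
    linear_combination h1
  rw [Finset.mem_union, Nat.mem_divisors, Nat.mem_divisors]
  rcases mul_eq_zero.1 h2 with h3 | h3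
  · left
    refine ⟨hζ.dvd_of_pow_eq_one _ ?_, by omega⟩
    have h4 : ζ ^ (ℓ - 1) * ζ = 1 * ζ := by
      rw [← pow_succ, Nat.sub_add_cancel hℓ1.le, one_mul]
      exact sub_eq_zero.1 h3
    exact mul_right_cancel₀ hζ0 h4
  · right
    refine ⟨hζ.dvd_of_pow_eq_one _ ?_, by omega⟩
    rw [pow_succ]
    exact sub_eq_zero.1 h3

/-- There is a large set which avoids the traces. -/
theorem exists_avoids (ℓ : ℕ) [hℓ : Fact ℓ.Prime] : ∃ A : Finset (ZMod ℓ), Avoids ℓ A ∧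
    ℓ ≤ A.card + ((ℓ - 1).divisors ∪ (ℓ + 1).divisors).card := by
  classical
  have hz : ∀ m : ℕ, ∃ ζ : AlgebraicClosure (ZMod ℓ), 0 < m → ¬ ℓ ∣ m → IsPrimitiveRoot ζ m := by
    intro m
    by_cases h : 0 < m ∧ ¬ ℓ ∣ m
    · obtain ⟨ζ, hζ⟩ := exists_primitive (ℓ := ℓ) h.1 h.2
      exact ⟨ζ, fun _ _ => hζ⟩
    · exact ⟨0, fun h1 h2 => absurd ⟨h1, h2⟩ h⟩
  choose z hz using hz
  set D := (ℓ - 1).divisors ∪ (ℓ + 1).divisors with hD
  set Bad : Finset (ZMod ℓ) := Finset.univ.filter (fun c => ∃ m ∈ D,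
    algebraMap (ZMod ℓ) (AlgebraicClosure (ZMod ℓ)) c = z m + (z m)⁻¹) with hBad
  have hcard : Bad.card ≤ D.card := by
    have hb : ∀ c : ZMod ℓ, ∃ m : ℕ, c ∈ Bad → m ∈ D ∧
        algebraMap (ZMod ℓ) (AlgebraicClosure (ZMod ℓ)) c = z m + (z m)⁻¹ := by
      intro c
      by_cases h : c ∈ Bad
      · obtain ⟨m, h1, h2⟩ := (Finset.mem_filter.1 h).2
        exact ⟨m, fun _ => ⟨h1, h2⟩⟩
      · exact ⟨0, fun h1 => absurd h1 h⟩
    choose f hf using hb
    refine Finset.card_le_card_of_injOn f (fun c hc => (hf c hc).1) ?_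
    intro c hc d hd h
    apply (algebraMap (ZMod ℓ) (AlgebraicClosure (ZMod ℓ))).injective
    rw [(hf c hc).2, (hf d hd).2, h]
  refine ⟨Finset.univ \ Bad, ?_, ?_⟩
  · intro m hm hml
    refine ⟨z m, hz m hm hml, ?_⟩
    intro c hc h
    have h1 := mem_of_trace hm (hz m hm hml) h
    apply (Finset.mem_sdiff.1 hc).2
    rw [hBad, Finset.mem_filter]
    exact ⟨Finset.mem_univ _, m, h1, h⟩
  · have h1 := Finset.card_sdiff_add_card_eq_card (Finset.subset_univ Bad)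
    rw [Finset.card_univ, ZMod.card] at h1
    omega

theorem noCyc_avoid {Q : ℕ} (hQ : (Q : ZMod ℓ) = 1) {A : Finset (ZMod ℓ)} (hA : Avoids ℓ A)
    {ι : Type} (s : Finset ι) (c : ι → ZMod ℓ) (hc : ∀ i ∈ s, c i ∈ A) :
    NoCyc ℓ Q (∏ i ∈ s, (1 - C (c i) * X + C (Q : ZMod ℓ) * X ^ 2)) := by
  intro m hm hml hd
  obtain ⟨ζ, hζ, hne⟩ := hA m hm hml
  have hζ0 : ζ ≠ 0 := hζ.ne_zero hm.ne'
  have h1 : aeval ζ (cyc (ZMod ℓ) m Q) = 0 := by
    have h2 : aeval ζ (cyc (ZMod ℓ) m Q) = eval ζ (cyc (AlgebraicClosure (ZMod ℓ)) m Q) := by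
      rw [← cyc_map (algebraMap (ZMod ℓ) (AlgebraicClosure (ZMod ℓ))), eval_map_algebraMap]
    rw [h2]
    unfold cyc
    have h3 : (Q : AlgebraicClosure (ZMod ℓ)) = 1 := by
      rw [← map_natCast (algebraMap (ZMod ℓ) (AlgebraicClosure (ZMod ℓ))), hQ, map_one]
    rw [eval_comp, eval_mul, eval_C, eval_X, h3, one_mul]
    exact hζ.isRoot_cyclotomic hm
  obtain ⟨D, hD⟩ := hd
  have h2 : aeval ζ (∏ i ∈ s, (1 - C (c i) * X + C (Q : ZMod ℓ) * X ^ 2)) = 0 := by
    rw [hD, map_mul, h1, zero_mul]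
  rw [map_prod] at h2
  obtain ⟨i, hi, h3⟩ := Finset.prod_eq_zero_iff.1 h2
  rw [hQ, C_1, one_mul, map_add, map_sub, map_one, map_mul, map_pow, aeval_C, aeval_X] at h3
  apply hne (c i) (hc i hi)
  field_simp
  linear_combination -h3

end avoid

section tame

variable {k K : Type} [Field k] [Finite k] [Field K] [Algebra k K] [FF.IsFF k K]

theorem avoid_places {ℓ : ℕ} [hℓ : Fact ℓ.Prime] (hlk : (ℓ : k) ≠ 0) {a b : K}
    (B : Finset (Place k K)) {d : ℕ} (hd : (ℓ : ℤ) ∣ (Nat.card k : ℤ) ^ d - 1)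
    {A : Finset (ZMod ℓ)} (hA : Avoids ℓ A)
    (hB : ∀ v ∈ B, (v.ord (minDisc v a b) ≠ 0 ∧ S.trace v a b = 0) ∨
      (v.ord (minDisc v a b) = 0 ∧ S.deg v = d ∧ ((S.trace v a b : ℤ) : ZMod ℓ) ∈ A)) :
    NoCyc ℓ (Nat.card k) ((∏ v ∈ B, S.locFactor v a b).map (Int.castRingHom (ZMod ℓ))) := by
  classical
  have hQ := card_ne_zero_mod (k := k) hlk
  have hQd : ((Nat.card k ^ d : ℕ) : ZMod ℓ) = 1 := by
    have h1 := (ZMod.intCast_zmod_eq_zero_iff_dvd _ ℓ).2 hd
    push_cast at h1 ⊢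
    exact sub_eq_zero.1 h1
  set B' := B.filter (fun v => v.ord (minDisc v a b) = 0) with hB'
  have hmem : ∀ v ∈ B', v ∈ B ∧ v.ord (minDisc v a b) = 0 := fun v hv => by
    rw [hB', Finset.mem_filter] at hv
    exact hv
  have key : (∏ v ∈ B, S.locFactor v a b).map (Int.castRingHom (ZMod ℓ)) =
      expand (ZMod ℓ) d (∏ v ∈ B', (1 - C ((S.trace v a b : ℤ) : ZMod ℓ) * X +
        C ((Nat.card k ^ d : ℕ) : ZMod ℓ) * X ^ 2)) := by
    rw [Polynomial.map_prod, map_prod, hB', Finset.prod_filter]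
    refine Finset.prod_congr rfl fun v hv => ?_
    rcases hB v hv with ⟨h4, h5⟩ | ⟨h4, h5, h6⟩
    · rw [if_neg h4]
      unfold S.locFactor
      rw [if_neg h4, h5]
      simp
    · rw [if_pos h4]
      have hres : Nat.card (S.Res v) = Nat.card k ^ S.deg v := by
        rw [S.deg_eq]
        exact Module.natCard_eq_pow_finrank (K := k) (V := v.RF)
      unfold S.locFactor
      rw [if_pos h4, hres, h5]
      simp only [Polynomial.map_add, Polynomial.map_sub, Polynomial.map_one, Polynomial.map_mul,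
        Polynomial.map_C, Polynomial.map_pow, Polynomial.map_X, map_add, map_sub, map_one, map_mul,
        expand_C, map_pow, expand_X]
      simp only [eq_intCast]
      rw [← pow_mul, mul_comm d 2]
      push_cast
      rfl
  rw [key]
  apply noCyc_expand hQ
  apply noCyc_avoid hQd hA
  intro v hv
  obtain ⟨h1, h2⟩ := hmem v hv
  rcases hB v h1 with ⟨h4, -⟩ | ⟨-, -, h6⟩
  · exact absurd h2 h4
  · exact h6

end tame

section example_

variable {k : Type} [Field k] [Finite k]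

theorem place_tau {τ : k} {v : Place k (RatFunc k)} (hv : v.ord (A (X - C τ)) ≠ 0) :
    v = pt τ ∨ v = infty k := by
  by_cases h : v = infty k
  · exact Or.inr h
  · left
    have h1 : 0 < v.ord (A (X - C τ)) := by
      have h2 := fin_reg (fin_of_ne h) (X - C τ)
      have h3 := (v.reg_iff (A_ne (X_sub_C_ne_zero τ))).1 h2
      omega
    exact fin_unique (fin_of_ne h) (pt_fin τ) (irreducible_X_sub_C τ) h1 (pt_ord τ)

theorem tame_inf (h6 : (6 : k) ≠ 0) (α β : k) :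
    (infty k).ord (minDisc (infty k) (A (C α)) (A (C β + X))) ≠ 0 ∧
      S.trace (infty k) (A (C α)) (A (C β + X)) = 0 := by
  have hΔ : 4 * (A (C α) : RatFunc k) ^ 3 + 27 * A (C β + X) ^ 2 ≠ 0 := by
    rw [A_disc]
    exact A_ne (disc_ex h6 α β)
  have hab' := ab_of_disc hΔ
  have hn := nc_ex α β
  have d4 : (C α : k[X]).natDegree ≤ 4 := by rw [natDegree_C]; omega
  have d6 : (C β + X : k[X]).natDegree ≤ 6 := by
    rw [add_comm, natDegree_X_add_C]; omega
  have hmin := min_inf d4 d6 hn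
  have c4 : (C α : k[X]).coeff 4 = 0 := by simp [coeff_C]
  have c6 : (C β + X : k[X]).coeff 6 = 0 := by simp [coeff_C, coeff_X]
  have hred4 := red_inf_scale d4
  have hred6 := red_inf_scale d6
  rw [c4, map_zero] at hred4
  rw [c6, map_zero] at hred6
  constructor
  · rw [ord_minDisc_of_min _ hΔ hmin]
    have h1 : (infty k).ord ((RatFunc.X : RatFunc k)⁻¹) = 1 := by
      rw [(infty k).ord_inv, inf_X infty_X]
      norm_num
    rw [h1, A_disc, Pool.Agent.Y701.QF.ord_inf_A (disc_ex h6 α β)]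
    have h2 : (4 * (C α : k[X]) ^ 3 + 27 * (C β + X) ^ 2).natDegree ≤ 2 := by
      compute_degree
    omega
  · rw [S.trace_eq, trace_of_min _ hab' hmin, hred4, hred6, card_sol_cusp, sub_self]

theorem tame_tau (h6 : (6 : k) ≠ 0) {α β τ : k} (hab : 4 * α ^ 3 + 27 * (β + τ) ^ 2 ≠ 0)
    {v : Place k (RatFunc k)} (hv : v.ord (A (X - C τ)) ≠ 0) :
    (v.ord (minDisc v (A (C α)) (A (C β + X))) ≠ 0 ∧ S.trace v (A (C α)) (A (C β + X)) = 0) ∨
      (v.ord (minDisc v (A (C α)) (A (C β + X))) = 0 ∧ S.deg v = 1 ∧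
        S.trace v (A (C α)) (A (C β + X)) = (Nat.card k : ℤ) -
          Nat.card {P : k × k // P.2 ^ 2 = P.1 ^ 3 + α * P.1 + (β + τ)}) := by
  classical
  have hΔ : 4 * (A (C α) : RatFunc k) ^ 3 + 27 * A (C β + X) ^ 2 ≠ 0 := by
    rw [A_disc]
    exact A_ne (disc_ex h6 α β)
  have hab' := ab_of_disc hΔ
  have hn := nc_ex α β
  have d4 : (C α : k[X]).natDegree ≤ 4 := by rw [natDegree_C]; omega
  have d6 : (C β + X : k[X]).natDegree ≤ 6 := by
    rw [add_comm, natDegree_X_add_C]; omega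
  rcases place_tau hv with rfl | rfl
  · right
    have hmin := min_pt d4 d6 hn τ
    have er : (pt τ).red (4 * A (C α) ^ 3 + 27 * A (C β + X) ^ 2) =
        algebraMap k (pt τ).RF (4 * α ^ 3 + 27 * (β + τ) ^ 2) := by
      rw [A_disc, red_pt]
      congr 1
      simp
    refine ⟨?_, by rw [S.deg_eq, pt_deg], ?_⟩
    · rw [ord_minDisc_of_min _ hΔ hmin]
      have h1 : (pt τ).ord (1 : RatFunc k) = 0 := (pt τ).ord_one
      rw [h1, mul_zero, zero_add]
      by_contra hcon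
      have hreg : (pt τ).Reg (4 * A (C α) ^ 3 + 27 * A (C β + X) ^ 2) := by
        rw [A_disc]
        exact fin_reg (pt_fin τ) _
      have h2 : 0 < (pt τ).ord (4 * A (C α) ^ 3 + 27 * A (C β + X) ^ 2) := by
        have := ((pt τ).reg_iff hΔ).1 hreg
        omega
      have h3 := ((pt τ).red_eq_zero_iff hreg).2 (Or.inr h2)
      rw [er] at h3
      exact hab ((map_eq_zero_iff _ (algebraMap k (pt τ).RF).injective).1 h3)
    · rw [S.trace_eq, trace_of_min _ hab' hmin, one_pow, one_mul, one_pow, one_mul, red_pt, red_pt]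
      have e1 : (C α : k[X]).eval τ = α := by simp
      have e2 : (C β + X : k[X]).eval τ = β + τ := by simp
      rw [e1, e2, card_sol_bij _ (bij_of_deg (pt_deg τ))]
      have e3 : Nat.card (pt τ).RF = Nat.card k :=
        (Nat.card_congr (Equiv.ofBijective _ (bij_of_deg (pt_deg τ)))).symm
      rw [e3]
  · left
    have hmin := min_inf d4 d6 hn
    have c4 : (C α : k[X]).coeff 4 = 0 := by simp [coeff_C]
    have c6 : (C β + X : k[X]).coeff 6 = 0 := by simp [coeff_C, coeff_X]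
    have hred4 := red_inf_scale d4
    have hred6 := red_inf_scale d6
    rw [c4, map_zero] at hred4
    rw [c6, map_zero] at hred6
    constructor
    · rw [ord_minDisc_of_min _ hΔ hmin]
      have h1 : (infty k).ord ((RatFunc.X : RatFunc k)⁻¹) = 1 := by
        rw [(infty k).ord_inv, inf_X infty_X]
        norm_num
      rw [h1, A_disc, Pool.Agent.Y701.QF.ord_inf_A (disc_ex h6 α β)]
      have h2 : (4 * (C α : k[X]) ^ 3 + 27 * (C β + X) ^ 2).natDegree ≤ 2 := by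
        compute_degree
      omega
    · rw [S.trace_eq, trace_of_min _ hab' hmin, hred4, hred6, card_sol_cusp, sub_self]

end example_

end Pool.Agent.H313.GE
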