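import Pool.Agent.H313.GE.Kum2

/-!
Semisimplicity of one eigenvalue from the order of the zero of the reduction.
-/

set_option autoImplicit false
set_option linter.all false
set_option maxHeartbeats 4000000

open Module NumberField Polynomial

namespace Pool.Agent.H313.GE

open Pool.Agent.TH639.SC (exists_red charP_of_mem)
open Pool.Agent.H313.CC (tn tn_map tn_mul tn_coeff_zero)

section one

variable {E V : Type} [Field E] [AddCommGroup V] [Module E V]

theorem block_at [FiniteDimensional E V] (f : Module.End E V) (e : ℕ) (α : E)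
    (h : (LinearMap.charpoly f).rootMultiplicity α ≤ e) (x : V)
    (hx : ((f - algebraMap E (Module.End E V) α) ^ (e + 1)) x = 0) :
    ((f - algebraMap E (Module.End E V) α) ^ e) x = 0 := by
  have hp : LinearMap.charpoly f ≠ 0 := (LinearMap.charpoly_monic f).ne_zero
  obtain ⟨g, hg, hng⟩ := exists_eq_pow_rootMultiplicity_mul_and_not_dvd _ hp α
  set c := (LinearMap.charpoly f).rootMultiplicity α with hc
  have hco : IsCoprime ((X - C α) ^ (e + 1)) g :=
    IsCoprime.pow_left ((irreducible_X_sub_C α).coprime_iff_not_dvd.2 hng)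
  obtain ⟨u, v, huv⟩ := hco
  have hN : ∀ n : ℕ, (f - algebraMap E (Module.End E V) α) ^ n = aeval f ((X - C α) ^ n) := by
    intro n
    rw [map_pow, map_sub, aeval_X, aeval_C]
  have hxg : x = aeval f (v * g) x := by
    have h1 := congrArg (fun p => aeval f p x) huv
    simp only [map_add, map_one] at h1
    rw [LinearMap.add_apply, map_mul (aeval f) u, Module.End.mul_apply, ← hN, hx, map_zero,
      zero_add, Module.End.one_apply] at h1
    exact h1.symm
  have h2 : ((f - algebraMap E (Module.End E V) α) ^ c) x = 0 := by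
    have h3 : (X - C α) ^ c * (v * g) = v * LinearMap.charpoly f := by
      conv_rhs => rw [hg]
      ring
    rw [hN, hxg, ← Module.End.mul_apply, ← map_mul, h3, map_mul, LinearMap.aeval_self_charpoly,
      mul_zero, LinearMap.zero_apply]
  have h4 : e = (e - c) + c := by omega
  rw [h4, pow_add, Module.End.mul_apply, h2, map_zero]

theorem ss_multiset (f : Module.End E V) (s : Multiset E)
    (h : ∀ α ∈ s, ∀ x : V, ((f - algebraMap E (Module.End E V) α) ^ 2) x = 0 →
      (f - algebraMap E (Module.End E V) α) x = 0) :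
    ∀ x : V, ((aeval f (s.map fun α => X - C α).prod) ^ 2) x = 0 →
      (aeval f (s.map fun α => X - C α).prod) x = 0 := by
  induction s using Multiset.induction_on with
  | empty =>
    intro x hx
    rw [Multiset.map_zero, Multiset.prod_zero, map_one] at hx ⊢
    rw [one_pow] at hx
    exact hx
  | cons α s ih =>
    intro x hx
    rw [Multiset.map_cons, Multiset.prod_cons] at hx ⊢
    set P := (s.map fun α => X - C α).prod with hP
    have hc : aeval f (X - C α) = f - algebraMap E (Module.End E V) α := by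
      rw [map_sub, aeval_X, aeval_C]
    have h1 : ((f - algebraMap E (Module.End E V) α) ^ 2) ((aeval f P ^ 2) x) = 0 := by
      rw [← hc, ← Module.End.mul_apply, ← map_pow, ← map_pow, ← map_mul, ← mul_pow, map_pow]
      exact hx
    have h2 := h α (Multiset.mem_cons_self _ _) _ h1
    have h3 : (aeval f P ^ 2) (aeval f (X - C α) x) = 0 := by
      rw [← hc] at h2
      rw [← Module.End.mul_apply, ← map_pow, ← map_mul, mul_comm, map_mul, Module.End.mul_apply,
        map_pow]
      exact h2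
    have h4 := ih (fun β hβ => h β (Multiset.mem_cons_of_mem hβ)) _ h3
    rw [mul_comm, map_mul, Module.End.mul_apply]
    exact h4

/-- the powers of an endomorphism -/
theorem ss_pow [IsAlgClosed E] (f : Module.End E V) {r : ℕ} (hr : 0 < r) (Q : E)
    (h : ∀ α : E, α ^ r = Q → ∀ x : V, ((f - algebraMap E (Module.End E V) α) ^ 2) x = 0 →
      (f - algebraMap E (Module.End E V) α) x = 0) (x : V)
    (hx : ((f ^ r - algebraMap E (Module.End E V) Q) ^ 2) x = 0) :
    (f ^ r - algebraMap E (Module.End E V) Q) x = 0 := by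
  have hm : (X ^ r - C Q : E[X]).Monic := monic_X_pow_sub_C Q hr.ne'
  have h1 : (X ^ r - C Q : E[X]) = ((X ^ r - C Q : E[X]).roots.map fun α => X - C α).prod :=
    (IsAlgClosed.splits _).eq_prod_roots_of_monic hm
  have h2 : aeval f (X ^ r - C Q : E[X]) = f ^ r - algebraMap E (Module.End E V) Q := by
    rw [map_sub, map_pow, aeval_X, aeval_C]
  have h3 := ss_multiset f (X ^ r - C Q : E[X]).roots (fun α hα => h α (by
    have h4 := (mem_roots'.1 hα).2
    rw [IsRoot, eval_sub, eval_pow, eval_X, eval_C, sub_eq_zero] at h4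
    exact h4)) x
  rw [← h1, h2] at h3
  exact h3 hx

/-- The eigenvalue `Q` of `f` is semisimple -/
def SSAt (f : Module.End E V) (Q : E) : Prop :=
  ∀ x : V, ((f - algebraMap E (Module.End E V) Q) ^ 2) x = 0 →
    (f - algebraMap E (Module.End E V) Q) x = 0

theorem ssAt_pi {J : Type} {U : J → Type} [∀ j, AddCommGroup (U j)] [∀ j, Module E (U j)]
    (f : ∀ j, Module.End E (U j)) (F : Module.End E (∀ j, U j)) (hF : ∀ x j, F x j = f j (x j))
    (Q : E) (r : ℕ) (h : ∀ j, SSAt (f j ^ r) Q) : SSAt (F ^ r) Q := by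
  have hFr : ∀ (r : ℕ) x j, (F ^ r) x j = (f j ^ r) (x j) := by
    intro r
    induction r with
    | zero => intro x j; rfl
    | succ r ih =>
      intro x j
      rw [pow_succ, pow_succ, Module.End.mul_apply, Module.End.mul_apply, ih, hF]
  intro x hx
  have key : ∀ (y : ∀ j, U j) (j : J), (F ^ r - algebraMap E (Module.End E (∀ j, U j)) Q) y j =
      (f j ^ r - algebraMap E (Module.End E (U j)) Q) (y j) := by
    intro y j
    rw [LinearMap.sub_apply, LinearMap.sub_apply, Pi.sub_apply, hFr]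
    rfl
  funext j
  rw [key]
  apply h j
  rw [pow_two, Module.End.mul_apply, ← key, ← key, ← Module.End.mul_apply, ← pow_two, hx]
  rfl

end one

section count

/-- a double zero of a polynomial over a perfect field is a double zero of the irreducible factor -/
theorem sq_dvd {k R : Type} [Field k] [PerfectField k] [Field R] [Algebra k R] {W : k[X]} {y : R}
    (hy : IsIntegral k y) (h : (X - C y) ^ 2 ∣ W.map (algebraMap k R)) : minpoly k y ^ 2 ∣ W := by
  have hirr := minpoly.irreducible hy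
  have hsep : ((minpoly k y).map (algebraMap k R)).Separable :=
    (PerfectField.separable_of_irreducible hirr).map
  have h1 : minpoly k y ∣ W := by
    apply minpoly.dvd
    rw [← eval_map_algebraMap]
    exact dvd_iff_isRoot.1 ((dvd_pow_self _ two_ne_zero).trans h)
  obtain ⟨g, rfl⟩ := h1
  rw [pow_two]
  apply mul_dvd_mul_left
  apply minpoly.dvd
  rw [← eval_map_algebraMap]
  by_contra hne
  have h2 : ¬ (X - C y) ∣ g.map (algebraMap k R) := fun h3 => hne (dvd_iff_isRoot.1 h3)
  have hco : IsCoprime ((X - C y) ^ 2) (g.map (algebraMap k R)) :=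
    IsCoprime.pow_left ((irreducible_X_sub_C y).coprime_iff_not_dvd.2 h2)
  rw [Polynomial.map_mul] at h
  have h3 := hco.dvd_of_dvd_mul_right h
  have h4 := rootMultiplicity_le_one_of_separable hsep y
  have h5 := (le_rootMultiplicity_iff hsep.ne_zero).2 h3
  omega

/-- **The multiplicity of one eigenvalue.** -/
theorem count_one {K : Type} [Field K] [NumberField K] {E : Type} [Field E] [CharZero E]
    (φ : 𝓞 K →+* E) {ℓ : ℕ} [hℓ : Fact ℓ.Prime] {D : (𝓞 K)[X]} (hD0 : D.coeff 0 = 1)
    {B : Multiset E} (hDB : D.map φ = (B.map fun x => 1 - C x * X).prod) {r : ℕ} (hr : 0 < r)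
    {Q : ℕ} (hQ : (Q : ZMod ℓ) = 1) {W : (ZMod ℓ)[X]}
    (hW : ∀ π : (ZMod ℓ)[X], Irreducible π → π ∣ X ^ r - 1 → ¬ π ^ 2 ∣ W)
    (hmod : ∀ (R : Type) [Field R] [CharP R ℓ] (ρ : 𝓞 K →+* R),
      D.map ρ = W.map (ZMod.castHom (dvd_refl ℓ) R)) [DecidableEq E] (α : E) (hα : α ^ r = Q) :
    B.count α ≤ 1 := by
  classical
  by_contra hcon
  have hcount2 : 2 ≤ B.count α := by omega
  have hα : α ∈ B := Multiset.count_pos.1 (by omega)
  -- the eigenvalues are integral
  have hint : ∀ x ∈ B, IsIntegral ℤ x := by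
    intro x hx
    by_cases hx0 : x = 0
    · rw [hx0]
      exact isIntegral_zero
    have hinv : Invertible x⁻¹ := invertibleOfNonzero (inv_ne_zero hx0)
    have h1 : eval₂ φ x⁻¹ D = 0 := by
      rw [← eval_map, hDB, eval_multiset_prod, Multiset.map_map]
      apply Multiset.prod_eq_zero
      rw [Multiset.mem_map]
      refine ⟨x, hx, ?_⟩
      simp only [Function.comp_apply, eval_sub, eval_one, eval_mul, eval_C, eval_X]
      rw [mul_inv_cancel₀ hx0, sub_self]
    have h2 := (eval₂_reverse_eq_zero_iff φ x⁻¹ D).2 h1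
    rw [invOf_eq_inv, inv_inv] at h2
    letI : Algebra (𝓞 K) E := φ.toAlgebra
    have hmon : D.reverse.Monic := by
      rw [Monic, reverse_leadingCoeff, trailingCoeff,
        natTrailingDegree_eq_zero.2 (Or.inr (by rw [hD0]; exact one_ne_zero)), hD0]
    have h3 : IsIntegral (𝓞 K) x := ⟨D.reverse, hmon, h2⟩
    exact isIntegral_trans x h3
  set O := integralClosure ℤ E with hO
  have hO0 : CharZero O := inferInstance
  obtain ⟨M, hM, hm⟩ := exists_red O hℓ.out
  letI : Field (O ⧸ M) := Ideal.Quotient.field M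
  have h0 : ((ℓ : ℕ) : O ⧸ M) = 0 := by
    have := Ideal.Quotient.eq_zero_iff_mem.2 hm
    rwa [map_natCast] at this
  have hc := charP_of_mem (R := O ⧸ M) hℓ.out h0
  -- the map to the integral closure
  have hφ : ∀ y : 𝓞 K, φ y ∈ O := by
    intro y
    show IsIntegral ℤ (φ y)
    exact (Algebra.IsIntegral.isIntegral (R := ℤ) y).map (φ.toIntAlgHom)
  set φO : 𝓞 K →+* O := φ.codRestrict O.toSubring hφ with hφO
  set ι : O →+* E := algebraMap O E with hι
  have hιi : Function.Injective ι := Subtype.val_injective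
  have hιφ : ι.comp φO = φ := RingHom.ext fun y => rfl
  obtain ⟨B', hBB⟩ := exists_lift ι B fun x hx => ⟨⟨x, hint x hx⟩, rfl⟩
  have hDO : D.map φO = (B'.map fun x => 1 - C x * X).prod := by
    apply Polynomial.map_injective ι hιi
    rw [Polynomial.map_map, hιφ, hDB, Polynomial.map_multiset_prod, Multiset.map_map]
    conv_lhs => rw [← hBB]
    rw [Multiset.map_map]
    congr 1
    refine Multiset.map_congr rfl fun x _ => ?_
    simp only [Function.comp_apply, Polynomial.map_sub, Polynomial.map_one, Polynomial.map_mul,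
      Polynomial.map_C, Polynomial.map_X]
  set ρ₀ : O →+* O ⧸ M := Ideal.Quotient.mk M with hρ₀
  have hHB : W.map (ZMod.castHom (dvd_refl ℓ) (O ⧸ M)) =
      ((B'.map ρ₀).map fun x => 1 - C x * X).prod := by
    rw [← hmod (O ⧸ M) (ρ₀.comp φO), ← Polynomial.map_map, hDO, Polynomial.map_multiset_prod,
      Multiset.map_map, Multiset.map_map]
    congr 1
    refine Multiset.map_congr rfl fun x _ => ?_
    simp only [Function.comp_apply, Polynomial.map_sub, Polynomial.map_one, Polynomial.map_mul,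
      Polynomial.map_C, Polynomial.map_X]
  obtain ⟨x, hx, hxα⟩ : ∃ x ∈ B', ι x = α := by
    have h1 := hα
    rw [← hBB, Multiset.mem_map] at h1
    exact h1
  have hcount : B.count α = B'.count x := by
    rw [← hBB, ← hxα, Multiset.count_map_eq_count' _ _ hιi]
  rw [hcount] at hcount2
  have hxr : x ^ r = Q := by
    apply hιi
    rw [map_pow, hxα, map_natCast]
    assumption
  have hyr : (ρ₀ x) ^ r = 1 := by
    rw [← map_pow, hxr, map_natCast]
    have h1 := congrArg (ZMod.castHom (dvd_refl ℓ) (O ⧸ M)) hQ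
    rw [map_natCast, map_one] at h1
    exact h1
  have hy0 : ρ₀ x ≠ 0 := by
    intro h1
    rw [h1, zero_pow hr.ne'] at hyr
    exact zero_ne_one hyr
  set y := (ρ₀ x)⁻¹ with hy
  have hyr' : y ^ r = 1 := by rw [hy, inv_pow, hyr, inv_one]
  letI : Algebra (ZMod ℓ) (O ⧸ M) := (ZMod.castHom (dvd_refl ℓ) (O ⧸ M)).toAlgebra
  have hyint : IsIntegral (ZMod ℓ) y := by
    refine ⟨X ^ r - 1, monic_X_pow_sub_C 1 hr.ne', ?_⟩
    rw [eval₂_sub, eval₂_pow, eval₂_X, eval₂_one, hyr', sub_self]
  have hdvd : (X - C y) ^ 2 ∣ W.map (algebraMap (ZMod ℓ) (O ⧸ M)) := by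
    show (X - C y) ^ 2 ∣ W.map (ZMod.castHom (dvd_refl ℓ) (O ⧸ M))
    rw [hHB]
    have h5 : Multiset.replicate 2 x ≤ B' := Multiset.le_count_iff_replicate_le.1 hcount2
    obtain ⟨B'', hB''⟩ := Multiset.le_iff_exists_add.1 h5
    rw [hB'', Multiset.map_add, Multiset.map_add, Multiset.prod_add, Multiset.map_replicate,
      Multiset.map_replicate, Multiset.prod_replicate]
    refine Dvd.dvd.mul_right (pow_dvd_pow_of_dvd ?_ 2) _
    refine ⟨C (-(ρ₀ x)), ?_⟩
    rw [sub_mul, ← C_mul, hy, mul_neg, inv_mul_cancel₀ hy0, C_neg, C_neg, C_1]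
    ring
  have hπ := sq_dvd hyint hdvd
  refine hW _ (minpoly.irreducible hyint) (minpoly.dvd _ _ ?_) hπ
  rw [map_sub, map_pow, aeval_X, map_one, hyr', sub_self]

end count

end Pool.Agent.H313.GE

namespace Pool.Agent.H313.GE.Pts

open Pool.Agent.H313.GE Pool.Agent.H313.CC
open Pool.Agent.TH639.SN (SpacePt normValue chart eulerProduct finite_le deg_pos)

section defs

/-- `f = L₁ / L₂` if `n` is even, and `f = L₂ / L₁` if `n` is odd. -/
structure IsSignedQuotient (n : ℕ) (f : PowerSeries ℤ) (L₁ L₂ : ℤ[X]) : Prop where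
  constant : L₂.coeff 0 = 1
  even : Even n → f * (L₂ : PowerSeries ℤ) = L₁
  odd : Odd n → f * (L₁ : PowerSeries ℤ) = L₂

end defs

section thm

variable {k : Type} [Field k] [Finite k]

theorem kummer_quot {ℓ : ℕ} [hℓ : Fact ℓ.Prime] {K : Type} [Field K] [NumberField K] {M s m : ℕ}
    (G : Fin s → MvPolynomial (Fin (M + 1)) k) (F : Fin m → MvPolynomial (Fin (M + 1)) k)
    (ψ : Fin m → MulChar k (𝓞 K)) (I : Finset (Fin m)) (a : Fin m → ℕ)
    (hψ : ∀ i ∈ I, ψ i ^ ℓ ^ a i = 1) {n : ℕ} {D : (𝓞 K)[X]}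
    (hD : IsSigned n (kummerProduct G F ψ I) D) {B : Multiset (𝓞 K)} {L₁ L₂ W₁ W₂ : ℤ[X]}
    (hL : IsSignedQuotient n (openZetaInv G F I) L₁ L₂) (hW₁ : IsTensor B L₁ W₁)
    (hW₂ : IsTensor B L₂ W₂) {W : (ZMod ℓ)[X]}
    (hW : W₁.map (Int.castRingHom (ZMod ℓ)) = W₂.map (Int.castRingHom (ZMod ℓ)) * W) :
    (tn B D).coeff 0 = 1 ∧ ∀ (R : Type) [Field R] [CharP R ℓ] (ρ : 𝓞 K →+* R),
      (tn B D).map ρ = W.map (ZMod.castHom (dvd_refl ℓ) R) := by
  classical
  have hfin := finite_points G
  have hpos := degree_pos G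
  have hunit : PowerSeries.constantCoeff (kummerProduct G F ψ I) = 1 :=
    Pool.Agent.H313.CC.one_of_pos hfin hpos _
  have hD0 : D.coeff 0 = 1 := by
    rcases Nat.even_or_odd n with hn | hn
    · rw [hD.1 hn, ← PowerSeries.coeff_zero_eq_constantCoeff_apply, Polynomial.coeff_coe] at hunit
      exact hunit
    · have h1 := congrArg PowerSeries.constantCoeff (hD.2 hn)
      rw [map_mul, hunit, one_mul, map_one, ← PowerSeries.coeff_zero_eq_constantCoeff_apply,
        Polynomial.coeff_coe] at h1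
      exact h1
  refine ⟨tn_coeff_zero B hD0, ?_⟩
  intro R _ _ ρ
  have hval : ∀ z : Pt G, (∀ i ∈ I, z.value (F i) ≠ 0) →
      ρ (∏ i ∈ I, ψ i (z.value (F i))) = 1 := by
    intro z hz
    rw [map_prod]
    refine Finset.prod_eq_one fun i hi => ?_
    apply Pool.Agent.TH639.SG.eq_one_of_pow (ℓ := ℓ) (m := a i)
    rw [← map_pow, ← MulChar.pow_apply' (ψ i) (pow_ne_zero _ hℓ.out.ne_zero), hψ i hi,
      MulChar.one_apply (isUnit_iff_ne_zero.2 (hz i hi)), map_one]
  have hval0 : ∀ z : Pt G, (¬ ∀ i ∈ I, z.value (F i) ≠ 0) →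
      ρ (∏ i ∈ I, ψ i (z.value (F i))) = 0 := by
    intro z hz
    push Not at hz
    obtain ⟨i, hi, h0⟩ := hz
    rw [Finset.prod_eq_zero hi (by rw [h0, MulChar.map_zero]), map_zero]
  have h1 : PowerSeries.map ρ (kummerProduct G F ψ I) =
      PowerSeries.map (Int.castRingHom R) (openZetaInv G F I) :=
    red_mE hfin ρ _ _ hval hval0
  -- the identity for the polynomials
  have h2 : D.map ρ * L₂.map (Int.castRingHom R) = L₁.map (Int.castRingHom R) := by
    apply Polynomial.coe_injective R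
    rw [Polynomial.coe_mul, Polynomial.polynomial_map_coe, Polynomial.polynomial_map_coe,
      Polynomial.polynomial_map_coe]
    rcases Nat.even_or_odd n with hn | hn
    · rw [← hD.1 hn, h1, ← map_mul, hL.even hn]
    · have h3 := congrArg (PowerSeries.map ρ) (hD.2 hn)
      rw [map_mul, map_one, h1] at h3
      rw [← hL.odd hn, map_mul]
      set f := PowerSeries.map (Int.castRingHom R) (openZetaInv G F I) with hf
      set x := PowerSeries.map ρ (D : PowerSeries (𝓞 K)) with hx
      set z := PowerSeries.map (Int.castRingHom R) (L₁ : PowerSeries ℤ) with hz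
      calc x * (f * z) = (f * x) * z := by ring
        _ = z := by rw [h3, one_mul]
  have hρZ : ∀ A : ℤ[X], (A.map (algebraMap ℤ (𝓞 K))).map ρ = A.map (Int.castRingHom R) := by
    intro A
    rw [Polynomial.map_map]
    congr 1
    exact Subsingleton.elim _ _
  have h3 : ∀ {A V : ℤ[X]}, IsTensor B A V →
      V.map (Int.castRingHom R) = tn (B.map ρ) (A.map (Int.castRingHom R)) := by
    intro A V h
    have h4 : V.map (algebraMap ℤ (𝓞 K)) = tn B (A.map (algebraMap ℤ (𝓞 K))) := h
    rw [← hρZ V, h4, tn_map, hρZ]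
  have h5 : (tn B D).map ρ * W₂.map (Int.castRingHom R) = W₁.map (Int.castRingHom R) := by
    rw [tn_map, h3 hW₂, ← tn_mul, h2, h3 hW₁]
  have h6 : W₁.map (Int.castRingHom R) =
      W₂.map (Int.castRingHom R) * W.map (ZMod.castHom (dvd_refl ℓ) R) := by
    have h7 := congrArg (Polynomial.map (ZMod.castHom (dvd_refl ℓ) R)) hW
    rw [Polynomial.map_mul, Polynomial.map_map, Polynomial.map_map] at h7
    have h8 : (ZMod.castHom (dvd_refl ℓ) R).comp (Int.castRingHom (ZMod ℓ)) = Int.castRingHom R :=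
      Subsingleton.elim _ _
    rw [h8] at h7
    exact h7
  have hZ : Function.Injective (algebraMap ℤ (𝓞 K)) := RingHom.injective_int _
  have hW20 : W₂.coeff 0 = 1 := by
    have h7 := congrArg (fun p => Polynomial.coeff p 0) hW₂
    have h8 := tn_coeff_zero B (Q := L₂.map (algebraMap ℤ (𝓞 K))) (by
      rw [Polynomial.coeff_map, hL.constant, map_one])
    have h9 : algebraMap ℤ (𝓞 K) (W₂.coeff 0) = 1 := by
      rw [← Polynomial.coeff_map]
      exact h7.trans h8
    exact hZ (by rw [h9, map_one])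
  have hne : W₂.map (Int.castRingHom R) ≠ 0 := by
    intro h7
    have h8 := congrArg (fun p => Polynomial.coeff p 0) h7
    simp only [Polynomial.coeff_map, hW20, map_one, Polynomial.coeff_zero] at h8
    exact one_ne_zero h8
  apply mul_left_cancel₀ hne
  rw [← h6, ← h5, mul_comm]

/-- **One eigenvalue on the product of a Kummer sheaf with a fixed space.** -/
theorem kummer_ss {ℓ : ℕ} [hℓ : Fact ℓ.Prime] {K : Type} [Field K] [NumberField K] {M s m : ℕ}
    (G : Fin s → MvPolynomial (Fin (M + 1)) k) (F : Fin m → MvPolynomial (Fin (M + 1)) k)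
    (ψ : Fin m → MulChar k (𝓞 K)) (I : Finset (Fin m)) (a : Fin m → ℕ)
    (hψ : ∀ i ∈ I, ψ i ^ ℓ ^ a i = 1) {n : ℕ} {D : (𝓞 K)[X]}
    (hD : IsSigned n (kummerProduct G F ψ I) D) {B : Multiset (𝓞 K)} {L₁ L₂ W₁ W₂ : ℤ[X]}
    (hL : IsSignedQuotient n (openZetaInv G F I) L₁ L₂) (hW₁ : IsTensor B L₁ W₁)
    (hW₂ : IsTensor B L₂ W₂) {W : (ZMod ℓ)[X]}
    (hW : W₁.map (Int.castRingHom (ZMod ℓ)) = W₂.map (Int.castRingHom (ZMod ℓ)) * W)
    {r : ℕ} (hr : 0 < r)
    (hWr : ∀ π : (ZMod ℓ)[X], Irreducible π → π ∣ X ^ r - 1 → ¬ π ^ 2 ∣ W)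
    {E V : Type} [Field E] [CharZero E] [IsAlgClosed E] [AddCommGroup V] [Module E V]
    [FiniteDimensional E V] (φ : 𝓞 K →+* E) (Φ : Module.End E V) (hΦ : IsDet φ Φ (tn B D))
    {Q : ℕ} (hQ : (Q : ZMod ℓ) = 1) : SSAt (Φ ^ r) (Q : E) := by
  classical
  obtain ⟨h0, hmod⟩ := kummer_quot G F ψ I a hψ hD hL hW₁ hW₂ hW
  refine ss_pow Φ hr (Q : E) fun α hα x hx => ?_
  have h1 : (LinearMap.charpoly Φ).rootMultiplicity α ≤ 1 := by
    rw [← count_roots]
    exact count_one φ h0 hΦ hr hQ hWr hmod α hα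
  have h2 := block_at Φ 1 α h1 x hx
  rwa [pow_one] at h2

end thm

end Pool.Agent.H313.GE.Pts
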