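import Pool.Agent.H313.GE.Rel

/-!
The multiplicities of the eigenvalues which are roots of unity times powers of `q`.
-/

set_option autoImplicit false
set_option linter.all false
set_option maxHeartbeats 4000000

open Module NumberField Polynomial

namespace Pool.Agent.H313.GE

open Pool.Agent.TH639.SC (exists_red charP_of_mem)

section mult

/-- all the primitive roots are zeros of high order -/
theorem cyc_pow_dvd {ℓ : ℕ} [hℓ : Fact ℓ.Prime] {m e : ℕ} (hm0 : 0 < m) (hm : ¬ ℓ ∣ m)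
    {H : (ZMod ℓ)[X]}
    (h : ∀ ξ : AlgebraicClosure (ZMod ℓ), IsPrimitiveRoot ξ m →
      (X - C ξ) ^ e ∣ H.map (algebraMap (ZMod ℓ) (AlgebraicClosure (ZMod ℓ)))) :
    cyclotomic m (ZMod ℓ) ^ e ∣ H := by
  classical
  have hch : CharP (AlgebraicClosure (ZMod ℓ)) ℓ :=
    charP_of_injective_algebraMap (algebraMap (ZMod ℓ) (AlgebraicClosure (ZMod ℓ))).injective ℓ
  have hne : NeZero ((m : ℕ) : AlgebraicClosure (ZMod ℓ)) := ⟨by
    rw [Ne, CharP.cast_eq_zero_iff (AlgebraicClosure (ZMod ℓ)) ℓ]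
    exact hm⟩
  have hdeg : (cyclotomic m (AlgebraicClosure (ZMod ℓ))).degree ≠ 0 := by
    rw [degree_cyclotomic]
    have := Nat.totient_pos.2 hm0
    exact_mod_cast this.ne'
  obtain ⟨ξ₀, hξ₀⟩ := IsAlgClosed.exists_root _ hdeg
  have hξ₀' := isRoot_cyclotomic_iff.1 hξ₀
  rw [← Polynomial.map_dvd_map' (algebraMap (ZMod ℓ) (AlgebraicClosure (ZMod ℓ))),
    Polynomial.map_pow, map_cyclotomic, cyclotomic_eq_prod_X_sub_primitiveRoots hξ₀',
    ← Finset.prod_pow]
  refine Finset.prod_dvd_of_coprime ?_ fun ξ hξ => h ξ ((mem_primitiveRoots hm0).1 hξ)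
  intro a ha b hb hab
  exact (Polynomial.pairwise_coprime_X_sub_C Function.injective_id hab).pow

variable {K : Type} [Field K] [NumberField K] {E : Type} [Field E] [CharZero E] [IsAlgClosed E]

/-- **The multiplicity of an eigenvalue which is a root of unity times a power of `q`.** -/
theorem mult_geo (φ : 𝓞 K →+* E) {ℓ : ℕ} [hℓ : Fact ℓ.Prime] {D : (𝓞 K)[X]}
    (hD0 : D.coeff 0 = 1) {B : Multiset E} (hDB : D.map φ = (B.map fun x => 1 - C x * X).prod)
    {q : ℕ} (hq0 : q ≠ 0) (hq : (q : ZMod ℓ) = 1) {H : (ZMod ℓ)[X]} {e : ℕ}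
    (hH : ∀ m : ℕ, 0 < m → ¬ ℓ ∣ m → ¬ cyclotomic m (ZMod ℓ) ^ (e + 1) ∣ H)
    (hmod : ∀ (R : Type) [Field R] [CharP R ℓ] (ρ : 𝓞 K →+* R),
      D.map ρ = H.map (ZMod.castHom (dvd_refl ℓ) R)) [DecidableEq E] {β : E} {N c : ℕ}
    (hN : 0 < N) (hβ : β ^ N = ((q : E) ^ c) ^ N) : B.count β ≤ e := by
  classical
  by_contra hcon
  have hcount2 : e + 1 ≤ B.count β := by omega
  have hβB : β ∈ B := Multiset.count_pos.1 (by omega)
  have hqE : (q : E) ≠ 0 := by exact_mod_cast hq0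
  -- the eigenvalues are integral
  have hint : ∀ x ∈ B, IsIntegral ℤ x := by
    intro x hx
    by_cases hx0 : x = 0
    · rw [hx0]
      exact isIntegral_zero
    have hinv : Invertible x⁻¹ := invertibleOfNonzero (inv_ne_zero hx0)
    have h1 : eval₂ φ x⁻¹ D = 0 := by
      rw [← eval_map, hDB, eval_multiset_prod, Multiset.map_map]
      apply Multiset.prod_eq_zero
      rw [Multiset.mem_map]
      refine ⟨x, hx, ?_⟩
      simp only [Function.comp_apply, eval_sub, eval_one, eval_mul, eval_C, eval_X]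
      rw [mul_inv_cancel₀ hx0, sub_self]
    have h2 := (eval₂_reverse_eq_zero_iff φ x⁻¹ D).2 h1
    rw [invOf_eq_inv, inv_inv] at h2
    letI : Algebra (𝓞 K) E := φ.toAlgebra
    have hmon : D.reverse.Monic := by
      rw [Monic, reverse_leadingCoeff, trailingCoeff,
        natTrailingDegree_eq_zero.2 (Or.inr (by rw [hD0]; exact one_ne_zero)), hD0]
    have h3 : IsIntegral (𝓞 K) x := ⟨D.reverse, hmon, h2⟩
    exact isIntegral_trans x h3
  have hφ1 : ∀ y : 𝓞 K, IsIntegral ℤ (φ y) := fun y =>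
    (Algebra.IsIntegral.isIntegral (R := ℤ) y).map (φ.toIntAlgHom)
  have hφ2 : ∀ y : 𝓞 K, φ y ∈ algebraicClosure ℚ E := fun y =>
    mem_algebraicClosure_iff.2 (hφ1 y).tower_top.isAlgebraic
  set φ₁ : 𝓞 K →+* algebraicClosure ℚ E := φ.codRestrict (algebraicClosure ℚ E) hφ2 with hφ₁
  have hφ3 : ∀ y : 𝓞 K, IsIntegral ℤ (φ₁ y) := fun y =>
    (Algebra.IsIntegral.isIntegral (R := ℤ) y).map (φ₁.toIntAlgHom)
  set φ₀ : 𝓞 K →+* OO E := φ₁.codRestrict (integralClosure ℤ (algebraicClosure ℚ E)).toSubring hφ3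
    with hφ₀
  have hιφ : (ii E).comp φ₀ = φ := RingHom.ext fun y => rfl
  obtain ⟨B', hBB⟩ := exists_lift (ii E) B fun x hx => ii_surj E (hint x hx)
  have hDO : D.map φ₀ = (B'.map fun x => 1 - C x * X).prod := by
    apply Polynomial.map_injective (ii E) (ii_inj E)
    rw [Polynomial.map_map, hιφ, hDB, Polynomial.map_multiset_prod, Multiset.map_map]
    conv_lhs => rw [← hBB]
    rw [Multiset.map_map]
    congr 1
    refine Multiset.map_congr rfl fun x _ => ?_
    simp only [Function.comp_apply, Polynomial.map_sub, Polynomial.map_one, Polynomial.map_mul,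
      Polynomial.map_C, Polynomial.map_X]
  obtain ⟨x, hx, hxβ⟩ : ∃ x ∈ B', ii E x = β := by
    have h1 := hβB
    rw [← hBB, Multiset.mem_map] at h1
    exact h1
  have hcount : B.count β = B'.count x := by
    rw [← hBB, ← hxβ, Multiset.count_map_eq_count' _ _ (ii_inj E)]
  rw [hcount] at hcount2
  -- the root of unity
  have hω : (β / (q : E) ^ c) ^ N = 1 := by
    rw [div_pow, hβ, div_self (pow_ne_zero _ (pow_ne_zero _ hqE))]
  have hωi : IsIntegral ℤ (β / (q : E) ^ c) := by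
    apply IsIntegral.of_pow hN
    rw [hω]
    exact isIntegral_one
  obtain ⟨ω, hωE⟩ := ii_surj E hωi
  have hxω : x = (q : OO E) ^ c * ω := by
    apply ii_inj E
    rw [hxβ, map_mul, map_pow, map_natCast, hωE, mul_div_cancel₀]
    exact pow_ne_zero _ hqE
  have hωN : ω ^ N = 1 := by
    apply ii_inj E
    rw [map_pow, hωE, hω, map_one]
  have hord : 0 < orderOf ω := orderOf_pos_iff.2 (isOfFinOrder_iff_pow_eq_one.2 ⟨N, hN, hωN⟩)
  obtain ⟨m, hm0, hm, hρ⟩ := exists_hom_root ℓ hord (IsPrimitiveRoot.orderOf ω)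
  refine hH m hm0 hm (cyc_pow_dvd hm0 hm fun ξ hξ => ?_)
  obtain ⟨ρ, hρω⟩ := hρ ξ⁻¹ hξ.inv
  have hch : CharP (AlgebraicClosure (ZMod ℓ)) ℓ :=
    charP_of_injective_algebraMap (algebraMap (ZMod ℓ) (AlgebraicClosure (ZMod ℓ))).injective ℓ
  have hξ0 : ξ ≠ 0 := hξ.ne_zero hm0.ne'
  have hρx : ρ x = ξ⁻¹ := by
    rw [hxω, map_mul, map_pow, map_natCast, hρω]
    have h1 := congrArg (algebraMap (ZMod ℓ) (AlgebraicClosure (ZMod ℓ))) hq
    rw [map_natCast, map_one] at h1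
    rw [h1, one_pow, one_mul]
  have h3 : ZMod.castHom (dvd_refl ℓ) (AlgebraicClosure (ZMod ℓ)) =
      algebraMap (ZMod ℓ) (AlgebraicClosure (ZMod ℓ)) := Subsingleton.elim _ _
  have hHB : H.map (algebraMap (ZMod ℓ) (AlgebraicClosure (ZMod ℓ))) =
      ((B'.map ρ).map fun x => 1 - C x * X).prod := by
    rw [← h3, ← hmod (AlgebraicClosure (ZMod ℓ)) (ρ.comp φ₀), ← Polynomial.map_map, hDO,
      Polynomial.map_multiset_prod, Multiset.map_map, Multiset.map_map]
    congr 1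
    refine Multiset.map_congr rfl fun x _ => ?_
    simp only [Function.comp_apply, Polynomial.map_sub, Polynomial.map_one, Polynomial.map_mul,
      Polynomial.map_C, Polynomial.map_X]
  rw [hHB]
  have h5 : Multiset.replicate (e + 1) x ≤ B' := Multiset.le_count_iff_replicate_le.1 hcount2
  obtain ⟨B'', hB''⟩ := Multiset.le_iff_exists_add.1 h5
  rw [hB'', Multiset.map_add, Multiset.map_add, Multiset.prod_add, Multiset.map_replicate,
    Multiset.map_replicate, Multiset.prod_replicate]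
  refine Dvd.dvd.mul_right (pow_dvd_pow_of_dvd ?_ _) _
  refine ⟨C (-(ρ x)), ?_⟩
  rw [hρx, sub_mul, ← C_mul, mul_neg, mul_inv_cancel₀ hξ0, C_neg, C_neg, C_1]
  ring

/-- the power of an endomorphism times a root of unity -/
theorem ss_geo {V : Type} [AddCommGroup V] [Module E V] [FiniteDimensional E V] (φ : 𝓞 K →+* E)
    {ℓ : ℕ} [hℓ : Fact ℓ.Prime] {D : (𝓞 K)[X]} (hD0 : D.coeff 0 = 1) (Φ : Module.End E V)
    (hΦ : D.map φ = ((LinearMap.charpoly Φ).roots.map fun x => 1 - C x * X).prod)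
    {q : ℕ} (hq0 : q ≠ 0) (hq : (q : ZMod ℓ) = 1) {H : (ZMod ℓ)[X]}
    (hH : ∀ m : ℕ, 0 < m → ¬ ℓ ∣ m → ¬ cyclotomic m (ZMod ℓ) ^ 2 ∣ H)
    (hmod : ∀ (R : Type) [Field R] [CharP R ℓ] (ρ : 𝓞 K →+* R),
      D.map ρ = H.map (ZMod.castHom (dvd_refl ℓ) R)) {lam : E} {n : ℕ} (hn : 0 < n)
    (hlam : lam ^ n = 1) {r : ℕ} (hr : 0 < r) (c : ℕ) :
    SSAt (lam • Φ ^ r) ((q : E) ^ (r * c)) := by
  classical
  obtain ⟨μ, hμ⟩ := IsAlgClosed.exists_pow_nat_eq lam hr
  have hlam0 : lam ≠ 0 := by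
    rintro rfl
    rw [zero_pow hn.ne'] at hlam
    exact zero_ne_one hlam
  have hμ0 : μ ≠ 0 := by
    rintro rfl
    rw [zero_pow hr.ne'] at hμ
    exact hlam0 hμ.symm
  have hpow : lam • Φ ^ r = (μ • Φ) ^ r := by rw [_root_.smul_pow, hμ]
  rw [hpow]
  intro x hx
  refine ss_pow (μ • Φ) hr _ (fun α hα x hx => ?_) x hx
  set β := α / μ with hβ
  have hαβ : α = μ * β := by rw [hβ, mul_div_cancel₀ _ hμ0]
  have hsm : μ • Φ - algebraMap E (Module.End E V) α =
      μ • (Φ - algebraMap E (Module.End E V) β) := by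
    rw [smul_sub, hαβ, map_mul, Algebra.smul_def, Algebra.smul_def]
  have h1 : (LinearMap.charpoly Φ).rootMultiplicity β ≤ 1 := by
    rw [← count_roots]
    refine mult_geo φ hD0 hΦ hq0 hq hH hmod (N := r * n) (c := c) (Nat.mul_pos hr hn) ?_
    rw [hβ, div_pow, pow_mul, hα, pow_mul μ, hμ, hlam, div_one, ← pow_mul, ← pow_mul]
    congr 1
    ring
  rw [hsm] at hx ⊢
  rw [_root_.smul_pow, LinearMap.smul_apply] at hx
  have hx' := (smul_eq_zero.1 hx).resolve_left (pow_ne_zero 2 hμ0)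
  have h2 := block_at Φ 1 β h1 x hx'
  rw [pow_one] at h2
  rw [LinearMap.smul_apply, h2, smul_zero]

end mult

end Pool.Agent.H313.GE
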