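import Pool.Agent.H313.GE.Kum2

/-!
Semisimplicity of representations with a sesquilinear form from the reduction of the characteristic
polynomial of one element.
-/

set_option autoImplicit false
set_option linter.all false
set_option maxHeartbeats 4000000

open Module Polynomial

namespace Pool.Agent.H313.GE

section charpoly

variable {E : Type} [Field E] [CharZero E]

theorem charpoly_smul {r : ℕ} (A : Matrix (Fin r) (Fin r) E) {c : E} (hc : c ≠ 0) :
    (c • A).charpoly = A.charpoly.scaleRoots c := by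
  apply Polynomial.funext
  intro t
  have h1 : t = c * (t / c) := by field_simp
  conv_rhs => rw [h1]
  rw [scaleRoots_eval_mul, Matrix.charpoly_natDegree_eq_dim, Matrix.eval_charpoly,
    Matrix.eval_charpoly, ← Matrix.det_smul]
  congr 1
  rw [smul_sub]
  congr 1
  conv_lhs => rw [h1]
  rw [← smul_eq_mul]
  ext i j
  simp [Matrix.scalar_apply, Matrix.diagonal_apply]

variable {V : Type} [AddCommGroup V] [Module E V] [FiniteDimensional E V]

theorem charpoly_eq_mul (g : Module.End E V) (W : Submodule E V) (hW : W ≤ W.comap g) :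
    g.charpoly = (g.restrict hW).charpoly * (W.mapQ W g hW).charpoly := by
  apply Polynomial.funext
  intro t
  rw [eval_mul, LinearMap.eval_charpoly, LinearMap.eval_charpoly, LinearMap.eval_charpoly]
  have h1 : W ≤ W.comap (algebraMap E (Module.End E V) t - g) := by
    intro x hx
    change t • x - g x ∈ W
    exact W.sub_mem (W.smul_mem t hx) (hW hx)
  rw [LinearMap.det_eq_det_mul_det W _ h1]
  congr 1
  congr 1
  apply LinearMap.ext
  intro x
  obtain ⟨x, rfl⟩ := W.mkQ_surjective x
  rfl

theorem charpoly_dvd_of_le (g : Module.End E V) (R U : Submodule E V) (hR : R ≤ R.comap g)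
    (hU : U ≤ U.comap g) (hRU : R ≤ U) :
    (g.restrict hR).charpoly ∣ (g.restrict hU).charpoly := by
  have h1 : R.submoduleOf U ≤ (R.submoduleOf U).comap (g.restrict hU) := by
    intro x hx
    exact hR hx
  have h2 := charpoly_eq_mul (g.restrict hU) (R.submoduleOf U) h1
  have h3 : ((g.restrict hU).restrict h1).charpoly = (g.restrict hR).charpoly := by
    rw [← LinearEquiv.charpoly_conj (Submodule.submoduleOfEquivOfLe hRU)
      ((g.restrict hU).restrict h1)]
    congr 1
  rw [h2, h3]
  exact dvd_mul_right _ _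

end charpoly

section form

variable {E : Type} [Field E] [CharZero E] {V : Type} [AddCommGroup V] [Module E V]
  [FiniteDimensional E V] (σ : E ≃+* E)

/-- the coordinates of the functionals defined by a basis -/
noncomputable def coords (h : V →ₗ[E] V →ₛₗ[(σ : E →+* E)] E) {U : Submodule E V} {r : ℕ}
    (b : Basis (Fin r) E U) : V →ₗ[E] (Fin r → E) where
  toFun y := fun i => h y (b i)
  map_add' x y := by
    funext i
    rw [map_add]
    rfl
  map_smul' c x := by
    funext i
    rw [map_smul]
    rfl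

variable {σ}

theorem coords_surj (h : V →ₗ[E] V →ₛₗ[(σ : E →+* E)] E) (hn : ∀ x, (∀ y, h y x = 0) → x = 0)
    {U : Submodule E V} {r : ℕ} (b : Basis (Fin r) E U) :
    Function.Surjective (coords σ h b) := by
  rw [← LinearMap.range_eq_top]
  by_contra hne
  obtain ⟨f, hf, hfr⟩ := Submodule.exists_dual_map_eq_bot_of_lt_top (lt_top_iff_ne_top.2 hne)
    inferInstance
  have h1 : ∀ y, f (coords σ h b y) = 0 := by
    intro y
    have : f (coords σ h b y) ∈ (LinearMap.range (coords σ h b)).map f :=
      ⟨_, ⟨y, rfl⟩, rfl⟩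
    rw [hfr] at this
    exact this
  have h2 : ∀ w : Fin r → E, f w = ∑ i, w i * f (Pi.single i 1) := by
    intro w
    conv_lhs => rw [pi_eq_sum_univ' w]
    rw [map_sum]
    refine Finset.sum_congr rfl fun i _ => ?_
    rw [map_smul, smul_eq_mul]
  have h3 : (∑ i, σ.symm (f (Pi.single i 1)) • (b i : V)) = 0 := by
    apply hn
    intro y
    rw [map_sum]
    rw [← h1 y, h2]
    refine Finset.sum_congr rfl fun i _ => ?_
    rw [map_smulₛₗ]
    show σ (σ.symm (f (Pi.single i 1))) * h y (b i) = _
    rw [RingEquiv.apply_symm_apply, mul_comm]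
    rfl
  have h4 : ∀ i, σ.symm (f (Pi.single i 1)) = 0 := by
    have h5 : (∑ i, σ.symm (f (Pi.single i 1)) • b i) = 0 := by
      apply Subtype.ext
      rw [AddSubmonoidClass.coe_finset_sum]
      simpa using h3
    exact fun i => Fintype.linearIndependent_iff.1 b.linearIndependent _ h5 i
  apply hf
  apply LinearMap.ext
  intro w
  rw [h2]
  refine Finset.sum_eq_zero fun i _ => ?_
  rw [(map_eq_zero_iff σ.symm σ.symm.injective).1 (h4 i), mul_zero]

/-- the kernel of the coordinates -/
theorem mem_ker_coords (h : V →ₗ[E] V →ₛₗ[(σ : E →+* E)] E) {U : Submodule E V} {r : ℕ}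
    (b : Basis (Fin r) E U) {y : V} :
    y ∈ LinearMap.ker (coords σ h b) ↔ ∀ x ∈ U, h y x = 0 := by
  constructor
  · intro hy x hx
    have h1 : ∀ i, h y (b i) = 0 := fun i => congrFun (LinearMap.mem_ker.1 hy) i
    have h2 : (x : V) = ∑ i, b.repr ⟨x, hx⟩ i • (b i : V) := by
      have h3 := congrArg Subtype.val (b.sum_repr ⟨x, hx⟩)
      rw [AddSubmonoidClass.coe_finset_sum] at h3
      exact h3.symm
    rw [h2, map_sum]
    refine Finset.sum_eq_zero fun i _ => ?_
    rw [map_smulₛₗ, h1, smul_zero]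
  · intro hy
    rw [LinearMap.mem_ker]
    funext i
    exact hy _ (b i).2

/-- the dimension of the orthogonal complement -/
theorem finrank_ker_coords (h : V →ₗ[E] V →ₛₗ[(σ : E →+* E)] E)
    (hn : ∀ x, (∀ y, h y x = 0) → x = 0) {U : Submodule E V} {r : ℕ} (b : Basis (Fin r) E U) :
    finrank E (LinearMap.ker (coords σ h b)) + finrank E U = finrank E V := by
  have h1 := LinearMap.finrank_range_add_finrank_ker (coords σ h b)
  rw [LinearMap.range_eq_top.2 (coords_surj h hn b), finrank_top, finrank_fin_fun] at h1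
  have h2 := (Module.finrank_eq_card_basis b).trans (Fintype.card_fin r)
  omega

theorem dual_charpoly (h : V →ₗ[E] V →ₛₗ[(σ : E →+* E)] E) (hn : ∀ x, (∀ y, h y x = 0) → x = 0)
    (g : Module.End E V) {κ : E} (hκ : κ ≠ 0) (hg : ∀ x y, h (g x) (g y) = κ * h x y)
    (U : Submodule E V) (hU : U ≤ U.comap g) (hiso : ∀ x ∈ U, ∀ y ∈ U, h x y = 0) :
    ∃ (r : ℕ) (A : Matrix (Fin r) (Fin r) E), r = finrank E U ∧ IsUnit A ∧
      (g.restrict hU).charpoly = A.charpoly ∧
      A.charpoly * (κ • (A⁻¹.map σ)).charpoly ∣ g.charpoly := by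
  classical
  set r := finrank E U with hr
  set b : Basis (Fin r) E U := Module.finBasis E U with hb
  set A := LinearMap.toMatrix b b (g.restrict hU) with hA
  have hginj : Function.Injective g := by
    rw [← LinearMap.ker_eq_bot, LinearMap.ker_eq_bot']
    intro x hx
    apply hn
    intro y
    have h1 := hg y x
    rw [hx, map_zero] at h1
    exact (mul_eq_zero.1 h1.symm).resolve_left hκ
  have hUinj : Function.Injective (g.restrict hU) := by
    intro x y hxy
    apply Subtype.ext
    exact hginj (congrArg Subtype.val hxy)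
  let e : U ≃ₗ[E] U := LinearEquiv.ofInjectiveEndo (g.restrict hU) hUinj
  have he : ∀ x, e x = g.restrict hU x := fun x => rfl
  have hAB : A * LinearMap.toMatrix b b (e.symm : U →ₗ[E] U) = 1 := by
    rw [hA, ← LinearMap.toMatrix_comp b b b]
    have h1 : (g.restrict hU) ∘ₗ (e.symm : U →ₗ[E] U) = LinearMap.id := by
      apply LinearMap.ext
      intro x
      show g.restrict hU (e.symm x) = x
      rw [← he, LinearEquiv.apply_symm_apply]
    rw [h1, LinearMap.toMatrix_id]
  have hAu : IsUnit A := (Matrix.isUnit_iff_isUnit_det _).2 (Matrix.isUnit_det_of_right_inverse hAB)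
  have hAi : A⁻¹ = LinearMap.toMatrix b b (e.symm : U →ₗ[E] U) := Matrix.inv_eq_right_inv hAB
  refine ⟨r, A, rfl, hAu, (LinearMap.charpoly_toMatrix _ b).symm, ?_⟩
  set π := coords σ h b with hπ
  have hsurj := coords_surj h hn b
  set M : Matrix (Fin r) (Fin r) E := κ • (A⁻¹.map σ) with hM
  have hπg : ∀ y, π (g y) = Matrix.toLin' M.transpose (π y) := by
    intro y
    funext i
    rw [Matrix.toLin'_apply]
    show h (g y) (b i) = ∑ j, M j i * h y (b j)
    have h1 : (b i : V) = g ((e.symm (b i) : U) : V) := by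
      have h2 : e (e.symm (b i)) = b i := LinearEquiv.apply_symm_apply _ _
      have h3 := congrArg Subtype.val h2
      exact h3.symm
    have h4 : ((e.symm (b i) : U) : V) = ∑ j, A⁻¹ j i • (b j : V) := by
      have h3 := congrArg Subtype.val (b.sum_repr (e.symm (b i)))
      rw [AddSubmonoidClass.coe_finset_sum] at h3
      rw [← h3]
      refine Finset.sum_congr rfl fun j _ => ?_
      rw [hAi, LinearMap.toMatrix_apply]
      rfl
    rw [h1, hg, h4, map_sum, Finset.mul_sum]
    refine Finset.sum_congr rfl fun j _ => ?_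
    rw [map_smulₛₗ, hM, Matrix.smul_apply, Matrix.map_apply, smul_eq_mul, smul_eq_mul]
    show κ * (σ (A⁻¹ j i) * h y (b j)) = _
    ring
  have hK : LinearMap.ker π ≤ (LinearMap.ker π).comap g := by
    intro v hv
    rw [Submodule.mem_comap, LinearMap.mem_ker, hπg, LinearMap.mem_ker.1 hv, map_zero]
  let F : (V ⧸ LinearMap.ker π) ≃ₗ[E] (Fin r → E) := π.quotKerEquivOfSurjective hsurj
  have hcp : ((LinearMap.ker π).mapQ (LinearMap.ker π) g hK).charpoly = M.charpoly := by
    rw [← Matrix.charpoly_transpose, ← Matrix.charpoly_toLin', ← LinearEquiv.charpoly_conj F]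
    congr 1
    apply LinearMap.ext
    intro f
    obtain ⟨v, rfl⟩ := hsurj f
    rw [LinearEquiv.conj_apply_apply]
    have h1 : F.symm (π v) = Submodule.Quotient.mk v := by
      rw [LinearEquiv.symm_apply_eq]
      rfl
    rw [h1, Submodule.mapQ_apply]
    exact hπg v
  rw [charpoly_eq_mul g (LinearMap.ker π) hK, hcp]
  refine mul_dvd_mul_right ?_ _
  rw [hA, LinearMap.charpoly_toMatrix]
  refine charpoly_dvd_of_le g U _ hU hK ?_
  intro y hy
  exact (mem_ker_coords h b).2 fun x hx => hiso y hy x hx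

end form

section rev

theorem reverse_map' {S T : Type} [Semiring S] [Semiring T] (f : S →+* T) {p : S[X]}
    (h : (p.map f).natDegree = p.natDegree) : (p.map f).reverse = p.reverse.map f := by
  ext i
  rw [coeff_reverse, Polynomial.coeff_map, Polynomial.coeff_map, coeff_reverse, h]

theorem inv_charpoly {E : Type} [Field E] {r : ℕ} {A : Matrix (Fin r) (Fin r) E} (hA : IsUnit A) :
    C (A.charpoly.coeff 0) * A⁻¹.charpoly = A.charpoly.reverse := by
  have hd : A.det ≠ 0 := ((Matrix.isUnit_iff_isUnit_det A).1 hA).ne_zero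
  rw [Matrix.charpoly_inv A hA, Matrix.reverse_charpoly, Ring.inverse_eq_inv']
  have h1 := Matrix.det_eq_sign_charpoly_coeff A
  have h2 : C (A.charpoly.coeff 0) * ((-1) ^ Fintype.card (Fin r) * C A.det⁻¹) = 1 := by
    have h3 : ((-1 : E[X])) ^ Fintype.card (Fin r) = C ((-1) ^ Fintype.card (Fin r)) := by
      rw [C_pow, C_neg, C_1]
    rw [h3, ← C_mul, ← C_mul, ← C_1]
    congr 1
    rw [mul_left_comm, ← mul_assoc, ← h1, mul_inv_cancel₀ hd]
  rw [← mul_assoc, h2, one_mul]

end rev

section reduction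

variable {E : Type} [Field E] [CharZero E] {V : Type} [AddCommGroup V] [Module E V]
  [FiniteDimensional E V] {σ : E ≃+* E} {O R : Type} [CommRing O] [IsDomain O]
  [IsIntegrallyClosed O] [Algebra O E] [IsFractionRing O E] [Field R] (red : O →+* R)
  (τ : O →+* O)

theorem exists_dvd (hτ : ∀ x, red (τ x) = red x)
    (hσ : ∀ x : O, σ (algebraMap O E x) = algebraMap O E (τ x))
    (h : V →ₗ[E] V →ₛₗ[(σ : E →+* E)] E) (hn : ∀ x, (∀ y, h y x = 0) → x = 0)
    (g : Module.End E V) {κ : O} (hκ : red κ = 1)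
    (hg : ∀ x y, h (g x) (g y) = algebraMap O E κ * h x y)
    {P : O[X]} (hPm : P.Monic) (hP : g.charpoly = P.map (algebraMap O E))
    (hP0 : red (P.coeff 0) ≠ 0)
    (U : Submodule E V) (hU : U ≤ U.comap g) (hiso : ∀ x ∈ U, ∀ y ∈ U, h x y = 0) :
    ∃ A : R[X], A.natDegree = finrank E U ∧ A * A.reverse ∣ P.map red := by
  classical
  have hinj : Function.Injective (algebraMap O E) := IsFractionRing.injective O E
  have hκ0 : algebraMap O E κ ≠ 0 := by
    intro h0
    rw [map_eq_zero_iff _ hinj] at h0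
    rw [h0, map_zero] at hκ
    exact zero_ne_one hκ
  obtain ⟨r, A, hr, hA, -, hdvd⟩ := dual_charpoly h hn g hκ0 hg U hU hiso
  set f := A.charpoly with hf
  set M := (algebraMap O E κ • (A⁻¹.map σ)).charpoly with hM
  have hfm : f.Monic := Matrix.charpoly_monic A
  have hMm : M.Monic := Matrix.charpoly_monic _
  rw [hP] at hdvd
  obtain ⟨f₀, hf₀⟩ := IsIntegrallyClosed.eq_map_mul_C_of_dvd E hPm ((dvd_mul_right f M).trans hdvd)
  obtain ⟨M₀, hM₀⟩ := IsIntegrallyClosed.eq_map_mul_C_of_dvd E hPm ((dvd_mul_left M f).trans hdvd)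
  rw [hfm.leadingCoeff, C_1, mul_one] at hf₀
  rw [hMm.leadingCoeff, C_1, mul_one] at hM₀
  have hf₀m : f₀.Monic := monic_of_injective hinj (by rw [hf₀]; exact hfm)
  have hM₀m : M₀.Monic := monic_of_injective hinj (by rw [hM₀]; exact hMm)
  have hd₀ : f₀ * M₀ ∣ P := by
    apply hPm.dvd_of_fraction_map_dvd_fraction_map (K := E) (hf₀m.mul hM₀m)
    rw [Polynomial.map_mul, hf₀, hM₀]
    exact hdvd
  have hc0 : red (f₀.coeff 0) ≠ 0 := by
    obtain ⟨Q, hQ⟩ := hd₀
    intro h0
    apply hP0
    rw [hQ, mul_coeff_zero, mul_coeff_zero, map_mul, map_mul, h0, zero_mul, zero_mul]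
  set f₁ := f₀.map τ with hf₁
  have hf₁m : f₁.Monic := hf₀m.map τ
  have hfσ : (A.map σ).charpoly = f₁.map (algebraMap O E) := by
    have h1 := Matrix.charpoly_map A (σ : E →+* E)
    have h2 : A.map (σ : E →+* E) = A.map σ := rfl
    rw [← h2, h1, ← hf, ← hf₀, hf₁, Polynomial.map_map, Polynomial.map_map]
    congr 1
    ext x
    exact hσ x
  have hAσ : IsUnit (A.map σ) := by
    have h1 := hA.map ((σ : E →+* E).mapMatrix)
    exact h1
  have hAσi : (A.map σ)⁻¹ = A⁻¹.map σ := by
    apply Matrix.inv_eq_right_inv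
    have h1 : A * A⁻¹ = 1 := Matrix.mul_nonsing_inv A ((Matrix.isUnit_iff_isUnit_det A).1 hA)
    have h2 := congrArg ((σ : E →+* E).mapMatrix (m := Fin r)) h1
    rw [map_mul, map_one] at h2
    exact h2
  -- the identity
  have hid : C (f₁.coeff 0) * M₀ = f₁.reverse.scaleRoots κ := by
    apply Polynomial.map_injective _ hinj
    have h1 := inv_charpoly hAσ
    rw [hfσ, hAσi, Polynomial.coeff_map, reverse_map' (algebraMap O E)
      (natDegree_map_eq_of_injective hinj f₁)] at h1
    have h2 : M = (A⁻¹.map σ).charpoly.scaleRoots (algebraMap O E κ) := by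
      rw [hM, charpoly_smul _ hκ0]
    have hc1 : algebraMap O E (f₁.coeff 0) ≠ 0 := by
      rw [Ne, map_eq_zero_iff _ hinj, hf₁, Polynomial.coeff_map]
      intro h0
      apply hc0
      rw [← hτ, h0, map_zero]
    rw [Polynomial.map_mul, Polynomial.map_C, hM₀, h2]
    have h3 : C (algebraMap O E (f₁.coeff 0)) *
        (A⁻¹.map σ).charpoly.scaleRoots (algebraMap O E κ) =
        (C (algebraMap O E (f₁.coeff 0)) * (A⁻¹.map σ).charpoly).scaleRoots
          (algebraMap O E κ) := by
      ext i
      rw [coeff_C_mul, coeff_scaleRoots, coeff_scaleRoots, coeff_C_mul, natDegree_C_mul hc1]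
      ring
    rw [h3, h1, map_scaleRoots]
    rw [Ne, map_eq_zero_iff _ hinj, leadingCoeff_eq_zero, reverse_eq_zero]
    exact hf₁m.ne_zero
  have hred : C (red (f₀.coeff 0)) * M₀.map red = (f₀.map red).reverse := by
    have h1 := congrArg (Polynomial.map red) hid
    have h2 : (f₁.reverse.scaleRoots κ).map red = f₁.reverse.map red := by
      ext i
      rw [Polynomial.coeff_map, coeff_scaleRoots, map_mul, map_pow, hκ, one_pow, mul_one,
        Polynomial.coeff_map]
    have h3 : f₁.map red = f₀.map red := by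
      rw [hf₁, Polynomial.map_map]
      congr 1
      ext x
      exact hτ x
    rw [Polynomial.map_mul, Polynomial.map_C, h2, ← reverse_map' red (hf₁m.natDegree_map red), h3,
      hf₁, Polynomial.coeff_map, hτ] at h1
    exact h1
  refine ⟨f₀.map red, ?_, ?_⟩
  · rw [hf₀m.natDegree_map red, ← natDegree_map_eq_of_injective hinj f₀, hf₀, hf,
      Matrix.charpoly_natDegree_eq_dim, Fintype.card_fin, hr]
  · rw [← hred, mul_left_comm]
    have h1 : IsUnit (C (red (f₀.coeff 0)) : R[X]) := isUnit_C.2 (isUnit_iff_ne_zero.2 hc0)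
    rw [h1.mul_left_dvd, ← Polynomial.map_mul]
    exact Polynomial.map_dvd red hd₀

end reduction

end Pool.Agent.H313.GE
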