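import Pool.Agent.H313.GE.Ss

/-!
Semisimplicity of representations with a sesquilinear form, direct sums.
-/

set_option autoImplicit false
set_option linter.all false
set_option maxHeartbeats 4000000

open Module Polynomial

namespace Pool.Agent.H313.GE

section one

variable {E : Type} [Field E] [CharZero E] {V : Type} [AddCommGroup V] [Module E V]
  [FiniteDimensional E V] {σ : E ≃+* E} {O R : Type} [CommRing O] [IsDomain O]
  [IsIntegrallyClosed O] [Algebra O E] [IsFractionRing O E] [Field R] (red : O →+* R)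
  (τ : O →+* O)

/-- the orthogonal complement of a subspace -/
def orth (h : V →ₗ[E] V →ₛₗ[(σ : E →+* E)] E) (W : Submodule E V) : Submodule E V where
  carrier := {y | ∀ x ∈ W, h y x = 0}
  add_mem' {a b} ha hb x hx := by rw [map_add, LinearMap.add_apply, ha x hx, hb x hx, add_zero]
  zero_mem' x _ := by rw [map_zero, LinearMap.zero_apply]
  smul_mem' c a ha x hx := by rw [map_smul, LinearMap.smul_apply, ha x hx, smul_zero]

theorem mem_orth {h : V →ₗ[E] V →ₛₗ[(σ : E →+* E)] E} {W : Submodule E V} {y : V} :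
    y ∈ orth h W ↔ ∀ x ∈ W, h y x = 0 := Iff.rfl

theorem finrank_orth (h : V →ₗ[E] V →ₛₗ[(σ : E →+* E)] E)
    (hn : ∀ x, (∀ y, h y x = 0) → x = 0) (W : Submodule E V) :
    finrank E (orth h W) + finrank E W = finrank E V := by
  have h1 : orth h W = LinearMap.ker (coords σ h (Module.finBasis E W)) := by
    ext y
    rw [mem_ker_coords]
    rfl
  rw [h1]
  exact finrank_ker_coords h hn _

theorem semisimple' {Γ : Type} [Group Γ] (ρ : Representation E Γ V)
    (hτ : ∀ x, red (τ x) = red x)
    (hσ : ∀ x : O, σ (algebraMap O E x) = algebraMap O E (τ x))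
    (h : V →ₗ[E] V →ₛₗ[(σ : E →+* E)] E) (hn : ∀ x, (∀ y, h y x = 0) → x = 0)
    (κ : Γ → E) (hg : ∀ g x y, h (ρ g x) (ρ g y) = κ g * h x y)
    (hA : ∀ d, 0 < d → 2 * d ≤ finrank E V → ∃ (g : Γ) (κ₀ : O) (P : O[X]), red κ₀ = 1 ∧
      κ g = algebraMap O E κ₀ ∧ P.Monic ∧ (ρ g).charpoly = P.map (algebraMap O E) ∧
      red (P.coeff 0) ≠ 0 ∧ ∀ A : R[X], A.natDegree = d → ¬ A * A.reverse ∣ P.map red) :
    ρ.IsSemisimpleRepresentation := by
  refine ⟨fun W => ?_⟩
  have hst : ∀ g y, y ∈ orth h W.toSubmodule → ρ g y ∈ orth h W.toSubmodule := by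
    intro g y hy x hx
    have h1 : x = ρ g (ρ g⁻¹ x) := by
      rw [← Module.End.mul_apply, ← map_mul, mul_inv_cancel, map_one, Module.End.one_apply]
    rw [h1, hg, hy _ (W.apply_mem_toSubmodule g⁻¹ hx), mul_zero]
  let W' : Subrepresentation ρ := ⟨orth h W.toSubmodule, fun g v hv => hst g v hv⟩
  have hdisj : W.toSubmodule ⊓ orth h W.toSubmodule = ⊥ := by
    by_contra hne
    set U := W.toSubmodule ⊓ orth h W.toSubmodule with hU
    have hd0 : 0 < finrank E U :=
      Nat.pos_of_ne_zero fun h0 => hne (Submodule.finrank_eq_zero.1 h0)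
    have hiso : ∀ x ∈ U, ∀ y ∈ U, h x y = 0 := fun x hx y hy => hx.2 y hy.1
    have hd1 : 2 * finrank E U ≤ finrank E V := by
      have h1 := finrank_orth h hn U
      have h2 : U ≤ orth h U := fun x hx y hy => hiso x hx y hy
      have h3 := Submodule.finrank_mono h2
      omega
    obtain ⟨g, κ₀, P, hκ, hκg, hPm, hP, hP0, hns⟩ := hA _ hd0 hd1
    obtain ⟨A, hA1, hA2⟩ := exists_dvd red τ hτ hσ h hn (ρ g) hκ
      (fun x y => by rw [hg, hκg]) hPm hP hP0 U
      (fun x hx => ⟨W.apply_mem_toSubmodule g hx.1, hst g x hx.2⟩) hiso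
    exact hns A hA1 hA2
  refine ⟨W', ?_⟩
  have hc : IsCompl W.toSubmodule (orth h W.toSubmodule) := by
    refine (Submodule.isCompl_iff_disjoint _ _ ?_).2 (disjoint_iff.2 hdisj)
    have := finrank_orth h hn W.toSubmodule
    omega
  constructor
  · rw [disjoint_iff]
    apply Subrepresentation.toSubmodule_injective
    exact hc.inf_eq_bot
  · rw [codisjoint_iff]
    apply Subrepresentation.toSubmodule_injective
    exact hc.sup_eq_top

theorem semisimple {Γ : Type} [Group Γ] (ρ : Representation E Γ V)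
    (hτ : ∀ x, red (τ x) = red x)
    (hσ : ∀ x : O, σ (algebraMap O E x) = algebraMap O E (τ x))
    (h : V →ₗ[E] V →ₛₗ[(σ : E →+* E)] E) (hn : ∀ x, (∀ y, h y x = 0) → x = 0)
    (κ : Γ → E) (hg : ∀ g x y, h (ρ g x) (ρ g y) = κ g * h x y)
    (g : Γ) {κ₀ : O} (hκ : red κ₀ = 1) (hκg : κ g = algebraMap O E κ₀)
    {P : O[X]} (hPm : P.Monic) (hP : (ρ g).charpoly = P.map (algebraMap O E))
    (hP0 : red (P.coeff 0) ≠ 0)
    (hA : ∀ A : R[X], 0 < A.natDegree → ¬ A * A.reverse ∣ P.map red) :
    ρ.IsSemisimpleRepresentation :=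
  semisimple' red τ ρ hτ hσ h hn κ hg fun d hd _ =>
    ⟨g, κ₀, P, hκ, hκg, hPm, hP, hP0, fun A hA1 => hA A (by rw [hA1]; exact hd)⟩

end one

section sum

variable {E : Type} [Field E] {Γ : Type} [Group Γ] {ι : Type} {V : ι → Type}
  [∀ i, AddCommGroup (V i)] [∀ i, Module E (V i)]

/-- the direct sum of the representations `ρ i` (for finitely many `i`) -/
def piRep (ρ : ∀ i, Representation E Γ (V i)) : Representation E Γ (∀ i, V i) where
  toFun g := LinearMap.pi fun i => (ρ i g).comp (LinearMap.proj i)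
  map_one' := by
    apply LinearMap.ext
    intro x
    funext i
    show ρ i 1 (x i) = x i
    rw [map_one]
    rfl
  map_mul' g g' := by
    apply LinearMap.ext
    intro x
    funext i
    show ρ i (g * g') (x i) = ρ i g (ρ i g' (x i))
    rw [map_mul]
    rfl

theorem piRep_apply (ρ : ∀ i, Representation E Γ (V i)) (g : Γ) (x : ∀ i, V i) (i : ι) :
    piRep ρ g x i = ρ i g (x i) := rfl

theorem piRep_alg (ρ : ∀ i, Representation E Γ (V i)) (c : MonoidAlgebra E Γ) (x : ∀ i, V i)
    (i : ι) : (piRep ρ).asAlgebraHom c x i = (ρ i).asAlgebraHom c (x i) := by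
  induction c using MonoidAlgebra.induction_linear with
  | zero =>
    rw [map_zero, map_zero]
    rfl
  | add a b ha hb =>
    rw [map_add, map_add, LinearMap.add_apply, LinearMap.add_apply, Pi.add_apply, ha, hb]
  | single g a =>
    rw [Representation.asAlgebraHom_single, Representation.asAlgebraHom_single]
    rfl

/-- the direct sum as a module over the group ring -/
noncomputable def piEquiv (ρ : ∀ i, Representation E Γ (V i)) :
    (∀ i, (ρ i).asModule) ≃ₗ[MonoidAlgebra E Γ] (piRep ρ).asModule where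
  toFun x := (piRep ρ).asModuleEquiv.symm fun i => (ρ i).asModuleEquiv (x i)
  invFun x := fun i => (ρ i).asModuleEquiv.symm ((piRep ρ).asModuleEquiv x i)
  map_add' _ _ := rfl
  map_smul' c x := by
    apply (piRep ρ).asModuleEquiv.injective
    rw [RingHom.id_apply, Representation.asModuleEquiv_map_smul, LinearEquiv.apply_symm_apply,
      LinearEquiv.apply_symm_apply]
    funext i
    rw [piRep_alg, Pi.smul_apply, Representation.asModuleEquiv_map_smul]
  left_inv _ := rfl
  right_inv _ := rfl

theorem piRep_semisimple [Finite ι] (ρ : ∀ i, Representation E Γ (V i))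
    (hρ : ∀ i, (ρ i).IsSemisimpleRepresentation) : (piRep ρ).IsSemisimpleRepresentation := by
  rw [Representation.isSemisimpleRepresentation_iff_isSemisimpleModule_asModule]
  have h1 : ∀ i, IsSemisimpleModule (MonoidAlgebra E Γ) (ρ i).asModule := fun i =>
    (Representation.isSemisimpleRepresentation_iff_isSemisimpleModule_asModule (ρ i)).1 (hρ i)
  exact IsSemisimpleModule.congr (piEquiv ρ).symm

end sum

end Pool.Agent.H313.GE
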