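import Pool.Agent.H313.GE.Ss2

/-!
Semisimplicity from the reduction of the polynomial `det (1 - T g)`.
-/

set_option autoImplicit false
set_option linter.all false
set_option maxHeartbeats 4000000

open Module Polynomial

namespace Pool.Agent.H313.GE

theorem reverse_reverse' {S : Type} [Semiring S] {p : S[X]} (h : p.coeff 0 ≠ 0) :
    p.reverse.reverse = p := by
  have h1 : p.natTrailingDegree = 0 := by
    rw [natTrailingDegree_eq_zero]
    exact Or.inr h
  have h2 : p.reverse.natDegree = p.natDegree := by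
    rw [reverse_natDegree, h1, Nat.sub_zero]
  ext i
  rw [coeff_reverse, coeff_reverse, h2, revAt_invol]

theorem natDegree_reverse' {S : Type} [Semiring S] {p : S[X]} (h : p.coeff 0 ≠ 0) :
    p.reverse.natDegree = p.natDegree := by
  have h1 : p.natTrailingDegree = 0 := by
    rw [natTrailingDegree_eq_zero]
    exact Or.inr h
  rw [reverse_natDegree, h1, Nat.sub_zero]

/-- `H` is not divisible by a product of a nonconstant polynomial and its reciprocal -/
def NoDualPair {R : Type} [Field R] (H : R[X]) : Prop :=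
  ∀ A : R[X], 0 < A.natDegree → ¬ A * A.reverse ∣ H

theorem noDualPair_reverse {R : Type} [Field R] {H : R[X]} (hH : NoDualPair H)
    (h0 : H.coeff 0 ≠ 0) : NoDualPair H.reverse := by
  intro A hA hdvd
  have hne : H ≠ 0 := by
    rintro rfl
    exact h0 (coeff_zero 0)
  have hA0 : A.coeff 0 ≠ 0 := by
    intro h1
    obtain ⟨Q, hQ⟩ := (dvd_mul_right A A.reverse).trans hdvd
    have h2 := coeff_zero_reverse H
    rw [hQ, mul_coeff_zero, h1, zero_mul] at h2
    exact hne (leadingCoeff_eq_zero.1 h2.symm)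
  apply hH A.reverse (by rw [natDegree_reverse' hA0]; exact hA)
  obtain ⟨Q, hQ⟩ := hdvd
  rw [← reverse_reverse' h0, hQ, reverse_mul_of_domain, reverse_mul_of_domain]
  exact dvd_mul_right _ _

theorem noDual_reverse {R : Type} [Field R] {H : R[X]} {d : ℕ}
    (hH : ∀ A : R[X], A.natDegree = d → ¬ A * A.reverse ∣ H)
    (h0 : H.coeff 0 ≠ 0) : ∀ A : R[X], A.natDegree = d → ¬ A * A.reverse ∣ H.reverse := by
  intro A hA hdvd
  have hne : H ≠ 0 := by
    rintro rfl
    exact h0 (coeff_zero 0)
  have hA0 : A.coeff 0 ≠ 0 := by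
    intro h1
    obtain ⟨Q, hQ⟩ := (dvd_mul_right A A.reverse).trans hdvd
    have h2 := coeff_zero_reverse H
    rw [hQ, mul_coeff_zero, h1, zero_mul] at h2
    exact hne (leadingCoeff_eq_zero.1 h2.symm)
  apply hH A.reverse (by rw [natDegree_reverse' hA0]; exact hA)
  obtain ⟨Q, hQ⟩ := hdvd
  rw [← reverse_reverse' h0, hQ, reverse_mul_of_domain, reverse_mul_of_domain]
  exact dvd_mul_right _ _

theorem exists_char {O E R : Type} [CommRing O] [IsDomain O] [Field E] [Algebra O E]
    [IsFractionRing O E] [Field R] (red : O →+* R) {D : O[X]} (hD0 : D.coeff 0 = 1)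
    {f : E[X]} (hf : f.Monic) (hDf : D.map (algebraMap O E) = f.reverse)
    (hdeg : (D.map red).natDegree = f.natDegree) :
    ∃ P : O[X], P.Monic ∧ f = P.map (algebraMap O E) ∧ red (P.coeff 0) ≠ 0 ∧
      P.map red = (D.map red).reverse := by
  have hinj : Function.Injective (algebraMap O E) := IsFractionRing.injective O E
  have h1 : D.natDegree = f.natDegree := by
    apply le_antisymm
    · rw [← natDegree_map_eq_of_injective hinj D, hDf]
      exact reverse_natDegree_le f
    · rw [← hdeg]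
      exact natDegree_map_le
  have hf0 : f.coeff 0 ≠ 0 := by
    have h2 : f.reverse.natDegree = f.natDegree := by
      rw [← hDf, natDegree_map_eq_of_injective hinj D, h1]
    rw [reverse_natDegree] at h2
    have h3 := f.natTrailingDegree_le_natDegree
    have h4 : f.natTrailingDegree = 0 := by omega
    rw [natTrailingDegree_eq_zero] at h4
    exact h4.resolve_left hf.ne_zero
  have hD0' : D.coeff 0 ≠ 0 := by rw [hD0]; exact one_ne_zero
  have hDt : D.natTrailingDegree = 0 := by
    rw [natTrailingDegree_eq_zero]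
    exact Or.inr hD0'
  refine ⟨D.reverse, ?_, ?_, ?_, ?_⟩
  · rw [Monic, reverse_leadingCoeff, trailingCoeff, hDt, hD0]
  · rw [← reverse_map' _ (natDegree_map_eq_of_injective hinj D), hDf, reverse_reverse' hf0]
  · rw [coeff_zero_reverse, leadingCoeff, h1, ← hdeg, ← Polynomial.coeff_map, coeff_natDegree,
      Ne, leadingCoeff_eq_zero]
    intro h2
    have h3 := congrArg (fun p => Polynomial.coeff p 0) h2
    simp only [Polynomial.coeff_map, hD0, map_one, coeff_zero] at h3
    exact one_ne_zero h3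
  · rw [reverse_map' red (by rw [hdeg, h1])]

theorem semisimple_of_det {E : Type} [Field E] [CharZero E] {V : Type} [AddCommGroup V]
    [Module E V] [FiniteDimensional E V] {σ : E ≃+* E} {O R : Type} [CommRing O] [IsDomain O]
    [IsIntegrallyClosed O] [Algebra O E] [IsFractionRing O E] [Field R] (red : O →+* R)
    (τ : O →+* O) {Γ : Type} [Group Γ] (ρ : Representation E Γ V)
    (hτ : ∀ x, red (τ x) = red x)
    (hσ : ∀ x : O, σ (algebraMap O E x) = algebraMap O E (τ x))
    (h : V →ₗ[E] V →ₛₗ[(σ : E →+* E)] E) (hn : ∀ x, (∀ y, h y x = 0) → x = 0)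
    (κ : Γ → E) (hg : ∀ g x y, h (ρ g x) (ρ g y) = κ g * h x y)
    (g : Γ) {κ₀ : O} (hκ : red κ₀ = 1) (hκg : κ g = algebraMap O E κ₀)
    {D : O[X]} (hD0 : D.coeff 0 = 1) (hD : D.map (algebraMap O E) = (ρ g).charpoly.reverse)
    (hdeg : (D.map red).natDegree = finrank E V) (hA : NoDualPair (D.map red)) :
    ρ.IsSemisimpleRepresentation := by
  obtain ⟨P, hPm, hP, hP0, hPr⟩ := exists_char red hD0 (LinearMap.charpoly_monic (ρ g)) hD
    (by rw [hdeg, LinearMap.charpoly_natDegree])
  refine semisimple red τ ρ hτ hσ h hn κ hg g hκ hκg hPm hP hP0 ?_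
  rw [hPr]
  apply noDualPair_reverse hA
  rw [Polynomial.coeff_map, hD0, map_one]
  exact one_ne_zero

/-- semisimplicity from one element for every dimension of an isotropic subspace -/
theorem semisimple_of_dets {E : Type} [Field E] [CharZero E] {V : Type} [AddCommGroup V]
    [Module E V] [FiniteDimensional E V] {σ : E ≃+* E} {O R : Type} [CommRing O] [IsDomain O]
    [IsIntegrallyClosed O] [Algebra O E] [IsFractionRing O E] [Field R] (red : O →+* R)
    (τ : O →+* O) {Γ : Type} [Group Γ] (ρ : Representation E Γ V)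
    (hτ : ∀ x, red (τ x) = red x)
    (hσ : ∀ x : O, σ (algebraMap O E x) = algebraMap O E (τ x))
    (h : V →ₗ[E] V →ₛₗ[(σ : E →+* E)] E) (hn : ∀ x, (∀ y, h y x = 0) → x = 0)
    (κ : Γ → E) (hg : ∀ g x y, h (ρ g x) (ρ g y) = κ g * h x y)
    (hA : ∀ d, 0 < d → 2 * d ≤ finrank E V → ∃ (g : Γ) (κ₀ : O) (D : O[X]), red κ₀ = 1 ∧
      κ g = algebraMap O E κ₀ ∧ D.coeff 0 = 1 ∧
      D.map (algebraMap O E) = (ρ g).charpoly.reverse ∧ (D.map red).natDegree = finrank E V ∧
      ∀ A : R[X], A.natDegree = d → ¬ A * A.reverse ∣ D.map red) :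
    ρ.IsSemisimpleRepresentation := by
  refine semisimple' red τ ρ hτ hσ h hn κ hg fun d hd hd2 => ?_
  obtain ⟨g, κ₀, D, hκ, hκg, hD0, hD, hdeg, hns⟩ := hA d hd hd2
  obtain ⟨P, hPm, hP, hP0, hPr⟩ := exists_char red hD0 (LinearMap.charpoly_monic (ρ g)) hD
    (by rw [hdeg, LinearMap.charpoly_natDegree])
  refine ⟨g, κ₀, P, hκ, hκg, hPm, hP, hP0, ?_⟩
  rw [hPr]
  apply noDual_reverse hns
  rw [Polynomial.coeff_map, hD0, map_one]
  exact one_ne_zero

end Pool.Agent.H313.GE
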