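import Pool.Agent.H313.GE.Cst
import Pool.Agent.H313.GE.Dns

/-!
Euler products over Galois extensions of prime power degree of constant extensions: the divisibility
modulo the prime.
-/

set_option autoImplicit false
set_option linter.all false
set_option maxHeartbeats 4000000

open FF Module

namespace Pool.Agent.H313.GE

open Pool.Agent.W343.BSD Pool.Agent.Y701.QF Pool.Agent.Y701.GV Pool.Agent.Y701.AV
open Pool.Agent.Y701.PE (IsExp sub toC LiesOver cc_toC pw_of sub_eq sub_poly
  sub_sub sub_pow' euler_down kida_series dwork card_res map_ne_of_coeff)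
open Pool.Agent.H123R3.ZT Pool.Agent.Y701.CB
open Polynomial

theorem exp_one {a : ℕ → ℤ} {P : PowerSeries ℤ} (h : IsExp a P) (ha : ∀ m, m ≠ 0 → a m = 0) :
    P = 1 := by
  ext n
  rcases Nat.eq_zero_or_pos n with rfl | hn
  · rw [PowerSeries.coeff_zero_eq_constantCoeff_apply, PowerSeries.coeff_zero_eq_constantCoeff_apply,
      h.1, map_one]
  · have h1 := h.2 n
    rw [Finset.sum_eq_zero, neg_zero] at h1
    · have h2 : (n : ℤ) ≠ 0 := by exact_mod_cast hn.ne'
      rw [(mul_eq_zero.1 h1).resolve_left h2, PowerSeries.coeff_one, if_neg hn.ne']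
    · intro i hi
      have hi' := Finset.mem_range.1 hi
      rw [ha (n - i) (by omega), mul_zero]

variable {k K k' K' k'' L : Type} [Field k] [Finite k] [Field K] [Algebra k K]
  [Field k'] [Finite k'] [Field K'] [Algebra k' K'] [Algebra k k'] [Algebra k K'] [Algebra K K']
  [IsScalarTower k K K'] [IsScalarTower k k' K']
  [Field k''] [Finite k''] [Field L] [Algebra k'' L] [Algebra k' k''] [Algebra k' L]
  [Algebra K' L] [IsScalarTower k' K' L] [IsScalarTower k' k'' L]

theorem tower_dvd (hKc : IsCurveField k K) (hKc' : IsCurveField k' K')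
    (hLc : IsCurveField k'' L) (hfr : finrank K K' = finrank k k')
    {P : Place k K → ℤ[X]} (hP : ∀ v, (P v).coeff 0 = 1)
    {P'' : Place k'' L → ℤ[X]} (hP'' : ∀ w, (P'' w).coeff 0 = 1) (T : Finset (Place k K))
    (hext : ∀ (v : Place k K) (v' : Place k' K') (w : Place k'' L) (e e' f : ℕ), v ∉ T →
      LiesOver v' v e → LiesOver w v' e' → Nat.card (S.Res w) = Nat.card (S.Res v) ^ f →
      IsPower f (P v) (P'' w))
    {Λ : PowerSeries ℤ}
    (hK : Λ * eulerProd (fun v : Place k K => v.deg)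
      (fun v => sub v.deg (P v : PowerSeries ℤ)) = 1)
    {U V : ℤ[X]} (hV : V.coeff 0 = 1) (hUV : Λ * (V : PowerSeries ℤ) = (U : PowerSeries ℤ))
    {R : ℤ[X]} (hL : (R : PowerSeries ℤ) * eulerProd (fun w : Place k'' L => w.deg)
      (fun w => sub w.deg (P'' w : PowerSeries ℤ)) = 1)
    {l : ℕ} [hl : Fact l.Prime] {ζ : ZMod l} (hζ : IsPrimitiveRoot ζ (finrank k k'))
    (hgal : IsGalois K' L) (hpow : ∃ s : ℕ, finrank K' L = l ^ s)
    (hram : ∀ (v' : Place k' K') (w : Place k'' L) (e : ℕ), LiesOver w v' e → e ≠ 1 →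
      ∃ v ∈ T, ∃ e' : ℕ, LiesOver v' v e') :
    R.coeff 0 = 1 ∧ U.coeff 0 = 1 ∧
      (expand ℤ (finrank k k' * finrank k' k'') R).map (Int.castRingHom (ZMod l)) ∣
        (∏ i ∈ Finset.range (finrank k k'), ((U * ∏ v ∈ T, expand ℤ v.deg (P v)).map
          (Int.castRingHom (ZMod l))).comp (C (ζ ^ i) * X)) ^ finrank K' L := by
  classical
  obtain ⟨s, hs⟩ := hpow
  have i0 : FF.IsFF k K := ⟨hKc.essFiniteType, hKc.trdeg_eq_one⟩
  have j1 : Module.Finite k k' := Module.Finite.of_finite
  have j2 : Module.Finite k' k'' := Module.Finite.of_finite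
  have hr : finrank k k' ≠ 0 := finrank_pos.ne'
  have hr2 : finrank k' k'' ≠ 0 := finrank_pos.ne'
  have i2 : FiniteDimensional K K' := Module.finite_of_finrank_pos (by
    rw [hfr]; exact finrank_pos)
  have i1 : FF.IsFF k' K' := ⟨hKc'.essFiniteType, hKc'.trdeg_eq_one⟩
  have i3 : FF.IsFF k K' := isFF_of_finite (K := K)
  have i4 : FF.IsFF k'' L := ⟨hLc.essFiniteType, hLc.trdeg_eq_one⟩
  have i5 : FiniteDimensional K' L := Module.finite_of_finrank_pos (by
    rw [hs]; exact pow_pos hl.out.pos s)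
  have i6 : FF.IsFF k' L := isFF_of_finite (K := K')
  have i7 := hgal
  have hdL : ∀ w : Place k'' L, 0 < w.deg := fun w => Pool.Agent.H525R3.FFp.deg_pos w
  have hdL' : ∀ w : Place k' L, w.deg ≠ 0 := fun w => (Pool.Agent.H525R3.FFp.deg_pos w).ne'
  have hdK : ∀ v : Place k K, v.deg ≠ 0 := fun w => (Pool.Agent.H525R3.FFp.deg_pos w).ne'
  have hdK' : ∀ v : Place k' K', v.deg ≠ 0 := fun w => (Pool.Agent.H525R3.FFp.deg_pos w).ne'
  let OT : Place k'' L → Prop := fun w => ∃ v ∈ T, ∃ (v' : Place k' K') (e e' : ℕ),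
    LiesOver v' v e ∧ LiesOver w v' e'
  have hR0 : R.coeff 0 = 1 := by
    have h1 := cc_euler hP'' hL
    rw [← PowerSeries.coeff_zero_eq_constantCoeff_apply, Polynomial.coeff_coe] at h1
    exact h1
  have hU0 : U.coeff 0 = 1 := by
    have h1 := congrArg PowerSeries.constantCoeff hUV
    rw [map_mul, cc_euler hP hK, one_mul, cc_coe hV,
      ← PowerSeries.coeff_zero_eq_constantCoeff_apply, Polynomial.coeff_coe] at h1
    exact h1.symm
  refine ⟨hR0, hU0, ?_⟩
  -- the places of `L` over `T`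
  obtain ⟨μ, θ, hμ, hm, hroot, hdeg⟩ := exists_gen (k := k) (k' := k') (K' := K')
  choose S1 hS1 hS2 hS3 using fun v : Place k K => const_fiber (K' := K') hμ hm hKc.algClosed hroot
    (hfr.trans hdeg.symm) v
  choose S2 eL fL D using fun v : Place k' K' => exists_galoisFiber (L := L) v
  let WT : Finset (Place k'' L) := T.biUnion fun v =>
    ((S1 v).image fun w => upPlace (k' := k') w).biUnion fun v' =>
      (S2 v').image fun w => upPlace (k' := k'') w
  have hWT : ∀ w, OT w → w ∈ WT := by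
    rintro w ⟨v, hv, v', e, e', h1, h2⟩
    refine Finset.mem_biUnion.2 ⟨v, hv, Finset.mem_biUnion.2 ⟨v', ?_, ?_⟩⟩
    · refine Finset.mem_image.2 ⟨downPlace (k := k) v', hS1 v _ e ⟨h1.1, h1.2⟩, rfl⟩
    · refine Finset.mem_image.2 ⟨downPlace (k := k') w, (D v').mem _ e' ⟨h2.1, h2.2⟩, rfl⟩
  set E : ℤ[X] := ∏ v ∈ T, (if v ∈ T then expand ℤ v.deg (P v) else 1) with hE
  set E'' : ℤ[X] := ∏ w ∈ WT, (if OT w then expand ℤ w.deg (P'' w) else 1) with hE''
  have hEE : E = ∏ v ∈ T, expand ℤ v.deg (P v) := Finset.prod_congr rfl fun v hv => if_pos hv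
  have s1 := euler_split hP (fun v => v ∈ T) T fun v h => h
  have s2 := euler_split hP'' OT WT hWT
  rw [← hE] at s1
  rw [← hE''] at s2
  have cc1 : ∀ v : Place k K, PowerSeries.constantCoeff
      ((if v ∈ T then 1 else P v : ℤ[X]) : PowerSeries ℤ) = 1 := by
    intro v
    split_ifs
    · rw [Polynomial.coe_one, map_one]
    · exact cc_coe (hP v)
  have cc2 : ∀ w : Place k'' L, PowerSeries.constantCoeff
      ((if OT w then 1 else P'' w : ℤ[X]) : PowerSeries ℤ) = 1 := by
    intro v
    split_ifs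
    · rw [Polynomial.coe_one, map_one]
    · exact cc_coe (hP'' v)
  choose a ha using fun v => exists_exp (cc1 v)
  choose a'' ha'' using fun w => exists_exp (cc2 w)
  have hKt : Λ * (E : PowerSeries ℤ) * eulerProd (fun v : Place k K => v.deg)
      (fun v => sub v.deg ((if v ∈ T then 1 else P v : ℤ[X]) : PowerSeries ℤ)) = 1 := by
    rw [mul_assoc, mul_comm (E : PowerSeries ℤ), ← s1, hK]
  have hLt : (R : PowerSeries ℤ) * (E'' : PowerSeries ℤ) *
      eulerProd (fun w : Place k'' L => w.deg)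
      (fun w => sub w.deg ((if OT w then 1 else P'' w : ℤ[X]) : PowerSeries ℤ)) = 1 := by
    rw [mul_assoc, mul_comm (E'' : PowerSeries ℤ), ← s2, hL]
  have huniq : ∀ (v v1 : Place k K) (v' v1' : Place k' K') (w : Place k'' L) (e e' e1 e1' : ℕ),
      LiesOver v' v e → LiesOver w v' e' → LiesOver v1' v1 e1 → LiesOver w v1' e1' → v = v1 := by
    intro v v1 v' v1' w e e' e1 e1' h1 h2 h3 h4
    have h5 : v' = v1' := by
      have h6 : Over (downPlace (k := k') w) v' e' := ⟨h2.1, h2.2⟩
      have h7 : Over (downPlace (k := k') w) v1' e1' := ⟨h4.1, h4.2⟩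
      exact over_unique_base h6 h7
    subst h5
    have h6 : Over (downPlace (k := k) v') v e := ⟨h1.1, h1.2⟩
    have h7 : Over (downPlace (k := k) v') v1 e1 := ⟨h3.1, h3.2⟩
    exact over_unique_base h6 h7
  have haa : ∀ (v : Place k K) (v' : Place k' K') (w : Place k'' L) (e e' f : ℕ),
      LiesOver v' v e → LiesOver w v' e' → Nat.card (S.Res w) = Nat.card (S.Res v) ^ f →
      ∀ m, m ≠ 0 → a'' w m = a v (f * m) := by
    intro v v' w e e' f h1 h2 hcard m hm
    have hf0 : f ≠ 0 := by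
      rintro rfl
      rw [pow_zero, card_res] at hcard
      have h3 : 1 < Nat.card k'' ^ w.deg := Nat.one_lt_pow (hdL w).ne' Finite.one_lt_card
      omega
    by_cases hv : v ∈ T
    · have hw : OT w := ⟨v, hv, v', e, e', h1, h2⟩
      have g1 := ha v
      have g2 := ha'' w
      rw [if_pos hv, Polynomial.coe_one] at g1
      rw [if_pos hw, Polynomial.coe_one] at g2
      rw [exp_unique g2 exp_zero hm, exp_unique g1 exp_zero (Nat.mul_ne_zero hf0 hm)]
    · have hw : ¬ OT w := by
        rintro ⟨v1, hv1, v1', e1, e1', h3, h4⟩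
        exact hv (huniq v v1 v' v1' w e e' e1 e1' h1 h2 h3 h4 ▸ hv1)
      have g1 := ha v
      have g2 := ha'' w
      rw [if_neg hv] at g1
      rw [if_neg hw] at g2
      exact exp_unique g2 (exp_of_power hf0 (hext v v' w e e' f hv h1 h2 hcard) g1) hm
  -- the Euler factors over `K'`
  choose dn fd hdn hdegf hf0 hfdvd using fun w : Place k' K' =>
    exists_down (k := k) (K := K) hKc.algClosed hfr w
  choose P' hP' using fun w : Place k' K' => exists_power (ha (dn w)) (hf0 w)
  set EP := eulerProd (fun w : Place k' K' => w.deg) (fun w => sub w.deg (P' w)) with hEP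
  have hc : PowerSeries.constantCoeff EP = 1 := by
    rw [hEP, ← PowerSeries.coeff_zero_eq_constantCoeff_apply,
      coeff_eulerProd (fun n => places_fin n), PowerSeries.coeff_zero_eq_constantCoeff_apply,
      map_prod]
    refine Finset.prod_eq_one fun v _ => ?_
    rw [Pool.Agent.Y701.PE.cc_sub, (hP' v).1]
  have hK' : PowerSeries.invOfUnit EP 1 * EP = 1 := by
    rw [mul_comm]
    exact PowerSeries.mul_invOfUnit EP 1 (by rw [hc]; rfl)
  set Λ' := PowerSeries.invOfUnit EP 1 with hΛ'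
  have hd0 : ∀ v : Place k K, 0 < v.deg := fun v => Pool.Agent.H525R3.FFp.deg_pos v
  have haa1 : ∀ (v : Place k K) (w : Place k K') (n f : ℕ), Over w v n → w.deg = v.deg * f →
      ∀ m, m ≠ 0 → (fun m => a (dn (upPlace (k' := k') w)) (fd (upPlace (k' := k') w) * m)) m =
        a v (f * m) := by
    intro v w n f h hd m _
    have h1 : dn (upPlace (k' := k') w) = v := by
      have h2 : Over w (dn (upPlace (k' := k') w)) 1 := hdn (upPlace (k' := k') w)
      exact over_unique_base h2 h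
    have h3 : w.deg = (dn (upPlace (k' := k') w)).deg * fd (upPlace (k' := k') w) :=
      hdegf (upPlace (k' := k') w)
    rw [h1, hd] at h3
    have h4 : f = fd (upPlace (k' := k') w) := Nat.eq_of_mul_eq_mul_left (hd0 v) h3
    simp only
    rw [h1, h4]
  have key1 := Pool.Agent.Y701.GV.base_change (R := ZMod l) hKc.algClosed hfr ha hP' haa1 hKt hK'
    hζ hr
  -- the ramified places
  have hramfin := Pool.Agent.Y701.R1.ram_finite (k := k') (K := K') (L := L)
  set B : Finset (Place k' K') := hramfin.toFinset with hB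
  have hmemB : ∀ v' : Place k' K', v' ∈ B ↔ ∃ (w : Place k' L) (e : ℕ), Over w v' e ∧ e ≠ 1 := by
    intro v'
    rw [hB, Set.Finite.mem_toFinset]
    rfl
  have hB1 : ∀ v' : Place k' K', v' ∉ B → eL v' = 1 := by
    intro v' hv'
    by_contra hne
    apply hv'
    rw [hmemB]
    obtain ⟨w, hw⟩ := (D v').nonempty
    exact ⟨w, eL v', (D v').isOver w hw, hne⟩
  -- the power sums over `L`
  have haa2 : ∀ (v' : Place k' K') (w : Place k' L) (n f : ℕ), Over w v' n →
      w.deg = v'.deg * f → ∀ m, m ≠ 0 → a'' (upPlace w) m =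
        (fun m => a (dn v') (fd v' * m)) (f * m) := by
    intro v' w n f h hd m hm
    have h1 : Nat.card (S.Res (upPlace (k' := k'') w)) = Nat.card (S.Res (dn v')) ^ (fd v' * f) := by
      have e1 : Nat.card (S.Res (upPlace (k' := k'') w)) = Nat.card (S.Res w) := rfl
      have e2 : Nat.card (S.Res v') = Nat.card (S.Res (downPlace (k := k) v')) := rfl
      have e3 : Nat.card (S.Res w) = Nat.card (S.Res v') ^ f := by
        rw [card_res, card_res, hd, pow_mul]
      rw [e1, e3, e2, card_res, hdegf v', card_res,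
        ← pow_mul, ← pow_mul, mul_assoc]
    have h2 := haa (dn v') v' (upPlace (k' := k'') w) 1 n (fd v' * f)
      ⟨(hdn v').1, (hdn v').2⟩ ⟨h.1, h.2⟩ h1 m hm
    rw [h2]
    simp only
    rw [mul_assoc]
  -- the Euler products modulo `l`
  set g : Place k' K' → PowerSeries (ZMod l) := fun v => redL l (sub v.deg (P' v)) with hg
  set g' : Place k' L → PowerSeries (ZMod l) := fun w => redL l (sub w.deg
    ((if OT (upPlace (k' := k'') w) then 1 else P'' (upPlace w) : ℤ[X]) : PowerSeries ℤ)) with hg'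
  have hg1 : ∀ v, (PowerSeries.X : PowerSeries (ZMod l)) ^ v.deg ∣ g v - 1 := by
    intro v
    have h := map_dvd (redL l) (Pool.Agent.Y701.PE.sub_mod (hdK' v) (hP' v).1)
    rwa [map_sub, map_one, map_pow, PowerSeries.map_X] at h
  have hg1' : ∀ w, (PowerSeries.X : PowerSeries (ZMod l)) ^ w.deg ∣ g' w - 1 := by
    intro w
    have h := map_dvd (redL l) (Pool.Agent.Y701.PE.sub_mod (hdL' w) (ha'' (upPlace w)).1)
    rwa [map_sub, map_one, map_pow, PowerSeries.map_X] at h
  have hgg : ∀ v, ∀ w ∈ S2 v, g' w = g v ^ fL v := by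
    intro v w hw
    obtain ⟨j, hj⟩ := fiber_pow (D v) hs
    have h1 := dwork (l := l) (i := j) (hP' v) (ha'' (upPlace w)) (by
      intro n hn0
      rw [← hj]
      exact haa2 v w _ (fL v) ((D v).isOver w hw) ((D v).deg w hw) n hn0)
    rw [← hj] at h1
    have hf0 : fL v ≠ 0 := by
      rw [hj]
      exact pow_ne_zero _ hl.out.ne_zero
    show redL l (sub w.deg _) = redL l (sub v.deg _) ^ fL v
    rw [(D v).deg w hw, ← sub_sub _ _ (hdK' v) hf0, Pool.Agent.Y701.PE.map_sub', h1,
      sub_pow' (hdK' v), Pool.Agent.Y701.PE.map_sub']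
  have hK1 : redL l Λ' * eulerProd (fun v : FF.Place k' K' => v.deg) g = 1 := by
    have h := congrArg (redL l) hK'
    rwa [map_mul, map_one, hEP, map_eulerProd (fun n => places_fin n)] at h
  have hLk : PowerSeries.expand (finrank k' k'') hr2 ((R : PowerSeries ℤ) * (E'' : PowerSeries ℤ)) *
      eulerProd (fun w : Place k' L => w.deg) (fun w => sub w.deg
        ((if OT (upPlace (k' := k'') w) then 1 else P'' (upPlace w) : ℤ[X]) : PowerSeries ℤ)) =
      1 := by
    rw [euler_down (P' := fun w => ((if OT w then 1 else P'' w : ℤ[X]) : PowerSeries ℤ)) hr2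
      fun w => (ha'' w).1, ← map_mul, hLt, map_one]
  have hL1 : redL l (PowerSeries.expand (finrank k' k'') hr2
      ((R : PowerSeries ℤ) * (E'' : PowerSeries ℤ))) *
      eulerProd (fun v : FF.Place k' L => v.deg) g' = 1 := by
    have h := congrArg (redL l) hLk
    rwa [map_mul, map_one, map_eulerProd (fun n => places_fin n)] at h
  have key := kida_series hs D B hB1 hg1 hg1' hgg hK1 hL1
  have hgT : ∀ v ∈ B, g v = 1 := by
    intro v' hv'
    obtain ⟨w, n, hov, hn1⟩ := (hmemB v').1 hv'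
    obtain ⟨v, hv, e', h1⟩ := hram v' (upPlace (k' := k'') w) n ⟨hov.1, hov.2⟩ hn1
    have h2 : dn v' = v := by
      have h3 : Over (downPlace (k := k) v') (dn v') 1 := hdn v'
      have h4 : Over (downPlace (k := k) v') v e' := ⟨h1.1, h1.2⟩
      exact over_unique_base h3 h4
    have h3 : P' v' = 1 := by
      apply exp_one (hP' v')
      intro m hm
      have g1 := ha (dn v')
      rw [if_pos (h2 ▸ hv), Polynomial.coe_one] at g1
      exact exp_unique g1 exp_zero (Nat.mul_ne_zero (hf0 v') hm)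
    show redL l (sub v'.deg (P' v')) = 1
    rw [h3, sub_eq (hdK' v'), map_one, map_one]
  have e1 : ∏ v ∈ B, g v ^ l ^ s = 1 := Finset.prod_eq_one fun v hv => by rw [hgT v hv, one_pow]
  have e2 : ∏ v ∈ B, g v ^ (l ^ s / eL v) = 1 :=
    Finset.prod_eq_one fun v hv => by rw [hgT v hv, one_pow]
  rw [e1, e2, mul_one, mul_one] at key
  have hcoe : ((R : PowerSeries ℤ) * (E'' : PowerSeries ℤ)) =
      ((R * E'' : ℤ[X]) : PowerSeries ℤ) := by
    rw [Polynomial.coe_mul]
  rw [hcoe, ← Pool.Agent.W343.BSD.coe_expand, redL_poly] at key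
  -- the product over the roots of unity
  have key2 := congrArg (PowerSeries.expand (finrank k k') hr) key
  rw [map_pow] at key2
  have key3 : (∏ i ∈ Finset.range (finrank k k'), PowerSeries.rescale (ζ ^ i)
      (redL l (Λ * (E : PowerSeries ℤ)))) ^ l ^ s =
      (((expand ℤ (finrank k k' * finrank k' k'') (R * E'')).map (Int.castRingHom (ZMod l)) :
        (ZMod l)[X]) : PowerSeries (ZMod l)) := by
    rw [expand_mul, Polynomial.map_expand, coe_expand' hr, ← key2, key1]
  have hUVt : redL l (Λ * (E : PowerSeries ℤ)) *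
      ((V.map (Int.castRingHom (ZMod l)) : (ZMod l)[X]) : PowerSeries (ZMod l)) =
      (((U * E).map (Int.castRingHom (ZMod l)) : (ZMod l)[X]) : PowerSeries (ZMod l)) := by
    rw [← redL_poly, ← redL_poly, ← map_mul, Polynomial.coe_mul, ← hUV]
    congr 1
    ring
  have key4 : (((∏ i ∈ Finset.range (finrank k k'), ((U * E).map (Int.castRingHom (ZMod l))).comp
      (C (ζ ^ i) * X)) ^ l ^ s : (ZMod l)[X]) : PowerSeries (ZMod l)) =
      (((expand ℤ (finrank k k' * finrank k' k'') (R * E'')).map (Int.castRingHom (ZMod l)) *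
        (∏ i ∈ Finset.range (finrank k k'), (V.map (Int.castRingHom (ZMod l))).comp
          (C (ζ ^ i) * X)) ^ l ^ s : (ZMod l)[X]) : PowerSeries (ZMod l)) := by
    have c1 := Pool.Agent.W343.BSD.coe_prod' (Finset.range (finrank k k'))
      (fun i => ((U * E).map (Int.castRingHom (ZMod l))).comp (C (ζ ^ i) * X))
    have c2 := Pool.Agent.W343.BSD.coe_prod' (Finset.range (finrank k k'))
      (fun i => (V.map (Int.castRingHom (ZMod l))).comp (C (ζ ^ i) * X))
    rw [Polynomial.coe_pow, Polynomial.coe_mul, Polynomial.coe_pow, ← key3, ← mul_pow, c1, c2,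
      ← Finset.prod_mul_distrib]
    congr 1
    refine Finset.prod_congr rfl fun i _ => ?_
    rw [← rescale_coe, ← rescale_coe, ← map_mul, hUVt]
  have key5 := Polynomial.coe_injective _ key4
  rw [← hEE, hs, key5, map_mul, Polynomial.map_mul]
  exact (Dvd.intro _ rfl).trans (Dvd.intro _ rfl)

/-- **The bound for the primes of a set of positive density.** -/
theorem tower_le (hKc : IsCurveField k K) (hKc' : IsCurveField k' K')
    (hLc : IsCurveField k'' L) (hfr : finrank K K' = finrank k k')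
    {P : Place k K → ℤ[X]} (hP : ∀ v, (P v).coeff 0 = 1)
    {P'' : Place k'' L → ℤ[X]} (hP'' : ∀ w, (P'' w).coeff 0 = 1) (T : Finset (Place k K))
    (hext : ∀ (v : Place k K) (v' : Place k' K') (w : Place k'' L) (e e' f : ℕ), v ∉ T →
      LiesOver v' v e → LiesOver w v' e' → Nat.card (S.Res w) = Nat.card (S.Res v) ^ f →
      IsPower f (P v) (P'' w))
    {Λ : PowerSeries ℤ}
    (hK : Λ * eulerProd (fun v : Place k K => v.deg)
      (fun v => sub v.deg (P v : PowerSeries ℤ)) = 1)
    {U V : ℤ[X]} (hV : V.coeff 0 = 1) (hUV : Λ * (V : PowerSeries ℤ) = (U : PowerSeries ℤ))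
    {R : ℤ[X]} (hL : (R : PowerSeries ℤ) * eulerProd (fun w : Place k'' L => w.deg)
      (fun w => sub w.deg (P'' w : PowerSeries ℤ)) = 1)
    {l : ℕ} [hl : Fact l.Prime] (hlk : (l : k) ≠ 0) (hdvd : finrank k k' ∣ l - 1)
    (hgal : IsGalois K' L) (hpow : ∃ s : ℕ, finrank K' L = l ^ s)
    (hram : ∀ (v' : Place k' K') (w : Place k'' L) (e : ℕ), LiesOver w v' e → e ≠ 1 →
      ∃ v ∈ T, ∃ e' : ℕ, LiesOver v' v e') (b : ℕ)
    {t : Multiset ℕ} {H₂ G : ℤ[X]} {M : ℕ}
    (hB : U * ∏ v ∈ T, expand ℤ v.deg (P v) = cprod ℤ (Nat.card k ^ b) t * H₂)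
    (hH₂ : IsUnit (H₂.coeff 0))
    (hM : ∀ m, 0 < m → m.totient ≤ (cprod ℤ (Nat.card k ^ b) t * H₂).natDegree → m ∣ M)
    (hG : H₂ ∣ expand ℤ M G)
    (hno : ∀ z : ZMod l, (G.map (Int.castRingHom (ZMod l))).eval z ≠ 0) :
    finrank k' k'' * geo (Nat.card k'' ^ b) R ≤ finrank K' L * (t.map Nat.totient).sum := by
  classical
  obtain ⟨ζ, hζ⟩ := Pool.Agent.Y701.R1.exists_prim hdvd
  obtain ⟨hR0, hU0, hd⟩ := tower_dvd hKc hKc' hLc hfr hP hP'' T hext hK hV hUV hL hζ hgal hpow hram
  have j1 : Module.Finite k k' := Module.Finite.of_finite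
  have j2 : Module.Finite k' k'' := Module.Finite.of_finite
  have i0 : FF.IsFF k K := ⟨hKc.essFiniteType, hKc.trdeg_eq_one⟩
  have i1 : FF.IsFF k' K' := ⟨hKc'.essFiniteType, hKc'.trdeg_eq_one⟩
  have i4 : FF.IsFF k'' L := ⟨hLc.essFiniteType, hLc.trdeg_eq_one⟩
  have hlk' : (l : k') ≠ 0 := by
    rw [← map_natCast (algebraMap k k')]
    exact (_root_.map_ne_zero _).2 hlk
  obtain ⟨s, hs⟩ := hpow
  have i5 : FiniteDimensional K' L := Module.finite_of_finrank_pos (by
    rw [hs]; exact pow_pos hl.out.pos s)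
  have i6 : FF.IsFF k' L := isFF_of_finite (K := K')
  have i7 := hgal
  obtain ⟨j, hj⟩ : ∃ j, finrank k' k'' = l ^ j :=
    constants_pow (k := k') (K := K') (k' := k'') (L := L) hKc'.algClosed hs finrank_pos.ne'
  have hQ : ((Nat.card k ^ b : ℕ) : ZMod l) ≠ 0 := by
    rw [Nat.cast_pow]
    exact pow_ne_zero b (card_ne_zero_mod (k := k) hlk)
  rw [hB] at hd
  have h1 := dens_le hdvd hj hζ hQ (A := R) (by rw [hR0]; exact isUnit_one) hH₂ hM hG hno hd
  have h2 : (Nat.card k ^ b) ^ (finrank k k' * finrank k' k'') = Nat.card k'' ^ b := by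
    rw [Module.natCard_eq_pow_finrank (K := k') (V := k''),
      Module.natCard_eq_pow_finrank (K := k) (V := k'), ← pow_mul, ← pow_mul, ← pow_mul]
    congr 1
    ring
  rwa [h2] at h1

end Pool.Agent.H313.GE
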