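import Pool.Agent.H313.GE.Cov
import Pool.Agent.H313.GE.Rep

/-!
The zeros `ζ / Q` of the members of a family of polynomials indexed by characters, and the exceptional
twists over all the finite extensions.
-/

set_option autoImplicit false
set_option linter.all false
set_option maxHeartbeats 4000000

open Module NumberField Polynomial

namespace Pool.Agent.H313.GE

open Pool.Agent.H313.CC Pool.Agent.W343.BSD
open Pool.Agent.TH639.SG (eq_one_of_pow)
open Pool.Agent.TH639.SC (exists_hom)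
open Pool.Agent.TH639.CK (card_dvd fiber_le)

section om

variable {L : Type} [Field L]

open Classical in
/-- The number of the zeros `x` of `p`, with multiplicities, such that `Q x` is a root of unity. -/
noncomputable def geoO (Q : ℕ) (p : L[X]) : ℕ :=
  Multiset.card (p.roots.filter fun x => ∃ n : ℕ, 0 < n ∧ ((Q : L) * x) ^ n = 1)

theorem geoO_prod {ι : Type} (Q : ℕ) (s : Finset ι) (f : ι → L[X]) (h : ∀ i ∈ s, f i ≠ 0) :
    geoO Q (∏ i ∈ s, f i) = ∑ i ∈ s, geoO Q (f i) := by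
  classical
  unfold geoO
  induction s using Finset.induction_on with
  | empty => simp
  | insert i s hi ih =>
    rw [Finset.prod_insert hi, Finset.sum_insert hi, roots_mul, Multiset.filter_add,
      Multiset.card_add, ih fun j hj => h j (Finset.mem_insert_of_mem hj)]
    exact mul_ne_zero (h i (Finset.mem_insert_self _ _))
      (Finset.prod_ne_zero_iff.2 fun j hj => h j (Finset.mem_insert_of_mem hj))

theorem geoO_int [CharZero L] {Q : ℕ} (hQ : Q ≠ 0) {D : ℤ[X]} (hD : IsUnit (D.coeff 0)) :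
    geoO Q (D.map (Int.castRingHom L)) ≤ geo Q D := by
  classical
  obtain ⟨s, B, hs, hDB, hno, hB, hgeo⟩ := exists_decomp hQ _ D le_rfl hD
  have hDne : D.map (Int.castRingHom L) ≠ 0 := by
    intro h
    have h1 := congrArg (fun p => Polynomial.coeff p 0) h
    simp only [Polynomial.coeff_map, coeff_zero] at h1
    have h2 := hD.map (Int.castRingHom L)
    rw [h1] at h2
    exact not_isUnit_zero h2
  have hmul : D.map (Int.castRingHom L) = cprod L Q s * B.map (Int.castRingHom L) := by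
    rw [hDB, Polynomial.map_mul, cprod_map]
  have hroots := Polynomial.roots_mul (p := cprod L Q s) (q := B.map (Int.castRingHom L))
    (by rw [← hmul]; exact hDne)
  rw [← hmul] at hroots
  unfold geoO
  rw [hroots, Multiset.filter_add, Multiset.card_add, hgeo]
  have h1 : ((B.map (Int.castRingHom L)).roots.filter
      fun x => ∃ n : ℕ, 0 < n ∧ ((Q : L) * x) ^ n = 1) = 0 := by
    rw [Multiset.filter_eq_nil]
    rintro x hx ⟨n, hn, hxn⟩
    have h2 := (mem_roots'.1 hx).2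
    rw [IsRoot.def, eval_map] at h2
    exact no_zero_of_uni hB hQ hno hn hxn h2
  rw [h1, Multiset.card_zero, add_zero]
  refine (Multiset.card_le_card (Multiset.filter_le _ _)).trans ((card_roots' _).trans ?_)
  have hQL : (Q : L) ≠ 0 := by exact_mod_cast hQ
  clear hmul hroots hDB hgeo
  induction s using Multiset.induction_on with
  | empty => simp [cprod_zero]
  | cons N s ih =>
    rw [cprod_cons, Multiset.map_cons, Multiset.sum_cons]
    refine (natDegree_mul_le).trans (Nat.add_le_add ?_ (ih fun M hM => hs M (Multiset.mem_cons_of_mem hM)))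
    unfold cyc
    rw [natDegree_comp, natDegree_C_mul hQL, natDegree_X, mul_one, natDegree_cyclotomic]

theorem geoO_conj {K : Type} [Field K] [Algebra K L] [IsAlgClosure K L] (Q : ℕ) (σ : K ≃+* K)
    (p : K[X]) : geoO Q ((p.map (σ : K →+* K)).map (algebraMap K L)) =
      geoO Q (p.map (algebraMap K L)) := by
  classical
  have hLc : IsAlgClosed L := IsAlgClosure.isAlgClosed K
  set τ := IsAlgClosure.equivOfEquiv L L σ with hτ
  have h1 : (p.map (σ : K →+* K)).map (algebraMap K L) =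
      (p.map (algebraMap K L)).map (τ : L →+* L) := by
    rw [Polynomial.map_map, Polynomial.map_map]
    congr 1
    exact (IsAlgClosure.equivOfEquiv_comp_algebraMap L L σ).symm
  unfold geoO
  rw [h1, Polynomial.Splits.roots_map_of_injective (i := (τ : L →+* L))
    (IsAlgClosed.splits (p.map (algebraMap K L))) τ.injective,
    Multiset.filter_map, Multiset.card_map]
  congr 1
  refine Multiset.filter_congr fun x _ => ?_
  simp only [Function.comp_apply]
  refine exists_congr fun n => and_congr_right fun _ => ?_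
  have h2 : ((Q : L) * (τ : L →+* L) x) ^ n = (τ : L →+* L) (((Q : L) * x) ^ n) := by
    rw [map_pow, map_mul, map_natCast]
  rw [h2]
  exact map_eq_one_iff (τ : L →+* L) τ.injective

end om

section fix

variable {K : Type} [Field K] [NumberField K] [IsGalois ℚ K]

/-- polynomials which are fixed by the Galois group -/
theorem exists_int (p : (𝓞 K)[X])
    (h : ∀ σ : K ≃ₐ[ℚ] K, p.map (RingOfIntegers.mapRingHom ((σ : K →ₐ[ℚ] K) : K →+* K)) = p) :
    ∃ D : ℤ[X], D.map (algebraMap ℤ (𝓞 K)) = p := by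
  have h1 : p ∈ Polynomial.lifts (algebraMap ℤ (𝓞 K)) := by
    rw [Polynomial.lifts_iff_coeff_lifts]
    intro n
    have h2 : ∀ σ : K ≃ₐ[ℚ] K, σ (algebraMap (𝓞 K) K (p.coeff n)) = algebraMap (𝓞 K) K (p.coeff n) := by
      intro σ
      have h3 := congrArg (fun q => algebraMap (𝓞 K) K (Polynomial.coeff q n)) (h σ)
      simp only [Polynomial.coeff_map] at h3
      exact h3
    obtain ⟨c, hc⟩ := (IsGalois.mem_range_algebraMap_iff_fixed (F := ℚ) _).2 h2
    have h4 : IsIntegral ℤ c := by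
      have h5 : IsIntegral ℤ (algebraMap ℚ K c) := by
        rw [hc]
        exact (p.coeff n).2
      exact (isIntegral_algebraMap_iff (algebraMap ℚ K).injective).1 h5
    obtain ⟨m, hm⟩ := (IsIntegrallyClosed.isIntegral_iff (R := ℤ) (K := ℚ)).1 h4
    refine ⟨m, ?_⟩
    apply RingOfIntegers.coe_injective
    rw [← hc, ← hm]
    have h6 : algebraMap (𝓞 K) K (algebraMap ℤ (𝓞 K) m) = algebraMap ℤ K m := rfl
    refine h6.trans ?_
    rw [← IsScalarTower.algebraMap_apply]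
  obtain ⟨D, hD⟩ := (Polynomial.mem_lifts _).1 h1
  exact ⟨D, hD⟩

/-- conjugation -/
theorem exists_conj3 {N : ℕ} (hN : 0 < N) {ω : K} (hω : IsPrimitiveRoot ω N) {s : ℕ}
    (hs : s.Coprime N) : ∃ σ : K ≃ₐ[ℚ] K, ∀ x : 𝓞 K, x ^ N = 1 →
      RingOfIntegers.mapRingHom ((σ : K →ₐ[ℚ] K) : K →+* K) x = x ^ s := by
  have hω' := hω.pow_of_coprime s hs
  have h1 : IsConjRoot ℚ (ω ^ s) ω := by
    show minpoly ℚ (ω ^ s) = minpoly ℚ ω
    rw [← Polynomial.cyclotomic_eq_minpoly_rat hω hN, ← Polynomial.cyclotomic_eq_minpoly_rat hω' hN]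
  obtain ⟨σF, hspec⟩ := isConjRoot_iff_exists_algEquiv.1 h1
  refine ⟨σF, fun x hx => ?_⟩
  have hx' : (algebraMap (𝓞 K) K x) ^ N = 1 := by
    rw [← map_pow, hx, map_one]
  have : NeZero N := ⟨hN.ne'⟩
  obtain ⟨i, -, hi⟩ := hω.eq_pow_of_pow_eq_one hx'
  apply RingOfIntegers.coe_injective
  show σF (algebraMap (𝓞 K) K x) = algebraMap (𝓞 K) K (x ^ s)
  rw [map_pow, ← hi, map_pow, hspec, ← pow_mul, ← pow_mul, mul_comm]

end fix

section count

variable {K : Type} [Field K] [NumberField K] [IsGalois ℚ K]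

/-- **The number of the zeros `ζ / Q` of one member of the family.** -/
theorem count_le {ℓ : ℕ} [hℓ : Fact ℓ.Prime] (V : (𝓞 K)[X]) (hV0 : V.coeff 0 = 1)
    {W₁ W₂ : ℤ[X]} (hW₂ : W₂.coeff 0 = 1)
    (hmod : ∀ (R : Type) [Field R] [CharP R ℓ] (ρ : 𝓞 K →+* R),
      V.map ρ * W₂.map (Int.castRingHom R) = W₁.map (Int.castRingHom R))
    {R : Type} [Field R] [CharP R ℓ] (ρ : 𝓞 K →+* R)
    {Q : ℕ} (hQ0 : Q ≠ 0) (hQ : (Q : ZMod ℓ) = 1) {t : Multiset ℕ} (ht : ∀ m ∈ t, 0 < m)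
    {H : (ZMod ℓ)[X]} (h₁ : W₁.map (Int.castRingHom (ZMod ℓ)) =
      W₂.map (Int.castRingHom (ZMod ℓ)) * (t.map fun m => cyclotomic m (ZMod ℓ)).prod * H)
    (hH : ∀ m : ℕ, 0 < m → ¬ ℓ ∣ m → ¬ cyclotomic m (ZMod ℓ) ∣ H)
    (L : Type) [Field L] [CharZero L] [Algebra K L] [IsAlgClosure K L] :
    geoO Q ((V.map (algebraMap (𝓞 K) K)).map (algebraMap K L)) ≤ (t.map Nat.totient).sum := by
  classical
  set σO : (K ≃ₐ[ℚ] K) → (𝓞 K →+* 𝓞 K) := fun σ =>
    RingOfIntegers.mapRingHom ((σ : K →ₐ[ℚ] K) : K →+* K) with hσO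
  obtain ⟨D, hD⟩ := exists_int (∏ σ : K ≃ₐ[ℚ] K, V.map (σO σ)) (by
    intro τ
    rw [Polynomial.map_prod]
    refine (Fintype.prod_equiv (Equiv.mulLeft τ) _ _ fun σ => ?_)
    rw [Polynomial.map_map]
    congr 1)
  have hZ : Function.Injective (algebraMap ℤ (𝓞 K)) := RingHom.injective_int _
  have hD0 : D.coeff 0 = 1 := by
    apply hZ
    rw [← Polynomial.coeff_map, hD, Polynomial.coeff_zero_prod, map_one]
    exact Finset.prod_eq_one fun σ _ => by rw [Polynomial.coeff_map, hV0, map_one]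
  set f := Fintype.card (K ≃ₐ[ℚ] K) with hf
  have hfpos : 0 < f := Fintype.card_pos
  -- the reduction
  have hred : (D * W₂ ^ f).map (Int.castRingHom (ZMod ℓ)) =
      (W₁ ^ f * 1 ^ 0).map (Int.castRingHom (ZMod ℓ)) := by
    apply map_inj (R := R)
    have h1 : D.map (Int.castRingHom R) = (D.map (algebraMap ℤ (𝓞 K))).map ρ := by
      rw [Polynomial.map_map]
      congr 1
      exact RingHom.ext_int _ _
    rw [Polynomial.map_mul, h1, hD, Polynomial.map_prod, Polynomial.map_pow, pow_zero, mul_one,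
      Polynomial.map_pow, hf, ← Finset.card_univ, ← Finset.prod_const, ← Finset.prod_const,
      ← Finset.prod_mul_distrib]
    refine Finset.prod_congr rfl fun σ _ => ?_
    rw [Polynomial.map_map]
    exact hmod R (ρ.comp (σO σ))
  have hgeo := cover_bound (ℓ := ℓ) hQ0 hQ hred hD0 hW₂ ht (t₂ := 0) (by simp) h₁ (H₂ := 1)
    (by simp) (by rw [mul_one]; exact hH)
  rw [zero_mul, add_zero] at hgeo
  -- the zeros
  have hconj : ∀ σ : K ≃ₐ[ℚ] K, geoO Q (((V.map (σO σ)).map (algebraMap (𝓞 K) K)).map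
      (algebraMap K L)) = geoO Q ((V.map (algebraMap (𝓞 K) K)).map (algebraMap K L)) := by
    intro σ
    have h2 := geoO_conj (L := L) Q (σ : K ≃+* K) (V.map (algebraMap (𝓞 K) K))
    rw [← h2]
    congr 2
    rw [Polynomial.map_map, Polynomial.map_map]
    congr 1
  have hVne : ∀ σ : K ≃ₐ[ℚ] K, ((V.map (σO σ)).map (algebraMap (𝓞 K) K)).map
      (algebraMap K L) ≠ 0 := by
    intro σ h
    have h3 := congrArg (fun p => Polynomial.coeff p 0) h
    simp only [Polynomial.coeff_map, hV0, map_one, coeff_zero] at h3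
    exact one_ne_zero h3
  have hsum : geoO Q (D.map (Int.castRingHom L)) =
      f * geoO Q ((V.map (algebraMap (𝓞 K) K)).map (algebraMap K L)) := by
    have h1 : D.map (Int.castRingHom L) = ∏ σ : K ≃ₐ[ℚ] K,
        ((V.map (σO σ)).map (algebraMap (𝓞 K) K)).map (algebraMap K L) := by
      rw [← Polynomial.map_prod, ← Polynomial.map_prod, ← hD, Polynomial.map_map,
        Polynomial.map_map]
      congr 1
      exact RingHom.ext_int _ _
    rw [h1, geoO_prod Q _ _ fun σ _ => hVne σ, Finset.sum_congr rfl fun σ _ => hconj σ,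
      Finset.sum_const, Finset.card_univ, smul_eq_mul]
  have h4 := (geoO_int (L := L) hQ0 (by rw [hD0]; exact isUnit_one)).trans hgeo
  rw [hsum] at h4
  exact Nat.le_of_mul_le_mul_left h4 hfpos

end count

section exc

variable {k : Type} [Field k] [Finite k] {K : Type} [Field K] [NumberField K]
  {L : Type} [Field L] [CharZero L] [Algebra K L]

/-- the exceptional set for one character -/
theorem exc_le {ψ : MulChar k (𝓞 K)} {e : ℕ} (he : 0 < e) (hψ : orderOf ψ = e) (V : (𝓞 K)[X])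
    (hV0 : V.coeff 0 = 1) (Q r : ℕ) (hr : 0 < r) (T : Finset kˣ)
    (hT : ∀ u ∈ T, ∃ x : L, ((V.map (algebraMap (𝓞 K) K)).map (algebraMap K L)).eval x = 0 ∧
      algebraMap K L (algebraMap (𝓞 K) K (ψ (u : k))) = ((Q : L) * x) ^ r) :
    T.card * e ≤ (Nat.card k - 1) *
      geoO Q ((V.map (algebraMap (𝓞 K) K)).map (algebraMap K L)) := by
  classical
  set p : L[X] := (V.map (algebraMap (𝓞 K) K)).map (algebraMap K L) with hp
  have hpne : p ≠ 0 := by
    intro h
    have h3 := congrArg (fun p => Polynomial.coeff p 0) h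
    simp only [hp, Polynomial.coeff_map, hV0, map_one, coeff_zero] at h3
    exact one_ne_zero h3
  choose! x hx1 hx2 using hT
  set φ : 𝓞 K →+* L := (algebraMap K L).comp (algebraMap (𝓞 K) K) with hφ
  have hφi : Function.Injective φ :=
    (algebraMap K L).injective.comp RingOfIntegers.coe_injective
  set S : Finset L := (p.roots.filter fun x => ∃ n : ℕ, 0 < n ∧ ((Q : L) * x) ^ n = 1).toFinset
    with hS
  have hmem : ∀ u ∈ T, x u ∈ S := by
    intro u hu
    rw [hS, Multiset.mem_toFinset, Multiset.mem_filter]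
    refine ⟨(mem_roots hpne).2 (hx1 u hu), r * e, Nat.mul_pos hr he, ?_⟩
    have h1 : φ (ψ (u : k)) ^ e = 1 := by
      rw [← map_pow, ← MulChar.pow_apply' ψ he.ne', ← hψ, pow_orderOf_eq_one,
        MulChar.one_apply u.isUnit, map_one]
    have h2 : φ (ψ (u : k)) = ((Q : L) * x u) ^ r := hx2 u hu
    rw [pow_mul, ← h2, h1]
  have hfib : ∀ z ∈ T.image x, ((T.filter fun u => x u = z).card) ≤ (Nat.card k - 1) / e := by
    intro z hz
    rw [Nat.le_div_iff_mul_le he, ← hψ]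
    refine fiber_le ψ _ ?_
    intro u hu u' hu'
    rw [Finset.mem_filter] at hu hu'
    apply hφi
    have h2 : φ (ψ (u : k)) = ((Q : L) * x u) ^ r := hx2 u hu.1
    have h3 : φ (ψ (u' : k)) = ((Q : L) * x u') ^ r := hx2 u' hu'.1
    rw [hu.2] at h2
    rw [hu'.2] at h3
    exact h2.trans h3.symm
  have hcard : T.card ≤ (Nat.card k - 1) / e * (T.image x).card :=
    Finset.card_le_mul_card_image T _ hfib
  have hone : (T.image x).card ≤ geoO Q p := by
    refine (Finset.card_le_card (Finset.image_subset_iff.2 hmem)).trans ?_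
    rw [hS]
    exact (Multiset.toFinset_card_le _)
  calc T.card * e ≤ (Nat.card k - 1) / e * (T.image x).card * e := Nat.mul_le_mul_right _ hcard
    _ = (Nat.card k - 1) / e * e * (T.image x).card := by ring
    _ ≤ (Nat.card k - 1) * (T.image x).card := Nat.mul_le_mul_right _ (Nat.div_mul_le_self _ _)
    _ ≤ _ := Nat.mul_le_mul_left _ hone

end exc

section tower

variable {k : Type} [Field k] [Finite k] {K : Type} [Field K] [NumberField K] [IsGalois ℚ K]
  {L : Type} [Field L] [CharZero L] [Algebra K L] [IsAlgClosure K L]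

/-- the evaluation of an integral polynomial in `L` -/
theorem eval_conj (σ : K ≃ₐ[ℚ] K) (V : (𝓞 K)[X]) :
    ∃ τ : L ≃+* L, (∀ y : 𝓞 K, τ (algebraMap K L (algebraMap (𝓞 K) K y)) =
      algebraMap K L (algebraMap (𝓞 K) K
        (RingOfIntegers.mapRingHom ((σ : K →ₐ[ℚ] K) : K →+* K) y))) ∧
      ∀ x : L, (((V.map (RingOfIntegers.mapRingHom ((σ : K →ₐ[ℚ] K) : K →+* K))).map
        (algebraMap (𝓞 K) K)).map (algebraMap K L)).eval (τ x) =
        τ (((V.map (algebraMap (𝓞 K) K)).map (algebraMap K L)).eval x) := by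
  have hLc : IsAlgClosed L := IsAlgClosure.isAlgClosed K
  set τ := IsAlgClosure.equivOfEquiv L L (σ : K ≃+* K) with hτ
  have h0 : ∀ y : K, τ (algebraMap K L y) = algebraMap K L (σ y) := fun y =>
    IsAlgClosure.equivOfEquiv_algebraMap L L (σ : K ≃+* K) y
  refine ⟨τ, fun y => h0 _, fun x => ?_⟩
  have h1 : ((V.map (RingOfIntegers.mapRingHom ((σ : K →ₐ[ℚ] K) : K →+* K))).map
        (algebraMap (𝓞 K) K)).map (algebraMap K L) =
      ((V.map (algebraMap (𝓞 K) K)).map (algebraMap K L)).map (τ : L →+* L) := by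
    rw [Polynomial.map_map, Polynomial.map_map, Polynomial.map_map, Polynomial.map_map]
    congr 1
    refine RingHom.ext fun y => ?_
    exact (h0 _).symm
  rw [h1]
  exact Polynomial.eval_map_apply (τ : L →+* L) x

/-- conjugation of the characters of `ℓ`-power order -/
theorem conj_pow {ℓ a : ℕ} (hℓ : ℓ.Prime) {χ : MulChar k (𝓞 K)} (hχ : orderOf χ = ℓ ^ a)
    {j : ℕ} (hj : j ∈ Finset.Ico 1 (ℓ ^ a)) :
    ∃ e < a, ∃ σ : K ≃ₐ[ℚ] K, ∀ x : k,
      RingOfIntegers.mapRingHom ((σ : K →ₐ[ℚ] K) : K →+* K) ((χ ^ j) x) = (χ ^ ℓ ^ e) x := by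
  have hj' := Finset.mem_Ico.1 hj
  have hN : 0 < ℓ ^ a := pow_pos hℓ.pos a
  obtain ⟨e, s, hs, hje⟩ := Nat.exists_eq_pow_mul_and_not_dvd (by omega : j ≠ 0) ℓ hℓ.ne_one
  have hea : e < a := by
    by_contra h
    have h1 : ℓ ^ a ∣ j := by
      rw [hje]
      exact (pow_dvd_pow ℓ (by omega)).trans (dvd_mul_right _ _)
    exact absurd (Nat.le_of_dvd (by omega) h1) (by omega)
  have hsc : s.Coprime (ℓ ^ a) :=
    Nat.Coprime.pow_right a ((Nat.Prime.coprime_iff_not_dvd hℓ).2 hs).symm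
  obtain ⟨t, ht⟩ : ∃ t : ℕ, s * t ≡ 1 [MOD ℓ ^ a] := by
    have h1 : 1 < ℓ ^ a := by
      have h2 : a ≠ 0 := by omega
      exact Nat.one_lt_pow h2 hℓ.one_lt
    obtain ⟨t, -, h⟩ := Nat.exists_mul_mod_eq_one_of_coprime hsc h1
    exact ⟨t, by rw [Nat.ModEq, h, Nat.mod_eq_of_lt h1]⟩
  have htc : t.Coprime (ℓ ^ a) := by
    have h1 : (s * t).Coprime (ℓ ^ a) := by
      rw [Nat.Coprime, ht.gcd_eq]
      exact Nat.gcd_one_left _
    exact Nat.Coprime.coprime_mul_left h1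
  obtain ⟨g, hg⟩ := exists_root hN hχ
  have hω : IsPrimitiveRoot (algebraMap (𝓞 K) K (χ (g : k))) (ℓ ^ a) :=
    hg.map_of_injective RingOfIntegers.coe_injective
  obtain ⟨σ, hσ⟩ := exists_conj3 hN hω htc
  refine ⟨e, hea, σ, fun x => ?_⟩
  by_cases hx : x = 0
  · rw [hx, MulChar.map_zero, MulChar.map_zero, map_zero]
  · have hx' : IsUnit x := isUnit_iff_ne_zero.2 hx
    have h1 : (χ ^ j) x ^ ℓ ^ a = 1 := by
      rw [← MulChar.pow_apply' (χ ^ j) hN.ne', ← pow_mul, mul_comm, pow_mul, ← hχ,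
        pow_orderOf_eq_one, one_pow, MulChar.one_apply hx']
    have ht0 : t ≠ 0 := by
      rintro rfl
      rw [Nat.Coprime, Nat.gcd_zero_left] at htc
      omega
    rw [hσ _ h1, ← MulChar.pow_apply' (χ ^ j) ht0, ← pow_mul]
    congr 1
    rw [pow_eq_pow_iff_modEq, hχ, hje, mul_assoc]
    have h2 := ht.mul_left (ℓ ^ e)
    rwa [mul_one] at h2

/-- **The exceptional twists.** -/
theorem tower_exc {ℓ a : ℕ} (hℓ : ℓ.Prime) {χ : MulChar k (𝓞 K)} (hχ : orderOf χ = ℓ ^ a)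
    (V : ℕ → (𝓞 K)[X])
    (hgal : ∀ σ : 𝓞 K →+* 𝓞 K, ∀ j ∈ Finset.Ico 1 (ℓ ^ a), ∀ g ∈ Finset.Ico 1 (ℓ ^ a),
      (∀ x : k, σ ((χ ^ j) x) = (χ ^ g) x) → (V j).map σ = V g)
    (hV0 : ∀ j ∈ Finset.Ico 1 (ℓ ^ a), (V j).coeff 0 = 1) (Q r m : ℕ) (hr : 0 < r)
    (hm : ∀ j ∈ Finset.Ico 1 (ℓ ^ a),
      geoO Q (((V j).map (algebraMap (𝓞 K) K)).map (algebraMap K L)) ≤ m) :
    ∃ T : Finset kˣ, ℓ ^ a * T.card ≤ (Nat.card k - 1) * ((∑ i ∈ Finset.range a, ℓ ^ i) * m) ∧
      ∀ u ∉ T, ∀ j ∈ Finset.Ico 1 (ℓ ^ a), ∀ x : L,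
        (((V j).map (algebraMap (𝓞 K) K)).map (algebraMap K L)).eval x = 0 →
        algebraMap K L (algebraMap (𝓞 K) K ((χ ^ j) (u : k))) ≠ ((Q : L) * x) ^ r := by
  classical
  have := Fintype.ofFinite kˣ
  have hpow : ∀ e < a, ℓ ^ e ∈ Finset.Ico 1 (ℓ ^ a) := fun e he =>
    Finset.mem_Ico.2 ⟨pow_pos hℓ.pos e, Nat.pow_lt_pow_right hℓ.one_lt he⟩
  let Tg : ℕ → Finset kˣ := fun g => Finset.univ.filter fun u : kˣ =>
    ∃ x : L, (((V g).map (algebraMap (𝓞 K) K)).map (algebraMap K L)).eval x = 0 ∧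
      algebraMap K L (algebraMap (𝓞 K) K ((χ ^ g) (u : k))) = ((Q : L) * x) ^ r
  have hcount : ∀ e < a, (Tg (ℓ ^ e)).card * ℓ ^ (a - e) ≤ (Nat.card k - 1) * m := by
    intro e he
    have ho : orderOf (χ ^ ℓ ^ e) = ℓ ^ (a - e) := by
      rw [orderOf_pow_of_dvd (pow_ne_zero e hℓ.ne_zero) (by rw [hχ]; exact pow_dvd_pow ℓ he.le),
        hχ, Nat.pow_div he.le hℓ.pos]
    refine (exc_le (L := L) (pow_pos hℓ.pos _) ho (V (ℓ ^ e)) (hV0 _ (hpow e he)) Q r hr _ ?_).trans
      (Nat.mul_le_mul_left _ (hm _ (hpow e he)))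
    intro u hu
    exact (Finset.mem_filter.1 hu).2
  refine ⟨(Finset.range a).biUnion fun e => Tg (ℓ ^ e), ?_, ?_⟩
  · calc ℓ ^ a * ((Finset.range a).biUnion fun e => Tg (ℓ ^ e)).card
        ≤ ℓ ^ a * ∑ e ∈ Finset.range a, (Tg (ℓ ^ e)).card :=
          Nat.mul_le_mul_left _ Finset.card_biUnion_le
      _ = ∑ e ∈ Finset.range a, ℓ ^ e * ((Tg (ℓ ^ e)).card * ℓ ^ (a - e)) := by
          rw [Finset.mul_sum]
          refine Finset.sum_congr rfl fun e he => ?_
          have he' := Finset.mem_range.1 he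
          have h3 : ℓ ^ a = ℓ ^ e * ℓ ^ (a - e) := by rw [← pow_add]; congr 1; omega
          rw [h3]
          ring
      _ ≤ ∑ e ∈ Finset.range a, ℓ ^ e * ((Nat.card k - 1) * m) :=
          Finset.sum_le_sum fun e he =>
            Nat.mul_le_mul_left _ (hcount e (Finset.mem_range.1 he))
      _ = _ := by
          rw [← Finset.sum_mul]
          ring
  · intro u hu j hj x hx h
    apply hu
    obtain ⟨e, he, σ, hσ⟩ := conj_pow hℓ hχ hj
    obtain ⟨τ, hτ1, hτ2⟩ := eval_conj (L := L) σ (V j)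
    rw [Finset.mem_biUnion]
    refine ⟨e, Finset.mem_range.2 he, Finset.mem_filter.2 ⟨Finset.mem_univ _, τ x, ?_, ?_⟩⟩
    · rw [← hgal _ j hj (ℓ ^ e) (hpow e he) hσ, hτ2, hx, map_zero]
    · rw [← hσ, ← hτ1, h, map_pow, map_mul, map_natCast]

/-- **The exceptional twists of a family, times a fixed variety.** -/
theorem fam_exc {ℓ a : ℕ} [hℓ : Fact ℓ.Prime] (ha : a ≠ 0) {χ : MulChar k (𝓞 K)}
    (hχ : orderOf χ = ℓ ^ a) (B : Multiset (𝓞 K)) (hB : ∀ σ : 𝓞 K →+* 𝓞 K, B.map σ = B)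
    {L₁ L₂ : ℤ[X]} (hL₂ : L₂.coeff 0 = 1) {E : MulChar k (𝓞 K) → PowerSeries (𝓞 K)}
    (hE : Fam K L₁ L₂ E) {W₁ W₂ : ℤ[X]} (hW₁ : IsTn B L₁ W₁) (hW₂ : IsTn B L₂ W₂)
    (V : ℕ → (𝓞 K)[X]) (hV : ∀ j ∈ Finset.Ico 1 (ℓ ^ a), E (χ ^ j) = (V j : PowerSeries (𝓞 K)))
    {t : Multiset ℕ} (ht : ∀ m ∈ t, 0 < m) {H : (ZMod ℓ)[X]}
    (h₁ : W₁.map (Int.castRingHom (ZMod ℓ)) =
      W₂.map (Int.castRingHom (ZMod ℓ)) * (t.map fun m => cyclotomic m (ZMod ℓ)).prod * H)
    (hH : ∀ m : ℕ, 0 < m → ¬ ℓ ∣ m → ¬ cyclotomic m (ZMod ℓ) ∣ H) (c r : ℕ) (hr : 0 < r) :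
    (∀ j ∈ Finset.Ico 1 (ℓ ^ a), (tn B (V j)).coeff 0 = 1 ∧ geoO (Nat.card k ^ c)
      (((tn B (V j)).map (algebraMap (𝓞 K) K)).map (algebraMap K L)) ≤ (t.map Nat.totient).sum) ∧
    ∃ T : Finset kˣ, ℓ ^ a * T.card ≤
        (Nat.card k - 1) * ((∑ i ∈ Finset.range a, ℓ ^ i) * (t.map Nat.totient).sum) ∧
      ∀ u ∉ T, ∀ j ∈ Finset.Ico 1 (ℓ ^ a), ∀ x : L,
        (((tn B (V j)).map (algebraMap (𝓞 K) K)).map (algebraMap K L)).eval x = 0 →
        algebraMap K L (algebraMap (𝓞 K) K ((χ ^ j) (u : k))) ≠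
          (((Nat.card k ^ c : ℕ) : L) * x) ^ r := by
  have hd : ℓ ∣ Nat.card k - 1 := (dvd_pow_self ℓ ha).trans (by rw [← hχ]; exact card_dvd rfl)
  have hk1 : (Nat.card k : ZMod ℓ) = 1 := by
    have h1 : 1 ≤ Nat.card k := Nat.card_pos
    have h2 : ((Nat.card k - 1 : ℕ) : ZMod ℓ) = 0 := (ZMod.natCast_eq_zero_iff _ _).2 hd
    rw [Nat.cast_sub h1, Nat.cast_one, sub_eq_zero] at h2
    exact h2
  have hV0 : ∀ j ∈ Finset.Ico 1 (ℓ ^ a), (V j).coeff 0 = 1 := by
    intro j hj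
    have h1 := hE.unit (χ ^ j)
    rwa [hV j hj, ← PowerSeries.coeff_zero_eq_constantCoeff_apply, Polynomial.coeff_coe] at h1
  have hgal : ∀ σ : 𝓞 K →+* 𝓞 K, ∀ j ∈ Finset.Ico 1 (ℓ ^ a), ∀ g ∈ Finset.Ico 1 (ℓ ^ a),
      (∀ x : k, σ ((χ ^ j) x) = (χ ^ g) x) → (tn B (V j)).map σ = tn B (V g) := by
    intro σ j hj g hg h
    have h1 : (V j).map σ = V g := by
      apply Polynomial.coe_injective (𝓞 K)
      rw [Polynomial.polynomial_map_coe, ← hV j hj, hE.map σ _ _ h, hV g hg]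
    rw [tn_map, hB σ, h1]
  have hW₂0 : W₂.coeff 0 = 1 := by
    have h1 := congrArg (fun p => Polynomial.coeff p 0) hW₂
    have h2 := tn_coeff_zero B (Q := L₂.map (algebraMap ℤ (𝓞 K))) (by
      rw [Polynomial.coeff_map, hL₂, map_one])
    have h3 : algebraMap ℤ (𝓞 K) (W₂.coeff 0) = 1 := by
      rw [← Polynomial.coeff_map]
      exact h1.trans h2
    exact (RingHom.injective_int (algebraMap ℤ (𝓞 K))) (by rw [h3, map_one])
  obtain ⟨R₀, _, _, ρ₀, -⟩ := exists_hom (A := 𝓞 K) hℓ.out hd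
  have hm : ∀ j ∈ Finset.Ico 1 (ℓ ^ a), geoO (Nat.card k ^ c)
      (((tn B (V j)).map (algebraMap (𝓞 K) K)).map (algebraMap K L)) ≤
        (t.map Nat.totient).sum := by
    intro j hj
    refine count_le (ℓ := ℓ) (tn B (V j)) (tn_coeff_zero B (hV0 j hj)) hW₂0 ?_ ρ₀
      (pow_ne_zero c Nat.card_pos.ne') (by rw [Nat.cast_pow, hk1, one_pow]) ht h₁ hH L
    intro R _ _ ρ
    have h1 : (V j).map ρ * L₂.map (Int.castRingHom R) = L₁.map (Int.castRingHom R) := by
      apply Polynomial.coe_injective R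
      rw [Polynomial.coe_mul, Polynomial.polynomial_map_coe, ← hV j hj]
      refine hE.ident R ρ (χ ^ j) fun u hu => ?_
      apply eq_one_of_pow (ℓ := ℓ) (m := a)
      rw [← map_pow, ← MulChar.pow_apply' (χ ^ j) (pow_ne_zero a hℓ.out.ne_zero), ← pow_mul,
        mul_comm, pow_mul, ← hχ, pow_orderOf_eq_one, one_pow,
        MulChar.one_apply (isUnit_iff_ne_zero.2 hu), map_one]
    have h2 : ∀ {G W : ℤ[X]}, IsTn B G W → W.map (Int.castRingHom R) =
        tn (B.map ρ) (G.map (Int.castRingHom R)) := by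
      intro G W hG
      have h3 := congrArg (Polynomial.map ρ) hG
      rw [tn_map, Polynomial.map_map, Polynomial.map_map] at h3
      have h4 : ρ.comp (algebraMap ℤ (𝓞 K)) = Int.castRingHom R := RingHom.ext_int _ _
      rwa [h4] at h3
    rw [tn_map, h2 hW₂, h2 hW₁, ← tn_mul, h1]
  refine ⟨fun j hj => ⟨tn_coeff_zero B (hV0 j hj), hm j hj⟩, ?_⟩
  exact tower_exc (L := L) hℓ.out hχ (fun j => tn B (V j)) hgal
    (fun j hj => tn_coeff_zero B (hV0 j hj)) (Nat.card k ^ c) r _ hr hm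

/-- the preimage under the norm -/
theorem norm_card (k' : Type) [Field k'] [Finite k'] [Algebra k k'] (T : Finset kˣ) :
    ∃ T' : Finset k'ˣ, T'.card * (Nat.card k - 1) = T.card * (Nat.card k' - 1) ∧
      ∀ v : k'ˣ, v ∈ T' ↔ Units.map (Algebra.norm k (S := k')) v ∈ T := by
  classical
  have := Fintype.ofFinite kˣ
  have := Fintype.ofFinite k'ˣ
  set f : k'ˣ →* kˣ := Units.map (Algebra.norm k (S := k')) with hf
  have hsurj : Function.Surjective f := FiniteField.unitsMap_norm_surjective k k'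
  have hfib : ∀ u : kˣ, (Finset.univ.filter fun v : k'ˣ => f v = u).card =
      (Finset.univ.filter fun v : k'ˣ => f v = 1).card := by
    intro u
    obtain ⟨w, hw⟩ := hsurj u
    refine Finset.card_bij (fun v _ => v * w⁻¹) ?_ ?_ ?_
    · intro v hv
      rw [Finset.mem_filter] at hv ⊢
      refine ⟨Finset.mem_univ _, ?_⟩
      rw [map_mul, map_inv, hv.2, hw, mul_inv_cancel]
    · intro v _ v' _ h
      exact mul_right_cancel h
    · intro v hv
      rw [Finset.mem_filter] at hv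
      refine ⟨v * w, ?_, by rw [mul_inv_cancel_right]⟩
      rw [Finset.mem_filter]
      exact ⟨Finset.mem_univ _, by rw [map_mul, hv.2, hw, one_mul]⟩
  have hk : ∀ (F : Type) [Field F] [Finite F] [Fintype Fˣ], Fintype.card Fˣ = Nat.card F - 1 := by
    intro F _ _ _
    have := Fintype.ofFinite F
    rw [← Nat.card_eq_fintype_card, Nat.card_units]
  refine ⟨Finset.univ.filter fun v : k'ˣ => f v ∈ T, ?_, fun v => by
    rw [Finset.mem_filter]; exact ⟨fun h => h.2, fun h => ⟨Finset.mem_univ _, h⟩⟩⟩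
  have h1 : (Finset.univ.filter fun v : k'ˣ => f v ∈ T).card =
      T.card * (Finset.univ.filter fun v : k'ˣ => f v = 1).card := by
    have h3 := Finset.card_eq_sum_card_fiberwise (f := f)
      (s := Finset.univ.filter fun v : k'ˣ => f v ∈ T) (t := T)
      (by intro v hv; exact (Finset.mem_filter.1 hv).2)
    rw [h3, Finset.sum_congr rfl (g := fun _ => (Finset.univ.filter fun v : k'ˣ => f v = 1).card),
      Finset.sum_const, smul_eq_mul]
    intro u hu
    rw [← hfib u]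
    congr 1
    ext v
    simp only [Finset.mem_filter, Finset.mem_univ, true_and]
    exact ⟨fun h => h.2, fun h => ⟨by rw [h]; exact hu, h⟩⟩
  have h2 : Fintype.card k'ˣ = Fintype.card kˣ *
      (Finset.univ.filter fun v : k'ˣ => f v = 1).card := by
    have h3 := Finset.card_eq_sum_card_fiberwise (f := f)
      (s := (Finset.univ : Finset k'ˣ)) (t := (Finset.univ : Finset kˣ))
      (by intro v _; exact Finset.mem_coe.2 (Finset.mem_univ _))
    rw [← Finset.card_univ, ← Finset.card_univ (α := kˣ), h3,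
      Finset.sum_congr rfl (fun u _ => hfib u), Finset.sum_const, smul_eq_mul]
  rw [h1, ← hk k, ← hk k', h2]
  ring

end tower

end Pool.Agent.H313.GE
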